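import Pool.Agent.SmallRank.LettHw

/-!
# Letters: an alternating form exists only on the exterior powers of odd degree
-/

set_option autoImplicit false
set_option linter.unusedSectionVars false

namespace Pool.Agent.SmallRank.Lt

open Module

variable {K V : Type*} [Field K] [CharZero K] [IsAlgClosed K] [AddCommGroup V] [Module K V]
  [FiniteDimensional K V] {m : ℕ} {g : Submodule K (End K V)} {N : Fin m → End K V}
  {E : Fin m → Fin m → End K V} (L : Lt g N E)
include L

theorem NS_fix {S : Finset (Fin m)} {u : V} (h : ∀ i ∈ S, N i u = u) : L.NS S u = u := by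
  induction S using Finset.induction_on with
  | empty => rw [L.NS_empty, Module.End.one_apply]
  | insert i S hi ih =>
    rw [L.NS_insert hi, Module.End.mul_apply, ih fun j hj => h j (Finset.mem_insert_of_mem hj),
      h i (Finset.mem_insert_self _ _)]

/-- All the spaces of the subsets with `k` letters are lines. -/
theorem rk_one [Nontrivial V] {k : ℕ} (hkm : k ≤ m) (hk : ∑ i, N i = (k : K) • (1 : End K V))
    {S : Finset (Fin m)} (hS : S.card = k) : rk (L.NS S) = 1 := by
  obtain ⟨S', hS', hrk⟩ := L.rk_NS_le hkm hk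
  have h1 := L.tr_choose hk S
  have h2 := L.tr_choose hk S'
  rw [trace_idem (L.NS_idem S), hS, Nat.choose_self, Nat.cast_one, mul_one] at h1
  rw [trace_idem (L.NS_idem S'), hS', Nat.choose_self, Nat.cast_one, mul_one] at h2
  have h3 : rk (L.NS S) * m.choose k = finrank K V := by exact_mod_cast h1
  have h4 : rk (L.NS S') * m.choose k = finrank K V := by exact_mod_cast h2
  have h5 : 0 < m.choose k := Nat.choose_pos hkm
  have h6 : rk (L.NS S) = rk (L.NS S') := Nat.eq_of_mul_eq_mul_right h5 (h3.trans h4.symm)
  have h7 : 0 < finrank K V := finrank_pos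
  rcases Nat.eq_zero_or_pos (rk (L.NS S)) with h8 | h8
  · rw [h8, zero_mul] at h3
    omega
  · omega

/-- The parity. -/
theorem odd [Nontrivial V] {ψ : V →ₗ[K] V →ₗ[K] K} (halt : ∀ x, ψ x x = 0)
    (hnd : ∀ x, (∀ y, ψ x y = 0) → x = 0)
    (hN : ∀ i u v, ψ (N i u) v + ψ u (N i v) = ψ u v)
    (hE : ∀ i j, i ≠ j → ∀ u v, ψ (E i j u) v + ψ u (E i j v) = 0)
    {k : ℕ} (hkm : k ≤ m) (hk : ∑ i, N i = (k : K) • (1 : End K V))
    {lo hi : Fin k → Fin m} (hlo : Function.Injective lo) (hhi : Function.Injective hi)
    (hdis : ∀ a b, lo a ≠ hi b) : Odd k := by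
  classical
  have hsw : ∀ u v, ψ u v = -ψ v u := by
    intro u v
    have h := halt (u + v)
    simp only [map_add, LinearMap.add_apply, halt, zero_add, add_zero] at h
    exact eq_neg_of_add_eq_zero_right h
  -- the commuting operators
  set F : Fin k → End K V := fun a => E (hi a) (lo a) with hF
  set F' : Fin k → End K V := fun a => E (lo a) (hi a) with hF'
  have hFc : ∀ a b, a ≠ b → F a * F b = F b * F a := fun a b hab =>
    L.cE _ _ _ _ (hdis a a).symm (hdis b b).symm (hdis a b) (hdis b a).symm
  have hFc' : ∀ a b, a ≠ b → F' a * F' b = F' b * F' a := fun a b hab =>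
    L.cE _ _ _ _ (hdis a a) (hdis b b) (hdis b a).symm (hdis a b)
  have hFF : ∀ a b, a ≠ b → F' a * F b = F b * F' a := fun a b hab =>
    L.cE _ _ _ _ (hdis a a) (hdis b b).symm (fun h => hab (hhi h)) (fun h => hab (hlo h))
  have pF : ∀ T : Finset (Fin k), (T : Set (Fin k)).Pairwise (Function.onFun Commute F) :=
    fun T a _ b _ hab => hFc a b hab
  have pF' : ∀ T : Finset (Fin k), (T : Set (Fin k)).Pairwise (Function.onFun Commute F') :=
    fun T a _ b _ hab => hFc' a b hab
  -- the adjoint
  have hadj : ∀ (T : Finset (Fin k)) (u v : V),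
      ψ (T.noncommProd F (pF T) u) v = (-1 : K) ^ T.card * ψ u (T.noncommProd F (pF T) v) := by
    intro T
    induction T using Finset.induction_on with
    | empty => intro u v; simp
    | insert a T ha ih =>
      intro u v
      have hc : T.noncommProd F (pF T) * F a = F a * T.noncommProd F (pF T) := by
        have h1 := Finset.noncommProd_commute T F (pF T) (F a) fun b hb =>
          hFc a b fun h => ha (h ▸ hb)
        exact h1.symm
      rw [Finset.noncommProd_insert_of_notMem _ _ _ _ ha, Module.End.mul_apply,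
        Finset.card_insert_of_notMem ha]
      have h2 := hE (hi a) (lo a) (hdis a a).symm (T.noncommProd F (pF T) u) v
      have h3 : ψ (F a (T.noncommProd F (pF T) u)) v = -ψ (T.noncommProd F (pF T) u) (F a v) :=
        eq_neg_of_add_eq_zero_left h2
      rw [h3, ih, pow_succ, ← hc, Module.End.mul_apply]
      ring
  -- a vector
  set S : Finset (Fin m) := Finset.univ.image lo with hS
  set S' : Finset (Fin m) := Finset.univ.image hi with hS'
  have hSc : S.card = k := by
    rw [hS, Finset.card_image_of_injective _ hlo, Finset.card_univ, Fintype.card_fin]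
  have hSc' : S'.card = k := by
    rw [hS', Finset.card_image_of_injective _ hhi, Finset.card_univ, Fintype.card_fin]
  have h1 := L.rk_one hkm hk hSc
  obtain ⟨v₀, hv₀⟩ : ∃ v₀, L.NS S v₀ ≠ 0 := by
    by_contra hn
    push Not at hn
    have h2 : L.NS S = 0 := LinearMap.ext hn
    rw [rk_eq_zero.2 h2] at h1
    exact zero_ne_one h1
  set v : V := L.NS S v₀ with hv
  have hNlo : ∀ a, N (lo a) v = v := by
    intro a
    rw [hv, ← Module.End.mul_apply, L.N_NS (Finset.mem_image_of_mem lo (Finset.mem_univ a))]
  have hNhi : ∀ a, N (hi a) v = 0 := by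
    intro a
    rw [hv, ← Module.End.mul_apply, L.N_NS_zero hk hSc, LinearMap.zero_apply]
    intro h
    obtain ⟨b, -, hb⟩ := Finset.mem_image.1 h
    exact hdis b a hb
  -- the image of the vector
  have hinv : ∀ T : Finset (Fin k),
      (T.noncommProd F' (pF' T)) (T.noncommProd F (pF T) v) = v := by
    intro T
    induction T using Finset.induction_on with
    | empty => simp
    | insert a T ha ih =>
      have hc : T.noncommProd F' (pF' T) * F a = F a * T.noncommProd F' (pF' T) := by
        have h1 := Finset.noncommProd_commute T F' (pF' T) (F a) fun b hb =>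
          (hFF b a fun h => ha (h ▸ hb)).symm
        exact h1.symm
      rw [Finset.noncommProd_insert_of_notMem _ _ _ _ ha,
        Finset.noncommProd_insert_of_notMem _ _ _ _ ha]
      have h2 : (F' a * T.noncommProd F' (pF' T)) ((F a * T.noncommProd F (pF T)) v) =
          (F' a * F a) ((T.noncommProd F' (pF' T)) (T.noncommProd F (pF T) v)) := by
        rw [← Module.End.mul_apply, ← Module.End.mul_apply (T.noncommProd F' (pF' T)),
          ← Module.End.mul_apply (F' a * F a), mul_assoc, ← mul_assoc (T.noncommProd F' (pF' T)),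
          hc]
        simp only [mul_assoc]
      rw [h2, ih, hF, hF', L.EE _ _ (hdis a a), LinearMap.sub_apply, Module.End.mul_apply, hNlo,
        hNhi, map_zero, sub_zero]
  set w : V := Finset.univ.noncommProd F (pF Finset.univ) v with hw
  have hw0 : w ≠ 0 := by
    intro h0
    have h2 := hinv Finset.univ
    rw [← hw, h0, map_zero] at h2
    exact hv₀ (hv ▸ h2.symm)
  have hNw : ∀ a, N (hi a) w = w := by
    intro a
    have h2 : Finset.univ.noncommProd F (pF Finset.univ) =
        F a * (Finset.univ.erase a).noncommProd F (pF (Finset.univ.erase a)) := by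
      have h3 := Finset.noncommProd_insert_of_notMem (Finset.univ.erase a) a F
        (pF (insert a (Finset.univ.erase a))) (Finset.notMem_erase a _)
      rw [← h3]
      congr 1
      exact (Finset.insert_erase (Finset.mem_univ a)).symm
    rw [hw, h2, ← Module.End.mul_apply, ← mul_assoc, L.NE _ _ (hdis a a).symm]
  have hNSw : L.NS S' w = w := by
    refine L.NS_fix fun i hi' => ?_
    obtain ⟨a, -, rfl⟩ := Finset.mem_image.1 hi'
    exact hNw a
  -- the pairing with `v` factors through `S'`
  have hpair : ∀ T : Finset (Fin m), T ⊆ S' → ∀ u, ψ v (L.NS T u) = ψ v u := by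
    intro T
    induction T using Finset.induction_on with
    | empty => intro _ u; rw [L.NS_empty, Module.End.one_apply]
    | insert i T hi' ih =>
      intro hT u
      obtain ⟨a, -, ha⟩ := Finset.mem_image.1 (hT (Finset.mem_insert_self i T))
      have h2 := hN i v (L.NS T u)
      rw [← ha, hNhi, map_zero, LinearMap.zero_apply, zero_add] at h2
      rw [L.NS_insert hi', Module.End.mul_apply, ← ha, h2,
        ih fun j hj => hT (Finset.mem_insert_of_mem hj)]
  obtain ⟨u, hu⟩ : ∃ u, ψ v u ≠ 0 := by
    by_contra hn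
    push Not at hn
    exact hv₀ (hnd v hn)
  have hvw : ψ v w ≠ 0 := by
    intro h0
    have h2 := L.rk_one hkm hk hSc'
    obtain ⟨κ, hκ⟩ : ∃ κ : K, κ • w = L.NS S' u := by
      have h3 : w ∈ LinearMap.range (L.NS S') := ⟨w, hNSw⟩
      have h4 : L.NS S' u ∈ LinearMap.range (L.NS S') := ⟨u, rfl⟩
      obtain ⟨κ, hκ⟩ := (finrank_eq_one_iff_of_nonzero' (⟨w, h3⟩ : LinearMap.range (L.NS S'))
        (fun h => hw0 (congrArg Subtype.val h))).1 h2 ⟨_, h4⟩
      exact ⟨κ, congrArg Subtype.val hκ⟩
    rw [← hpair S' le_rfl u, ← hκ, map_smul, h0, smul_zero] at hu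
    exact hu rfl
  have h2 := hadj Finset.univ v v
  rw [← hw, Finset.card_univ, Fintype.card_fin, hsw w v] at h2
  by_contra hodd
  rw [Nat.not_odd_iff_even] at hodd
  rw [hodd.neg_one_pow, one_mul] at h2
  have h3 : ψ v w = 0 := by
    have h4 : (2 : K) * ψ v w = 0 := by linear_combination -h2
    exact (mul_eq_zero.1 h4).resolve_left two_ne_zero
  exact hvw h3

end Pool.Agent.SmallRank.Lt
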