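import Pool.Agent.SmallRank.ProjL
import Pool.Agent.SmallRank.LettOdd
import Pool.Agent.Tube.Main

/-!
# The simple case: the dimensions of the exceptions
-/

set_option autoImplicit false
set_option linter.unusedSectionVars false

namespace Pool.Agent.SmallRank

open Module
open Pool.Agent.OddRank (mm skew_mem)
open Pool.Agent.Tube (GD)

variable {K V : Type*} [Field K] [CharZero K] [IsAlgClosed K] [AddCommGroup V] [Module K V]
  [FiniteDimensional K V] {g : Submodule K (End K V)} {e : End K V}

/-- The kernel and the range of an idempotent of multiplier one have the same dimension. -/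
theorem rk_compl_le {ψ : V →ₗ[K] V →ₗ[K] K} (hnd : ∀ x, (∀ y, ψ x y = 0) → x = 0)
    (hee : e * e = e) (hmult : ∀ u v, ψ (e u) v + ψ u (e v) = ψ u v) : rk (1 - e) ≤ rk e := by
  let T : LinearMap.range (1 - e) →ₗ[K] Dual K (LinearMap.range e) :=
    { toFun := fun w => (ψ (w : V)).comp (LinearMap.range e).subtype
      map_add' := fun a b => by
        ext u
        simp
      map_smul' := fun c a => by
        ext u
        simp }
  have hT : Function.Injective T := by
    rw [injective_iff_map_eq_zero]
    rintro ⟨w, u, rfl⟩ hw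
    refine Subtype.ext (hnd _ fun v => ?_)
    have h1 : ψ ((1 - e) u) (e v) = 0 :=
      congrArg (fun t => t (⟨e v, v, rfl⟩ : LinearMap.range e)) hw
    have h2 := hmult ((1 - e) u) v
    have h3 : e ((1 - e) u) = 0 := by
      rw [← Module.End.mul_apply, mul_sub, mul_one, hee, sub_self, LinearMap.zero_apply]
    rw [h3, map_zero, LinearMap.zero_apply, zero_add, h1] at h2
    exact h2.symm
  have h := LinearMap.finrank_le_finrank_of_injective hT
  rwa [Subspace.dual_finrank_eq] at h

theorem two_rk {ψ : V →ₗ[K] V →ₗ[K] K} (hnd : ∀ x, (∀ y, ψ x y = 0) → x = 0)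
    (hee : e * e = e) (hmult : ∀ u v, ψ (e u) v + ψ u (e v) = ψ u v) :
    2 * rk e = finrank K V := by
  have h1 := rk_compl_le hnd hee hmult
  have h2 := rk_compl_le (e := 1 - e) hnd
    (by rw [mul_sub, mul_one, sub_mul, one_mul, hee, sub_self, sub_zero])
    (fun u v => by
      have := hmult u v
      simp only [LinearMap.sub_apply, Module.End.one_apply, map_sub]
      linear_combination -this)
  rw [sub_sub_cancel] at h2
  have h3 := rk_compl hee
  omega

/-- If there is an element of weight zero and no element of small rank then the sum with `c` is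
invertible. -/
theorem Pr.inj_of_zero {c f : End K V} {ρ : ℕ} (B : Pr g e c f ρ) (hbal : 2 * rk e = finrank K V)
    (hρ : finrank K V ≤ 4 * ρ) {x : End K V} (hx : x ∈ up g e) (hx0 : x ≠ 0) (hfx : f * x = 0)
    (hxf : x * f = 0) {v : V} (hv : e v = 0) (hcv : (c + x) v = 0) : v = 0 := by
  have h1 : LinearMap.range c ⊔ LinearMap.range x ≤ LinearMap.range (c + x) := by
    refine sup_le ?_ ?_
    · rintro _ ⟨u, rfl⟩
      refine ⟨(f * c) u, ?_⟩
      have h2 : (c + x) * (f * c) = c := by
        rw [add_mul, ← mul_assoc, B.cfc, ← mul_assoc, hxf, zero_mul, add_zero]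
      rw [← Module.End.mul_apply, h2]
    · rintro _ ⟨u, rfl⟩
      refine ⟨(1 - f * c) u, ?_⟩
      have h2 : (c + x) * (1 - f * c) = x := by
        rw [add_mul, mul_sub, mul_sub, ← mul_assoc, B.cfc, ← mul_assoc, hxf, zero_mul, mul_one,
          mul_one, sub_self, zero_add, sub_zero]
      rw [← Module.End.mul_apply, h2]
  have h2 : Disjoint (LinearMap.range c) (LinearMap.range x) := by
    rw [Submodule.disjoint_def]
    rintro u ⟨a, rfl⟩ ⟨b, hb⟩
    have h3 : (c * f) (c a) = 0 := by
      rw [← hb, ← Module.End.mul_apply, mul_assoc, hfx, mul_zero, LinearMap.zero_apply]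
    rw [← Module.End.mul_apply, B.cfc] at h3
    exact h3
  have h3 : 2 * ρ ≤ rk (c + x) := by
    have h4 := Submodule.finrank_mono h1
    have h5 := Submodule.finrank_sup_add_finrank_inf_eq (LinearMap.range c) (LinearMap.range x)
    rw [h2.eq_bot, finrank_bot, add_zero] at h5
    have h6 := B.min x hx hx0
    have h7 := B.rkc
    change finrank K (LinearMap.range c) = ρ at h7
    change ρ ≤ finrank K (LinearMap.range x) at h6
    change 2 * ρ ≤ finrank K (LinearMap.range (c + x))
    omega
  have h4 : LinearMap.range e ≤ LinearMap.ker (c + x) := by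
    rintro _ ⟨u, rfl⟩
    rw [LinearMap.mem_ker, ← Module.End.mul_apply, add_mul, B.ce, hx.2.2, add_zero,
      LinearMap.zero_apply]
  have h5 := LinearMap.finrank_range_add_finrank_ker (c + x)
  have h6 : LinearMap.range e = LinearMap.ker (c + x) := by
    refine Submodule.eq_of_le_of_finrank_le h4 ?_
    change finrank K (LinearMap.ker (c + x)) ≤ rk e
    have h7 : finrank K (LinearMap.range (c + x)) = rk (c + x) := rfl
    omega
  have h7 : v ∈ LinearMap.range e := by
    rw [h6]
    exact hcv
  obtain ⟨u, rfl⟩ := h7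
  rw [← Module.End.mul_apply, B.G.idem] at hv
  exact hv

/-- **The simple symplectic case**: `g` contains all skew operators unless the dimension is a power
of two, at least `32`, or a middle binomial coefficient `(2 k).choose k` with `k ≥ 3` odd. -/
theorem skew_of_simple (G : Gr g e) {ψ : V →ₗ[K] V →ₗ[K] K} (halt : ∀ x, ψ x x = 0)
    (hnd : ∀ x, (∀ y, ψ x y = 0) → x = 0)
    (hgsp : ∀ x ∈ g, ∃ κ : K, ∀ u v, ψ (x u) v + ψ u (x v) = κ * ψ u v)
    (hmult : ∀ u v, ψ (e u) v + ψ u (e v) = ψ u v)
    (hpow : ∀ m, 5 ≤ m → finrank K V ≠ 2 ^ m)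
    (hbin : ∀ k, Odd k → 3 ≤ k → finrank K V ≠ (2 * k).choose k)
    {D : End K V} (hD : ∀ u v, ψ (D u) v + ψ u (D v) = 0) : D ∈ g := by
  classical
  have := G.nontrivial
  have hbal := two_rk hnd G.idem hmult
  -- an element of minimal rank
  obtain ⟨z, hz, hz0⟩ := exists_up G
  have hex : ∃ n, ∃ y ∈ up g e, y ≠ 0 ∧ rk y = n := ⟨_, z, hz, hz0, rfl⟩
  obtain ⟨c, hc, hc0, hcr⟩ := Nat.find_spec hex
  set ρ := Nat.find hex with hρ
  have hmin : ∀ x ∈ up g e, x ≠ 0 → ρ ≤ rk x := fun x hx hx0 =>
    Nat.find_min' hex ⟨x, hx, hx0, rfl⟩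
  obtain ⟨f, B⟩ := exists_pair G hmin hc hc0 hcr
  by_cases h0 : ∀ x ∈ up g e, f * x = 0 → x * f = 0 → x = 0
  · -- the projective case
    obtain ⟨M, x, y, P⟩ := B.exists_pb h0
    obtain ⟨k, hM, hn, hs⟩ := P.finrank_eq hbal
    have hskew : ∀ a ∈ g, ∀ b ∈ g, ∀ u v,
        ψ ((a * b - b * a) u) v + ψ u ((a * b - b * a) v) = 0 := by
      intro a ha b hb u v
      obtain ⟨α, hα⟩ := hgsp a ha
      obtain ⟨β, hβ⟩ := hgsp b hb
      exact skew_comm hα hβ u v
    have hk : Odd k := by
      refine P.lt.odd halt hnd ?_ ?_ (by omega) hs (lo := fun a => ⟨a, by omega⟩)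
        (hi := fun a => ⟨a + k, by omega⟩) ?_ ?_ ?_
      · intro i u v
        obtain ⟨a, ha, b, hb, hab⟩ := P.nn_comm i
        have h1 := hskew a ha b hb u v
        have h2 := hmult u v
        rw [hab]
        simp only [LinearMap.add_apply, LinearMap.sub_apply, Module.End.one_apply, map_add,
          map_sub] at h1 ⊢
        linear_combination h1 - h2
      · intro i j hij u v
        obtain ⟨a, ha, b, hb, hab⟩ := P.ee_comm i j hij
        rw [hab]
        exact hskew a ha b hb u v
      · intro a b hab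
        simpa [Fin.ext_iff] using hab
      · intro a b hab
        simpa [Fin.ext_iff] using hab
      · intro a b hab
        have h1 : (a : ℕ) = b + k := by simpa [Fin.ext_iff] using hab
        have h2 := a.2
        omega
    by_cases hk3 : 3 ≤ k
    · exact absurd hn (hbin k hk hk3)
    · have hk1 : k = 1 := by
        obtain ⟨j, hj⟩ := hk
        omega
      rw [hk1] at hn
      have hn2 : finrank K V = 2 := by
        rw [hn]
        decide
      have hrc : rk c = 1 := by
        have h1 : rk c ≤ rk e := by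
          have h2 := rk_mul_left e c
          rwa [hc.2.1] at h2
        have h2 := rk_pos hc0
        omega
      exact skew_mem halt hnd (mm_mem G halt hnd hgsp hmult hc.1 (Gr.up_mul_up hc hc)
        (Or.inl hrc)) hD
  · push Not at h0
    obtain ⟨x, hx, hfx, hxf, hx0⟩ := h0
    by_cases hlt : 4 * ρ < finrank K V
    · -- an element of small rank
      have hns : ∀ κ : K, c ≠ κ • 1 := by
        intro κ hκ
        have h1 : c * c = 0 := Gr.up_mul_up hc hc
        rw [hκ, smul_mul_smul_comm, one_mul] at h1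
        rcases smul_eq_zero.1 h1 with h2 | h2
        · rcases mul_self_eq_zero.1 h2 with rfl
          exact hc0 (by rw [hκ, zero_smul])
        · exact one_ne_zero h2
      refine skew_of_small G halt hnd hgsp hmult hc.1 hns ?_ hD
      have h1 := G.rk_add
      have h2 : rk (1 - e) = rk e := by omega
      have h3 : 0 < rk e := G.rk_e_pos
      rw [h2, hcr, ← hbal]
      have h4 : 4 * ρ < 2 * rk e := by rw [hbal]; exact hlt
      nlinarith
    · -- tube type
      have H : GD ψ g e := ⟨halt, hnd, G.lie, hgsp, G.idem, hmult,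
        fun a ha => G.lie e G.mem a ha⟩
      have hcx : c + x ∈ up g e := (up g e).add_mem hc hx
      refine H.skew_mem_of_tube (x := c + x) ⟨hcx.1, hcx.2.1, hcx.2.2⟩
        (fun v hv hcv => B.inj_of_zero hbal (by omega) hx hx0 hfx hxf hv hcv) ?_ hpow hD
      intro W h1 h2
      exact G.irr_ud (fun a ha w hw => h1 a ⟨ha.1, ha.2.1, ha.2.2⟩ w hw)
        (fun a ha w hw => h2 a ⟨ha.1, ha.2.1, ha.2.2⟩ w hw)

end Pool.Agent.SmallRank
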