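import Pool.Agent.SmallRank.Rat
import Pool.Agent.SmallRank.Full
import Pool.Agent.NumRank.Split

/-!
# A rational Lie algebra with local monodromy is symplectic
-/

set_option autoImplicit false
set_option linter.unusedSectionVars false

namespace Pool.Agent.SmallRank

open Module
open Pool.Agent.FQ
open Pool.Agent.CoprimeSig (ratM)

variable {ι : Type} [Fintype ι] [DecidableEq ι]

private theorem ratM_mul' (A B : Matrix ι ι ℚ) : ratM (A * B) = ratM A * ratM B := by
  change (A * B).map (Rat.castHom ℂ) = A.map (Rat.castHom ℂ) * B.map (Rat.castHom ℂ)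
  exact Matrix.map_mul

private theorem ratM_add' (A B : Matrix ι ι ℚ) : ratM (A + B) = ratM A + ratM B := by
  change (A + B).map (Rat.castHom ℂ) = A.map (Rat.castHom ℂ) + B.map (Rat.castHom ℂ)
  exact Matrix.map_add _ (map_add _) _ _

private theorem ratM_one' : ratM (1 : Matrix ι ι ℚ) = 1 := by
  change (1 : Matrix ι ι ℚ).map (Rat.castHom ℂ) = 1
  exact Matrix.map_one _ (map_zero _) (map_one _)

private theorem ratM_zero' : ratM (0 : Matrix ι ι ℚ) = 0 := by
  change (0 : Matrix ι ι ℚ).map (Rat.castHom ℂ) = 0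
  exact Matrix.map_zero _ (map_zero _)

private theorem ratM_neg' (A : Matrix ι ι ℚ) : ratM (-A) = -ratM A := by
  change (-A).map (Rat.castHom ℂ) = -A.map (Rat.castHom ℂ)
  exact Matrix.map_neg _ (map_neg _) _

/-- The form with the matrix `F`. -/
noncomputable def form (F : Matrix ι ι ℚ) : (ι → ℂ) →ₗ[ℂ] (ι → ℂ) →ₗ[ℂ] ℂ :=
  Matrix.toLinearMap₂' ℂ (ratM F)

variable {F : Matrix ι ι ℚ} {h : Submodule ℚ (Matrix ι ι ℚ)}

theorem form_apply (u v : ι → ℂ) : form F u v = dotProduct u ((ratM F).mulVec v) :=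
  Matrix.toLinearMap₂'_apply' _ _ _

theorem form_toLin (A : Matrix ι ι ℂ) (u v : ι → ℂ) :
    form F (Matrix.toLin' A u) v + form F u (Matrix.toLin' A v) =
      dotProduct u ((A.transpose * ratM F + ratM F * A).mulVec v) := by
  rw [form_apply, form_apply, Matrix.toLin'_apply, Matrix.toLin'_apply, Matrix.add_mulVec,
    dotProduct_add, ← Matrix.mulVec_mulVec, ← Matrix.mulVec_mulVec, Matrix.dotProduct_mulVec u
      A.transpose, Matrix.vecMul_transpose]

theorem form_alt (hF : F.transpose = -F) (x : ι → ℂ) : form F x x = 0 := by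
  have h1 : (ratM F).transpose = -ratM F := by
    have h2 : (ratM F).transpose = ratM F.transpose := rfl
    rw [h2, hF, ratM_neg']
  have h3 : form F x x = -form F x x := by
    conv_lhs => rw [form_apply, Matrix.dotProduct_mulVec, ← Matrix.mulVec_transpose, h1,
      Matrix.neg_mulVec, neg_dotProduct, dotProduct_comm]
    rw [form_apply]
  exact self_eq_neg.1 h3

theorem form_nondeg (hF : IsUnit F) (x : ι → ℂ) (hx : ∀ y, form F x y = 0) : x = 0 := by
  have h1 : ratM F * ratM F⁻¹ = 1 := by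
    rw [← ratM_mul', Matrix.mul_nonsing_inv F ((Matrix.isUnit_iff_isUnit_det F).1 hF), ratM_one']
  funext i
  have h4 := hx ((ratM F⁻¹).mulVec (Pi.single i 1))
  rw [form_apply, Matrix.mulVec_mulVec, h1, Matrix.one_mulVec, dotProduct_single_one] at h4
  exact h4

/-- **A Lie algebra of skew operators such that the ideal generated by `2 e - 1` is everything.** -/
theorem gr_of_idl {K V : Type*} [Field K] [CharZero K] [IsAlgClosed K] [AddCommGroup V]
    [Module K V] [FiniteDimensional K V] [Nontrivial V] {H : Submodule K (End K V)}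
    (hlie : ∀ x ∈ H, ∀ y ∈ H, x * y - y * x ∈ H)
    (htr : ∀ x ∈ H, LinearMap.trace K V x = 0)
    (hirr : ∀ W : Submodule K V, (∀ x ∈ H, ∀ w ∈ W, x w ∈ W) → W = ⊥ ∨ W = ⊤)
    {e : End K V} (hee : e * e = e) (he : (2 : K) • e - 1 ∈ H)
    (hsimple : ∀ s : Submodule K (End K V), s ≤ H → (∀ x ∈ H, ∀ y ∈ s, x * y - y * x ∈ s) →
      (2 : K) • e - 1 ∈ s → s = H) : Gr (H ⊔ Submodule.span K {1}) e ∧
      2 * rk e = finrank K V ∧ ∀ x ∈ H ⊔ Submodule.span K {1}, LinearMap.trace K V x = 0 →
        x ∈ H := by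
  have hn : (finrank K V : K) ≠ 0 := by
    rw [Nat.cast_ne_zero]
    exact finrank_pos.ne'
  have hmem : ∀ x, x ∈ H ⊔ Submodule.span K {(1 : End K V)} ↔ ∃ a ∈ H, ∃ c : K, x = a + c • 1 := by
    intro x
    rw [Submodule.mem_sup]
    constructor
    · rintro ⟨a, ha, b, hb, rfl⟩
      obtain ⟨c, rfl⟩ := Submodule.mem_span_singleton.1 hb
      exact ⟨a, ha, c, rfl⟩
    · rintro ⟨a, ha, c, rfl⟩
      exact ⟨a, ha, c • 1, Submodule.smul_mem _ c (Submodule.mem_span_singleton_self _), rfl⟩
  have hHg : H ≤ H ⊔ Submodule.span K {(1 : End K V)} := le_sup_left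
  have h1g : (1 : End K V) ∈ H ⊔ Submodule.span K {(1 : End K V)} :=
    (le_sup_right : Submodule.span K {(1 : End K V)} ≤ _) (Submodule.mem_span_singleton_self _)
  have hglie : ∀ a ∈ H ⊔ Submodule.span K {(1 : End K V)},
      ∀ b ∈ H ⊔ Submodule.span K {(1 : End K V)}, a * b - b * a ∈ H := by
    intro a ha b hb
    obtain ⟨a', ha', c, rfl⟩ := (hmem a).1 ha
    obtain ⟨b', hb', d, rfl⟩ := (hmem b).1 hb
    have h1 : (a' + c • 1) * (b' + d • 1) - (b' + d • 1) * (a' + c • 1) = a' * b' - b' * a' := by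
      simp only [mul_add, add_mul, mul_smul_comm, smul_mul_assoc, mul_one, one_mul, smul_add]
      rw [smul_comm d c]
      abel
    rw [h1]
    exact hlie a' ha' b' hb'
  have htr0 : ∀ x ∈ H ⊔ Submodule.span K {(1 : End K V)}, LinearMap.trace K V x = 0 → x ∈ H := by
    intro x hx hx0
    obtain ⟨a, ha, c, rfl⟩ := (hmem x).1 hx
    rw [map_add, htr a ha, zero_add, map_smul, LinearMap.trace_one, smul_eq_mul] at hx0
    rcases mul_eq_zero.1 hx0 with h1 | h1
    · rw [h1, zero_smul, add_zero]
      exact ha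
    · exact absurd h1 hn
  have htre : (2 : K) * (rk e : K) = (finrank K V : K) := by
    have h1 := htr _ he
    rw [map_sub, map_smul, LinearMap.trace_one, trace_idem hee, smul_eq_mul, sub_eq_zero] at h1
    exact h1
  have hrk : 2 * rk e = finrank K V := by exact_mod_cast htre
  have hirr' : ∀ W : Submodule K V,
      (∀ x ∈ H ⊔ Submodule.span K {(1 : End K V)}, ∀ w ∈ W, x w ∈ W) → W = ⊥ ∨ W = ⊤ :=
    fun W hW => hirr W fun x hx => hW x (hHg hx)
  have heg : e ∈ H ⊔ Submodule.span K {(1 : End K V)} := by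
    refine (hmem e).2 ⟨(2⁻¹ : K) • ((2 : K) • e - 1), H.smul_mem _ he, 2⁻¹, ?_⟩
    rw [smul_sub, smul_smul, inv_mul_cancel₀ two_ne_zero, one_smul, sub_add_cancel]
  refine ⟨⟨fun a ha b hb => hHg (hglie a ha b hb), hirr', h1g, heg, hee, ?_, ?_, ?_⟩, hrk, htr0⟩
  · intro h0
    rw [h0, rk, LinearMap.range_zero, finrank_bot, mul_zero] at hrk
    exact finrank_pos.ne hrk
  · intro h0
    rw [h0, rk_one] at hrk
    have h1 : 0 < finrank K V := finrank_pos
    omega
  · intro s hsg hs htrs hs0 x hx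
    have hsH : s ≤ H := fun z hz => htr0 z (hsg hz) (htrs z hz)
    have key : s = H := by
      rcases NumRank.comm_split' (fun a ha b hb => hHg (hglie a ha b hb)) hirr' hsg hs htrs heg
        hee with ⟨c, hc⟩ | hc
      · refine hsimple s hsH (fun y hy z hz => hs y (hHg hy) z hz) ?_
        have h1 := htrs _ hc
        rw [map_sub, map_smul, LinearMap.trace_one, trace_idem hee, smul_eq_mul, sub_eq_zero] at h1
        have h2 : (2 : K) * c = 1 := by
          have h3 : (2 * c - 1) * (finrank K V : K) = 0 := by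
            linear_combination (-2 : K) * h1 + htre
          rcases mul_eq_zero.1 h3 with h4 | h4
          · exact sub_eq_zero.1 h4
          · exact absurd h4 hn
        have h3 : (2 : K) • e - 1 = (2 : K) • (e - c • 1) := by
          rw [smul_sub, smul_smul, h2, one_smul]
        rw [h3]
        exact s.smul_mem _ hc
      · exfalso
        -- the elements of `H` commuting with `s`
        let t : Submodule K (End K V) :=
          { carrier := {z | z ∈ H ∧ ∀ y ∈ s, z * y = y * z}
            add_mem' := fun {a b} ha hb => ⟨H.add_mem ha.1 hb.1, fun y hy => by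
              rw [add_mul, mul_add, ha.2 y hy, hb.2 y hy]⟩
            zero_mem' := ⟨H.zero_mem, fun y _ => by rw [zero_mul, mul_zero]⟩
            smul_mem' := fun c a ha => ⟨H.smul_mem c ha.1, fun y hy => by
              rw [smul_mul_assoc, mul_smul_comm, ha.2 y hy]⟩ }
        have ht : t = H := by
          refine hsimple t (fun z hz => hz.1) ?_ ⟨he, fun y hy => ?_⟩
          · intro w hw z hz
            refine ⟨hlie w hw z hz.1, fun y hy => ?_⟩
            have h1 : z * y = y * z := hz.2 y hy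
            have h2 : z * (w * y - y * w) = (w * y - y * w) * z := hz.2 _ (hs w (hHg hw) y hy)
            have h3 : (w * z - z * w) * y - y * (w * z - z * w) =
                w * (z * y - y * z) - (z * y - y * z) * w -
                  (z * (w * y - y * w) - (w * y - y * w) * z) := by noncomm_ring
            rw [← sub_eq_zero, h3, sub_eq_zero.2 h1, sub_eq_zero.2 h2, mul_zero, zero_mul,
              sub_zero, sub_zero]
          · rw [sub_mul, mul_sub, smul_mul_assoc, mul_smul_comm, hc y hy, one_mul, mul_one]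
        refine hs0 ((Submodule.eq_bot_iff _).2 fun z hz => ?_)
        obtain ⟨c, hcz⟩ := PrimePow.schur_irr hirr z fun w hw => by
          have h1 : w ∈ t := by rw [ht]; exact hw
          exact (h1.2 z hz).symm
        have h1 := htrs z hz
        rw [hcz, map_smul, LinearMap.trace_one, smul_eq_mul] at h1
        rcases mul_eq_zero.1 h1 with h2 | h2
        · rw [hcz, h2, zero_smul]
        · exact absurd h2 hn
    rw [key]
    exact (hmem x).1 hx

/-- **The simple case.** If `cx h` is simple then `h` consists of all skew matrices, if it contains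
over `ℂ` a nonzero matrix whose rank is less than a quarter of the dimension, or if the dimension is
neither a power of two, at least `32`, nor a middle binomial coefficient `(2 k).choose k` with
`k ≥ 3` odd. -/
theorem full_of_idl (D : LieData F h) {e : Matrix ι ι ℂ} (he : IsCochar h e)
    (hidl : idl (cx h) e = cx h)
    (hn : (∃ N ∈ cx h, N ≠ 0 ∧ 4 * N.rank < Fintype.card ι) ∨
      ((∀ m, 5 ≤ m → Fintype.card ι ≠ 2 ^ m) ∧
        ∀ k, Odd k → 3 ≤ k → Fintype.card ι ≠ (2 * k).choose k))
    (A : Matrix ι ι ℚ) : A ∈ h ↔ A.transpose * F + F * A = 0 := by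
  refine ⟨D.skew A, fun hA => ?_⟩
  rcases isEmpty_or_nonempty ι with hι | hι
  · have h1 : A = 0 := Matrix.ext fun i => (hι.false i).elim
    rw [h1]
    exact h.zero_mem
  rw [← ratM_mem_cx]
  set φ : Matrix ι ι ℂ →ₐ[ℂ] End ℂ (ι → ℂ) :=
    (Matrix.toLinAlgEquiv' : Matrix ι ι ℂ ≃ₐ[ℂ] End ℂ (ι → ℂ)).toAlgHom with hφ
  have hinj : Function.Injective φ := Matrix.toLinAlgEquiv'.injective
  have hφ' : ∀ A, φ A = Matrix.toLin' A := fun A => rfl
  set g : Submodule ℂ (End ℂ (ι → ℂ)) := (cx h).map φ.toLinearMap with hg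
  have hmem : ∀ A : Matrix ι ι ℂ, φ A ∈ g ↔ A ∈ cx h := by
    intro A
    constructor
    · rintro ⟨B, hB, hBA⟩
      rw [← hinj hBA]
      exact hB
    · intro hA
      exact ⟨A, hA, rfl⟩
  rw [← hmem]
  have hCx := cxLie D
  have hlie : ∀ x ∈ g, ∀ y ∈ g, x * y - y * x ∈ g := by
    rintro _ ⟨A, hA, rfl⟩ _ ⟨B, hB, rfl⟩
    refine ⟨A * B - B * A, hCx.lie A hA B hB, ?_⟩
    simp
  have htr : ∀ x ∈ g, LinearMap.trace ℂ (ι → ℂ) x = 0 := by
    rintro _ ⟨A, hA, rfl⟩
    have h1 := hCx.tr A hA
    rw [AlgHom.toLinearMap_apply, hφ', Matrix.trace_toLin'_eq, h1]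
  have hirr : ∀ W : Submodule ℂ (ι → ℂ), (∀ x ∈ g, ∀ w ∈ W, x w ∈ W) → W = ⊥ ∨ W = ⊤ := by
    intro W hW
    refine hCx.irr W fun A hA w hw => ?_
    have h1 := hW (φ A) ((hmem A).2 hA) w hw
    rwa [hφ', Matrix.toLin'_apply] at h1
  have hskew : ∀ x ∈ g, ∀ u v, form F (x u) v + form F u (x v) = 0 := by
    rintro _ ⟨A, hA, rfl⟩ u v
    rw [AlgHom.toLinearMap_apply, hφ', form_toLin, skew_cx D hA, Matrix.zero_mulVec,
      dotProduct_zero]
  have hD : ∀ u v, form F (φ (ratM A) u) v + form F u (φ (ratM A) v) = 0 := by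
    intro u v
    have h1 : (ratM A).transpose * ratM F + ratM F * ratM A = 0 := by
      have h2 : (ratM A).transpose = ratM A.transpose := rfl
      rw [h2, ← ratM_mul', ← ratM_mul', ← ratM_add', hA, ratM_zero']
    rw [hφ', form_toLin, h1, Matrix.zero_mulVec, dotProduct_zero]
  have hee : φ e * φ e = φ e := by rw [← map_mul, he.idem]
  have h2e : (2 : ℂ) • φ e - 1 ∈ g := by
    have h3 : (2 : ℂ) • φ e - 1 = φ ((2 : ℂ) • e - 1) := by
      rw [map_sub, map_smul, map_one]
    rw [h3, hmem]
    exact he.mem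
  have hmult : ∀ u v, form F (φ e u) v + form F u (φ e v) = form F u v := by
    intro u v
    rw [hφ', form_toLin, he.mult D, form_apply]
  have hsimple : ∀ s : Submodule ℂ (End ℂ (ι → ℂ)), s ≤ g →
      (∀ x ∈ g, ∀ y ∈ s, x * y - y * x ∈ s) → (2 : ℂ) • φ e - 1 ∈ s → s = g := by
    intro s hs1 hs2 hs3
    refine le_antisymm hs1 ?_
    rintro _ ⟨B, hB, rfl⟩
    have h4 : idl (cx h) e ≤ s.comap φ.toLinearMap := by
      refine idl_le ?_ ?_
      · rw [Submodule.mem_comap, AlgHom.toLinearMap_apply, map_sub, map_smul, map_one]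
        exact hs3
      · intro x hx y hy
        rw [Submodule.mem_comap, AlgHom.toLinearMap_apply] at hy ⊢
        rw [map_sub, map_mul, map_mul]
        exact hs2 _ ((hmem x).2 hx) _ hy
    rw [hidl] at h4
    exact h4 hB
  obtain ⟨G, hrke, htr0⟩ := gr_of_idl hlie htr hirr hee h2e hsimple
  have hgsp : ∀ x ∈ g ⊔ Submodule.span ℂ {1}, ∃ κ : ℂ, ∀ u v,
      form F (x u) v + form F u (x v) = κ * form F u v := by
    intro x hx
    obtain ⟨a, ha, b, hb, rfl⟩ := Submodule.mem_sup.1 hx
    obtain ⟨c, rfl⟩ := Submodule.mem_span_singleton.1 hb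
    refine ⟨2 * c, fun u v => ?_⟩
    have h1 := hskew a ha u v
    simp only [LinearMap.add_apply, LinearMap.smul_apply, Module.End.one_apply, map_add,
      map_smul, smul_eq_mul]
    linear_combination h1
  have h5 : φ (ratM A) ∈ g ⊔ Submodule.span ℂ {1} := by
    rcases hn with ⟨N, hN, hN0, hrk⟩ | ⟨hpow, hbin⟩
    · have hNg : φ N ∈ g := (hmem N).2 hN
      have hNN0 : φ N ≠ 0 := fun h0 => hN0 (hinj (h0.trans (map_zero _).symm))
      have hns : ∀ κ : ℂ, φ N ≠ κ • 1 := by
        intro κ hκ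
        have h1 := htr _ hNg
        rw [hκ, map_smul, LinearMap.trace_one, smul_eq_mul] at h1
        rcases mul_eq_zero.1 h1 with h2 | h2
        · exact hNN0 (by rw [hκ, h2, zero_smul])
        · rw [Nat.cast_eq_zero] at h2
          exact absurd h2 (finrank_pos (R := ℂ) (M := ι → ℂ)).ne'
      have hrkN : rk (φ N) = N.rank := by
        rw [hφ', rk, Matrix.rank_eq_finrank_range_toLin N (Pi.basisFun ℂ ι) (Pi.basisFun ℂ ι)]
        rfl
      have hlt : rk (φ N) * finrank ℂ (ι → ℂ) < rk (φ e) * rk (1 - φ e) := by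
        have h1 := G.rk_add
        have h2 : rk (1 - φ e) = rk (φ e) := by omega
        rw [h2, hrkN]
        have h3 : 4 * N.rank < 2 * rk (φ e) := by
          rw [hrke, finrank_fintype_fun_eq_card]
          exact hrk
        have h4 : 0 < rk (φ e) := G.rk_e_pos
        rw [← hrke]
        nlinarith
      exact skew_of_small G (form_alt D.alt) (form_nondeg D.nondeg) hgsp hmult
        (Submodule.mem_sup_left hNg) hns hlt hD
    · exact skew_of_simple G (form_alt D.alt) (form_nondeg D.nondeg) hgsp hmult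
        (fun m hm => by rw [finrank_fintype_fun_eq_card]; exact hpow m hm)
        (fun k hk hk3 => by rw [finrank_fintype_fun_eq_card]; exact hbin k hk hk3) hD
  refine htr0 _ h5 ?_
  -- the trace of a skew operator is zero
  obtain ⟨a, ha, b, hb, hab⟩ := Submodule.mem_sup.1 h5
  obtain ⟨c, rfl⟩ := Submodule.mem_span_singleton.1 hb
  have hc : c = 0 := by
    have : Nontrivial (ι → ℂ) := inferInstance
    obtain ⟨u, hu⟩ := exists_ne (0 : ι → ℂ)
    have h6 : ∃ v, form F u v ≠ 0 := by
      by_contra hn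
      push Not at hn
      exact hu (form_nondeg D.nondeg u hn)
    obtain ⟨v, hv⟩ := h6
    have h7 := hD u v
    have h8 := hskew a ha u v
    rw [← hab] at h7
    simp only [LinearMap.add_apply, LinearMap.smul_apply, Module.End.one_apply, map_add,
      map_smul, smul_eq_mul] at h7
    have h9 : 2 * c * form F u v = 0 := by linear_combination h7 - h8
    rcases mul_eq_zero.1 h9 with h10 | h10
    · rcases mul_eq_zero.1 h10 with h11 | h11
      · exact absurd h11 two_ne_zero
      · exact h11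
    · exact absurd h10 hv
  rw [← hab, hc, zero_smul, add_zero]
  exact htr a ha

/-- **The main theorem**: a rational Lie algebra with local monodromy. -/
theorem main_bad (D : LieData F h) {e : Matrix ι ι ℂ} (he : IsCochar h e)
    (hloc : ∀ γ : RingAut ℂ, ∀ S : Finset ℂ, (∀ x ∈ S, IsAlgebraic ℚ x) →
      ∃ τ : ℂ ≃+* ℂ, (∀ x ∈ S, τ x = γ x) ∧ LocMon h τ)
    (hn : (∃ N ∈ cx h, N ≠ 0 ∧ 4 * N.rank < Fintype.card ι) ∨
      ((∀ m, 5 ≤ m → Fintype.card ι ≠ 2 ^ m) ∧
        ∀ k, Odd k → 3 ≤ k → Fintype.card ι ≠ (2 * k).choose k))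
    (A : Matrix ι ι ℚ) : A ∈ h ↔ A.transpose * F + F * A = 0 := by
  rcases isEmpty_or_nonempty ι with hι | hι
  · refine ⟨D.skew A, fun _ => ?_⟩
    have h1 : A = 0 := Matrix.ext fun i => (hι.false i).elim
    rw [h1]
    exact h.zero_mem
  · exact full_of_idl D he (idl_eq_of_locMon D he hloc) hn A

end Pool.Agent.SmallRank
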