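import Pool.Agent.SmallRank.Defs

/-!
# Components of the elements of a Lie algebra with respect to a diagonal element
-/

set_option autoImplicit false
set_option linter.unusedSectionVars false

namespace Pool.Agent.SmallRank

open Module

variable {K V : Type*} [Field K] [CharZero K] [IsAlgClosed K] [AddCommGroup V] [Module K V]
  [FiniteDimensional K V] {g : Submodule K (End K V)}

private theorem w_ind {D : ℤ → End K V} {h : End K V} (hlie : ∀ x ∈ g, h * x - x * h ∈ g)
    (hD : ∀ k, h * D k - D k * h = (k : K) • D k) (S : Finset ℤ) :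
    ∀ c : ℤ → K, (∀ k ∈ S, c k ≠ 0) → ∑ k ∈ S, c k • D k ∈ g → ∀ k ∈ S, D k ∈ g := by
  induction S using Finset.induction_on with
  | empty => intro c _ _ k hk; exact absurd hk (Finset.notMem_empty k)
  | insert l S hl ih =>
    intro c hc hx
    have h1 : ∀ k ∈ S, D k ∈ g := by
      refine ih (fun k => ((k : K) - l) * c k) (fun k hk => ?_) ?_
      · refine mul_ne_zero (fun h0 => ?_) (hc k (Finset.mem_insert_of_mem hk))
        have h2 : (k : K) = l := sub_eq_zero.1 h0
        have h3 : k = l := by exact_mod_cast h2
        exact hl (h3 ▸ hk)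
      · have h2 := g.sub_mem (hlie _ hx) (g.smul_mem (l : K) hx)
        convert h2 using 1
        rw [Finset.mul_sum, Finset.sum_mul, ← Finset.sum_sub_distrib, Finset.smul_sum,
          ← Finset.sum_sub_distrib, Finset.sum_insert hl]
        have h3 : ∀ k, h * (c k • D k) - c k • D k * h - (l : K) • (c k • D k) =
            (((k : K) - l) * c k) • D k := by
          intro k
          rw [mul_smul_comm, smul_mul_assoc, ← smul_sub, hD k, smul_smul, smul_smul, ← sub_smul]
          congr 1
          ring
        rw [h3 l, sub_self, zero_mul, zero_smul, zero_add]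
        exact Finset.sum_congr rfl fun k _ => (h3 k).symm
    intro k hk
    rcases Finset.mem_insert.1 hk with rfl | hk
    · rw [Finset.sum_insert hl] at hx
      have h2 := (g.add_mem_iff_left (g.sum_mem fun j hj => g.smul_mem (c j) (h1 j hj))).1 hx
      exact (g.smul_mem_iff (hc k (Finset.mem_insert_self k S))).1 h2
    · exact h1 k hk

/-- **Components.** `p i` are orthogonal idempotents with the sum one, `h = ∑ wt i p i ∈ g`. Then
the
component of weight `k` of every `z ∈ g` is in `g`.

Proof. Let `D k` be the sum in the statement. For `z' = p i * z * p j` one has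
`h * z' - z' * h = (wt i - wt j) • z'`, so `h * D k - D k * h = k • D k`. The set `S` of the
integers
`wt i - wt j` is finite and `z = ∑ k ∈ S, D k` (`1 = ∑ p i` on both sides). Let `T` be the
endomorphism `x ↦ h * x - x * h` of `End K V`; it maps `g` to `g`. For `k ∈ S` apply the product of
the operators `(k - l)⁻¹ • (T - l)`, `l ∈ S`, `l ≠ k`, to `z`: the result is `D k`, in `g`
(`CharZero K`). If `k ∉ S` then `D k = 0`. (Or: induction on the cardinality of a finite set `S'` of
integers for the statement: if `∑ k ∈ S', D k ∈ g` then all `D k ∈ g`, by applying `T - l`.) -/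
theorem weights (hlie : ∀ a ∈ g, ∀ b ∈ g, a * b - b * a ∈ g) {n : ℕ} {p : Fin n → End K V}
    (hp : ∀ i j, p i * p j = if i = j then p i else 0) (hsum : ∑ i, p i = 1) {wt : Fin n → ℤ}
    (hh : ∑ i, (wt i : K) • p i ∈ g) {z : End K V} (hz : z ∈ g) (k : ℤ) :
    ∑ i, ∑ j, (if wt i - wt j = k then p i * z * p j else 0) ∈ g := by
  set h : End K V := ∑ i, (wt i : K) • p i with hdef
  set D : ℤ → End K V := fun k => ∑ i, ∑ j, (if wt i - wt j = k then p i * z * p j else 0)
    with hDdef
  have hl : ∀ i, h * p i = (wt i : K) • p i := by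
    intro i
    rw [hdef, Finset.sum_mul, Finset.sum_eq_single i]
    · rw [smul_mul_assoc, hp, if_pos rfl]
    · intro j _ hj
      rw [smul_mul_assoc, hp, if_neg hj, smul_zero]
    · intro hi
      exact absurd (Finset.mem_univ i) hi
  have hr : ∀ i, p i * h = (wt i : K) • p i := by
    intro i
    rw [hdef, Finset.mul_sum, Finset.sum_eq_single i]
    · rw [mul_smul_comm, hp, if_pos rfl]
    · intro j _ hj
      rw [mul_smul_comm, hp, if_neg (Ne.symm hj), smul_zero]
    · intro hi
      exact absurd (Finset.mem_univ i) hi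
  have hD : ∀ k, h * D k - D k * h = (k : K) • D k := by
    intro k
    simp only [hDdef]
    rw [Finset.mul_sum, Finset.sum_mul, ← Finset.sum_sub_distrib, Finset.smul_sum]
    refine Finset.sum_congr rfl fun i _ => ?_
    rw [Finset.mul_sum, Finset.sum_mul, ← Finset.sum_sub_distrib, Finset.smul_sum]
    refine Finset.sum_congr rfl fun j _ => ?_
    split_ifs with hk
    · have h1 : h * (p i * z * p j) = (wt i : K) • (p i * z * p j) := by
        rw [← mul_assoc, ← mul_assoc, hl, smul_mul_assoc, smul_mul_assoc]
      have h2 : p i * z * p j * h = (wt j : K) • (p i * z * p j) := by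
        rw [mul_assoc, hr, mul_smul_comm]
      rw [h1, h2, ← sub_smul, ← hk]
      push_cast
      rfl
    · rw [mul_zero, zero_mul, sub_zero, smul_zero]
  set S : Finset ℤ := (Finset.univ : Finset (Fin n × Fin n)).image fun q => wt q.1 - wt q.2
    with hS
  have hzS : z = ∑ k ∈ S, (1 : K) • D k := by
    have h1 : z = ∑ i, ∑ j, p i * z * p j := by
      calc z = (∑ i, p i) * z * (∑ j, p j) := by rw [hsum, one_mul, mul_one]
        _ = ∑ i, ∑ j, p i * z * p j := by
          rw [Finset.sum_mul, Finset.sum_mul]
          exact Finset.sum_congr rfl fun i _ => Finset.mul_sum _ _ _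
    have h3 : ∑ k ∈ S, (1 : K) • D k = ∑ i, ∑ j, ∑ k ∈ S,
        (if wt i - wt j = k then p i * z * p j else 0) := by
      simp only [one_smul, hDdef]
      rw [Finset.sum_comm]
      exact Finset.sum_congr rfl fun i _ => Finset.sum_comm
    rw [h3]
    refine h1.trans (Finset.sum_congr rfl fun i _ => Finset.sum_congr rfl fun j _ => ?_)
    have h2 : wt i - wt j ∈ S := Finset.mem_image.2 ⟨(i, j), Finset.mem_univ _, rfl⟩
    rw [Finset.sum_ite_eq, if_pos h2]
  have key := w_ind (g := g) (fun x hx => hlie h hh x hx) hD S (fun _ => 1)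
    (fun _ _ => one_ne_zero) (hzS ▸ hz)
  change D k ∈ g
  by_cases hk : k ∈ S
  · exact key k hk
  · have h0 : D k = 0 := by
      simp only [hDdef]
      refine Finset.sum_eq_zero fun i _ => Finset.sum_eq_zero fun j _ => if_neg ?_
      intro h1
      exact hk (Finset.mem_image.2 ⟨(i, j), Finset.mem_univ _, h1⟩)
    rw [h0]
    exact g.zero_mem

end Pool.Agent.SmallRank
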