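import Pool.Agent.SmallRank.Line
import Pool.Agent.SmallRank.Weights

/-!
# Components with respect to one pair

`h = c f - f c ∈ g` has the eigenvalues `1`, `-1`, `0` on the ranges of the orthogonal idempotents
`c f`, `f c`, `R = 1 - c f - f c`.
-/

set_option autoImplicit false
set_option linter.unusedSectionVars false

namespace Pool.Agent.SmallRank.Pr

open Module

variable {K V : Type*} [Field K] [CharZero K] [IsAlgClosed K] [AddCommGroup V] [Module K V]
  [FiniteDimensional K V] {g : Submodule K (End K V)} {e c f : End K V} {ρ : ℕ}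

private theorem sum_m1 (P Q R z : End K V) :
    ∑ i : Fin 3, ∑ j : Fin 3, (if (![1, -1, 0] : Fin 3 → ℤ) i - (![1, -1, 0] : Fin 3 → ℤ) j = -1
      then (![P, Q, R] : Fin 3 → End K V) i * z * (![P, Q, R] : Fin 3 → End K V) j else 0) =
      R * z * P + Q * z * R := by
  rw [Fin.sum_univ_three, Fin.sum_univ_three, Fin.sum_univ_three, Fin.sum_univ_three]
  simp only [Matrix.cons_val]
  norm_num
  abel

private theorem sum_1 (P Q R z : End K V) :
    ∑ i : Fin 3, ∑ j : Fin 3, (if (![1, -1, 0] : Fin 3 → ℤ) i - (![1, -1, 0] : Fin 3 → ℤ) j = 1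
      then (![P, Q, R] : Fin 3 → End K V) i * z * (![P, Q, R] : Fin 3 → End K V) j else 0) =
      P * z * R + R * z * Q := by
  rw [Fin.sum_univ_three, Fin.sum_univ_three, Fin.sum_univ_three, Fin.sum_univ_three]
  simp only [Matrix.cons_val]
  norm_num

private theorem sum_0 (P Q R z : End K V) :
    ∑ i : Fin 3, ∑ j : Fin 3, (if (![1, -1, 0] : Fin 3 → ℤ) i - (![1, -1, 0] : Fin 3 → ℤ) j = 0
      then (![P, Q, R] : Fin 3 → End K V) i * z * (![P, Q, R] : Fin 3 → End K V) j else 0) =
      P * z * P + Q * z * Q + R * z * R := by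
  rw [Fin.sum_univ_three, Fin.sum_univ_three, Fin.sum_univ_three, Fin.sum_univ_three]
  simp only [Matrix.cons_val]
  norm_num

variable (B : Pr g e c f ρ)
include B

private theorem comp {z : End K V} (hz : z ∈ g) (k : ℤ) :
    ∑ i : Fin 3, ∑ j : Fin 3, (if (![1, -1, 0] : Fin 3 → ℤ) i - (![1, -1, 0] : Fin 3 → ℤ) j = k
      then (![c * f, f * c, 1 - c * f - f * c] : Fin 3 → End K V) i * z *
        (![c * f, f * c, 1 - c * f - f * c] : Fin 3 → End K V) j else 0) ∈ g := by
  have h1 : c * f * (f * c) = 0 := by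
    rw [mul_assoc, ← mul_assoc f f c, B.ff, zero_mul, mul_zero]
  have h2 : f * c * (c * f) = 0 := by
    rw [mul_assoc, ← mul_assoc c c f, B.cc, zero_mul, mul_zero]
  have hP := B.idemP
  have hQ := B.idemQ
  have h3 : c * f * (1 - c * f - f * c) = 0 := by
    rw [mul_sub, mul_sub, mul_one, hP, h1, sub_self, sub_zero]
  have h4 : f * c * (1 - c * f - f * c) = 0 := by
    rw [mul_sub, mul_sub, mul_one, hQ, h2, sub_zero, sub_self]
  have h5 : (1 - c * f - f * c) * (c * f) = 0 := by
    rw [sub_mul, sub_mul, one_mul, hP, h2, sub_self, sub_zero]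
  have h6 : (1 - c * f - f * c) * (f * c) = 0 := by
    rw [sub_mul, sub_mul, one_mul, hQ, h1, sub_zero, sub_self]
  have h7 : (1 - c * f - f * c) * (1 - c * f - f * c) = 1 - c * f - f * c := by
    conv_lhs => rw [mul_sub, mul_sub, mul_one, h5, h6, sub_zero, sub_zero]
  refine weights B.G.lie (p := ![c * f, f * c, 1 - c * f - f * c]) ?_ ?_
    (wt := ![1, -1, 0]) ?_ hz k
  · intro i j
    fin_cases i <;> fin_cases j
    · exact hP
    · exact h1
    · exact h3
    · exact h2
    · exact hQ
    · exact h4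
    · exact h5
    · exact h6
    · exact h7
  · rw [Fin.sum_univ_three]
    simp only [Matrix.cons_val]
    abel
  · have h8 := B.G.lie _ B.cu.1 _ B.fd.1
    rw [Fin.sum_univ_three]
    simp only [Matrix.cons_val]
    have h9 : ((1 : ℤ) : K) • (c * f) + ((-1 : ℤ) : K) • (f * c) +
        ((0 : ℤ) : K) • (1 - c * f - f * c) = c * f - f * c := by
      simp [sub_eq_add_neg]
    rw [h9]
    exact h8

/-- **Weight minus one.** Proof. `weights` with `p = ![c * f, f * c, R]`, `wt = ![1, -1, 0]`, `k =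
-1`
(`Fin.sum_univ_three`, `decide` for the conditions); or as `Blk.dn_mem` in `OddRank/Blocks.lean`. -/
theorem wt_m1 {z : End K V} (hz : z ∈ g) :
    (1 - c * f - f * c) * z * (c * f) + f * c * z * (1 - c * f - f * c) ∈ g := by
  have h := B.comp hz (-1)
  rwa [sum_m1] at h

/-- **Weight one.** Proof. As `wt_m1` with `k = 1`. -/
theorem wt_1 {z : End K V} (hz : z ∈ g) :
    c * f * z * (1 - c * f - f * c) + (1 - c * f - f * c) * z * (f * c) ∈ g := by
  have h := B.comp hz 1
  rwa [sum_1] at h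

/-- **Weight zero.** Proof. As `wt_m1` with `k = 0`. -/
theorem wt_0 {z : End K V} (hz : z ∈ g) :
    c * f * z * (c * f) + f * c * z * (f * c) +
      (1 - c * f - f * c) * z * (1 - c * f - f * c) ∈ g := by
  have h := B.comp hz 0
  rwa [sum_0] at h

private theorem eR : e * (1 - c * f - f * c) = e - c * f := by
  rw [mul_sub, mul_sub, mul_one, ← mul_assoc, B.ec, ← mul_assoc, B.ef, zero_mul, sub_zero]

private theorem Re : (1 - c * f - f * c) * e = e - c * f := by
  rw [sub_mul, sub_mul, one_mul, mul_assoc, B.fe, mul_assoc, B.ce, mul_zero, sub_zero]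

/-- **Weight zero, degree minus one.** Proof. `wt_0`; for `z ∈ dn g e` the first two terms are zero
(`c * f = (c * f) * e = e * (c * f)`, `e * z = 0`, `z = z * e`, `e * f = 0`). -/
theorem zero_dn {z : End K V} (hz : z ∈ dn g e) :
    (1 - c * f - f * c) * z * (1 - c * f - f * c) ∈ dn g e := by
  have h1 : f * z = 0 := by
    rw [← B.fe, mul_assoc, hz.2.1, mul_zero]
  have h2 : z * f = 0 := by
    rw [← hz.2.2, mul_assoc, B.ef, mul_zero]
  have h3 := B.wt_0 hz.1
  have h4 : c * f * z * (c * f) = 0 := by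
    rw [mul_assoc c f z, h1, mul_zero, zero_mul]
  have h5 : f * c * z * (f * c) = 0 := by
    rw [mul_assoc (f * c) z, ← mul_assoc z f c, h2, zero_mul, mul_zero]
  rw [h4, h5, zero_add, zero_add] at h3
  refine ⟨h3, ?_, ?_⟩
  · have h6 : e * (1 - c * f - f * c) * z = 0 := by
      rw [B.eR, sub_mul, hz.2.1, mul_assoc, h1, mul_zero, sub_zero]
    rw [← mul_assoc, ← mul_assoc, h6, zero_mul]
  · have h6 : z * ((1 - c * f - f * c) * e) = z * (1 - c * f - f * c) := by
      rw [B.Re, mul_sub, mul_sub, mul_sub, hz.2.2, mul_one, ← mul_assoc z f c, h2, zero_mul,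
        sub_zero]
    rw [mul_assoc, mul_assoc, h6, ← mul_assoc]

/-- **Weight zero, degree one.** -/
theorem zero_up {z : End K V} (hz : z ∈ up g e) :
    (1 - c * f - f * c) * z * (1 - c * f - f * c) ∈ up g e := by
  have h1 : c * z = 0 := by
    rw [← hz.2.1, ← mul_assoc, B.ce, zero_mul]
  have h2 : z * c = 0 := by
    rw [← B.ec, ← mul_assoc, hz.2.2, zero_mul]
  have h3 := B.wt_0 hz.1
  have h4 : c * f * z * (c * f) = 0 := by
    rw [mul_assoc (c * f) z, ← mul_assoc z c f, h2, zero_mul, mul_zero]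
  have h5 : f * c * z * (f * c) = 0 := by
    rw [mul_assoc f c z, h1, mul_zero, zero_mul]
  rw [h4, h5, zero_add, zero_add] at h3
  refine ⟨h3, ?_, ?_⟩
  · have h6 : e * (1 - c * f - f * c) * z = (1 - c * f - f * c) * z := by
      rw [B.eR, sub_mul, sub_mul, sub_mul, hz.2.1, one_mul, mul_assoc f c z, h1, mul_zero,
        sub_zero]
    rw [← mul_assoc, ← mul_assoc, h6]
  · have h6 : z * ((1 - c * f - f * c) * e) = 0 := by
      rw [B.Re, mul_sub, hz.2.2, ← mul_assoc, h2, zero_mul, sub_zero]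
    rw [mul_assoc, mul_assoc, h6, mul_zero]

end Pool.Agent.SmallRank.Pr
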