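import Pool.Agent.SmallRank.Line
import Pool.Agent.SmallRank.PrWts

/-!
# Existence of partners
-/

set_option autoImplicit false
set_option linter.unusedSectionVars false

namespace Pool.Agent.SmallRank

open Module

variable {K V : Type*} [Field K] [CharZero K] [IsAlgClosed K] [AddCommGroup V] [Module K V]
  [FiniteDimensional K V] {g : Submodule K (End K V)} {e : End K V}

/-- **A partner of an element of minimal rank.**

Proof. By `Gr.nd_up` there is `y ∈ dn g e` with `trace (c * y) ≠ 0`. `c * y * c ∈ up g e`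
(`Gr.quad_up`),
so `c * y * c = κ • c` by `line` (`a = y * c`, `b = c * y`). If `κ = 0` then `(c * y) * (c * y) =
0`, so
`trace (c * y) = 0` (nilpotent), a contradiction. Let `y' = κ⁻¹ • y`, `c * y' * c = c`, and
`f = y' * c * y' ∈ dn g e` (`Gr.quad_dn`): `c * f * c = c`, `f * c * f = f`. -/
theorem exists_pair (G : Gr g e) {ρ : ℕ} (hmin : ∀ x ∈ up g e, x ≠ 0 → ρ ≤ rk x) {c : End K V}
    (hc : c ∈ up g e) (hc0 : c ≠ 0) (hrk : rk c = ρ) : ∃ f, Pr g e c f ρ := by
  obtain ⟨y, hy, hyt⟩ : ∃ y ∈ dn g e, LinearMap.trace K V (c * y) ≠ 0 := by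
    by_contra h
    push Not at h
    exact hc0 (G.nd_up hc h)
  obtain ⟨κ, hκ⟩ := line hmin hc hc0 hrk.le (G.quad_up hc hy.1) (mul_assoc c y c) rfl
  have hκ0 : κ ≠ 0 := by
    rintro rfl
    rw [zero_smul] at hκ
    apply hyt
    have h1 : (c * y) * (c * y) = 0 := by rw [← mul_assoc, hκ, zero_mul]
    exact (LinearMap.isNilpotent_trace_of_isNilpotent ⟨2, by rw [pow_two, h1]⟩).eq_zero
  obtain ⟨y', hy', h2⟩ : ∃ y' ∈ dn g e, c * y' * c = c :=
    ⟨κ⁻¹ • y, (dn g e).smul_mem _ hy, by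
      rw [mul_smul_comm, smul_mul_assoc, hκ, smul_smul, inv_mul_cancel₀ hκ0, one_smul]⟩
  have h3 : c * (y' * c) = c := by rw [← mul_assoc, h2]
  refine ⟨y' * c * y', G, hmin, hrk, hc0, hc, G.quad_dn hy' hc.1, ?_, ?_⟩
  · simp only [mul_assoc, h3]
  · have h4 : c * (y' * (c * y')) = c * y' := by rw [← mul_assoc, ← mul_assoc, h2]
    simp only [mul_assoc, h4]

/-- **The minimal rank in degree minus one.**

Proof. Let `y ∈ dn g e` be nonzero of minimal rank `ρ'` among the nonzero elements of `dn g e`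
(`Nat.find`). `dn g e = up g (1 - e)` (`up_symm`), so `exists_pair` for `G.symm` gives `x ∈ dn g (1
- e) =
up g e` (`dn_symm`) with `y * x * y = y`, `x * y * x = x`; so `x ≠ 0` and `rk x ≤ rk y`
(`x = x * y * x`), hence `ρ ≤ rk x ≤ rk y = ρ'`. -/
theorem min_dn (G : Gr g e) {ρ : ℕ} (hmin : ∀ x ∈ up g e, x ≠ 0 → ρ ≤ rk x) :
    ∀ y ∈ dn g e, y ≠ 0 → ρ ≤ rk y := by
  classical
  intro y0 hy0 hy00
  have hex : ∃ n, ∃ y ∈ dn g e, y ≠ 0 ∧ rk y = n := ⟨_, y0, hy0, hy00, rfl⟩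
  obtain ⟨y, hy, hy1, hy2⟩ := Nat.find_spec hex
  have hm : ∀ z ∈ dn g e, z ≠ 0 → Nat.find hex ≤ rk z := fun z hz hz0 =>
    Nat.find_min' hex ⟨z, hz, hz0, rfl⟩
  rw [← up_symm] at hy
  obtain ⟨x, B⟩ := exists_pair G.symm (ρ := Nat.find hex) (by rw [up_symm]; exact hm) hy hy1 hy2
  have hx : x ∈ up g e := by
    rw [← dn_symm]
    exact B.fd
  have h1 : ρ ≤ rk x := hmin x hx B.f0
  rw [B.rkf] at h1
  exact h1.trans (hm y0 hy0 hy00)

/-- the roles of `e` and `1 - e` -/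
theorem Pr.symm {c f : End K V} {ρ : ℕ} (B : Pr g e c f ρ) : Pr g (1 - e) f c ρ where
  G := B.G.symm
  min := by
    rw [up_symm]
    exact min_dn B.G B.min
  rkc := B.rkf
  c0 := B.f0
  cu := by
    rw [up_symm]
    exact B.fd
  fd := by
    rw [dn_symm]
    exact B.cu
  cfc := B.fcf
  fcf := B.cfc

/-- **An orthogonal partner.**

Proof. Let `y'` be a partner of `x` (`exists_pair`), `R = 1 - c * f - f * c`. `R * x = x` and `x *
R = x`:
`c * f * x = 0`, `x * f * c = 0`, `f * c * x = f * (c * x) = 0`, `x * c * f = 0` (`Gr.up_mul_up`).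
By
`Pr.zero_dn`, `R * y' * R ∈ g`, so it is in `dn g e` (`R` commutes with `e`), and
`x * (R * y' * R) * x = x * y' * x = x`. Let
`y = (R * y' * R) * x * (R * y' * R) ∈ dn g e` (`Gr.quad_dn`); it is a partner, and
`y * c = 0`, `c * y = 0` because `R * c = 0`, `c * R = 0`. -/
theorem exists_pair' {c f : End K V} {ρ : ℕ} (B : Pr g e c f ρ) {x : End K V} (hx : x ∈ up g e)
    (hx0 : x ≠ 0) (hrk : rk x = ρ) (hfx : f * x = 0) (hxf : x * f = 0) :
    ∃ y, Pr g e x y ρ ∧ y * c = 0 ∧ c * y = 0 := by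
  have hcx : c * x = 0 := Gr.up_mul_up B.cu hx
  have hxc : x * c = 0 := Gr.up_mul_up hx B.cu
  obtain ⟨y', B'⟩ := exists_pair B.G B.min hx hx0 hrk
  have hRx : (1 - c * f - f * c) * x = x := by
    rw [sub_mul, sub_mul, one_mul, mul_assoc, hfx, mul_zero, mul_assoc, hcx, mul_zero, sub_zero,
      sub_zero]
  have hxR : x * (1 - c * f - f * c) = x := by
    rw [mul_sub, mul_sub, mul_one, ← mul_assoc, hxc, zero_mul, ← mul_assoc, hxf, zero_mul,
      sub_zero, sub_zero]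
  have hRc : (1 - c * f - f * c) * c = 0 := by
    rw [sub_mul, sub_mul, one_mul, B.cfc, mul_assoc, B.cc, mul_zero, sub_self, sub_zero]
  have hcR : c * (1 - c * f - f * c) = 0 := by
    rw [mul_sub, mul_sub, mul_one, ← mul_assoc, B.cc, zero_mul, ← mul_assoc, B.cfc, sub_zero,
      sub_self]
  have hz : (1 - c * f - f * c) * y' * (1 - c * f - f * c) ∈ dn g e := B.zero_dn B'.fd
  generalize (1 - c * f - f * c) = R at *
  have h1 : x * (R * y' * R) * x = x := by
    calc x * (R * y' * R) * x = (x * R) * y' * (R * x) := by simp only [mul_assoc]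
      _ = x * y' * x := by rw [hxR, hRx]
      _ = x := B'.cfc
  have h2 : R * y' * R * c = 0 := by rw [mul_assoc, hRc, mul_zero]
  have h3 : c * (R * y' * R) = 0 := by rw [← mul_assoc, ← mul_assoc, hcR, zero_mul, zero_mul]
  generalize R * y' * R = z at *
  have h4 : x * (z * x) = x := by rw [← mul_assoc, h1]
  refine ⟨z * x * z, ⟨B.G, B.min, hrk, hx0, hx, B.G.quad_dn hz hx.1, ?_, ?_⟩, ?_, ?_⟩
  · simp only [mul_assoc, h4]
  · have h5 : x * (z * (x * z)) = x * z := by rw [← mul_assoc, ← mul_assoc, h1]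
    simp only [mul_assoc, h5]
  · rw [mul_assoc, h2, mul_zero]
  · rw [← mul_assoc, ← mul_assoc, h3, zero_mul, zero_mul]

end Pool.Agent.SmallRank
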