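import Pool.Agent.SmallRank.Core
import Pool.Agent.OddRank.RankTwo
import Pool.Agent.OddRank.Symp

/-!
# The symplectic case: the algebra contains all skew operators
-/

set_option autoImplicit false
set_option linter.unusedSectionVars false

namespace Pool.Agent.SmallRank

open Module
open Pool.Agent.OddRank (mm irred irred_two skew_mem)

variable {K V : Type*} [Field K] [CharZero K] [IsAlgClosed K] [AddCommGroup V] [Module K V]
  [FiniteDimensional K V] {g : Submodule K (End K V)} {e : End K V}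

/-- A subspace which is stable under the elements of degree one and minus one is zero or
everything. -/
theorem Gr.irr_ud (G : Gr g e) {U : Submodule K V} (hu : ∀ x ∈ up g e, ∀ w ∈ U, x w ∈ U)
    (hd : ∀ y ∈ dn g e, ∀ w ∈ U, y w ∈ U) : U = ⊥ ∨ U = ⊤ := by
  refine G.irr U fun a ha w hw => ?_
  have hz : ∀ z ∈ g, e * z = z * e → ∀ w ∈ U, z w ∈ U := by
    intro z hz hze w hw
    obtain ⟨κ, hκ⟩ := zero_span G hz hze
    have h1 : ∀ s ∈ Submodule.span K {d | ∃ x ∈ up g e, ∃ y ∈ dn g e, d = x * y - y * x},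
        s w ∈ U := by
      intro s hs
      induction hs using Submodule.span_induction with
      | mem d hd' =>
        obtain ⟨x, hx, y, hy, rfl⟩ := hd'
        exact U.sub_mem (hu x hx _ (hd y hy w hw)) (hd y hy _ (hu x hx w hw))
      | zero => exact U.zero_mem
      | add a b _ _ ha hb => exact U.add_mem ha hb
      | smul c a _ ha => exact U.smul_mem c ha
    have h2 : z w = (z - κ • 1) w + κ • w := by simp
    rw [h2]
    exact U.add_mem (h1 _ hκ) (U.smul_mem κ hw)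
  rw [G.decomp a]
  exact U.add_mem (U.add_mem (hu _ (G.up_mem ha) w hw) (hd _ (G.dn_mem ha) w hw))
    (hz _ (G.zero_mem ha) (G.zero_comm a) w hw)

/-- The commutator of two similitudes is skew. -/
theorem skew_comm {ψ : V →ₗ[K] V →ₗ[K] K} {a b : End K V} {α β : K}
    (ha : ∀ u v, ψ (a u) v + ψ u (a v) = α * ψ u v)
    (hb : ∀ u v, ψ (b u) v + ψ u (b v) = β * ψ u v) (u v : V) :
    ψ ((a * b - b * a) u) v + ψ u ((a * b - b * a) v) = 0 := by
  have h1 := ha (b u) v
  have h2 := ha u (b v)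
  have h3 := hb (a u) v
  have h4 := hb u (a v)
  have h5 := ha u v
  have h6 := hb u v
  simp only [LinearMap.sub_apply, Module.End.mul_apply, map_sub]
  linear_combination h1 + h2 - h3 - h4 + α * h6 - β * h5

theorem up_skew (G : Gr g e) {ψ : V →ₗ[K] V →ₗ[K] K}
    (hgsp : ∀ x ∈ g, ∃ κ : K, ∀ u v, ψ (x u) v + ψ u (x v) = κ * ψ u v)
    {x : End K V} (hx : x ∈ up g e) (u v : V) : ψ (x u) v + ψ u (x v) = 0 := by
  obtain ⟨α, hα⟩ := hgsp e G.mem
  obtain ⟨β, hβ⟩ := hgsp x hx.1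
  have h := skew_comm hα hβ u v
  rwa [hx.2.1, hx.2.2, sub_zero] at h

theorem dn_skew (G : Gr g e) {ψ : V →ₗ[K] V →ₗ[K] K}
    (hgsp : ∀ x ∈ g, ∃ κ : K, ∀ u v, ψ (x u) v + ψ u (x v) = κ * ψ u v)
    {x : End K V} (hx : x ∈ dn g e) (u v : V) : ψ (x u) v + ψ u (x v) = 0 := by
  rw [← up_symm] at hx
  exact up_skew G.symm hgsp hx u v

/-- An element of square zero and rank one or two: the symplectic case. -/
theorem mm_mem (G : Gr g e) {ψ : V →ₗ[K] V →ₗ[K] K} (halt : ∀ x, ψ x x = 0)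
    (hnd : ∀ x, (∀ y, ψ x y = 0) → x = 0)
    (hgsp : ∀ x ∈ g, ∃ κ : K, ∀ u v, ψ (x u) v + ψ u (x v) = κ * ψ u v)
    (hmult : ∀ u v, ψ (e u) v + ψ u (e v) = ψ u v)
    {c : End K V} (hc : c ∈ g) (hcc : c * c = 0) (h : rk c = 1 ∨ rk c = 2) (u v : V) :
    mm ψ u v ∈ g := by
  set X : Set (End K V) := {a | a ∈ g ∧ a * a = a ∧ ∀ u v, ψ (a u) v + ψ u (a v) = ψ u v} with hX
  have hG : ∀ a ∈ X, a ∈ g := fun a ha => ha.1
  have hGe : ∀ a ∈ X, a * a = a := fun a ha => ha.2.1
  have hGψ : ∀ a ∈ X, ∀ u v, ψ (a u) v + ψ u (a v) = ψ u v := fun a ha => ha.2.2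
  have he : e ∈ X := ⟨G.mem, G.idem, hmult⟩
  have hxm : ∀ x ∈ up g e, e + x ∈ X := by
    intro x hx
    refine ⟨g.add_mem G.mem hx.1, ?_, fun u v => ?_⟩
    · rw [mul_add, add_mul, add_mul, G.idem, hx.2.1, hx.2.2, Gr.up_mul_up hx hx, add_zero,
        add_zero]
    · have h1 := hmult u v
      have h2 := up_skew G hgsp hx u v
      simp only [LinearMap.add_apply, map_add]
      linear_combination h1 + h2
  have hym : ∀ y ∈ dn g e, e + y ∈ X := by
    intro y hy
    refine ⟨g.add_mem G.mem hy.1, ?_, fun u v => ?_⟩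
    · rw [mul_add, add_mul, add_mul, G.idem, hy.2.1, hy.2.2, Gr.dn_mul_dn hy hy, add_zero,
        add_zero]
    · have h1 := hmult u v
      have h2 := dn_skew G hgsp hy u v
      simp only [LinearMap.add_apply, map_add]
      linear_combination h1 + h2
  have hirr : ∀ W : Submodule K V, (∀ a ∈ X, ∀ w ∈ W, a w ∈ W) → W = ⊥ ∨ W = ⊤ := by
    intro W hW
    refine G.irr_ud (fun x hx w hw => ?_) fun y hy w hw => ?_
    · have h1 : x w = (e + x) w - e w := by simp
      rw [h1]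
      exact W.sub_mem (hW _ (hxm x hx) w hw) (hW _ he w hw)
    · have h1 : y w = (e + y) w - e w := by simp
      rw [h1]
      exact W.sub_mem (hW _ (hym y hy) w hw) (hW _ he w hw)
  rcases h with h | h
  · exact irred halt hnd G.lie hgsp hG hGe hGψ hirr hc hcc
      (by change Odd (rk c); rw [h]; exact odd_one) u v
  · exact irred_two halt hnd G.lie hgsp hG hGe hGψ hirr hc hcc h u v

/-- **The theorem on elements of small rank, the symplectic case.** -/
theorem skew_of_small (G : Gr g e) {ψ : V →ₗ[K] V →ₗ[K] K} (halt : ∀ x, ψ x x = 0)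
    (hnd : ∀ x, (∀ y, ψ x y = 0) → x = 0)
    (hgsp : ∀ x ∈ g, ∃ κ : K, ∀ u v, ψ (x u) v + ψ u (x v) = κ * ψ u v)
    (hmult : ∀ u v, ψ (e u) v + ψ u (e v) = ψ u v)
    {N : End K V} (hN : N ∈ g) (hns : ∀ κ : K, N ≠ κ • 1)
    (hlt : rk N * finrank K V < rk e * rk (1 - e))
    {D : End K V} (hD : ∀ u v, ψ (D u) v + ψ u (D v) = 0) : D ∈ g := by
  obtain ⟨c, hc, hcc, h⟩ := small G hN hns hlt
  exact skew_mem halt hnd (mm_mem G halt hnd hgsp hmult hc hcc
    (h.imp_right And.left)) hD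

end Pool.Agent.SmallRank
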