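import Pool.Agent.SmallRank.Casimir
import Pool.Agent.SmallRank.PairEx

/-!
# There are elements of weight zero in degree one
-/

set_option autoImplicit false
set_option linter.unusedSectionVars false

namespace Pool.Agent.SmallRank

open Module

variable {K V : Type*} [Field K] [CharZero K] [IsAlgClosed K] [AddCommGroup V] [Module K V]
  [FiniteDimensional K V] {g : Submodule K (End K V)} {e : End K V}

/-- **The trace identity.**

Proof. Let `P = c * f`, `Q = f * c`, `R = 1 - P - Q`, and let `z`, `y` be dual bases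
(`exists_dual`),
`D = finrank (up g e)`, `m₁ = rk e`, `m₀ = rk (1 - e)`. Assume that there is no `x` as claimed. For
`x ∈ up g e` one has `R * x * R ∈ up g e` (`Pr.zero_up`), `f * (R * x * R) = 0`, `(R * x * R) * f =
0`
(`f * R = 0`, `R * f = 0`), so `R * x * R = 0`. As `x * P = 0`, `Q * x = 0` (degrees) this gives
`x = P * x * Q + P * x * R + R * x * Q` and `P * x + x * Q = x + P * x * Q`. So
`∑ trace ((P * z i + z i * Q) * y i) = D + ∑ trace (P * z i * Q * y i)`. By `Pr.two`,
`P * z i * Q = κ i • c`, and `c = P * c * Q = ∑ trace (c * y i) • P * z i * Q` (`Du.ez`) gives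
`∑ κ i * trace (c * y i) = 1`, so the right hand side is `D + 1`. The left hand side is
`trace (P * ∑ z i * y i) + trace (Q * ∑ y i * z i)`, and `m₁ * trace (P * ∑ z i * y i) = D * trace
P = D * ρ`
(`casimir_up`, `P * e = P`, `trace_idem`, `Pr.rkP`), `m₀ * trace (Q * ∑ y i * z i) = D * ρ`. So
`(D + 1) * m₀ * m₁ = D * ρ * (m₀ + m₁) = D * ρ * finrank V` in `K`, hence in `ℕ`, but
`D * (ρ * finrank V) ≤ D * (m₁ * m₀) < (D + 1) * (m₁ * m₀)`. -/
theorem exists_zero {c f : End K V} {ρ : ℕ} (B : Pr g e c f ρ)
    (hlt : ρ * finrank K V < rk e * rk (1 - e)) :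
    ∃ x ∈ up g e, x ≠ 0 ∧ f * x = 0 ∧ x * f = 0 := by
  by_contra hno
  push Not at hno
  obtain ⟨z, y, H⟩ := exists_dual B.G
  have hcc := B.cc
  have hff := B.ff
  have hcfc := B.cfc
  have hfcf := B.fcf
  have hPe : c * f * e = c * f := by rw [mul_assoc, B.fe]
  have hQe : f * c * e = 0 := by rw [mul_assoc, B.ce, mul_zero]
  have hfR : f * (1 - c * f - f * c) = 0 := by
    rw [mul_sub, mul_sub, mul_one, ← mul_assoc, ← mul_assoc, hfcf, hff, zero_mul, sub_self,
      sub_zero]
  have hRf : (1 - c * f - f * c) * f = 0 := by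
    rw [sub_mul, sub_mul, one_mul, mul_assoc c f f, hff, mul_zero, hfcf, sub_zero, sub_self]
  -- all elements of degree one
  have key : ∀ x ∈ up g e, c * f * x + x * (f * c) = x + c * f * x * (f * c) := by
    intro x hx
    have h1 := B.zero_up hx
    have h0 : (1 - c * f - f * c) * x * (1 - c * f - f * c) = 0 := by
      by_contra hne
      refine hno _ h1 hne ?_ ?_
      · rw [← mul_assoc, ← mul_assoc, hfR, zero_mul, zero_mul]
      · rw [mul_assoc, hRf, mul_zero]
    have hxc : x * c = 0 := Gr.up_mul_up hx B.cu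
    have hcx : c * x = 0 := Gr.up_mul_up B.cu hx
    have h2 : (1 - c * f - f * c) * x = x - c * f * x := by
      rw [sub_mul, sub_mul, one_mul, mul_assoc f c x, hcx, mul_zero, sub_zero]
    have h3 : (x - c * f * x) * (1 - c * f - f * c) =
        x - c * f * x - x * (f * c) + c * f * x * (f * c) := by
      have h4 : (x - c * f * x) * (c * f) = 0 := by
        rw [sub_mul, ← mul_assoc, hxc, zero_mul, mul_assoc (c * f) x, ← mul_assoc x, hxc, zero_mul,
          mul_zero, sub_zero]
      rw [mul_sub, mul_sub, mul_one, h4, sub_zero, sub_mul]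
      abel
    rw [h2, h3] at h0
    have h5 : c * f * x + x * (f * c) = x + c * f * x * (f * c) -
        (x - c * f * x - x * (f * c) + c * f * x * (f * c)) := by abel
    rw [h5, h0, sub_zero]
  choose κ hκ using fun i => B.two (H.zu i).1
  have hsum1 : ∑ i, κ i * LinearMap.trace K V (c * y i) = 1 := by
    have h1 := H.ez c B.cu
    have h2 : c = (∑ i, κ i * LinearMap.trace K V (c * y i)) • c := by
      conv_lhs => rw [show c = c * f * c * (f * c) by rw [hcfc, ← mul_assoc, hcfc]]
      conv_lhs => rw [show c * f * c * (f * c) = c * f * (∑ i, LinearMap.trace K V (c * y i) • z i)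
        * (f * c) by rw [← h1]]
      rw [Finset.mul_sum, Finset.sum_mul, Finset.sum_smul]
      refine Finset.sum_congr rfl fun i _ => ?_
      rw [mul_smul_comm, smul_mul_assoc, hκ, smul_smul, mul_comm]
    have h3 : ((∑ i, κ i * LinearMap.trace K V (c * y i)) - 1) • c = 0 := by
      rw [sub_smul, ← h2, one_smul, sub_self]
    rcases smul_eq_zero.1 h3 with h4 | h4
    · exact sub_eq_zero.1 h4
    · exact absurd h4 B.c0
  have hL : ∑ i, LinearMap.trace K V ((c * f * z i + z i * (f * c)) * y i) =
      (finrank K (up g e) : K) + 1 := by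
    rw [← hsum1]
    have h1 : ∀ i, LinearMap.trace K V ((c * f * z i + z i * (f * c)) * y i) =
        1 + κ i * LinearMap.trace K V (c * y i) := by
      intro i
      rw [key _ (H.zu i), add_mul, map_add, H.dual, if_pos rfl, hκ, smul_mul_assoc, map_smul,
        smul_eq_mul]
    rw [Finset.sum_congr rfl fun i _ => h1 i, Finset.sum_add_distrib]
    simp
  have hR : ∑ i, LinearMap.trace K V ((c * f * z i + z i * (f * c)) * y i) =
      LinearMap.trace K V (c * f * ∑ i, z i * y i) +
        LinearMap.trace K V (f * c * ∑ i, y i * z i) := by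
    rw [Finset.mul_sum, Finset.mul_sum, map_sum, map_sum, ← Finset.sum_add_distrib]
    refine Finset.sum_congr rfl fun i _ => ?_
    rw [add_mul, map_add]
    have e1 : c * f * z i * y i = c * f * (z i * y i) := by rw [mul_assoc]
    have e2 : LinearMap.trace K V (z i * (f * c) * y i) =
        LinearMap.trace K V (f * c * (y i * z i)) := by
      rw [mul_assoc, LinearMap.trace_mul_comm, mul_assoc]
    rw [e1, e2]
  have hT1 : (rk e : K) * LinearMap.trace K V (c * f * ∑ i, z i * y i) =
      (finrank K (up g e) : K) * ρ := by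
    rw [← smul_eq_mul (rk e : K), ← map_smul, ← mul_smul_comm, casimir_up B.G H, mul_smul_comm,
      hPe, map_smul, trace_idem B.idemP, B.rkP, smul_eq_mul]
  have hT2 : (rk (1 - e) : K) * LinearMap.trace K V (f * c * ∑ i, y i * z i) =
      (finrank K (up g e) : K) * ρ := by
    rw [← smul_eq_mul (rk (1 - e) : K), ← map_smul, ← mul_smul_comm, casimir_dn B.G H,
      mul_smul_comm, mul_sub, mul_one, hQe, sub_zero, map_smul, trace_idem B.idemQ, B.rkQ,
      smul_eq_mul]
  have hfin : ((finrank K (up g e) : K) + 1) * ((rk e : K) * rk (1 - e)) =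
      (finrank K (up g e) : K) * (ρ * ((rk e : K) + rk (1 - e))) := by
    rw [← hL, hR]
    linear_combination (rk (1 - e) : K) * hT1 + (rk e : K) * hT2
  have hnat : (finrank K (up g e) + 1) * (rk e * rk (1 - e)) =
      finrank K (up g e) * (ρ * (rk e + rk (1 - e))) := by
    exact_mod_cast hfin
  rw [B.G.rk_add] at hnat
  have h6 : finrank K (up g e) * (ρ * finrank K V) ≤ finrank K (up g e) * (rk e * rk (1 - e)) :=
    Nat.mul_le_mul_left _ hlt.le
  have h7 : 0 < rk e * rk (1 - e) := Nat.mul_pos B.G.rk_e_pos B.G.rk_e_pos'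
  have h8 : (finrank K (up g e) + 1) * (rk e * rk (1 - e)) =
      finrank K (up g e) * (rk e * rk (1 - e)) + rk e * rk (1 - e) := by ring
  omega

end Pool.Agent.SmallRank
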