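import Pool.Agent.SmallRank.IrrUp
import Pool.Agent.SmallRank.PairEx

/-!
# An element of degree zero and weight minus one whose square moves `c`
-/

set_option autoImplicit false
set_option linter.unusedSectionVars false

namespace Pool.Agent.SmallRank

open Module

variable {K V : Type*} [Field K] [CharZero K] [IsAlgClosed K] [AddCommGroup V] [Module K V]
  [FiniteDimensional K V] {g : Submodule K (End K V)} {e : End K V}

section Gen

variable {A : Type*} [Ring A] {P Q R e c z w w' : A}

private theorem gen_PzQ (Pe : P * e = P) (eQ : e * Q = 0) (hz : e * z = z * e) :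
    P * z * Q = 0 := by
  calc P * z * Q = P * e * z * Q := by rw [Pe]
    _ = P * (e * z) * Q := by rw [mul_assoc P e z]
    _ = P * z * (e * Q) := by rw [hz]; simp only [mul_assoc]
    _ = 0 := by rw [eQ, mul_zero]

private theorem gen_QzP (eP : e * P = P) (Qe : Q * e = 0) (hz : e * z = z * e) :
    Q * z * P = 0 := by
  calc Q * z * P = Q * z * (e * P) := by rw [eP]
    _ = Q * (z * e) * P := by simp only [mul_assoc]
    _ = Q * e * z * P := by rw [← hz]; simp only [mul_assoc]
    _ = 0 := by rw [Qe, zero_mul, zero_mul]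

private theorem gen_ww (PR : P * R = 0) (PQ : P * Q = 0) (RR : R * R = R) (RQ : R * Q = 0)
    (eP : e * P = P) (Qe : Q * e = 0) (eR : e * R = R * e)
    (hw : e * w = w * e) (hw' : e * w' = w' * e)
    (h : w = R * w * P + Q * w * R) (h' : w' = R * w' * P + Q * w' * R) : w * w' = 0 := by
  have h1 : P * w' = 0 := by
    calc P * w' = P * (R * w' * P + Q * w' * R) := by rw [← h']
      _ = P * R * w' * P + P * Q * w' * R := by simp only [mul_add, mul_assoc]
      _ = 0 := by rw [PR, PQ]; simp only [zero_mul, add_zero]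
  have h2 : R * w' = R * w' * P := by
    calc R * w' = R * (R * w' * P + Q * w' * R) := by rw [← h']
      _ = R * R * w' * P + R * Q * w' * R := by simp only [mul_add, mul_assoc]
      _ = R * w' * P := by rw [RR, RQ]; simp only [zero_mul, add_zero]
  have h3 : e * (w * R * w') = w * R * w' * e := by
    calc e * (w * R * w') = e * w * R * w' := by simp only [mul_assoc]
      _ = w * (e * R) * w' := by rw [hw]; simp only [mul_assoc]
      _ = w * R * (e * w') := by rw [eR]; simp only [mul_assoc]
      _ = w * R * w' * e := by rw [hw']; simp only [mul_assoc]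
  calc w * w' = (R * w * P + Q * w * R) * w' := by rw [← h]
    _ = R * w * (P * w') + Q * w * (R * w') := by simp only [add_mul, mul_assoc]
    _ = Q * w * (R * w' * P) := by rw [h1, mul_zero, zero_add, ← h2]
    _ = Q * (w * R * w') * P := by simp only [mul_assoc]
    _ = 0 := gen_QzP eP Qe h3

private theorem gen_wm1_e (Pe : P * e = P) (eP : e * P = P) (Qe : Q * e = 0) (eQ : e * Q = 0)
    (eR : e * R = R * e) (hz : e * z = z * e) :
    e * (R * z * P + Q * z * R) = (R * z * P + Q * z * R) * e := by
  have h1 : e * (R * z * P) = R * z * P := by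
    calc e * (R * z * P) = e * R * z * P := by simp only [mul_assoc]
      _ = R * (e * z) * P := by rw [eR]; simp only [mul_assoc]
      _ = R * z * (e * P) := by rw [hz]; simp only [mul_assoc]
      _ = R * z * P := by rw [eP]
  have h2 : R * z * P * e = R * z * P := by rw [mul_assoc, Pe]
  have h3 : e * (Q * z * R) = 0 := by
    calc e * (Q * z * R) = e * Q * z * R := by simp only [mul_assoc]
      _ = 0 := by rw [eQ, zero_mul, zero_mul]
  have h4 : Q * z * R * e = 0 := by
    calc Q * z * R * e = Q * z * (R * e) := by simp only [mul_assoc]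
      _ = Q * (z * e) * R := by rw [← eR]; simp only [mul_assoc]
      _ = Q * e * z * R := by rw [← hz]; simp only [mul_assoc]
      _ = 0 := by rw [Qe, zero_mul, zero_mul]
  rw [mul_add, add_mul, h1, h2, h3, h4]

private theorem gen_wm1 (PR : P * R = 0) (RR : R * R = R) (RQ : R * Q = 0) (PP : P * P = P)
    (QQ : Q * Q = Q) :
    R * z * P + Q * z * R = R * (R * z * P + Q * z * R) * P +
      Q * (R * z * P + Q * z * R) * R := by
  have h : R * (R * z * P + Q * z * R) * P + Q * (R * z * P + Q * z * R) * R =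
      R * R * z * (P * P) + R * Q * z * (R * P) + Q * R * z * (P * R) +
      Q * Q * z * (R * R) := by
    simp only [mul_add, add_mul, mul_assoc]
    abel
  rw [h, RR, PP, RQ, PR, QQ]
  simp only [zero_mul, mul_zero, add_zero]

private theorem gen_w0_e (Pe : P * e = P) (eP : e * P = P) (Qe : Q * e = 0) (eQ : e * Q = 0)
    (eR : e * R = R * e) (hz : e * z = z * e) :
    e * (P * z * P + Q * z * Q + R * z * R) = (P * z * P + Q * z * Q + R * z * R) * e := by
  have h1 : e * (P * z * P) = P * z * P := by rw [← mul_assoc, ← mul_assoc, eP]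
  have h2 : P * z * P * e = P * z * P := by rw [mul_assoc, Pe]
  have h3 : e * (Q * z * Q) = 0 := by rw [← mul_assoc, ← mul_assoc, eQ, zero_mul, zero_mul]
  have h4 : Q * z * Q * e = 0 := by rw [mul_assoc, Qe, mul_zero]
  have h5 : e * (R * z * R) = R * z * R * e := by
    calc e * (R * z * R) = e * R * z * R := by simp only [mul_assoc]
      _ = R * (e * z) * R := by rw [eR]; simp only [mul_assoc]
      _ = R * z * (e * R) := by rw [hz]; simp only [mul_assoc]
      _ = R * z * R * e := by rw [eR]; simp only [mul_assoc]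
  rw [mul_add, mul_add, add_mul, add_mul, h1, h2, h3, h4, h5]

private theorem gen_w0_c (Pc : P * c = c) (cQ : c * Q = c) (Qc : Q * c = 0) (cP : c * P = 0)
    (Rc : R * c = 0) (cR : c * R = 0) :
    (P * z * P + Q * z * Q + R * z * R) * c - c * (P * z * P + Q * z * Q + R * z * R) =
      P * z * c - c * z * Q := by
  have h : (P * z * P + Q * z * Q + R * z * R) * c - c * (P * z * P + Q * z * Q + R * z * R) =
      P * z * (P * c) + Q * z * (Q * c) + R * z * (R * c) -
        (c * P * z * P + c * Q * z * Q + c * R * z * R) := by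
    simp only [mul_add, add_mul, mul_assoc]
  rw [h, Pc, cQ, Qc, cP, Rc, cR]
  simp only [zero_mul, mul_zero, add_zero, zero_add]

private theorem gen_wm1_c (Pc : P * c = c) (cQ : c * Q = c) (Rc : R * c = 0) (cR : c * R = 0)
    (hR : R = 1 - P - Q) (hQP : Q * z * P = 0) :
    z * c - c * z = P * z * c - c * z * Q +
      ((R * z * P + Q * z * R) * c - c * (R * z * P + Q * z * R)) := by
  have h1 : (R * z * P + Q * z * R) * c = R * z * c := by
    calc (R * z * P + Q * z * R) * c = R * z * (P * c) + Q * z * (R * c) := by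
          simp only [add_mul, mul_assoc]
      _ = R * z * c := by rw [Pc, Rc, mul_zero, add_zero]
  have h2 : c * (R * z * P + Q * z * R) = c * z * R := by
    calc c * (R * z * P + Q * z * R) = c * R * z * P + c * Q * z * R := by
          simp only [mul_add, mul_assoc]
      _ = c * z * R := by rw [cR, cQ, zero_mul, zero_mul, zero_add]
  have h3 : Q * z * c = 0 := by
    calc Q * z * c = Q * z * (P * c) := by rw [Pc]
      _ = Q * z * P * c := by simp only [mul_assoc]
      _ = 0 := by rw [hQP, zero_mul]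
  have h4 : c * z * P = 0 := by
    calc c * z * P = c * Q * z * P := by rw [cQ]
      _ = c * (Q * z * P) := by simp only [mul_assoc]
      _ = 0 := by rw [hQP, mul_zero]
  have h5 : R * z * c = z * c - P * z * c := by
    rw [hR, sub_mul, sub_mul, sub_mul, sub_mul, one_mul, h3, sub_zero]
  have h6 : c * z * R = c * z - c * z * Q := by
    rw [hR, mul_sub, mul_sub, mul_one, h4, sub_zero]
  rw [h1, h2, h5, h6]
  abel

private theorem gen_RxR (Rc : R * c = 0) (cR : c * R = 0) : R * (w * c - c * w) * R = 0 := by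
  have h : R * (w * c - c * w) * R = R * w * (c * R) - R * c * w * R := by
    simp only [mul_sub, sub_mul, mul_assoc]
  rw [h, Rc, cR, mul_zero, zero_mul, zero_mul, sub_zero]

end Gen

section Aux

variable {c f : End K V} {ρ : ℕ} (B : Pr g e c f ρ)
include B

private theorem R_c : (1 - c * f - f * c) * c = 0 := by
  rw [sub_mul, sub_mul, one_mul, B.cfc, mul_assoc f, B.cc, mul_zero, sub_self, sub_zero]

private theorem c_R : c * (1 - c * f - f * c) = 0 := by
  rw [mul_sub, mul_sub, mul_one, ← mul_assoc, ← mul_assoc, B.cc, zero_mul, B.cfc, sub_zero,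
    sub_self]

private theorem P_Q : c * f * (f * c) = 0 := by
  rw [← mul_assoc, mul_assoc c, B.ff, mul_zero, zero_mul]

private theorem Q_P : f * c * (c * f) = 0 := by
  rw [← mul_assoc, mul_assoc f, B.cc, mul_zero, zero_mul]

private theorem P_R : c * f * (1 - c * f - f * c) = 0 := by
  rw [mul_sub, mul_sub, mul_one, B.idemP, P_Q B, sub_self, sub_zero]

private theorem R_Q : (1 - c * f - f * c) * (f * c) = 0 := by
  rw [sub_mul, sub_mul, one_mul, B.idemQ, P_Q B, sub_zero, sub_self]

private theorem R_R : (1 - c * f - f * c) * (1 - c * f - f * c) = 1 - c * f - f * c := by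
  have h1 : f * c * (1 - c * f - f * c) = 0 := by
    rw [mul_sub, mul_sub, mul_one, B.idemQ, Q_P B, sub_zero, sub_self]
  calc (1 - c * f - f * c) * (1 - c * f - f * c)
      = (1 - c * f - f * c) - c * f * (1 - c * f - f * c) - f * c * (1 - c * f - f * c) := by
        rw [sub_mul, sub_mul, one_mul]
    _ = 1 - c * f - f * c := by rw [P_R B, h1, sub_zero, sub_zero]

private theorem e_P : e * (c * f) = c * f := by rw [← mul_assoc, B.ec]

private theorem P_e : c * f * e = c * f := by rw [mul_assoc, B.fe]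

private theorem e_Q : e * (f * c) = 0 := by rw [← mul_assoc, B.ef, zero_mul]

private theorem Q_e : f * c * e = 0 := by rw [mul_assoc, B.ce, mul_zero]

private theorem e_R : e * (1 - c * f - f * c) = (1 - c * f - f * c) * e := by
  rw [mul_sub, mul_sub, sub_mul, sub_mul, e_P B, e_Q B, P_e B, Q_e B, mul_one, one_mul]

/-- the space `W` -/
private def wsp (g : Submodule K (End K V)) (e c f : End K V) : Submodule K (End K V) where
  carrier := {w | w ∈ g ∧ e * w = w * e ∧
    w = (1 - c * f - f * c) * w * (c * f) + f * c * w * (1 - c * f - f * c)}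
  add_mem' := fun {x y} hx hy => ⟨g.add_mem hx.1 hy.1, by rw [mul_add, add_mul, hx.2.1, hy.2.1], by
    conv_lhs => rw [hx.2.2, hy.2.2]
    rw [mul_add, add_mul, mul_add, add_mul]
    abel⟩
  zero_mem' := ⟨g.zero_mem, by rw [mul_zero, zero_mul], by
    rw [mul_zero, zero_mul, mul_zero, zero_mul, add_zero]⟩
  smul_mem' := fun k x hx => ⟨g.smul_mem k hx.1, by rw [mul_smul_comm, smul_mul_assoc, hx.2.1], by
    conv_lhs => rw [hx.2.2]
    rw [mul_smul_comm, smul_mul_assoc, mul_smul_comm, smul_mul_assoc, smul_add]⟩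

private theorem ww {w w' : End K V} (hw : w ∈ wsp g e c f) (hw' : w' ∈ wsp g e c f) :
    w * w' = 0 :=
  gen_ww (P_R B) (P_Q B) (R_R B) (R_Q B) (e_P B) (Q_e B) (e_R B) hw.2.1 hw'.2.1 hw.2.2 hw'.2.2

/-- the commutator of `c` with an element of degree zero -/
private theorem brk_c {z : End K V} (hz : z ∈ g) (hze : e * z = z * e) :
    ∃ κ : K, ∃ w ∈ wsp g e c f, z * c - c * z = κ • c + (w * c - c * w) := by
  have hw : (1 - c * f - f * c) * z * (c * f) + f * c * z * (1 - c * f - f * c) ∈
      wsp g e c f :=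
    ⟨B.wt_m1 hz, gen_wm1_e (P_e B) (e_P B) (Q_e B) (e_Q B) (e_R B) hze,
      gen_wm1 (P_R B) (R_R B) (R_Q B) B.idemP B.idemQ⟩
  have hPc : c * f * c = c := B.cfc
  have hcQ : c * (f * c) = c := by rw [← mul_assoc, B.cfc]
  have hQc : f * c * c = 0 := by rw [mul_assoc, B.cc, mul_zero]
  have hcP : c * (c * f) = 0 := by rw [← mul_assoc, B.cc, zero_mul]
  have hup := B.G.lie_up (B.wt_0 hz) (gen_w0_e (P_e B) (e_P B) (Q_e B) (e_Q B) (e_R B) hze) B.cu
  rw [gen_w0_c hPc hcQ hQc hcP (R_c B) (c_R B)] at hup
  obtain ⟨κ, hκ⟩ := line B.min B.cu B.c0 B.rkc.le hup (a := f * z * c - z * (f * c))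
    (b := c * f * z - c * z * f) (by rw [mul_sub]; simp only [mul_assoc])
    (by rw [sub_mul]; simp only [mul_assoc])
  refine ⟨κ, _, hw, ?_⟩
  rw [← hκ]
  exact gen_wm1_c hPc hcQ (R_c B) (c_R B) rfl (gen_QzP (e_P B) (Q_e B) hze)

end Aux

/-- **The element `w`.**

Proof. Let `P = c * f`, `Q = f * c`, `R = 1 - P - Q`, and let `W` be the space of the `w ∈ g` which
commute
with `e` and satisfy `w = R * w * P + Q * w * R`. For `w`, `w' ∈ W`: `w * w' = 0` (`P * R = 0`, `R
* Q = 0`,
`P * Q = 0`, and `Q * w * R * w' * P = 0` as `w`, `w'`, `R` commute with `e`, `Q * e = 0`, `e * P =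
P`).
Assume `w * c * w = 0` for all `w ∈ W`, so `w * c * w' + w' * c * w = 0`. Let `U` be the span of
`c` and
the `w * c - c * w`, `w ∈ W`; `U ≤ up g e` (`Gr.lie_up`). (1) `z * c - c * z ∈ U` for `z ∈ g` of
degree
zero: `z` is the sum of its components of weights `1`, `0`, `-1` (`Pr.wt_1`, `Pr.wt_0`, `Pr.wt_m1`;
`P * z * Q = 0 = Q * z * P` as `z` commutes with `e`; the components commute with `e`); the first
one
commutes with `c` (`P z R c = 0`, `R z Q c = 0`, `c P z R = 0`, `c R z Q = 0`), the second one gives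
`P z P c - c Q z Q = P z c - c z Q`, of the form `c * _` and `_ * c`, in `up g e`, so a multiple of
`c` by
`line` (`P = c * f`, `Q = f * c`), the third one is in `W`. (2) `[z, [w, c]] ∈ U` for `z` of degree
zero:
it is `[[z, w], c] + [w, [z, c]]`, the first in `U` by (1), and `[z, c] = κ c + [w', c]` by (1) and
`[w, [w', c]] = - (w * c * w' + w' * c * w) = 0`. So `U = up g e` by `irr_up` (`c ≠ 0`). But
`R * c * R = 0` and `R * (w * c - c * w) * R = 0` (`c * R = 0`, `R * c = 0`), so `R * x * R = 0`
for all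
`x ∈ up g e`, and for the `x` of the hypothesis `R * x * R = x` (see `exists_pair'`), a
contradiction. -/
theorem exists_w {c f : End K V} {ρ : ℕ} (B : Pr g e c f ρ)
    (h : ∃ x ∈ up g e, x ≠ 0 ∧ f * x = 0 ∧ x * f = 0) :
    ∃ w ∈ g, e * w = w * e ∧
      w = (1 - c * f - f * c) * w * (c * f) + f * c * w * (1 - c * f - f * c) ∧
      w * c * w ≠ 0 := by
  by_contra hcon
  push Not at hcon
  have hW0 : ∀ w ∈ wsp g e c f, w * c * w = 0 := fun w hw => hcon w hw.1 hw.2.1 hw.2.2
  have hpol : ∀ w ∈ wsp g e c f, ∀ w' ∈ wsp g e c f, w * c * w' + w' * c * w = 0 := by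
    intro w hw w' hw'
    have h1 := hW0 _ ((wsp g e c f).add_mem hw hw')
    have h2 : (w + w') * c * (w + w') = w * c * w + w' * c * w' +
        (w * c * w' + w' * c * w) := by
      rw [mul_add, add_mul, add_mul, add_mul]
      abel
    rw [h2, hW0 w hw, hW0 w' hw', add_zero, zero_add] at h1
    exact h1
  let U : Submodule K (End K V) :=
    { carrier := {x | ∃ κ : K, ∃ w ∈ wsp g e c f, x = κ • c + (w * c - c * w)}
      add_mem' := by
        rintro x y ⟨κ, w, hw, rfl⟩ ⟨κ', w', hw', rfl⟩
        refine ⟨κ + κ', w + w', (wsp g e c f).add_mem hw hw', ?_⟩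
        rw [add_smul, add_mul, mul_add]
        abel
      zero_mem' := ⟨0, 0, (wsp g e c f).zero_mem, by
        rw [zero_smul, zero_mul, mul_zero, sub_zero, add_zero]⟩
      smul_mem' := by
        rintro k x ⟨κ, w, hw, rfl⟩
        refine ⟨k * κ, k • w, (wsp g e c f).smul_mem k hw, ?_⟩
        rw [smul_add, smul_sub, smul_smul, smul_mul_assoc, mul_smul_comm] }
  have hUmem : ∀ x, x ∈ U ↔ ∃ κ : K, ∃ w ∈ wsp g e c f, x = κ • c + (w * c - c * w) :=
    fun x => Iff.rfl
  have hcU : c ∈ U := (hUmem c).2 ⟨1, 0, (wsp g e c f).zero_mem, by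
    rw [one_smul, zero_mul, mul_zero, sub_zero, add_zero]⟩
  have hwU : ∀ w ∈ wsp g e c f, w * c - c * w ∈ U := fun w hw =>
    (hUmem _).2 ⟨0, w, hw, by rw [zero_smul, zero_add]⟩
  have hz1 : ∀ z ∈ g, e * z = z * e → z * c - c * z ∈ U := fun z hz hze =>
    (hUmem _).2 (brk_c B hz hze)
  have hU : U ≤ up g e := by
    intro x hx
    obtain ⟨κ, w, hw, rfl⟩ := (hUmem x).1 hx
    exact (up g e).add_mem ((up g e).smul_mem κ B.cu) (B.G.lie_up hw.1 hw.2.1 B.cu)
  have hst : ∀ z ∈ g, e * z = z * e → ∀ u ∈ U, z * u - u * z ∈ U := by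
    intro z hz hze u hu
    obtain ⟨κ, w, hw, rfl⟩ := (hUmem u).1 hu
    obtain ⟨κ', w', hw', h1⟩ := brk_c B hz hze
    have h2 : w * (w' * c - c * w') - (w' * c - c * w') * w = 0 := by
      have h3 := ww B hw hw'
      have h4 := ww B hw' hw
      have h5 := hpol w hw w' hw'
      have h6 : w * (w' * c - c * w') - (w' * c - c * w') * w =
          w * w' * c + c * (w' * w) - (w * c * w' + w' * c * w) := by
        simp only [mul_sub, sub_mul, mul_assoc]
        abel
      rw [h6, h3, h4, h5, zero_mul, mul_zero, add_zero, sub_zero]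
    have h3 : z * w - w * z ∈ g := B.G.lie _ hz _ hw.1
    have h4 : e * (z * w - w * z) = (z * w - w * z) * e := by
      rw [mul_sub, sub_mul, ← mul_assoc, hze, mul_assoc, hw.2.1, ← mul_assoc, ← mul_assoc e w,
        hw.2.1, mul_assoc w e, hze, ← mul_assoc]
    have h5 := hz1 _ h3 h4
    have h6 : z * (κ • c + (w * c - c * w)) - (κ • c + (w * c - c * w)) * z =
        κ • (z * c - c * z) + ((z * w - w * z) * c - c * (z * w - w * z)) +
          (w * (z * c - c * z) - (z * c - c * z) * w) := by
      simp only [mul_sub, sub_mul, mul_add, add_mul, mul_assoc, smul_sub, mul_smul_comm,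
        smul_mul_assoc]
      abel
    have h7 : w * (z * c - c * z) - (z * c - c * z) * w = κ' • (w * c - c * w) := by
      have h8 : w * (κ' • c + (w' * c - c * w')) - (κ' • c + (w' * c - c * w')) * w =
          κ' • (w * c - c * w) + (w * (w' * c - c * w') - (w' * c - c * w') * w) := by
        rw [mul_add, add_mul, mul_smul_comm, smul_mul_assoc, smul_sub]
        abel
      rw [h1, h8, h2, add_zero]
    rw [h6, h7]
    exact U.add_mem (U.add_mem (U.smul_mem κ (hz1 z hz hze)) h5) (U.smul_mem κ' (hwU w hw))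
  obtain ⟨x, hx, hx0, hfx, hxf⟩ := h
  have hUt : U = up g e := by
    rcases irr_up B.G hU hst with h1 | h1
    · rw [h1, Submodule.mem_bot] at hcU
      exact absurd hcU B.c0
    · exact h1
  rw [← hUt] at hx
  obtain ⟨κ, w, hw, hxw⟩ := (hUmem x).1 hx
  have hxu : x ∈ up g e := hU hx
  have hcx : c * x = 0 := Gr.up_mul_up B.cu hxu
  have hxc : x * c = 0 := Gr.up_mul_up hxu B.cu
  have hRx : (1 - c * f - f * c) * x = x := by
    rw [sub_mul, sub_mul, one_mul, mul_assoc, hfx, mul_zero, mul_assoc, hcx, mul_zero, sub_zero,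
      sub_zero]
  have hxR : x * (1 - c * f - f * c) = x := by
    rw [mul_sub, mul_sub, mul_one, ← mul_assoc, hxc, zero_mul, ← mul_assoc, hxf, zero_mul,
      sub_zero, sub_zero]
  apply hx0
  have hRc := R_c B
  have hcR := c_R B
  calc x = (1 - c * f - f * c) * x * (1 - c * f - f * c) := by rw [hRx, hxR]
    _ = (1 - c * f - f * c) * (κ • c + (w * c - c * w)) * (1 - c * f - f * c) := by rw [← hxw]
    _ = κ • ((1 - c * f - f * c) * c * (1 - c * f - f * c)) +
        (1 - c * f - f * c) * (w * c - c * w) * (1 - c * f - f * c) := by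
        rw [mul_add, add_mul, mul_smul_comm, smul_mul_assoc]
    _ = 0 := by rw [gen_RxR hRc hcR, hRc, zero_mul, smul_zero, add_zero]

end Pool.Agent.SmallRank
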