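import Pool.Agent.SmallRank.Frame
import Pool.Agent.SmallRank.Weights
import Pool.Agent.SmallRank.PairEx

/-!
# Existence of frames
-/

set_option autoImplicit false
set_option linter.unusedSectionVars false

namespace Pool.Agent.SmallRank

open Module

variable {K V : Type*} [Field K] [CharZero K] [IsAlgClosed K] [AddCommGroup V] [Module K V]
  [FiniteDimensional K V] {g : Submodule K (End K V)} {e : End K V}

/-- the component of weight minus four for two orthogonal pairs -/
private theorem fe_m4 {c f x y z : End K V} {ρ : ℕ} (B : Pr g e c f ρ) (B' : Pr g e x y ρ)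
    (hfx : f * x = 0) (hxf : x * f = 0) (hyc : y * c = 0) (hcy : c * y = 0) (hz : z ∈ g) :
    x * y * z * (c * f) + f * c * z * (y * x) ∈ g := by
  have hcx : c * x = 0 := Gr.up_mul_up B.cu B'.cu
  have hxc : x * c = 0 := Gr.up_mul_up B'.cu B.cu
  have hfy : f * y = 0 := Gr.dn_mul_dn B.fd B'.fd
  have hyf : y * f = 0 := Gr.dn_mul_dn B'.fd B.fd
  have hcc : c * c = 0 := B.cc
  have hff : f * f = 0 := B.ff
  have hxx : x * x = 0 := B'.cc
  have hyy : y * y = 0 := B'.ff
  have hec : e * c = c := B.ec
  have hce : c * e = 0 := B.ce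
  have hef : e * f = 0 := B.ef
  have hfe : f * e = f := B.fe
  have hex : e * x = x := B'.ec
  have hxe : x * e = 0 := B'.ce
  have hey : e * y = 0 := B'.ef
  have hye : y * e = y := B'.fe
  have hee : e * e = e := B.G.idem
  have hcfc : c * (f * c) = c := by rw [← mul_assoc, B.cfc]
  have hfcf : f * (c * f) = f := by rw [← mul_assoc, B.fcf]
  have hxyx : x * (y * x) = x := by rw [← mul_assoc, B'.cfc]
  have hyxy : y * (x * y) = y := by rw [← mul_assoc, B'.fcf]
  have A : ∀ {a b : End K V}, a * b = 0 → ∀ u, a * (b * u) = 0 := fun h u => by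
    rw [← mul_assoc, h, zero_mul]
  have A1 : ∀ {a b d : End K V}, a * b = d → ∀ u, a * (b * u) = d * u := fun h u => by
    rw [← mul_assoc, h]
  set p : Fin 6 → End K V :=
    ![c * f, x * y, e - c * f - x * y, f * c, y * x, 1 - e - f * c - y * x] with hpdef
  have hp : ∀ i j, p i * p j = if i = j then p i else 0 := by
    intro i j
    fin_cases i <;> fin_cases j <;>
      simp only [hpdef, Fin.zero_eta, Fin.mk_one, Fin.reduceFinMk, Fin.isValue,
        Matrix.cons_val_zero, Matrix.cons_val_one, Matrix.cons_val, if_true,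
        Fin.reduceEq, if_false, mul_sub, sub_mul, mul_one, one_mul, mul_assoc,
        hce, hfe, hxe, hye, hee, hcfc, hfcf, hxyx, hyxy,
        A hcx, A hxc, A hfy, A hyf, A hcc, A hff, A hxx, A hyy, A1 hec, A hef,
        A1 hex, A hey, A hfx, A hxf, A hyc, A hcy, mul_zero, sub_zero, sub_self]
  have hsum : ∑ i, p i = 1 := by
    rw [Fin.sum_univ_six]
    simp only [hpdef, Fin.isValue, Matrix.cons_val_zero, Matrix.cons_val_one, Matrix.cons_val]
    abel
  set wt : Fin 6 → ℤ := ![30, 26, 25, -5, -1, 0] with hwt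
  have hh : ∑ i, (wt i : K) • p i ∈ g := by
    have h1 : ∑ i, (wt i : K) • p i =
        (25 : K) • e + (5 : K) • (c * f - f * c) + (x * y - y * x) := by
      rw [Fin.sum_univ_six]
      simp only [hpdef, hwt, Fin.isValue, Matrix.cons_val_zero, Matrix.cons_val_one,
        Matrix.cons_val]
      push_cast
      module
    rw [h1]
    exact g.add_mem (g.add_mem (g.smul_mem _ B.G.mem)
      (g.smul_mem _ (B.G.lie _ B.cu.1 _ B.fd.1))) (B.G.lie _ B'.cu.1 _ B'.fd.1)
  have h2 := weights B.G.lie hp hsum hh hz (-4)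
  have h3 : ∑ i, ∑ j, (if wt i - wt j = -4 then p i * z * p j else 0) =
      x * y * z * (c * f) + f * c * z * (y * x) := by
    simp only [Fin.sum_univ_six]
    simp only [hpdef, hwt, Fin.isValue, Matrix.cons_val_zero, Matrix.cons_val_one,
      Matrix.cons_val]
    norm_num
  rwa [h3] at h2

/-- **Frames.**

Proof. Let `P = c * f`, `Q = f * c`, `R = 1 - P - Q`. `w * w = 0` (see the hypothesis `hw`: `P * R
= 0`,
`R * Q = 0`, `P * Q = 0` and `Q * w * R * w * P = 0` as `w`, `R` commute with `e`, `Q * e = 0`, `e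
* P = P`), so
`x = w * c * w ∈ g`: `[w, [w, c]] = -2 • (w * c * w)`; `x ∈ up g e` (`w` commutes with `e`). `x ≠
0`,
`rk x ≤ rk c = ρ`, so `rk x = ρ` by minimality. `f * x = 0` and `x * f = 0`:
`x = R * w * c * w * R` (`w * c = R * w * c`: `P * c = c`, `R * c = 0`; `c * w = c * w * R`: `c * Q
= c`,
`c * R = 0`), and `f * R = 0`, `R * f = 0`. Take `y` by `exists_pair'` and let
`w' = x * y * w * (c * f) + f * c * w * (y * x)`. It is in `g` by `weights` with `n = 6`,
`p = ![c * f, x * y, e - c * f - x * y, f * c, y * x, 1 - e - f * c - y * x]`,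
`wt = ![30, 26, 25, -5, -1, 0]`, `k = -4` (see `FrWts.lean`; all products of the six idempotents
follow
from `f * x = 0`, `x * f = 0`, `y * c = 0`, `c * y = 0` and the degrees).
`w' * c * w' = x * y * w * c * w * y * x = x * y * x * y * x = x` (`(f * c) * c = 0`, `y * x * c =
0`,
`c * x = 0`, `c * (f * c) = c`), and `w'` satisfies `wP` (the idempotents are orthogonal). -/
theorem exists_frame_of {c f : End K V} {ρ : ℕ} (B : Pr g e c f ρ) {w : End K V} (hwg : w ∈ g)
    (hwe : e * w = w * e)
    (hw : w = (1 - c * f - f * c) * w * (c * f) + f * c * w * (1 - c * f - f * c))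
    (h0 : w * c * w ≠ 0) : ∃ x y w', Fr g e c f x y w' ρ := by
  have hcc : c * c = 0 := B.cc
  have hff : f * f = 0 := B.ff
  have hfw : f * w = 0 := by
    have h1 : f * (1 - c * f - f * c) = 0 := by
      rw [mul_sub, mul_sub, mul_one, ← mul_assoc, ← mul_assoc, B.fcf, hff, zero_mul, sub_self,
        sub_zero]
    rw [hw, mul_add]
    simp only [← mul_assoc]
    rw [h1, hff]
    simp only [zero_mul, add_zero]
  have hwf : w * f = 0 := by
    have h1 : (1 - c * f - f * c) * f = 0 := by
      rw [sub_mul, sub_mul, one_mul, B.fcf, mul_assoc, hff, mul_zero, sub_zero, sub_self]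
    rw [hw, add_mul]
    simp only [mul_assoc]
    rw [h1, hff]
    simp only [mul_zero, add_zero]
  have hww : w * w = 0 := by
    obtain ⟨R, hR⟩ : ∃ R, R = 1 - c * f - f * c := ⟨_, rfl⟩
    rw [← hR] at hw
    have hPR : c * f * R = 0 := by
      rw [hR, mul_sub, mul_sub, mul_one, B.idemP, mul_assoc c f, ← mul_assoc f f, hff, zero_mul,
        mul_zero, sub_self, sub_zero]
    have hRQ : R * (f * c) = 0 := by
      rw [hR, sub_mul, sub_mul, one_mul, B.idemQ, mul_assoc c f, ← mul_assoc f f, hff, zero_mul,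
        mul_zero, sub_zero, sub_self]
    have hPQ : c * f * (f * c) = 0 := by
      rw [mul_assoc, ← mul_assoc f f, hff, zero_mul, mul_zero]
    have hRe : R * e = e * R := by
      rw [hR, sub_mul, sub_mul, one_mul, mul_sub, mul_sub, mul_one, mul_assoc, B.fe, mul_assoc,
        B.ce, mul_zero, ← mul_assoc, B.ec, ← mul_assoc, B.ef, zero_mul]
    have hba : f * c * w * R * (R * w * (c * f)) = 0 := by
      have h1 : R * w * (c * f) = e * (R * w * (c * f)) := by
        have h2 : c * f = e * (c * f) := by rw [← mul_assoc, B.ec]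
        have h4 : R * w * e = e * (R * w) := by
          rw [mul_assoc R w e, ← hwe, ← mul_assoc, hRe, mul_assoc]
        calc R * w * (c * f) = R * w * (e * (c * f)) := by rw [← h2]
          _ = R * w * e * (c * f) := by rw [mul_assoc (R * w)]
          _ = e * (R * w * (c * f)) := by rw [h4, mul_assoc e]
      have h3 : f * c * w * R * e = 0 := by
        rw [mul_assoc _ R e, hRe, ← mul_assoc, mul_assoc _ w e, ← hwe, ← mul_assoc,
          mul_assoc f c e, B.ce, mul_zero, zero_mul, zero_mul]
      rw [h1, ← mul_assoc, h3, zero_mul]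
    have haa : R * w * (c * f) * (R * w * (c * f)) = 0 := by
      rw [mul_assoc (R * w) (c * f), ← mul_assoc (c * f) (R * w), ← mul_assoc (c * f) R, hPR,
        zero_mul, zero_mul, mul_zero]
    have hab : R * w * (c * f) * (f * c * w * R) = 0 := by
      rw [mul_assoc (R * w) (c * f), ← mul_assoc (c * f) (f * c * w),
        ← mul_assoc (c * f) (f * c), hPQ, zero_mul, zero_mul, mul_zero]
    have hbb : f * c * w * R * (f * c * w * R) = 0 := by
      rw [mul_assoc (f * c * w) R, ← mul_assoc R (f * c * w), ← mul_assoc R (f * c), hRQ,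
        zero_mul, zero_mul, mul_zero]
    rw [hw, mul_add, add_mul, add_mul, haa, hab, hba, hbb, add_zero, add_zero]
  have hxg : w * c * w ∈ g := by
    have h1 := B.G.lie _ hwg _ (B.G.lie _ hwg _ B.cu.1)
    have h2 : w * (w * c - c * w) - (w * c - c * w) * w = (-2 : K) • (w * c * w) := by
      rw [mul_sub, sub_mul, ← mul_assoc, hww, zero_mul, mul_assoc c, hww, mul_zero, ← mul_assoc]
      rw [zero_sub, sub_zero, neg_smul, two_smul]
      abel
    rw [h2] at h1
    have h3 := g.smul_mem (-2⁻¹ : K) h1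
    rw [smul_smul, show (-2⁻¹ : K) * -2 = 1 by norm_num, one_smul] at h3
    exact h3
  have hx : w * c * w ∈ up g e := by
    refine ⟨hxg, ?_, ?_⟩
    · rw [← mul_assoc, ← mul_assoc, hwe, mul_assoc w e c, B.ec]
    · rw [mul_assoc, ← hwe, ← mul_assoc, mul_assoc w c e, B.ce, mul_zero, zero_mul]
  have hrk : rk (w * c * w) = ρ := by
    refine le_antisymm ?_ (B.min _ hx h0)
    exact (rk_mul_left _ _).trans ((rk_mul_right _ _).trans B.rkc.le)
  have hfx : f * (w * c * w) = 0 := by
    rw [← mul_assoc, ← mul_assoc, hfw, zero_mul, zero_mul]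
  have hxf : w * c * w * f = 0 := by
    rw [mul_assoc, hwf, mul_zero]
  obtain ⟨y, B', hyc, hcy⟩ := exists_pair' B hx h0 hrk hfx hxf
  obtain ⟨x, hxd⟩ : ∃ x, x = w * c * w := ⟨_, rfl⟩
  rw [← hxd] at B' hfx hxf
  have hcx : c * x = 0 := Gr.up_mul_up B.cu B'.cu
  have hxc : x * c = 0 := Gr.up_mul_up B'.cu B.cu
  have hyf : y * f = 0 := Gr.dn_mul_dn B'.fd B.fd
  refine ⟨x, y, x * y * w * (c * f) + f * c * w * (y * x), ⟨B, B', hfx, hxf, hyc, hcy,
    fe_m4 B B' hfx hxf hyc hcy hwg, ?_, ?_⟩⟩
  · have h1 : x * y * (x * y * w * (c * f) + f * c * w * (y * x)) * (c * f) =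
        x * y * w * (c * f) := by
      have h2 : x * y * (f * c * w * (y * x)) = 0 := by
        rw [mul_assoc x y, ← mul_assoc y, ← mul_assoc y, ← mul_assoc y, hyf]
        simp only [zero_mul, mul_zero]
      have h3 : x * y * (x * y * w * (c * f)) = x * y * w * (c * f) := by
        rw [← mul_assoc (x * y), ← mul_assoc (x * y), B'.idemP]
      rw [mul_add, h2, h3, add_zero, mul_assoc _ (c * f) (c * f), B.idemP]
    have h4 : f * c * (x * y * w * (c * f) + f * c * w * (y * x)) * (y * x) =
        f * c * w * (y * x) := by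
      have h2 : f * c * (x * y * w * (c * f)) = 0 := by
        rw [mul_assoc f c, ← mul_assoc c, ← mul_assoc c, ← mul_assoc c, hcx]
        simp only [zero_mul, mul_zero]
      have h3 : f * c * (f * c * w * (y * x)) = f * c * w * (y * x) := by
        rw [← mul_assoc (f * c), ← mul_assoc (f * c), B.idemQ]
      rw [mul_add, h2, h3, zero_add, mul_assoc _ (y * x) (y * x), B'.idemQ]
    rw [h1, h4]
  · have h1 : (x * y * w * (c * f) + f * c * w * (y * x)) * c = x * y * w * c := by
      rw [add_mul, mul_assoc _ (c * f) c, B.cfc, mul_assoc _ (y * x) c, mul_assoc y x c, hxc,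
        mul_zero, mul_zero, add_zero]
    have h2 : c * (x * y * w * (c * f) + f * c * w * (y * x)) = c * w * (y * x) := by
      have h4 : c * (x * y * w * (c * f)) = 0 := by
        simp only [← mul_assoc]
        rw [hcx]
        simp only [zero_mul]
      have h5 : c * (f * c * w * (y * x)) = c * w * (y * x) := by
        simp only [← mul_assoc]
        rw [B.cfc]
      rw [mul_add, h4, h5, zero_add]
    have h3 : x * y * w * c * (x * y * w * (c * f) + f * c * w * (y * x)) =
        x * y * (w * c * w) * (y * x) := by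
      rw [mul_assoc _ c, h2]
      simp only [mul_assoc]
    rw [h1, h3, ← hxd, B'.cfc, ← mul_assoc, B'.cfc]

end Pool.Agent.SmallRank
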