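import Pool.Agent.SmallRank.ZeroPart

/-!
# From an element of small rank to an element of degree one or minus one
-/

set_option autoImplicit false
set_option linter.unusedSectionVars false

namespace Pool.Agent.SmallRank

open Module

variable {K V : Type*} [Field K] [CharZero K] [IsAlgClosed K] [AddCommGroup V] [Module K V]
  [FiniteDimensional K V] {g : Submodule K (End K V)} {e : End K V}

private theorem small_comm (G : Gr g e) {N x : End K V} (hN : N ∈ g) (hNe : e * N = N * e)
    (hx : x ∈ up g e) : N * x - x * N ∈ up g e ∧ rk (N * x - x * N) ≤ rk N := by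
  refine ⟨G.lie_up hN hNe hx, ?_⟩
  have h1 : x * N * x = 0 := by
    calc x * N * x = x * (N * e) * x := by rw [← mul_assoc, mul_assoc (x * N) e x, hx.2.1]
      _ = x * (e * N) * x := by rw [hNe]
      _ = 0 := by rw [← mul_assoc, hx.2.2, zero_mul, zero_mul]
  have h2 : N * x - x * N = e * ((1 - x) * N * (1 + x)) * (1 - e) := by
    have e1 : (1 - x) * N * (1 + x) = N + (N * x - x * N) := by
      have : (1 - x) * N * (1 + x) = N + (N * x - x * N) - x * N * x := by noncomm_ring
      rw [this, h1, sub_zero]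
    have e2 : e * N * (1 - e) = 0 := by rw [hNe, mul_assoc, G.e1, mul_zero]
    have e3 := G.lie_up hN hNe hx
    have e4 : (N * x - x * N) * (1 - e) = N * x - x * N := by
      rw [mul_sub, mul_one, e3.2.2, sub_zero]
    rw [e1, mul_add, add_mul, e2, zero_add, e3.2.1, e4]
  rw [h2]
  calc rk (e * ((1 - x) * N * (1 + x)) * (1 - e))
      ≤ rk (e * ((1 - x) * N * (1 + x))) := rk_mul_left _ _
    _ ≤ rk ((1 - x) * N * (1 + x)) := rk_mul_right _ _
    _ ≤ rk ((1 - x) * N) := rk_mul_left _ _
    _ ≤ rk N := rk_mul_right _ _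

/-- **Elements of small rank.**

Proof. If `e * N * (1 - e) ≠ 0` take it (`Gr.up_mem`, `rk_mul_left`, `rk_mul_right`), similarly if
`(1 - e) * N * e ≠ 0`. Otherwise `N` commutes with `e` (`Gr.decomp`, `Gr.zero_comm`). For
`x ∈ up g e` let `x' = N * x - x * N ∈ up g e` (`Gr.lie_up`);
`x' = e * ((1 - x) * N * (1 + x)) * (1 - e)`: the product is `N + N * x - x * N - x * N * x`,
`x * N * x = 0` as `N` commutes with `e`. So `rk x' ≤ rk N`; if `x' ≠ 0` for some `x` take it. In
the same way for `y ∈ dn g e`. If all these commutators are zero then `N` commutes with `up g e`,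
`dn g e`, hence with their commutators, hence with the elements of degree zero (`zero_span`,
`Submodule.span_induction`), hence with `g` (`Gr.decomp`, `Gr.zero_mem`), so it is scalar by
`Gr.scalar`, a contradiction. -/
theorem exists_small (G : Gr g e) {N : End K V} (hN : N ∈ g) (hns : ∀ κ : K, N ≠ κ • 1) :
    ∃ x, x ≠ 0 ∧ rk x ≤ rk N ∧ (x ∈ up g e ∨ x ∈ dn g e) := by
  by_cases hu : e * N * (1 - e) = 0
  swap
  · exact ⟨_, hu, (rk_mul_left _ _).trans (rk_mul_right _ _), Or.inl (G.up_mem hN)⟩
  by_cases hd : (1 - e) * N * e = 0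
  swap
  · exact ⟨_, hd, (rk_mul_left _ _).trans (rk_mul_right _ _), Or.inr (G.dn_mem hN)⟩
  have hNe : e * N = N * e := by
    have h1 := G.decomp N
    rw [hu, hd, zero_add, zero_add] at h1
    have h2 := G.zero_comm N
    rwa [← h1] at h2
  have hNe' : (1 - e) * N = N * (1 - e) := by
    rw [sub_mul, mul_sub, one_mul, mul_one, hNe]
  by_cases hcu : ∀ x ∈ up g e, N * x - x * N = 0
  swap
  · push Not at hcu
    obtain ⟨x, hx, hx0⟩ := hcu
    exact ⟨_, hx0, (small_comm G hN hNe hx).2, Or.inl (small_comm G hN hNe hx).1⟩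
  by_cases hcd : ∀ y ∈ dn g e, N * y - y * N = 0
  swap
  · push Not at hcd
    obtain ⟨y, hy, hy0⟩ := hcd
    rw [← up_symm] at hy
    have h1 := small_comm G.symm hN hNe' hy
    rw [up_symm] at h1
    exact ⟨_, hy0, h1.2, Or.inr h1.1⟩
  exfalso
  have hspan : ∀ d ∈ Submodule.span K {d | ∃ x ∈ up g e, ∃ y ∈ dn g e, d = x * y - y * x},
      N * d = d * N := by
    intro d hd
    induction hd using Submodule.span_induction with
    | mem d hd =>
      obtain ⟨x, hx, y, hy, rfl⟩ := hd
      have h1 := sub_eq_zero.1 (hcu x hx)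
      have h2 := sub_eq_zero.1 (hcd y hy)
      have h3 : N * (x * y) = x * y * N := by
        rw [← mul_assoc, h1, mul_assoc, h2, ← mul_assoc]
      have h4 : N * (y * x) = y * x * N := by
        rw [← mul_assoc, h2, mul_assoc, h1, ← mul_assoc]
      rw [mul_sub, sub_mul, h3, h4]
    | zero => rw [mul_zero, zero_mul]
    | add a b _ _ ha hb => rw [mul_add, add_mul, ha, hb]
    | smul c a _ ha => rw [mul_smul_comm, smul_mul_assoc, ha]
  have hzero : ∀ (z : End K V) (κ : K), z - κ • 1 ∈
      Submodule.span K {d | ∃ x ∈ up g e, ∃ y ∈ dn g e, d = x * y - y * x} →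
      N * z = z * N := by
    intro z κ hz
    have h1 := hspan _ hz
    rw [mul_sub, sub_mul, mul_smul_comm, smul_mul_assoc, mul_one, one_mul, sub_left_inj] at h1
    exact h1
  obtain ⟨c, hc⟩ := G.scalar (z := N) fun x hx => by
    obtain ⟨κ, hκ⟩ := zero_span G (G.zero_mem hx) (G.zero_comm x)
    have h1 := hzero _ _ hκ
    have h2 := sub_eq_zero.1 (hcu _ (G.up_mem hx))
    have h3 := sub_eq_zero.1 (hcd _ (G.dn_mem hx))
    rw [G.decomp x, mul_add, mul_add, add_mul, add_mul, h1, h2, h3]
  exact hns c hc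

end Pool.Agent.SmallRank
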