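import Pool.Agent.SmallRank.CoreA
import Pool.Agent.SmallRank.FrameEx
import Pool.Agent.SmallRank.ExW
import Pool.Agent.SmallRank.Count
import Pool.Agent.SmallRank.Small

/-!
# The minimal rank is one or two
-/

set_option autoImplicit false
set_option linter.unusedSectionVars false

namespace Pool.Agent.SmallRank

open Module

variable {K V : Type*} [Field K] [CharZero K] [IsAlgClosed K] [AddCommGroup V] [Module K V]
  [FiniteDimensional K V] {g : Submodule K (End K V)} {e : End K V}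

/-- **Existence of frames.** Proof. `exists_zero`, `exists_w`, `exists_frame_of`. -/
theorem exists_frame {c f : End K V} {ρ : ℕ} (B : Pr g e c f ρ)
    (hlt : ρ * finrank K V < rk e * rk (1 - e)) : ∃ x y w, Fr g e c f x y w ρ := by
  obtain ⟨w, hwg, hwe, hw, h0⟩ := exists_w B (exists_zero B hlt)
  exact exists_frame_of B hwg hwe hw h0

/-- **The theorem on elements of small rank.**

Proof. Let `ρ` be the minimal rank of the nonzero elements of `up g e` (`exists_up`, `Nat.find`),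
attained
at `c`, with a partner `f` (`exists_pair`). By `exists_small` and `min_dn`, `ρ ≤ rk N`, so
`ρ * finrank V < rk e * rk (1 - e)`. `c * c = 0`, `c ≠ 0`, `c ∈ g`; claim: `ρ ≤ 2`, and if `ρ = 2`
then
`rk e = rk (1 - e)` (`ρ ≥ 1` by `Pr.rho_pos`). Take a frame `F` for `(e, c, f)` and a frame `F'` for
`(1 - e, f, c)` (`Pr.symm`, `exists_frame`; `1 - (1 - e) = e`), and let `S`, `T`, `S'`, `T'` be
their third
blocks: by `Fr.rk_e`, `Fr.rk_e'`: `rk e = 2 ρ + rk S = 2 ρ + rk T'` and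
`rk (1 - e) = 2 ρ + rk T = 2 ρ + rk S'`. Not both `S = 0` and `S' = 0`: otherwise
`rk e = rk (1 - e) = 2 ρ`, `finrank V = 4 ρ` (`Gr.rk_add`), against `hlt`. So `ρ ≤ 2` by
`Fr.rho_le`. If
`ρ = 2`: if `S ≠ 0` then `rk S ≤ rk T = rk S'`, so `S' ≠ 0` and `rk S' ≤ rk T' = rk S`; the same if
`S' ≠ 0`. -/
theorem small (G : Gr g e) {N : End K V} (hN : N ∈ g) (hns : ∀ κ : K, N ≠ κ • 1)
    (hlt : rk N * finrank K V < rk e * rk (1 - e)) :
    ∃ c ∈ g, c * c = 0 ∧ (rk c = 1 ∨ (rk c = 2 ∧ rk e = rk (1 - e))) := by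
  classical
  have hex : ∃ n, ∃ x ∈ up g e, x ≠ 0 ∧ rk x = n := by
    obtain ⟨x, hx, hx0⟩ := exists_up G
    exact ⟨_, x, hx, hx0, rfl⟩
  obtain ⟨ρ, ⟨c, hc, hc0, hrk⟩, hfind⟩ : ∃ ρ, (∃ x ∈ up g e, x ≠ 0 ∧ rk x = ρ) ∧
      ∀ n, (∃ x ∈ up g e, x ≠ 0 ∧ rk x = n) → ρ ≤ n :=
    ⟨Nat.find hex, Nat.find_spec hex, fun n hn => Nat.find_min' hex hn⟩
  have hmin : ∀ x ∈ up g e, x ≠ 0 → ρ ≤ rk x := fun x hx hx0 => hfind _ ⟨x, hx, hx0, rfl⟩
  obtain ⟨f, B⟩ := exists_pair G hmin hc hc0 hrk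
  have hρ : ρ ≤ rk N := by
    obtain ⟨x, hx0, hxr, hx | hx⟩ := exists_small G hN hns
    · exact (hmin x hx hx0).trans hxr
    · exact (min_dn G hmin x hx hx0).trans hxr
  have hlt' : ρ * finrank K V < rk e * rk (1 - e) :=
    lt_of_le_of_lt (Nat.mul_le_mul_right _ hρ) hlt
  have hlt'' : ρ * finrank K V < rk (1 - e) * rk (1 - (1 - e)) := by
    rw [sub_sub_cancel, mul_comm (rk (1 - e))]
    exact hlt'
  obtain ⟨x, y, w, F⟩ := exists_frame B hlt'
  obtain ⟨x', y', w', F'⟩ := exists_frame B.symm hlt''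
  have r1 := F.rk_e
  have r2 := F.rk_e'
  have r3 := F'.rk_e
  have r4 : rk e = 2 * ρ + rk (1 - (1 - e) - c * f - y' * x') := by
    have h := F'.rk_e'
    rwa [show rk (1 - (1 - e)) = rk e by rw [sub_sub_cancel]] at h
  have r5 := G.rk_add
  have a1 : e - c * f - x * y ≠ 0 → ρ ≤ 2 ∧
      (ρ = 2 → rk (e - c * f - x * y) ≤ rk (1 - e - f * c - y * x)) := fun h => F.rho_le h
  have a2 : 1 - e - f * c - x' * y' ≠ 0 → ρ ≤ 2 ∧
      (ρ = 2 → rk (1 - e - f * c - x' * y') ≤ rk (1 - (1 - e) - c * f - y' * x')) :=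
    fun h => F'.rho_le h
  rw [Ne, ← rk_eq_zero] at a1 a2
  have hpos := B.rho_pos
  have hnot : ¬ (rk (e - c * f - x * y) = 0 ∧ rk (1 - e - f * c - x' * y') = 0) := by
    rintro ⟨h1, h2⟩
    rw [h1, add_zero] at r1
    rw [h2, add_zero] at r3
    rw [← r5, r1, r3] at hlt'
    have h3 : ρ * (2 * ρ + 2 * ρ) = 2 * ρ * (2 * ρ) := by ring
    omega
  have hcc : c * c = 0 := B.cc
  refine ⟨c, hc.1, hcc, ?_⟩
  rw [hrk]
  generalize rk (e - c * f - x * y) = s at *
  generalize rk (1 - e - f * c - y * x) = t at *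
  generalize rk (1 - e - f * c - x' * y') = s' at *
  generalize rk (1 - (1 - e) - c * f - y' * x') = t' at *
  by_cases hs : s = 0
  · have hs' : s' ≠ 0 := fun h => hnot ⟨hs, h⟩
    obtain ⟨b1, b2⟩ := a2 hs'
    by_cases h2 : ρ = 2
    · right
      have b3 := b2 h2
      omega
    · left
      omega
  · obtain ⟨b1, b2⟩ := a1 hs
    by_cases h2 : ρ = 2
    · right
      have b3 := b2 h2
      have hs' : s' ≠ 0 := by omega
      have b4 := (a2 hs').2 h2
      omega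
    · left
      omega

end Pool.Agent.SmallRank
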