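import Pool.Agent.SmallRank.Defs

/-!
# Dual bases of the parts of degree one and minus one
-/

set_option autoImplicit false
set_option linter.unusedSectionVars false

namespace Pool.Agent.SmallRank

open Module

variable {K V : Type*} [Field K] [CharZero K] [IsAlgClosed K] [AddCommGroup V] [Module K V]
  [FiniteDimensional K V] {g : Submodule K (End K V)} {e : End K V}

/-- dual bases -/
structure Du (g : Submodule K (End K V)) (e : End K V)
    (z y : Fin (finrank K (up g e)) → End K V) : Prop where
  zu : ∀ i, z i ∈ up g e
  yd : ∀ i, y i ∈ dn g e
  dual : ∀ i j, LinearMap.trace K V (z i * y j) = if i = j then 1 else 0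
  ez : ∀ x ∈ up g e, x = ∑ i, LinearMap.trace K V (x * y i) • z i
  ey : ∀ x ∈ dn g e, x = ∑ i, LinearMap.trace K V (z i * x) • y i

/-- **Dual bases.**

Proof. The map `dn g e → Dual (up g e)`, `y ↦ (x ↦ trace (x * y))` is injective (`Gr.nd_dn`), and
the
same with the roles exchanged (`Gr.nd_up`), so both spaces have the same dimension and the map is
bijective. Let `z` be a basis of `up g e` (`finBasis`) and `y i` the preimage of the `i`-th
coordinate. `ez`: coordinates. `ey`: both sides have the same pairing with all `z j`, hence with
`up g e`, and `Gr.nd_dn`. -/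
theorem exists_dual (G : Gr g e) : ∃ z y : Fin (finrank K (up g e)) → End K V, Du g e z y := by
  let T : dn g e →ₗ[K] Dual K (up g e) :=
    { toFun := fun y =>
        ((LinearMap.trace K V).comp (LinearMap.mulRight K (y : End K V))).comp (up g e).subtype
      map_add' := fun a b => by
        ext x
        change LinearMap.trace K V ((x : End K V) * ((a : End K V) + (b : End K V))) =
          LinearMap.trace K V ((x : End K V) * (a : End K V)) +
            LinearMap.trace K V ((x : End K V) * (b : End K V))
        rw [mul_add, map_add]
      map_smul' := fun r a => by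
        ext x
        change LinearMap.trace K V ((x : End K V) * (r • (a : End K V))) =
          r • LinearMap.trace K V ((x : End K V) * (a : End K V))
        rw [mul_smul_comm, map_smul] }
  have hTa : ∀ (y : dn g e) (x : up g e),
      T y x = LinearMap.trace K V ((x : End K V) * (y : End K V)) := fun y x => rfl
  let T' : up g e →ₗ[K] Dual K (dn g e) :=
    { toFun := fun x =>
        ((LinearMap.trace K V).comp (LinearMap.mulLeft K (x : End K V))).comp (dn g e).subtype
      map_add' := fun a b => by
        ext y
        change LinearMap.trace K V (((a : End K V) + (b : End K V)) * (y : End K V)) =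
          LinearMap.trace K V ((a : End K V) * (y : End K V)) +
            LinearMap.trace K V ((b : End K V) * (y : End K V))
        rw [add_mul, map_add]
      map_smul' := fun r a => by
        ext y
        change LinearMap.trace K V ((r • (a : End K V)) * (y : End K V)) =
          r • LinearMap.trace K V ((a : End K V) * (y : End K V))
        rw [smul_mul_assoc, map_smul] }
  have hTa' : ∀ (x : up g e) (y : dn g e),
      T' x y = LinearMap.trace K V ((x : End K V) * (y : End K V)) := fun y x => rfl
  have hinj : Function.Injective T := by
    rw [injective_iff_map_eq_zero]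
    intro y hy
    have h1 : (y : End K V) = 0 := by
      refine G.nd_dn y.2 fun x hx => ?_
      have h2 := hTa y ⟨x, hx⟩
      rw [hy] at h2
      exact h2.symm
    exact Subtype.ext h1
  have hinj' : Function.Injective T' := by
    rw [injective_iff_map_eq_zero]
    intro x hx
    have h1 : (x : End K V) = 0 := by
      refine G.nd_up x.2 fun y hy => ?_
      have h2 := hTa' x ⟨y, hy⟩
      rw [hx] at h2
      exact h2.symm
    exact Subtype.ext h1
  have hd : finrank K (dn g e) = finrank K (Dual K (up g e)) := by
    refine le_antisymm (LinearMap.finrank_le_finrank_of_injective hinj) ?_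
    rw [Subspace.dual_finrank_eq]
    refine (LinearMap.finrank_le_finrank_of_injective hinj').trans ?_
    rw [Subspace.dual_finrank_eq]
  have hsurj : Function.Surjective T :=
    (LinearMap.injective_iff_surjective_of_finrank_eq_finrank hd).1 hinj
  set b := finBasis K (up g e) with hb
  choose y hy using fun i => hsurj (b.coord i)
  have key : ∀ (i : Fin (finrank K (up g e))) (x : up g e),
      LinearMap.trace K V ((x : End K V) * (y i : End K V)) = b.repr x i := by
    intro i x
    rw [← hTa, hy i]
    rfl
  have hez : ∀ x ∈ up g e, x = ∑ i, LinearMap.trace K V (x * (y i : End K V)) •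
      (b i : End K V) := by
    intro x hx
    have h1 := b.sum_repr ⟨x, hx⟩
    have h2 := congrArg Subtype.val h1
    rw [AddSubmonoidClass.coe_finsetSum] at h2
    refine h2.symm.trans (Finset.sum_congr rfl fun i _ => ?_)
    rw [key i ⟨x, hx⟩]
    rfl
  have hdual : ∀ i j, LinearMap.trace K V ((b i : End K V) * (y j : End K V)) =
      if i = j then 1 else 0 := by
    intro i j
    rw [key j (b i), b.repr_self, Finsupp.single_apply]
  refine ⟨fun i => (b i : End K V), fun i => (y i : End K V), fun i => (b i).2,
    fun i => (y i).2, hdual, hez, ?_⟩
  intro x hx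
  rw [← sub_eq_zero]
  have hmem : x - ∑ i, LinearMap.trace K V ((b i : End K V) * x) • (y i : End K V) ∈ dn g e :=
    (dn g e).sub_mem hx ((dn g e).sum_mem fun i _ => (dn g e).smul_mem _ (y i).2)
  refine G.nd_dn hmem fun u hu => ?_
  have hz : ∀ j, LinearMap.trace K V ((b j : End K V) *
      (x - ∑ i, LinearMap.trace K V ((b i : End K V) * x) • (y i : End K V))) = 0 := by
    intro j
    rw [mul_sub, map_sub, Finset.mul_sum, map_sum, Finset.sum_eq_single j]
    · rw [mul_smul_comm, map_smul, hdual, if_pos rfl, smul_eq_mul, mul_one, sub_self]
    · intro i _ hij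
      rw [mul_smul_comm, map_smul, hdual, if_neg (Ne.symm hij), smul_zero]
    · intro h
      exact absurd (Finset.mem_univ j) h
  rw [hez u hu, Finset.sum_mul, map_sum]
  refine Finset.sum_eq_zero fun j _ => ?_
  rw [smul_mul_assoc, map_smul, hz j, smul_zero]

end Pool.Agent.SmallRank
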