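import Pool.Agent.SmallRank.Defs
import Mathlib.Data.Finset.NoncommProd

/-!
# Letters

An irreducible module of `gl m` on which all `E i i` are idempotents. (It is an exterior power.)
Here `m` letters are given, `N i` are the diagonal operators, `E i j` (for `i ≠ j`) replaces the
letter `j` by `i`.
-/

set_option autoImplicit false
set_option linter.unusedSectionVars false

namespace Pool.Agent.SmallRank

open Module

variable {K V : Type*} [Field K] [CharZero K] [IsAlgClosed K] [AddCommGroup V] [Module K V]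
  [FiniteDimensional K V]

/-- The operators `N i`, `E i j` span with the scalars a Lie algebra `g`; `N i` are commuting
idempotents, their sum is a scalar; `E i j` satisfies the relations of the replacement of a
letter. -/
structure Lt {m : ℕ} (g : Submodule K (End K V)) (N : Fin m → End K V)
    (E : Fin m → Fin m → End K V) : Prop where
  lie : ∀ a ∈ g, ∀ b ∈ g, a * b - b * a ∈ g
  Nmem : ∀ i, N i ∈ g
  Emem : ∀ i j, i ≠ j → E i j ∈ g
  span : ∀ z ∈ g, z ∈ Submodule.span K ({z | ∃ i j, i ≠ j ∧ z = E i j} ∪ Set.range N ∪ {1})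
  irr : ∀ U : Submodule K V, (∀ i j, i ≠ j → ∀ w ∈ U, E i j w ∈ U) → U = ⊥ ∨ U = ⊤
  idem : ∀ i, N i * N i = N i
  comm : ∀ i j, N i * N j = N j * N i
  NE : ∀ i j, i ≠ j → N i * E i j = E i j
  EN : ∀ i j, i ≠ j → E i j * N i = 0
  NE' : ∀ i j, i ≠ j → N j * E i j = 0
  EN' : ∀ i j, i ≠ j → E i j * N j = E i j
  cm : ∀ l i j, l ≠ i → l ≠ j → i ≠ j → N l * E i j = E i j * N l
  EE : ∀ i j, i ≠ j → E i j * E j i = N i - N i * N j
  cE : ∀ i j k l, i ≠ j → k ≠ l → j ≠ k → i ≠ l → E i j * E k l = E k l * E i j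
  sum : ∃ κ : K, ∑ i, N i = κ • (1 : End K V)

namespace Lt

variable {m : ℕ} {g : Submodule K (End K V)} {N : Fin m → End K V} {E : Fin m → Fin m → End K V}
  (L : Lt g N E)
include L

theorem pw (S : Finset (Fin m)) : (S : Set (Fin m)).Pairwise (Function.onFun Commute N) :=
  fun i _ j _ _ => L.comm i j

/-- The product of the `N i`, `i ∈ S`. -/
noncomputable def NS (S : Finset (Fin m)) : End K V := S.noncommProd N (L.pw S)

theorem NS_empty : L.NS ∅ = 1 := by
  simp [NS]

theorem NS_insert {S : Finset (Fin m)} {i : Fin m} (hi : i ∉ S) :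
    L.NS (insert i S) = N i * L.NS S := by
  rw [NS, NS, Finset.noncommProd_insert_of_notMem _ _ _ _ hi]

/-- An operator commuting with all `N i`, `i ∈ S`, commutes with `NS S`. -/
theorem comm_NS {S : Finset (Fin m)} {a : End K V} (ha : ∀ i ∈ S, N i * a = a * N i) :
    L.NS S * a = a * L.NS S := by
  induction S using Finset.induction_on with
  | empty => rw [L.NS_empty, one_mul, mul_one]
  | insert i S hi ih =>
    rw [L.NS_insert hi, mul_assoc, ih fun j hj => ha j (Finset.mem_insert_of_mem hj), ← mul_assoc,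
      ha i (Finset.mem_insert_self _ _), mul_assoc]

theorem N_NS_comm (S : Finset (Fin m)) (i : Fin m) : L.NS S * N i = N i * L.NS S :=
  L.comm_NS fun j _ => L.comm j i

theorem N_NS {S : Finset (Fin m)} {i : Fin m} (hi : i ∈ S) : N i * L.NS S = L.NS S := by
  rw [← Finset.insert_erase hi, L.NS_insert (Finset.notMem_erase i S), ← mul_assoc, L.idem]

theorem NS_N {S : Finset (Fin m)} {i : Fin m} (hi : i ∈ S) : L.NS S * N i = L.NS S := by
  rw [L.N_NS_comm, L.N_NS hi]

theorem NS_idem (S : Finset (Fin m)) : L.NS S * L.NS S = L.NS S := by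
  have h : ∀ T : Finset (Fin m), T ⊆ S → L.NS T * L.NS S = L.NS S := by
    intro T
    induction T using Finset.induction_on with
    | empty => intro _; rw [L.NS_empty, one_mul]
    | insert i T hi ih =>
      intro hT
      rw [L.NS_insert hi, mul_assoc, ih fun j hj => hT (Finset.mem_insert_of_mem hj),
        L.N_NS (hT (Finset.mem_insert_self _ _))]
  exact h S le_rfl

/-- The sum of the `N i` is a natural number: take a maximal `S` with `NS S ≠ 0`. -/
theorem exists_nat [Nontrivial V] : ∃ k : ℕ, k ≤ m ∧ ∑ i, N i = (k : K) • (1 : End K V) := by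
  classical
  obtain ⟨κ, hκ⟩ := L.sum
  obtain ⟨S, hS, hmax⟩ := Finset.exists_max_image
    (Finset.univ.filter fun S : Finset (Fin m) => L.NS S ≠ 0) Finset.card
    ⟨∅, by
      rw [Finset.mem_filter, L.NS_empty]
      exact ⟨Finset.mem_univ _, one_ne_zero⟩⟩
  rw [Finset.mem_filter] at hS
  refine ⟨S.card, by simpa using Finset.card_le_univ S, ?_⟩
  have h1 : (∑ i, N i) * L.NS S = (S.card : K) • L.NS S := by
    rw [Finset.sum_mul, ← Finset.sum_subset (Finset.subset_univ S)]
    · rw [Finset.sum_congr rfl fun i hi => L.N_NS hi, Finset.sum_const, Nat.cast_smul_eq_nsmul]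
    · intro i _ hi
      rw [← L.NS_insert hi]
      by_contra h2
      have h3 := hmax (insert i S) (by
        rw [Finset.mem_filter]
        exact ⟨Finset.mem_univ _, h2⟩)
      rw [Finset.card_insert_of_notMem hi] at h3
      omega
  rw [hκ, smul_mul_assoc, one_mul] at h1
  have h2 : (κ - S.card) • L.NS S = 0 := by rw [sub_smul, h1, sub_self]
  rcases smul_eq_zero.1 h2 with h3 | h3
  · rw [hκ, sub_eq_zero.1 h3]
  · exact absurd h3 hS.2

end Lt

end Pool.Agent.SmallRank
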