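import Pool.Agent.SmallRank.Proj
import Pool.Agent.SmallRank.Symp
import Pool.Agent.SmallRank.Lett
import Pool.Agent.SmallRank.Dual

/-!
# The projective case: the letters
-/

set_option autoImplicit false
set_option linter.unusedSectionVars false

namespace Pool.Agent.SmallRank

open Module

variable {K V : Type*} [Field K] [CharZero K] [IsAlgClosed K] [AddCommGroup V] [Module K V]
  [FiniteDimensional K V] {g : Submodule K (End K V)} {e c f : End K V} {ρ : ℕ}

/-- Bases of the elements of degree one and minus one with the relations of `gl (M + 1)`. -/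
structure PB {M : ℕ} (g : Submodule K (End K V)) (e : End K V) (x y : Fin M → End K V) :
    Prop where
  G : Gr g e
  xu : ∀ i, x i ∈ up g e
  yd : ∀ i, y i ∈ dn g e
  sx : ∀ z ∈ up g e, z ∈ Submodule.span K (Set.range x)
  sy : ∀ z ∈ dn g e, z ∈ Submodule.span K (Set.range y)
  R1 : ∀ i j k, x i * y j * x k + x k * y j * x i =
    (if i = j then (1 : K) else 0) • x k + (if k = j then (1 : K) else 0) • x i
  R2 : ∀ i j k, y i * x j * y k + y k * x j * y i =
    (if j = i then (1 : K) else 0) • y k + (if j = k then (1 : K) else 0) • y i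

theorem Pr.exists_pb (B : Pr g e c f ρ) (h0 : ∀ x ∈ up g e, f * x = 0 → x * f = 0 → x = 0) :
    ∃ (M : ℕ) (x y : Fin M → End K V), PB g e x y := by
  have hρ : (ρ : K) ≠ 0 := Nat.cast_ne_zero.2 B.rho_pos.ne'
  obtain ⟨z, y, D⟩ := exists_dual B.G
  have hyd : ∀ i, (ρ : K) • y i ∈ dn g e := fun i => (dn g e).smul_mem _ (D.yd i)
  have htr : ∀ i j, (ρ : K)⁻¹ * LinearMap.trace K V (z i * (ρ : K) • y j) =
      if i = j then 1 else 0 := by
    intro i j
    rw [mul_smul_comm, map_smul, smul_eq_mul, ← mul_assoc, inv_mul_cancel₀ hρ, one_mul, D.dual]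
  refine ⟨_, z, fun i => (ρ : K) • y i, B.G, D.zu, hyd, fun a ha => ?_, fun a ha => ?_, ?_, ?_⟩
  · rw [D.ez a ha]
    exact Submodule.sum_mem _ fun i _ => Submodule.smul_mem _ _
      (Submodule.subset_span (Set.mem_range_self i))
  · rw [D.ey a ha]
    refine Submodule.sum_mem _ fun i _ => ?_
    have h1 : y i = (ρ : K)⁻¹ • ((ρ : K) • y i) := by
      rw [smul_smul, inv_mul_cancel₀ hρ, one_smul]
    rw [h1]
    exact Submodule.smul_mem _ _ (Submodule.smul_mem _ _
      (Submodule.subset_span (Set.mem_range_self i)))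
  · intro i j k
    rw [B.proj₂ h0 (D.zu i) (D.zu k) (hyd j), htr, htr]
  · intro i j k
    rw [B.proj₂' h0 (D.zu j) (hyd i) (hyd k), htr, htr]

namespace PB

variable {M : ℕ} {x y : Fin M → End K V} (P : PB g e x y)
include P

theorem ex (i : Fin M) : e * x i = x i := (P.xu i).2.1
theorem xe (i : Fin M) : x i * e = 0 := (P.xu i).2.2
theorem ey (i : Fin M) : e * y i = 0 := (P.yd i).2.1
theorem ye (i : Fin M) : y i * e = y i := (P.yd i).2.2
theorem xx (i j : Fin M) : x i * x j = 0 := Gr.up_mul_up (P.xu i) (P.xu j)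
theorem yy (i j : Fin M) : y i * y j = 0 := Gr.dn_mul_dn (P.yd i) (P.yd j)

theorem xyx (i : Fin M) : x i * y i * x i = x i := by
  have h := P.R1 i i i
  rw [if_pos rfl, one_smul, ← two_smul K, ← two_smul K (x i)] at h
  exact smul_right_injective _ (two_ne_zero' K) h

theorem xyx0 {i j : Fin M} (h : i ≠ j) : x i * y j * x i = 0 := by
  have h := P.R1 i j i
  rw [if_neg ‹i ≠ j›, zero_smul, add_zero, ← two_smul K] at h
  exact (smul_eq_zero.1 h).resolve_left two_ne_zero

theorem yxy (i : Fin M) : y i * x i * y i = y i := by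
  have h := P.R2 i i i
  rw [if_pos rfl, one_smul, ← two_smul K, ← two_smul K (y i)] at h
  exact smul_right_injective _ (two_ne_zero' K) h

theorem yxy0 {i j : Fin M} (h : i ≠ j) : y i * x j * y i = 0 := by
  have h := P.R2 i j i
  rw [if_neg (Ne.symm ‹i ≠ j›), zero_smul, add_zero, ← two_smul K] at h
  exact (smul_eq_zero.1 h).resolve_left two_ne_zero

theorem R1a {i k : Fin M} (h : k ≠ i) : x i * y i * x k = x k - x k * y i * x i := by
  have h1 := P.R1 i i k
  rw [if_pos rfl, if_neg h, one_smul, zero_smul, add_zero] at h1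
  exact eq_sub_of_add_eq h1

theorem R2a {i k : Fin M} (h : k ≠ i) : y i * x i * y k = y k - y k * x i * y i := by
  have h1 := P.R2 i i k
  rw [if_pos rfl, if_neg h.symm, one_smul, zero_smul, add_zero] at h1
  exact eq_sub_of_add_eq h1

theorem R1b {i j k : Fin M} (h : i ≠ j) (h' : k ≠ j) :
    x i * y j * x k = -(x k * y j * x i) := by
  have h1 := P.R1 i j k
  rw [if_neg h, if_neg h', zero_smul, zero_smul, add_zero] at h1
  exact eq_neg_of_add_eq_zero_left h1

theorem R2b {i j k : Fin M} (h : i ≠ j) (h' : k ≠ j) :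
    y i * x j * y k = -(y k * x j * y i) := by
  have h1 := P.R2 i j k
  rw [if_neg h.symm, if_neg h'.symm, zero_smul, zero_smul, add_zero] at h1
  exact eq_neg_of_add_eq_zero_left h1

end PB

end Pool.Agent.SmallRank
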