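import Pool.Agent.SmallRank.LettTr

/-!
# Letters: multiplicity one and the dimension
-/

set_option autoImplicit false
set_option linter.unusedSectionVars false

namespace Pool.Agent.SmallRank

open Module

section General

variable {K V : Type*} [Field K] [AddCommGroup V] [Module K V]

/-- **A vector of highest weight.** Let `g` be closed under commutators and contained in the sum of
`b` and `l`, let `v` be an eigenvector of all elements of `b`. Then the smallest subspace which
contains `v` and is stable under `l` is stable under `g`. -/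
theorem stable_of_highest {g b l : Submodule K (End K V)}
    (hg : ∀ x ∈ g, ∀ y ∈ g, x * y - y * x ∈ g) (hb : b ≤ g) (hl : l ≤ g) (hbl : g ≤ b ⊔ l) {v : V}
    (hv : ∀ x ∈ b, ∃ κ : K, x v = κ • v) {U : Submodule K V}
    (hU : U = sInf {U : Submodule K V | v ∈ U ∧ ∀ x ∈ l, ∀ u ∈ U, x u ∈ U}) :
    ∀ x ∈ g, ∀ u ∈ U, x u ∈ U := by
  have hvU : v ∈ U := by
    rw [hU]
    exact Submodule.mem_sInf.2 fun S hS => hS.1
  have hlU : ∀ x ∈ l, ∀ u ∈ U, x u ∈ U := by
    intro x hx u hu
    rw [hU] at hu ⊢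
    exact Submodule.mem_sInf.2 fun S hS => hS.2 x hx u (Submodule.mem_sInf.1 hu S hS)
  let U' : Submodule K V :=
    { carrier := {u | u ∈ U ∧ ∀ x ∈ b, x u ∈ U}
      add_mem' := fun {s t} hs ht => ⟨U.add_mem hs.1 ht.1, fun x hx => by
        rw [map_add]
        exact U.add_mem (hs.2 x hx) (ht.2 x hx)⟩
      zero_mem' := ⟨U.zero_mem, fun x _ => by
        rw [map_zero]
        exact U.zero_mem⟩
      smul_mem' := fun κ s hs => ⟨U.smul_mem κ hs.1, fun x hx => by
        rw [map_smul]
        exact U.smul_mem κ (hs.2 x hx)⟩ }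
  have h1 : U ≤ U' := by
    conv_lhs => rw [hU]
    refine sInf_le ⟨⟨hvU, fun x hx => ?_⟩, fun y hy u hu => ⟨hlU y hy u hu.1, fun x hx => ?_⟩⟩
    · obtain ⟨κ, hκ⟩ := hv x hx
      rw [hκ]
      exact U.smul_mem κ hvU
    · have h2 : x (y u) = y (x u) + (x * y - y * x) u := by
        simp
      rw [h2]
      refine U.add_mem (hlU y hy _ (hu.2 x hx)) ?_
      obtain ⟨b', hb', l', hl', h3⟩ := Submodule.mem_sup.1
        (hbl (hg x (hb hx) y (hl hy)))
      rw [← h3, LinearMap.add_apply]
      exact U.add_mem (hu.2 b' hb') (hlU l' hl' u hu.1)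
  intro x hx u hu
  obtain ⟨b', hb', l', hl', h3⟩ := Submodule.mem_sup.1 (hbl hx)
  rw [← h3, LinearMap.add_apply]
  exact U.add_mem ((h1 hu).2 b' hb') (hlU l' hl' u hu)

end General

namespace Lt

variable {K V : Type*} [Field K] [CharZero K] [IsAlgClosed K] [AddCommGroup V] [Module K V]
  [FiniteDimensional K V] {m : ℕ} {g : Submodule K (End K V)} {N : Fin m → End K V}
  {E : Fin m → Fin m → End K V} (L : Lt g N E)
include L

/-- If `S` has `k` elements then the other letters do not occur. -/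
theorem N_NS_zero [Nontrivial V] {k : ℕ} (hk : ∑ i, N i = (k : K) • (1 : End K V))
    {S : Finset (Fin m)} (hS : S.card = k) {i : Fin m} (hi : i ∉ S) : N i * L.NS S = 0 := by
  have h1 := L.tr_step hk hi
  rw [hS, sub_self, zero_mul] at h1
  have h2 : (m : K) - k ≠ 0 := by
    rw [sub_ne_zero]
    intro h3
    have h4 : m = k := by exact_mod_cast h3
    have h5 : S = Finset.univ := by
      rw [← Finset.card_eq_iff_eq_univ, Fintype.card_fin, hS, h4]
    rw [h5] at hi
    exact hi (Finset.mem_univ i)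
  have h3 := (mul_eq_zero.1 h1).resolve_left h2
  have h4 : (N i * L.NS S) * (N i * L.NS S) = N i * L.NS S := by
    rw [mul_assoc, ← mul_assoc (L.NS S), L.N_NS_comm, mul_assoc, L.NS_idem, ← mul_assoc, L.idem]
  rw [trace_idem h4, Nat.cast_eq_zero] at h3
  exact rk_eq_zero.1 h3

/-- **Multiplicity one.** -/
theorem rk_NS_le [Nontrivial V] {k : ℕ} (hkm : k ≤ m)
    (hk : ∑ i, N i = (k : K) • (1 : End K V)) :
    ∃ S : Finset (Fin m), S.card = k ∧ rk (L.NS S) ≤ 1 := by
  classical
  refine ⟨Finset.univ.filter fun i : Fin m => (i : ℕ) < k, ?_, ?_⟩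
  · rw [Fin.card_filter_val_lt, min_eq_right hkm]
  set S : Finset (Fin m) := Finset.univ.filter fun i : Fin m => (i : ℕ) < k with hSdef
  have hmS : ∀ i : Fin m, i ∈ S ↔ (i : ℕ) < k := by
    intro i
    rw [hSdef, Finset.mem_filter]
    exact ⟨fun h => h.2, fun h => ⟨Finset.mem_univ i, h⟩⟩
  have hSc : S.card = k := by rw [hSdef, Fin.card_filter_val_lt, min_eq_right hkm]
  by_cases h0 : L.NS S = 0
  · rw [h0, rk, LinearMap.range_zero, finrank_bot]
    exact Nat.zero_le _
  -- raising operators kill the range, lowering operators do not reach it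
  have hup : ∀ i j : Fin m, i < j → E i j * L.NS S = 0 := by
    intro i j hij
    by_cases hi : i ∈ S
    · rw [← L.N_NS hi, ← mul_assoc, L.EN i j hij.ne, zero_mul]
    · have hj : j ∉ S := by
        rw [hmS] at hi ⊢
        have : (i : ℕ) < j := hij
        omega
      rw [← L.EN' i j hij.ne, mul_assoc, L.N_NS_zero hk hSc hj, mul_zero]
  have hlow : ∀ i j : Fin m, j < i → L.NS S * E i j = 0 := by
    intro i j hij
    by_cases hj : j ∈ S
    · rw [← L.NS_N hj, mul_assoc, L.NE' i j hij.ne', mul_zero]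
    · have hi : i ∉ S := by
        rw [hmS] at hj ⊢
        have : (j : ℕ) < i := hij
        omega
      rw [← L.NE i j hij.ne', ← mul_assoc, L.N_NS_comm, L.N_NS_zero hk hSc hi, zero_mul]
  obtain ⟨v₀, hv₀⟩ : ∃ v₀, L.NS S v₀ ≠ 0 := by
    by_contra hn
    push Not at hn
    exact h0 (LinearMap.ext hn)
  set v : V := L.NS S v₀ with hv
  have hNv : L.NS S v = v := by
    rw [hv, ← Module.End.mul_apply, L.NS_idem]
  set b : Submodule K (End K V) :=
    Submodule.span K ({z | ∃ i j, i < j ∧ z = E i j} ∪ Set.range N ∪ {1}) ⊓ g with hb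
  set l : Submodule K (End K V) := Submodule.span K {z | ∃ i j, j < i ∧ z = E i j} with hl
  have hlg : l ≤ g := by
    rw [hl, Submodule.span_le]
    rintro _ ⟨i, j, hij, rfl⟩
    exact L.Emem i j hij.ne'
  have hgb : g ≤ b ⊔ l := by
    intro z hz
    have h1 : Submodule.span K ({z | ∃ i j, i ≠ j ∧ z = E i j} ∪ Set.range N ∪ {1}) ≤
        Submodule.span K ({z | ∃ i j, i < j ∧ z = E i j} ∪ Set.range N ∪ {1}) ⊔ l := by
      rw [Submodule.span_le]
      rintro y ((⟨i, j, hij, rfl⟩ | hy) | hy)
      · rcases lt_or_gt_of_ne hij with h2 | h2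
        · exact Submodule.mem_sup_left (Submodule.subset_span (Or.inl (Or.inl ⟨i, j, h2, rfl⟩)))
        · exact Submodule.mem_sup_right (Submodule.subset_span ⟨i, j, h2, rfl⟩)
      · exact Submodule.mem_sup_left (Submodule.subset_span (Or.inl (Or.inr hy)))
      · exact Submodule.mem_sup_left (Submodule.subset_span (Or.inr hy))
    obtain ⟨y, hy, w, hw, rfl⟩ := Submodule.mem_sup.1 (h1 (L.span z hz))
    refine Submodule.mem_sup.2 ⟨y, ⟨hy, ?_⟩, w, hw, rfl⟩
    have h2 : y = (y + w) - w := by abel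
    rw [h2]
    exact g.sub_mem hz (hlg hw)
  have hbv : ∀ x ∈ Submodule.span K ({z | ∃ i j, i < j ∧ z = E i j} ∪ Set.range N ∪ {1}),
      ∃ κ : K, x v = κ • v := by
    intro x hx
    induction hx using Submodule.span_induction with
    | mem y hy =>
      rcases hy with (⟨i, j, hij, rfl⟩ | ⟨i, rfl⟩) | hy
      · refine ⟨0, ?_⟩
        rw [zero_smul, hv, ← Module.End.mul_apply, hup i j hij, LinearMap.zero_apply]
      · by_cases hi : i ∈ S
        · exact ⟨1, by rw [hv, ← Module.End.mul_apply, L.N_NS hi, one_smul]⟩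
        · exact ⟨0, by rw [hv, ← Module.End.mul_apply, L.N_NS_zero hk hSc hi, zero_smul,
            LinearMap.zero_apply]⟩
      · rw [Set.mem_singleton_iff] at hy
        exact ⟨1, by rw [hy, one_smul, Module.End.one_apply]⟩
    | zero => exact ⟨0, by rw [zero_smul, LinearMap.zero_apply]⟩
    | add y z _ _ hy hz =>
      obtain ⟨κ, hκ⟩ := hy
      obtain ⟨μ, hμ⟩ := hz
      exact ⟨κ + μ, by rw [LinearMap.add_apply, hκ, hμ, add_smul]⟩
    | smul κ y _ hy =>
      obtain ⟨μ, hμ⟩ := hy
      exact ⟨κ * μ, by rw [LinearMap.smul_apply, hμ, smul_smul]⟩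
  have hst := stable_of_highest L.lie (b := b) (l := l) inf_le_right hlg hgb
    (fun x hx => hbv x hx.1) rfl
  set U : Submodule K V := sInf {U : Submodule K V | v ∈ U ∧ ∀ x ∈ l, ∀ u ∈ U, x u ∈ U} with hU
  have hvU : v ∈ U := Submodule.mem_sInf.2 fun T hT => hT.1
  have hUtop : U = ⊤ := by
    refine (L.irr U fun i j hij w hw => hst _ (L.Emem i j hij) w hw).resolve_left ?_
    intro h1
    rw [h1, Submodule.mem_bot] at hvU
    exact hv₀ hvU
  have hUle : U ≤ (K ∙ v).comap (L.NS S) := by
    refine sInf_le ⟨?_, fun x hx u _ => ?_⟩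
    · rw [Submodule.mem_comap, hNv]
      exact Submodule.mem_span_singleton_self v
    · have h1 : L.NS S * x = 0 := by
        induction hx using Submodule.span_induction with
        | mem y hy =>
          obtain ⟨i, j, hij, rfl⟩ := hy
          exact hlow i j hij
        | zero => exact mul_zero _
        | add y z _ _ hy hz => rw [mul_add, hy, hz, add_zero]
        | smul κ y _ hy => rw [mul_smul_comm, hy, smul_zero]
      rw [Submodule.mem_comap, ← Module.End.mul_apply, h1, LinearMap.zero_apply]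
      exact Submodule.zero_mem _
  have hrange : LinearMap.range (L.NS S) ≤ K ∙ v := by
    rintro _ ⟨u, rfl⟩
    have h1 : u ∈ U := by
      rw [hUtop]
      exact Submodule.mem_top
    exact hUle h1
  refine (Submodule.finrank_mono hrange).trans ?_
  rw [finrank_span_singleton hv₀]

/-- **The dimension.** -/
theorem finrank_eq [Nontrivial V] : ∃ k : ℕ, k ≤ m ∧ finrank K V = m.choose k ∧
    ∑ i, N i = (k : K) • (1 : End K V) := by
  obtain ⟨k, hkm, hk⟩ := L.exists_nat
  obtain ⟨S, hS, hrk⟩ := L.rk_NS_le hkm hk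
  refine ⟨k, hkm, ?_, hk⟩
  have h1 := L.tr_choose hk S
  rw [trace_idem (L.NS_idem S), hS, Nat.choose_self, Nat.cast_one, mul_one] at h1
  have h2 : rk (L.NS S) * m.choose k = finrank K V := by exact_mod_cast h1
  have h3 : 0 < finrank K V := finrank_pos
  have h4 : rk (L.NS S) = 1 := by
    rcases Nat.lt_or_ge (rk (L.NS S)) 1 with h5 | h5
    · rw [Nat.lt_one_iff.1 h5, zero_mul] at h2
      omega
    · omega
  rw [← h2, h4, one_mul]

end Lt

end Pool.Agent.SmallRank
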