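import Pool.Agent.SmallRank.ProjB
import Pool.Agent.SmallRank.LettHw

/-!
# The projective case: verification of the relations of the letters
-/

set_option autoImplicit false
set_option linter.unusedSectionVars false

namespace Pool.Agent.SmallRank.PB

open Module

variable {K V : Type*} [Field K] [CharZero K] [IsAlgClosed K] [AddCommGroup V] [Module K V]
  [FiniteDimensional K V] {g : Submodule K (End K V)} {e : End K V}
  {M : ℕ} {x y : Fin M → End K V}

/-- The diagonal operators; the letter `0` is special. -/
def nn (e : End K V) (x y : Fin M → End K V) : Fin (M + 1) → End K V :=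
  Fin.cases (1 - e) fun i => x i * y i - y i * x i + (1 - e)

/-- The replacement operators. -/
def ee (x y : Fin M → End K V) : Fin (M + 1) → Fin (M + 1) → End K V :=
  Fin.cases (Fin.cases 0 fun j => y j) fun i => Fin.cases (x i) fun j => x i * y j - y j * x i

@[simp] theorem nn_zero : nn e x y 0 = 1 - e := rfl
@[simp] theorem nn_succ (i : Fin M) : nn e x y i.succ = x i * y i - y i * x i + (1 - e) := rfl
@[simp] theorem ee_zz : ee x y 0 0 = 0 := rfl
@[simp] theorem ee_zs (j : Fin M) : ee x y 0 j.succ = y j := rfl
@[simp] theorem ee_sz (i : Fin M) : ee x y i.succ 0 = x i := rfl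
@[simp] theorem ee_ss (i j : Fin M) : ee x y i.succ j.succ = x i * y j - y j * x i := rfl

variable (P : PB g e x y)
include P

/-! products with `1 - e` -/

theorem dx (i : Fin M) : (1 - e) * x i = 0 := by rw [sub_mul, one_mul, P.ex, sub_self]
theorem xd (i : Fin M) : x i * (1 - e) = x i := by rw [mul_sub, mul_one, P.xe, sub_zero]
theorem dy (i : Fin M) : (1 - e) * y i = y i := by rw [sub_mul, one_mul, P.ey, sub_zero]
theorem yd' (i : Fin M) : y i * (1 - e) = 0 := by rw [mul_sub, mul_one, P.ye, sub_self]

/-! `N i` and `x k`, `y k` -/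

/-- `N i * x k = x i * y i * x k` -/
theorem nx (i k : Fin M) : nn e x y i.succ * x k = x i * y i * x k := by
  rw [nn_succ, add_mul, sub_mul, P.dx, add_zero, mul_assoc (y i), P.xx, mul_zero, sub_zero]

theorem xn (i k : Fin M) : x k * nn e x y i.succ = x k - x k * y i * x i := by
  rw [nn_succ, mul_add, mul_sub, P.xd, ← mul_assoc, P.xx, zero_mul, zero_sub, ← mul_assoc]
  abel

theorem ny (i k : Fin M) : nn e x y i.succ * y k = y k - y i * x i * y k := by
  rw [nn_succ, add_mul, sub_mul, P.dy, mul_assoc (x i), P.yy, mul_zero, zero_sub]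
  abel

theorem yn (i k : Fin M) : y k * nn e x y i.succ = y k * x i * y i := by
  rw [nn_succ, mul_add, mul_sub, P.yd', add_zero, ← mul_assoc, ← mul_assoc (y k) (y i), P.yy,
    zero_mul, sub_zero]

theorem nx_self (i : Fin M) : nn e x y i.succ * x i = x i := by rw [P.nx, P.xyx]
theorem xn_self (i : Fin M) : x i * nn e x y i.succ = 0 := by rw [P.xn, P.xyx, sub_self]
theorem ny_self (i : Fin M) : nn e x y i.succ * y i = 0 := by rw [P.ny, P.yxy, sub_self]
theorem yn_self (i : Fin M) : y i * nn e x y i.succ = y i := by rw [P.yn, P.yxy]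

theorem nx_comm {i k : Fin M} (h : k ≠ i) :
    nn e x y i.succ * x k = x k * nn e x y i.succ := by
  rw [P.nx, P.xn, P.R1a h]

theorem ny_comm {i k : Fin M} (h : k ≠ i) :
    nn e x y i.succ * y k = y k * nn e x y i.succ := by
  rw [P.ny, P.yn, P.R2a h]
  abel

theorem e_xy (i j : Fin M) : e * (x i * y j) = x i * y j := by rw [← mul_assoc, P.ex]
theorem xy_e (i j : Fin M) : x i * y j * e = x i * y j := by rw [mul_assoc, P.ye]
theorem e_yx (i j : Fin M) : e * (y i * x j) = 0 := by rw [← mul_assoc, P.ey, zero_mul]
theorem yx_e (i j : Fin M) : y i * x j * e = 0 := by rw [mul_assoc, P.xe, mul_zero]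

theorem e_n (i : Fin (M + 1)) : e * nn e x y i = nn e x y i * e := by
  induction i using Fin.cases with
  | zero => rw [nn_zero, mul_sub, sub_mul, mul_one, one_mul]
  | succ i =>
    rw [nn_succ, mul_add, mul_sub, P.e_xy, P.e_yx, add_mul, sub_mul, P.xy_e, P.yx_e, mul_sub,
      sub_mul, mul_one, one_mul]

theorem idem (i : Fin (M + 1)) : nn e x y i * nn e x y i = nn e x y i := by
  induction i using Fin.cases with
  | zero => rw [nn_zero]; exact P.G.idem'
  | succ i =>
    nth_rewrite 2 [nn_succ]
    rw [mul_add, mul_sub, ← mul_assoc, P.nx_self, ← mul_assoc, P.ny_self, zero_mul, sub_zero,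
      mul_sub, mul_one, ← P.e_n, nn_succ, mul_add, mul_sub, P.e_xy, P.e_yx, P.G.e1]
    abel

theorem comm (i j : Fin (M + 1)) : nn e x y i * nn e x y j = nn e x y j * nn e x y i := by
  have h0 : ∀ j : Fin (M + 1), nn e x y 0 * nn e x y j = nn e x y j * nn e x y 0 := by
    intro j
    rw [nn_zero, sub_mul, mul_sub, one_mul, mul_one, P.e_n]
  induction i using Fin.cases with
  | zero => exact h0 j
  | succ i =>
    induction j using Fin.cases with
    | zero => exact (h0 _).symm
    | succ j =>
      by_cases hij : i = j
      · rw [hij]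
      · have k1 : nn e x y i.succ * nn e x y j.succ =
            nn e x y i.succ * (x j * y j - y j * x j + (1 - e)) := rfl
        have k2 : nn e x y j.succ * nn e x y i.succ =
            (x j * y j - y j * x j + (1 - e)) * nn e x y i.succ := rfl
        have h1 := P.nx_comm (Ne.symm hij)
        have h2 := P.ny_comm (Ne.symm hij)
        have h3 : nn e x y i.succ * (1 - e) = (1 - e) * nn e x y i.succ := by
          have := h0 i.succ
          rw [nn_zero] at this
          exact this.symm
        have h4 : nn e x y i.succ * (x j * y j) = x j * y j * nn e x y i.succ := by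
          rw [← mul_assoc, h1, mul_assoc, h2, mul_assoc]
        have h5 : nn e x y i.succ * (y j * x j) = y j * x j * nn e x y i.succ := by
          rw [← mul_assoc, h2, mul_assoc, h1, mul_assoc]
        rw [k1, k2, mul_add, mul_sub, add_mul, sub_mul, h3, h4, h5]

theorem NE (i j : Fin (M + 1)) (hij : i ≠ j) : nn e x y i * ee x y i j = ee x y i j := by
  induction i using Fin.cases with
  | zero =>
    induction j using Fin.cases with
    | zero => exact absurd rfl hij
    | succ j => rw [nn_zero, ee_zs, P.dy]
  | succ i =>
    induction j using Fin.cases with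
    | zero => rw [ee_sz, P.nx_self]
    | succ j =>
      have h : j ≠ i := fun h => hij (by rw [h])
      rw [ee_ss, mul_sub, ← mul_assoc, P.nx_self, ← mul_assoc, P.ny_comm h, mul_assoc, P.nx_self]

theorem EN (i j : Fin (M + 1)) (hij : i ≠ j) : ee x y i j * nn e x y i = 0 := by
  induction i using Fin.cases with
  | zero =>
    induction j using Fin.cases with
    | zero => exact absurd rfl hij
    | succ j => rw [nn_zero, ee_zs, P.yd']
  | succ i =>
    induction j using Fin.cases with
    | zero => rw [ee_sz, P.xn_self]
    | succ j =>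
      have h : j ≠ i := fun h => hij (by rw [h])
      rw [ee_ss, sub_mul, mul_assoc, ← P.ny_comm h, ← mul_assoc, P.xn_self, zero_mul, mul_assoc,
        P.xn_self, mul_zero, sub_zero]

theorem NE' (i j : Fin (M + 1)) (hij : i ≠ j) : nn e x y j * ee x y i j = 0 := by
  induction i using Fin.cases with
  | zero =>
    induction j using Fin.cases with
    | zero => exact absurd rfl hij
    | succ j => rw [ee_zs, P.ny_self]
  | succ i =>
    induction j using Fin.cases with
    | zero => rw [nn_zero, ee_sz, P.dx]
    | succ j =>
      have h : i ≠ j := fun h => hij (by rw [h])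
      rw [ee_ss, mul_sub, ← mul_assoc, P.nx_comm h, mul_assoc, P.ny_self, mul_zero, ← mul_assoc,
        P.ny_self, zero_mul, sub_zero]

theorem EN' (i j : Fin (M + 1)) (hij : i ≠ j) : ee x y i j * nn e x y j = ee x y i j := by
  induction i using Fin.cases with
  | zero =>
    induction j using Fin.cases with
    | zero => exact absurd rfl hij
    | succ j => rw [ee_zs, P.yn_self]
  | succ i =>
    induction j using Fin.cases with
    | zero => rw [nn_zero, ee_sz, P.xd]
    | succ j =>
      have h : i ≠ j := fun h => hij (by rw [h])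
      rw [ee_ss, sub_mul, mul_assoc, P.yn_self, mul_assoc, ← P.nx_comm h, ← mul_assoc, P.yn_self]

theorem cm (l i j : Fin (M + 1)) (hli : l ≠ i) (hlj : l ≠ j) (hij : i ≠ j) :
    nn e x y l * ee x y i j = ee x y i j * nn e x y l := by
  induction l using Fin.cases with
  | zero =>
    induction i using Fin.cases with
    | zero => exact absurd rfl hli
    | succ i =>
      induction j using Fin.cases with
      | zero => exact absurd rfl hlj
      | succ j =>
        have h1 : e * (x i * y j - y j * x i) = (x i * y j - y j * x i) * e := by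
          rw [mul_sub, sub_mul, P.e_xy, P.e_yx, P.xy_e, P.yx_e]
        rw [nn_zero, ee_ss, sub_mul 1 e, mul_sub _ 1 e, one_mul, mul_one, h1]
  | succ l =>
    induction i using Fin.cases with
    | zero =>
      induction j using Fin.cases with
      | zero => exact absurd rfl hij
      | succ j =>
        have h : j ≠ l := fun h => hlj (by rw [h])
        rw [ee_zs, P.ny_comm h]
    | succ i =>
      have h : i ≠ l := fun h => hli (by rw [h])
      induction j using Fin.cases with
      | zero => rw [ee_sz, P.nx_comm h]
      | succ j =>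
        have h' : j ≠ l := fun h => hlj (by rw [h])
        have h4 : nn e x y l.succ * (x i * y j) = x i * y j * nn e x y l.succ := by
          rw [← mul_assoc, P.nx_comm h, mul_assoc, P.ny_comm h', mul_assoc]
        have h5 : nn e x y l.succ * (y j * x i) = y j * x i * nn e x y l.succ := by
          rw [← mul_assoc, P.ny_comm h', mul_assoc, P.nx_comm h, mul_assoc]
        rw [ee_ss, mul_sub, sub_mul, h4, h5]

theorem EE (i j : Fin (M + 1)) (hij : i ≠ j) :
    ee x y i j * ee x y j i = nn e x y i - nn e x y i * nn e x y j := by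
  induction i using Fin.cases with
  | zero =>
    induction j using Fin.cases with
    | zero => exact absurd rfl hij
    | succ j =>
      rw [ee_zs, ee_sz, nn_zero, nn_succ, mul_add, mul_sub, ← mul_assoc, P.dx, zero_mul,
        ← mul_assoc, P.dy, P.G.idem']
      abel
  | succ i =>
    induction j using Fin.cases with
    | zero =>
      rw [ee_sz, ee_zs, nn_zero, nn_succ, add_mul, sub_mul, P.G.idem', mul_assoc (x i), P.yd',
        mul_zero, mul_assoc (y i), P.xd]
      abel
    | succ j =>
      have h : i ≠ j := fun h => hij (by rw [h])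
      have h1 : ee x y i.succ j.succ * ee x y j.succ i.succ =
          x i * (y j * x j * y i) + y j * x i * y i * x j -
            (x i * (y j * y i) * x j + y j * (x i * x j) * y i) := by
        rw [ee_ss, ee_ss]
        noncomm_ring
      have h2 : nn e x y i.succ * nn e x y j.succ =
          x i * (y i * x j * y j) - (y j - y i * x i * y j) * x j + ((1 - e) - y i * x i) := by
        have h3 : nn e x y i.succ * (1 - e) = (1 - e) - y i * x i := by
          rw [nn_succ, add_mul, sub_mul, P.G.idem', mul_assoc (x i), P.yd', mul_zero,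
            mul_assoc (y i), P.xd]
          abel
        have h4 : nn e x y i.succ * nn e x y j.succ =
          nn e x y i.succ * (x j * y j - y j * x j + (1 - e)) := rfl
        rw [h4, mul_add, mul_sub, h3, ← mul_assoc, P.nx, ← mul_assoc _ (y j), P.ny]
        simp only [mul_assoc]
      have h5 : y i * x j * y j = y i - y j * x j * y i := by
        rw [P.R2a h]
        abel
      rw [h1, h2, P.yy, P.xx, mul_zero, zero_mul, mul_zero, zero_mul, add_zero, sub_zero, h5,
        P.R2a h.symm, nn_succ, sub_sub_cancel, mul_sub]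
      abel

theorem ex_comm {i j k : Fin M} (h : i ≠ j) (h' : k ≠ j) :
    ee x y i.succ j.succ * x k = x k * ee x y i.succ j.succ := by
  rw [ee_ss, sub_mul, mul_sub, mul_assoc (y j), P.xx, mul_zero, sub_zero, ← mul_assoc (x k) (x i),
    P.xx, zero_mul, zero_sub, ← mul_assoc (x k), P.R1b h h']

theorem ey_comm {i j k : Fin M} (h : i ≠ j) (h' : k ≠ i) :
    ee x y i.succ j.succ * y k = y k * ee x y i.succ j.succ := by
  rw [ee_ss, sub_mul, mul_sub, mul_assoc (x i), P.yy, mul_zero, zero_sub, ← mul_assoc (y k) (y j),
    P.yy, zero_mul, sub_zero, ← mul_assoc (y k), P.R2b h.symm h', neg_neg]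

theorem cE (i j k l : Fin (M + 1)) (hij : i ≠ j) (hkl : k ≠ l) (hjk : j ≠ k) (hil : i ≠ l) :
    ee x y i j * ee x y k l = ee x y k l * ee x y i j := by
  have hs : ∀ {a b : Fin M}, a.succ ≠ b.succ → a ≠ b := fun h h' => h (by rw [h'])
  induction i using Fin.cases with
  | zero =>
    induction j using Fin.cases with
    | zero => exact absurd rfl hij
    | succ j =>
      induction l using Fin.cases with
      | zero => exact absurd rfl hil
      | succ l =>
        induction k using Fin.cases with
        | zero => rw [ee_zs, ee_zs, P.yy, P.yy]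
        | succ k => rw [ee_zs, P.ey_comm (hs hkl) (hs hjk)]
  | succ i =>
    induction j using Fin.cases with
    | zero =>
      induction k using Fin.cases with
      | zero => exact absurd rfl hjk
      | succ k =>
        induction l using Fin.cases with
        | zero => rw [ee_sz, ee_sz, P.xx, P.xx]
        | succ l => rw [ee_sz, P.ex_comm (hs hkl) (hs hil)]
    | succ j =>
      induction k using Fin.cases with
      | zero =>
        induction l using Fin.cases with
        | zero => exact absurd rfl hkl
        | succ l => rw [ee_zs, P.ey_comm (hs hij) (hs (Ne.symm hil))]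
      | succ k =>
        induction l using Fin.cases with
        | zero => rw [ee_sz, P.ex_comm (hs hij) (hs (Ne.symm hjk))]
        | succ l =>
          have h1 := P.ex_comm (hs hij) (hs (Ne.symm hjk))
          have h2 := P.ey_comm (hs hij) (hs (Ne.symm hil))
          have h3 : ee x y i.succ j.succ * (x k * y l) = x k * y l * ee x y i.succ j.succ := by
            rw [← mul_assoc, h1, mul_assoc, h2, mul_assoc]
          have h4 : ee x y i.succ j.succ * (y l * x k) = y l * x k * ee x y i.succ j.succ := by
            rw [← mul_assoc, h2, mul_assoc, h1, mul_assoc]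
          rw [ee_ss k l, mul_sub, sub_mul, h3, h4]

theorem span (z : End K V) (hz : z ∈ g) : z ∈ Submodule.span K
    ({z | ∃ i j, i ≠ j ∧ z = ee x y i j} ∪ Set.range (nn e x y) ∪ {1}) := by
  set S := Submodule.span K
    ({z | ∃ i j, i ≠ j ∧ z = ee x y i j} ∪ Set.range (nn e x y) ∪ {1}) with hS
  have hE : ∀ i j, i ≠ j → ee x y i j ∈ S := fun i j hij =>
    Submodule.subset_span (Or.inl (Or.inl ⟨i, j, hij, rfl⟩))
  have hN : ∀ i, nn e x y i ∈ S := fun i =>
    Submodule.subset_span (Or.inl (Or.inr (Set.mem_range_self i)))
  have h1S : (1 : End K V) ∈ S := Submodule.subset_span (Or.inr rfl)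
  have hup : up g e ≤ S := by
    intro a ha
    have h1 : Submodule.span K (Set.range x) ≤ S := by
      rw [Submodule.span_le]
      rintro _ ⟨i, rfl⟩
      exact hE i.succ 0 (Fin.succ_ne_zero i)
    exact h1 (P.sx a ha)
  have hdn : dn g e ≤ S := by
    intro a ha
    have h1 : Submodule.span K (Set.range y) ≤ S := by
      rw [Submodule.span_le]
      rintro _ ⟨i, rfl⟩
      exact hE 0 i.succ (Fin.succ_ne_zero i).symm
    exact h1 (P.sy a ha)
  have hxy : ∀ i j, x i * y j - y j * x i ∈ S := by
    intro i j
    by_cases hij : i = j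
    · rw [hij]
      have h1 : x j * y j - y j * x j = nn e x y j.succ - nn e x y 0 := by
        rw [nn_succ, nn_zero]
        abel
      rw [h1]
      exact S.sub_mem (hN _) (hN _)
    · exact hE i.succ j.succ fun h => hij (Fin.succ_injective _ h)
  have hc1 : ∀ i, ∀ b ∈ Submodule.span K (Set.range y), x i * b - b * x i ∈ S := by
    intro i b hb
    induction hb using Submodule.span_induction with
    | mem b hb =>
      obtain ⟨j, rfl⟩ := hb
      exact hxy i j
    | zero =>
      rw [mul_zero, zero_mul, sub_zero]
      exact S.zero_mem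
    | add b b' _ _ hb hb' =>
      have h1 : x i * (b + b') - (b + b') * x i = x i * b - b * x i + (x i * b' - b' * x i) := by
        rw [mul_add, add_mul]
        abel
      rw [h1]
      exact S.add_mem hb hb'
    | smul κ b _ hb =>
      rw [mul_smul_comm, smul_mul_assoc, ← smul_sub]
      exact S.smul_mem κ hb
  have hc2 : ∀ a ∈ Submodule.span K (Set.range x), ∀ b ∈ Submodule.span K (Set.range y),
      a * b - b * a ∈ S := by
    intro a ha b hb
    induction ha using Submodule.span_induction with
    | mem a ha =>
      obtain ⟨i, rfl⟩ := ha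
      exact hc1 i b hb
    | zero =>
      rw [mul_zero, zero_mul, sub_zero]
      exact S.zero_mem
    | add a a' _ _ ha ha' =>
      have h1 : (a + a') * b - b * (a + a') = a * b - b * a + (a' * b - b * a') := by
        rw [mul_add, add_mul]
        abel
      rw [h1]
      exact S.add_mem ha ha'
    | smul κ a _ ha =>
      rw [mul_smul_comm, smul_mul_assoc, ← smul_sub]
      exact S.smul_mem κ ha
  have hcomm : ∀ a ∈ up g e, ∀ b ∈ dn g e, a * b - b * a ∈ S := fun a ha b hb =>
    hc2 a (P.sx a ha) b (P.sy b hb)
  rw [P.G.decomp z]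
  refine S.add_mem (S.add_mem (hup (P.G.up_mem hz)) (hdn (P.G.dn_mem hz))) ?_
  obtain ⟨κ, hκ⟩ := zero_span P.G (P.G.zero_mem hz) (P.G.zero_comm z)
  have h1 : Submodule.span K {d | ∃ x ∈ up g e, ∃ y ∈ dn g e, d = x * y - y * x} ≤ S := by
    rw [Submodule.span_le]
    rintro _ ⟨a, ha, b, hb, rfl⟩
    exact hcomm a ha b hb
  have h2 := S.add_mem (h1 hκ) (S.smul_mem κ h1S)
  rwa [sub_add_cancel] at h2

theorem irr (U : Submodule K V)
    (hU : ∀ i j, i ≠ j → ∀ w ∈ U, ee x y i j w ∈ U) : U = ⊥ ∨ U = ⊤ := by
  have h : ∀ (t : Fin M → End K V), (∀ i, ∀ w ∈ U, t i w ∈ U) →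
      ∀ a ∈ Submodule.span K (Set.range t), ∀ w ∈ U, a w ∈ U := by
    intro t ht a ha w hw
    induction ha using Submodule.span_induction with
    | mem a ha =>
      obtain ⟨i, rfl⟩ := ha
      exact ht i w hw
    | zero => exact U.zero_mem
    | add a b _ _ ha hb => exact U.add_mem ha hb
    | smul κ a _ ha => exact U.smul_mem κ ha
  exact P.G.irr_ud
    (fun a ha => h x (fun i w hw => hU i.succ 0 (Fin.succ_ne_zero i) w hw) a (P.sx a ha))
    (fun a ha => h y (fun i w hw => hU 0 i.succ (Fin.succ_ne_zero i).symm w hw) a (P.sy a ha))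

theorem Nmem (i : Fin (M + 1)) : nn e x y i ∈ g := by
  have h1 : 1 - e ∈ g := g.sub_mem P.G.one P.G.mem
  induction i using Fin.cases with
  | zero => exact h1
  | succ i => exact g.add_mem (P.G.lie _ (P.xu i).1 _ (P.yd i).1) h1

theorem Emem (i j : Fin (M + 1)) (hij : i ≠ j) : ee x y i j ∈ g := by
  induction i using Fin.cases with
  | zero =>
    induction j using Fin.cases with
    | zero => exact absurd rfl hij
    | succ j => exact (P.yd j).1
  | succ i =>
    induction j using Fin.cases with
    | zero => exact (P.xu i).1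
    | succ j => exact P.G.lie _ (P.xu i).1 _ (P.yd j).1

/-- The sum of the diagonal operators is central. -/
theorem sum : ∃ κ : K, ∑ i, nn e x y i = κ • (1 : End K V) := by
  classical
  set T := ∑ i, nn e x y i with hT
  have hE : ∀ i j, i ≠ j → T * ee x y i j = ee x y i j * T := by
    intro i j hij
    have h1 : ∀ l, nn e x y l * ee x y i j - ee x y i j * nn e x y l =
        (if l = i then ee x y i j else 0) - if l = j then ee x y i j else 0 := by
      intro l
      by_cases hli : l = i
      · have hlj : l ≠ j := fun h => hij (hli.symm.trans h)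
        rw [if_pos hli, if_neg hlj, hli, P.NE i j hij, P.EN i j hij]
      · by_cases hlj : l = j
        · rw [if_neg hli, if_pos hlj, hlj, P.NE' i j hij, P.EN' i j hij]
        · rw [if_neg hli, if_neg hlj, P.cm l i j hli hlj hij, sub_self, sub_self]
    have h2 : T * ee x y i j - ee x y i j * T = 0 := by
      rw [hT, Finset.sum_mul, Finset.mul_sum, ← Finset.sum_sub_distrib,
        Finset.sum_congr rfl fun l _ => h1 l, Finset.sum_sub_distrib, Finset.sum_ite_eq',
        Finset.sum_ite_eq', if_pos (Finset.mem_univ _), if_pos (Finset.mem_univ _), sub_self]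
    exact sub_eq_zero.1 h2
  have hN : ∀ i, T * nn e x y i = nn e x y i * T := by
    intro i
    rw [hT, Finset.sum_mul, Finset.mul_sum]
    exact Finset.sum_congr rfl fun l _ => P.comm l i
  have key : ∀ z ∈ Submodule.span K
      ({z | ∃ i j, i ≠ j ∧ z = ee x y i j} ∪ Set.range (nn e x y) ∪ {1}), T * z = z * T := by
    intro z hz
    induction hz using Submodule.span_induction with
    | mem z h =>
      rcases h with (⟨i, j, hij, rfl⟩ | ⟨i, rfl⟩) | h
      · exact hE i j hij
      · exact hN i
      · rw [Set.mem_singleton_iff] at h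
        rw [h, mul_one, one_mul]
    | zero => rw [mul_zero, zero_mul]
    | add a b _ _ ha hb => rw [mul_add, add_mul, ha, hb]
    | smul κ a _ ha => rw [mul_smul_comm, smul_mul_assoc, ha]
  exact P.G.scalar fun z hz => key z (P.span z hz)

/-- The letters. -/
theorem lt : Lt g (nn e x y) (ee x y) where
  lie := P.G.lie
  Nmem := P.Nmem
  Emem := P.Emem
  span := P.span
  irr := P.irr
  idem := P.idem
  comm := P.comm
  NE := P.NE
  EN := P.EN
  NE' := P.NE'
  EN' := P.EN'
  cm := P.cm
  EE := P.EE
  cE := P.cE
  sum := P.sum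

/-! The operators as commutators -/

theorem nn_comm (i : Fin (M + 1)) : ∃ a ∈ g, ∃ b ∈ g, nn e x y i = a * b - b * a + (1 - e) := by
  induction i using Fin.cases with
  | zero => exact ⟨0, g.zero_mem, 0, g.zero_mem, by simp⟩
  | succ i => exact ⟨x i, (P.xu i).1, y i, (P.yd i).1, rfl⟩

theorem ee_comm (i j : Fin (M + 1)) (hij : i ≠ j) :
    ∃ a ∈ g, ∃ b ∈ g, ee x y i j = a * b - b * a := by
  induction i using Fin.cases with
  | zero =>
    induction j using Fin.cases with
    | zero => exact absurd rfl hij
    | succ j => exact ⟨y j, (P.yd j).1, e, P.G.mem, by rw [P.ye, P.ey, sub_zero, ee_zs]⟩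
  | succ i =>
    induction j using Fin.cases with
    | zero => exact ⟨e, P.G.mem, x i, (P.xu i).1, by rw [P.ex, P.xe, sub_zero, ee_sz]⟩
    | succ j => exact ⟨x i, (P.xu i).1, y j, (P.yd j).1, rfl⟩

/-- **The dimension.** If `2 * rk e = dim V` then the dimension is the middle binomial
coefficient of the number `2 k` of the letters, and the sum of the diagonal operators is `k`. -/
theorem finrank_eq (hbal : 2 * rk e = finrank K V) : ∃ k : ℕ, M + 1 = 2 * k ∧
    finrank K V = (2 * k).choose k ∧ ∑ i, nn e x y i = (k : K) • (1 : End K V) := by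
  have := P.G.nontrivial
  obtain ⟨k, hk, hn, hs⟩ := P.lt.finrank_eq
  have h1 := P.lt.tr_step hs (S := ∅) (i := 0) (Finset.notMem_empty _)
  rw [P.lt.NS_empty, mul_one, nn_zero, LinearMap.trace_one, trace_idem P.G.idem',
    Finset.card_empty, Nat.cast_zero, sub_zero, sub_zero] at h1
  have h2 : (M + 1) * rk (1 - e) = k * finrank K V := by exact_mod_cast h1
  have h3 := P.G.rk_add
  have h4 : 2 * rk (1 - e) = finrank K V := by omega
  have h5 : 0 < rk (1 - e) := P.G.rk_e_pos'
  have h6 : M + 1 = 2 * k := by
    rw [← h4] at h2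
    have h7 : (M + 1) * rk (1 - e) = (2 * k) * rk (1 - e) := by rw [h2]; ring
    exact Nat.eq_of_mul_eq_mul_right h5 h7
  refine ⟨k, h6, ?_, hs⟩
  rw [hn, h6]

end Pool.Agent.SmallRank.PB
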