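import Pool.Agent.OddRank.TraceND
import Pool.Agent.OddRank.Alg
import Pool.Agent.PrimePow.Main

/-!
# Elements of small rank: the graded Lie algebra given by an idempotent

`g` is an irreducible Lie algebra of endomorphisms, `e ∈ g` an idempotent. Then `g` is the sum of
`up g e` (operators from the kernel to the range of `e`), `dn g e` (from the range to the kernel)
and
the operators which commute with `e`. `Gr g e` are the general assumptions, the last one says that
`g` is simple up to scalars.
-/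

set_option autoImplicit false
set_option linter.unusedSectionVars false

namespace Pool.Agent.SmallRank

open Module

variable {K V : Type*} [Field K] [CharZero K] [IsAlgClosed K] [AddCommGroup V] [Module K V]
  [FiniteDimensional K V]

/-- the rank of an operator -/
noncomputable abbrev rk (x : End K V) : ℕ := finrank K (LinearMap.range x)

/-- the elements of degree one: `x` maps `ker e` to `range e` and is zero on `range e` -/
def up (g : Submodule K (End K V)) (e : End K V) : Submodule K (End K V) where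
  carrier := {x | x ∈ g ∧ e * x = x ∧ x * e = 0}
  add_mem' := fun {x y} hx hy => ⟨g.add_mem hx.1 hy.1, by rw [mul_add, hx.2.1, hy.2.1], by
    rw [add_mul, hx.2.2, hy.2.2, add_zero]⟩
  zero_mem' := ⟨g.zero_mem, mul_zero _, zero_mul _⟩
  smul_mem' := fun c x hx => ⟨g.smul_mem c hx.1, by rw [mul_smul_comm, hx.2.1], by
    rw [smul_mul_assoc, hx.2.2, smul_zero]⟩

/-- the elements of degree minus one -/
def dn (g : Submodule K (End K V)) (e : End K V) : Submodule K (End K V) where
  carrier := {x | x ∈ g ∧ e * x = 0 ∧ x * e = x}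
  add_mem' := fun {x y} hx hy => ⟨g.add_mem hx.1 hy.1, by rw [mul_add, hx.2.1, hy.2.1, add_zero],
    by rw [add_mul, hx.2.2, hy.2.2]⟩
  zero_mem' := ⟨g.zero_mem, mul_zero _, zero_mul _⟩
  smul_mem' := fun c x hx => ⟨g.smul_mem c hx.1, by rw [mul_smul_comm, hx.2.1, smul_zero], by
    rw [smul_mul_assoc, hx.2.2]⟩

theorem mem_up {g : Submodule K (End K V)} {e x : End K V} :
    x ∈ up g e ↔ x ∈ g ∧ e * x = x ∧ x * e = 0 := Iff.rfl

theorem mem_dn {g : Submodule K (End K V)} {e x : End K V} :
    x ∈ dn g e ↔ x ∈ g ∧ e * x = 0 ∧ x * e = x := Iff.rfl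

/-- The general assumptions. -/
structure Gr (g : Submodule K (End K V)) (e : End K V) : Prop where
  lie : ∀ a ∈ g, ∀ b ∈ g, a * b - b * a ∈ g
  irr : ∀ U : Submodule K V, (∀ a ∈ g, ∀ w ∈ U, a w ∈ U) → U = ⊥ ∨ U = ⊤
  one : (1 : End K V) ∈ g
  mem : e ∈ g
  idem : e * e = e
  ne0 : e ≠ 0
  ne1 : e ≠ 1
  simple : ∀ s : Submodule K (End K V), s ≤ g → (∀ x ∈ g, ∀ z ∈ s, x * z - z * x ∈ s) →
    (∀ z ∈ s, LinearMap.trace K V z = 0) → s ≠ ⊥ → ∀ x ∈ g, ∃ a ∈ s, ∃ c : K, x = a + c • 1

theorem up_symm (g : Submodule K (End K V)) (e : End K V) : up g (1 - e) = dn g e := by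
  ext x
  rw [mem_up, mem_dn, sub_mul, one_mul, mul_sub, mul_one]
  constructor
  · rintro ⟨h, h1, h2⟩
    refine ⟨h, ?_, (sub_eq_zero.1 h2).symm⟩
    have h3 : x - e * x - x = 0 := by rw [h1, sub_self]
    have h4 : e * x = -(x - e * x - x) := by abel
    rw [h4, h3, neg_zero]
  · rintro ⟨h, h1, h2⟩
    exact ⟨h, by rw [h1, sub_zero], by rw [h2, sub_self]⟩

theorem dn_symm (g : Submodule K (End K V)) (e : End K V) : dn g (1 - e) = up g e := by
  rw [← up_symm, sub_sub_cancel]

/-! Ranks -/

theorem rk_mul_left (x y : End K V) : rk (x * y) ≤ rk x :=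
  Submodule.finrank_mono (LinearMap.range_comp_le_range y x)

theorem rk_mul_right (x y : End K V) : rk (x * y) ≤ rk y := by
  have h : LinearMap.range (x * y) = (LinearMap.range y).map x := LinearMap.range_comp y x
  unfold rk
  rw [h]
  exact Submodule.finrank_map_le x _

theorem rk_eq_zero {x : End K V} : rk x = 0 ↔ x = 0 := by
  rw [rk, Submodule.finrank_eq_zero, LinearMap.range_eq_bot]

theorem rk_pos {x : End K V} (h : x ≠ 0) : 0 < rk x :=
  Nat.pos_of_ne_zero fun h0 => h (rk_eq_zero.1 h0)

theorem trace_idem {e : End K V} (h : e * e = e) : LinearMap.trace K V e = (rk e : K) :=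
  PrimePow.trace_idem h

theorem rk_one : rk (1 : End K V) = finrank K V := by
  have h : LinearMap.range (1 : End K V) = ⊤ := LinearMap.range_id
  rw [rk, h, finrank_top]

/-- ranks of orthogonal idempotents add up -/
theorem rk_add_idem {p q : End K V} (hp : p * p = p) (hq : q * q = q) (hpq : p * q = 0)
    (hqp : q * p = 0) : rk (p + q) = rk p + rk q := by
  have h : (p + q) * (p + q) = p + q := by
    rw [mul_add, add_mul, add_mul, hp, hq, hpq, hqp, add_zero, zero_add]
  have h1 := trace_idem h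
  rw [map_add, trace_idem hp, trace_idem hq] at h1
  exact_mod_cast h1.symm

theorem rk_compl {e : End K V} (h : e * e = e) : rk e + rk (1 - e) = finrank K V := by
  have h1 : (1 - e) * (1 - e) = 1 - e := by
    rw [mul_sub, mul_one, sub_mul, one_mul, h, sub_self, sub_zero]
  have h2 := rk_add_idem h h1 (by rw [mul_sub, mul_one, h, sub_self])
    (by rw [sub_mul, one_mul, h, sub_self])
  rw [add_sub_cancel, rk_one] at h2
  exact h2.symm

namespace Gr

variable {g : Submodule K (End K V)} {e : End K V} (G : Gr g e)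
include G

theorem nontrivial : Nontrivial V := by
  by_contra h
  rw [not_nontrivial_iff_subsingleton] at h
  exact G.ne0 (LinearMap.ext fun w => Subsingleton.elim _ _)

theorem nd : ∀ x ∈ g, (∀ y ∈ g, LinearMap.trace K V (x * y) = 0) → x = 0 :=
  have := G.nontrivial
  OddRank.trace_nondeg g G.lie G.irr

theorem e1 : e * (1 - e) = 0 := by rw [mul_sub, mul_one, G.idem, sub_self]

theorem e2 : (1 - e) * e = 0 := by rw [sub_mul, one_mul, G.idem, sub_self]

theorem idem' : (1 - e) * (1 - e) = 1 - e := by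
  rw [mul_sub, mul_one, G.e2, sub_zero]

theorem symm : Gr g (1 - e) where
  lie := G.lie
  irr := G.irr
  one := G.one
  mem := g.sub_mem G.one G.mem
  idem := G.idem'
  ne0 := sub_ne_zero.2 G.ne1.symm
  ne1 := fun h => G.ne0 (by rw [← sub_sub_cancel 1 e, h, sub_self])
  simple := G.simple

/-- Schur -/
theorem scalar {z : End K V} (h : ∀ x ∈ g, z * x = x * z) : ∃ c : K, z = c • 1 :=
  PrimePow.schur_irr G.irr z h

/-- the component of degree one -/
theorem up_mem {x : End K V} (hx : x ∈ g) : e * x * (1 - e) ∈ up g e :=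
  ⟨OddRank.deg_one_mem G.idem (fun y hy => G.lie _ G.mem _ hy) hx, by
    rw [← mul_assoc, ← mul_assoc, G.idem], by rw [mul_assoc, G.e2, mul_zero]⟩

/-- the component of degree minus one -/
theorem dn_mem {x : End K V} (hx : x ∈ g) : (1 - e) * x * e ∈ dn g e :=
  ⟨OddRank.deg_neg_mem G.idem (fun y hy => G.lie _ G.mem _ hy) hx, by
    rw [← mul_assoc, ← mul_assoc, G.e1, zero_mul, zero_mul], by rw [mul_assoc, G.idem]⟩

/-- the component of degree zero -/
theorem zero_mem {x : End K V} (hx : x ∈ g) : e * x * e + (1 - e) * x * (1 - e) ∈ g := by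
  have h : e * x * e + (1 - e) * x * (1 - e) = x - e * x * (1 - e) - (1 - e) * x * e := by
    simp only [mul_sub, sub_mul, mul_one, one_mul]
    abel
  rw [h]
  exact g.sub_mem (g.sub_mem hx (G.up_mem hx).1) (G.dn_mem hx).1

/-- the decomposition in the components -/
theorem decomp (x : End K V) : x = e * x * (1 - e) + (1 - e) * x * e +
    (e * x * e + (1 - e) * x * (1 - e)) := by
  simp only [mul_sub, sub_mul, mul_one, one_mul]
  abel

theorem zero_comm (x : End K V) : e * (e * x * e + (1 - e) * x * (1 - e)) =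
    (e * x * e + (1 - e) * x * (1 - e)) * e := by
  rw [mul_add, add_mul, ← mul_assoc e (e * x) e, ← mul_assoc e e x, G.idem, mul_assoc (e * x) e e,
    G.idem, mul_assoc ((1 - e) * x), G.e2, mul_zero, ← mul_assoc e ((1 - e) * x),
    ← mul_assoc e (1 - e) x, G.e1, zero_mul, zero_mul]

omit G in
theorem up_mul_up {x x' : End K V} (hx : x ∈ up g e) (hx' : x' ∈ up g e) : x * x' = 0 := by
  rw [← hx'.2.1, ← mul_assoc, hx.2.2, zero_mul]

omit G in
theorem dn_mul_dn {x x' : End K V} (hx : x ∈ dn g e) (hx' : x' ∈ dn g e) : x * x' = 0 := by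
  rw [← hx.2.2, mul_assoc, hx'.2.1, mul_zero]

/-- the quadratic operator -/
theorem quad_up {x y : End K V} (hx : x ∈ up g e) (hy : y ∈ g) : x * y * x ∈ up g e := by
  have hxx := up_mul_up hx hx
  have h1 := G.lie _ hx.1 _ (G.lie _ hx.1 _ hy)
  have h2 : x * (x * y - y * x) - (x * y - y * x) * x = (-2 : K) • (x * y * x) := by
    rw [mul_sub, sub_mul, ← mul_assoc, hxx, zero_mul, mul_assoc y, hxx, mul_zero, ← mul_assoc]
    rw [zero_sub, sub_zero, neg_smul, two_smul]
    abel
  rw [h2] at h1
  have h3 := g.smul_mem (-2⁻¹ : K) h1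
  rw [smul_smul, show (-2⁻¹ : K) * -2 = 1 by norm_num, one_smul] at h3
  exact ⟨h3, by rw [← mul_assoc, ← mul_assoc, hx.2.1], by rw [mul_assoc, hx.2.2, mul_zero]⟩

theorem quad_dn {x y : End K V} (hx : x ∈ dn g e) (hy : y ∈ g) : x * y * x ∈ dn g e := by
  rw [← up_symm] at hx ⊢
  exact G.symm.quad_up hx hy

/-- commutators of elements of degree one and minus one have degree zero -/
theorem lie_zero {x y : End K V} (hx : x ∈ up g e) (hy : y ∈ dn g e) :
    x * y - y * x ∈ g ∧ e * (x * y - y * x) = (x * y - y * x) * e := by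
  refine ⟨G.lie _ hx.1 _ hy.1, ?_⟩
  rw [mul_sub, sub_mul, ← mul_assoc, hx.2.1, ← mul_assoc, hy.2.1, zero_mul, mul_assoc, hy.2.2,
    mul_assoc, hx.2.2, mul_zero]

/-- the action of degree zero on degree one -/
theorem lie_up {z x : End K V} (hz : z ∈ g) (hze : e * z = z * e) (hx : x ∈ up g e) :
    z * x - x * z ∈ up g e := by
  refine ⟨G.lie _ hz _ hx.1, ?_, ?_⟩
  · rw [mul_sub, ← mul_assoc, hze, mul_assoc, hx.2.1, ← mul_assoc, hx.2.1]
  · rw [sub_mul, mul_assoc, hx.2.2, mul_zero, mul_assoc, ← hze, ← mul_assoc, hx.2.2, zero_mul,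
      sub_zero]

theorem lie_dn {z x : End K V} (hz : z ∈ g) (hze : e * z = z * e) (hx : x ∈ dn g e) :
    z * x - x * z ∈ dn g e := by
  rw [← up_symm] at hx ⊢
  refine G.symm.lie_up hz ?_ hx
  rw [sub_mul, mul_sub, one_mul, mul_one, hze]

omit G in
/-- traces of products which are not of degree zero -/
theorem trace_up {x z : End K V} (hx : x ∈ up g e) (hze : e * z = z * e) :
    LinearMap.trace K V (x * z) = 0 := by
  have h1 : x * z = e * (x * z) := by rw [← mul_assoc, hx.2.1]
  rw [h1, LinearMap.trace_mul_comm, mul_assoc, ← hze, ← mul_assoc, hx.2.2, zero_mul, map_zero]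

omit G in
theorem trace_dn {x z : End K V} (hx : x ∈ dn g e) (hze : e * z = z * e) :
    LinearMap.trace K V (x * z) = 0 := by
  have h1 : x * z = x * z * e := by
    conv_lhs => rw [← hx.2.2, mul_assoc, hze, ← mul_assoc]
  rw [h1, LinearMap.trace_mul_comm, ← mul_assoc, hx.2.1, zero_mul, map_zero]

/-- the pairing of degree one and minus one is not degenerate -/
theorem nd_up {x : End K V} (hx : x ∈ up g e)
    (h : ∀ y ∈ dn g e, LinearMap.trace K V (x * y) = 0) : x = 0 := by
  refine G.nd x hx.1 fun y hy => ?_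
  rw [G.decomp y, mul_add, mul_add, map_add, map_add, h _ (G.dn_mem hy),
    trace_up hx (G.zero_comm y), up_mul_up hx (G.up_mem hy), map_zero, add_zero, add_zero]

theorem nd_dn {y : End K V} (hy : y ∈ dn g e)
    (h : ∀ x ∈ up g e, LinearMap.trace K V (x * y) = 0) : y = 0 := by
  rw [← up_symm] at hy
  refine G.symm.nd_up hy fun x hx => ?_
  rw [dn_symm] at hx
  rw [LinearMap.trace_mul_comm]
  exact h x hx

theorem rk_add : rk e + rk (1 - e) = finrank K V := rk_compl G.idem

theorem rk_e_pos : 0 < rk e := rk_pos G.ne0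

theorem rk_e_pos' : 0 < rk (1 - e) := rk_pos G.symm.ne0

end Gr

end Pool.Agent.SmallRank
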