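import Pool.Agent.SmallRank.Defs
import Pool.Agent.FQ.Burnside

/-!
# Two-sided ideals in an irreducible algebra; operators satisfying quadratic equations
-/

set_option autoImplicit false
set_option linter.unusedSectionVars false

namespace Pool.Agent.SmallRank

open Module

variable {K V : Type*} [Field K] [CharZero K] [IsAlgClosed K] [AddCommGroup V] [Module K V]
  [FiniteDimensional K V]

/-- the restriction of `P a P` to `range P` -/
private noncomputable def cut (P : End K V) : End K V →ₗ[K] End K (LinearMap.range P) where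
  toFun a := P.rangeRestrict ∘ₗ a ∘ₗ (LinearMap.range P).subtype
  map_add' a b := LinearMap.ext fun x => Subtype.ext (by simp)
  map_smul' c a := LinearMap.ext fun x => Subtype.ext (by simp)

omit [CharZero K] [IsAlgClosed K] [FiniteDimensional K V] in
private theorem cut_apply (P a : End K V) (x : LinearMap.range P) :
    ((cut P a x : LinearMap.range P) : V) = P (a x) := rfl

omit [CharZero K] [IsAlgClosed K] [FiniteDimensional K V] in
private theorem P_fix {P : End K V} (hP : P * P = P) {x : V} (hx : x ∈ LinearMap.range P) :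
    P x = x := by
  obtain ⟨y, rfl⟩ := hx
  exact DFunLike.congr_fun hP y

omit [CharZero K] [IsAlgClosed K] [FiniteDimensional K V] in
private theorem cut_mul {P : End K V} {a b : End K V} (ha : a * P = a) :
    cut P a * cut P b = cut P (a * b) := by
  refine LinearMap.ext fun x => Subtype.ext ?_
  rw [Module.End.mul_apply, cut_apply, cut_apply, cut_apply, Module.End.mul_apply]
  have h := DFunLike.congr_fun ha (b x)
  rw [Module.End.mul_apply] at h
  rw [h]

/-- A nonzero two-sided ideal of the algebra of all operators is everything. -/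
private theorem ideal_top {W : Type*} [AddCommGroup W] [Module K W] [FiniteDimensional K W]
    (I : Submodule K (End K W)) (hI : I ≠ ⊥) (hl : ∀ b : End K W, ∀ c ∈ I, b * c ∈ I)
    (hr : ∀ b : End K W, ∀ c ∈ I, c * b ∈ I) : I = ⊤ := by
  obtain ⟨c, hc, hc0⟩ := Submodule.exists_mem_ne_zero_of_ne_bot hI
  obtain ⟨w, hw⟩ : ∃ w, c w ≠ 0 := by
    by_contra h
    push Not at h
    exact hc0 (LinearMap.ext h)
  have h1 : ∀ (φ : Module.Dual K W) (v : W), φ.smulRight v ∈ I := by
    intro φ v
    obtain ⟨ψ, hψ⟩ : ∃ ψ : Module.Dual K W, ψ (c w) = 1 := by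
      by_contra hcon
      push Not at hcon
      refine hw ((Module.forall_dual_apply_eq_zero_iff K (c w)).1 fun ψ => ?_)
      by_contra h0
      exact hcon ((ψ (c w))⁻¹ • ψ) (by rw [LinearMap.smul_apply, smul_eq_mul, inv_mul_cancel₀ h0])
    have h2 := hl (ψ.smulRight v) _ (hr (φ.smulRight w) c hc)
    have h3 : ψ.smulRight v * (c * φ.smulRight w) = φ.smulRight v := by
      refine LinearMap.ext fun x => ?_
      simp [hψ]
    rwa [h3] at h2
  rw [eq_top_iff]
  intro f _
  let b := Module.finBasis K W
  have h4 : f = ∑ i, (b.coord i).smulRight (f (b i)) := by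
    refine LinearMap.ext fun x => ?_
    rw [LinearMap.sum_apply]
    conv_lhs => rw [← b.sum_repr x, map_sum]
    refine Finset.sum_congr rfl fun i _ => ?_
    rw [map_smul, LinearMap.smulRight_apply, Basis.coord_apply]
  rw [h4]
  exact I.sum_mem fun i _ => h1 _ _

/-- **The corner is everything.** `A` is a subspace of `P (End V) P` which acts irreducibly on
`range P`,
`C ⊆ A` a nonzero subspace which is stable under the multiplications by `A` on both sides.

Proof. `C * C ⊆ A * C ⊆ C`. For `u ∈ range P`, `u ≠ 0`, the subspace `C u = {c u}` of `range P` is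
stable
under `A`; the set of the `u ∈ range P` with `C u = 0` is stable under `A` (`C * A ⊆ C`), and it is
not
`range P` as `C ≠ 0`, so it is `⊥`: `C u = range P` for all `u ≠ 0` in `range P`. So the operators
induced by `C` on `range P` form a (non-unital) algebra without invariant subspaces. By Jacobson and
Burnside it is the algebra of all operators of `range P`: the subalgebra `C + K` of
`End (range P)` acts irreducibly (a `C + K`-stable subspace is `C`-stable), so it is everything by
`jacobson_density` (`RingTheory/SimpleModule/Basic.lean`; the commutant is `K` by Schur,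
`PrimePow.schur_irr`); `C` is a nonzero two-sided ideal of it and `End (range P)` is simple
(`IsSimpleRing`, matrices), so `C` is everything. (Or directly: a nonzero `c ∈ C` of minimal rank
has
rank one: if `c u₁`, `c u₂` are independent take `c' ∈ C` with `c' (c u₁) = u₂`, then
`c * c' * c` and `c` are not proportional on ..., and for an eigenvalue `λ` of `c * c'` on
`range c` the element `(c * c' - λ) * c` of `C` has a smaller rank and is not zero; the rank one
operators then follow by the transitivity on both sides.) -/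
theorem corner_full {P : End K V} (hP : P * P = P) {A C : Submodule K (End K V)}
    (hA : ∀ a ∈ A, P * a = a ∧ a * P = a) (hCA : C ≤ A) (hC : C ≠ ⊥)
    (hl : ∀ a ∈ A, ∀ b ∈ C, a * b ∈ C) (hr : ∀ a ∈ A, ∀ b ∈ C, b * a ∈ C)
    (hirr : ∀ U : Submodule K V, U ≤ LinearMap.range P → (∀ a ∈ A, ∀ u ∈ U, a u ∈ U) →
      U = ⊥ ∨ U = LinearMap.range P) (z : End K V) : P * z * P ∈ A := by
  have hfix : ∀ x ∈ LinearMap.range P, P x = x := fun x hx => P_fix hP hx
  have hCP : ∀ c ∈ C, ∀ x, P (c x) = c x := fun c hc x =>
    DFunLike.congr_fun (hA c (hCA hc)).1 x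
  have hCP' : ∀ c ∈ C, ∀ x, c (P x) = c x := fun c hc x =>
    DFunLike.congr_fun (hA c (hCA hc)).2 x
  have hrec : ∀ c ∈ C, ∀ d : End K V, d * P = d → P * d = d → cut P c = cut P d → c = d := by
    intro c hc d hd hd' h
    refine LinearMap.ext fun x => ?_
    have h1 := congrArg Subtype.val (DFunLike.congr_fun h ⟨P x, ⟨x, rfl⟩⟩)
    rw [cut_apply, cut_apply] at h1
    simp only at h1
    rw [hCP c hc, hCP' c hc] at h1
    have h2 := DFunLike.congr_fun hd x
    rw [Module.End.mul_apply] at h2
    have h3 := DFunLike.congr_fun hd' x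
    rw [Module.End.mul_apply] at h3
    rw [h1, h2, h3]
  -- irreducibility of C on the range
  have hirrC : ∀ U : Submodule K V, U ≤ LinearMap.range P → (∀ c ∈ C, ∀ u ∈ U, c u ∈ U) →
      U = ⊥ ∨ U = LinearMap.range P := by
    intro U hU hCU
    by_cases hU0 : U = ⊥
    · exact Or.inl hU0
    right
    obtain ⟨u, hu, hu0⟩ := Submodule.exists_mem_ne_zero_of_ne_bot hU0
    have hev : ∃ E : Submodule K V, ∀ x, x ∈ E ↔ ∃ c ∈ C, c u = x :=
      ⟨C.map (LinearMap.applyₗ (R := K) u), fun x => by simp [Submodule.mem_map]⟩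
    obtain ⟨E, hE⟩ := hev
    have hE1 : E ≤ LinearMap.range P := by
      intro x hx
      obtain ⟨c, hc, rfl⟩ := (hE x).1 hx
      exact ⟨c u, hCP c hc u⟩
    rcases hirr E hE1 (fun a ha x hx => by
      obtain ⟨c, hc, rfl⟩ := (hE x).1 hx
      exact (hE _).2 ⟨a * c, hl a ha c hc, rfl⟩) with h | h
    · exfalso
      have hN : ∃ N : Submodule K V, ∀ x, x ∈ N ↔ x ∈ LinearMap.range P ∧ ∀ c ∈ C, c x = 0 :=
        ⟨{ carrier := {x | x ∈ LinearMap.range P ∧ ∀ c ∈ C, c x = 0}
           add_mem' := fun {x y} hx hy => ⟨Submodule.add_mem _ hx.1 hy.1, fun c hc => by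
             rw [map_add, hx.2 c hc, hy.2 c hc, add_zero]⟩
           zero_mem' := ⟨Submodule.zero_mem _, fun c _ => map_zero c⟩
           smul_mem' := fun k x hx => ⟨Submodule.smul_mem _ k hx.1, fun c hc => by
             rw [map_smul, hx.2 c hc, smul_zero]⟩ }, fun x => Iff.rfl⟩
      obtain ⟨N, hN⟩ := hN
      rcases hirr N (fun x hx => ((hN x).1 hx).1) (fun a ha x hx => (hN _).2 ⟨⟨a x,
          DFunLike.congr_fun (hA a ha).1 x⟩, fun c hc =>
          ((hN x).1 hx).2 (c * a) (hr a ha c hc)⟩) with h1 | h1
      · have h2 : u ∈ N := (hN u).2 ⟨hU hu, fun c hc => by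
          have h3 : c u ∈ E := (hE _).2 ⟨c, hc, rfl⟩
          rw [h, Submodule.mem_bot] at h3
          exact h3⟩
        rw [h1, Submodule.mem_bot] at h2
        exact hu0 h2
      · apply hC
        rw [eq_bot_iff]
        intro c hc
        rw [Submodule.mem_bot]
        refine LinearMap.ext fun x => ?_
        have h2 : P x ∈ N := by rw [h1]; exact ⟨x, rfl⟩
        have h3 := ((hN _).1 h2).2 c hc
        rw [hCP' c hc] at h3
        exact h3
    · refine le_antisymm hU ?_
      rw [← h]
      intro x hx
      obtain ⟨c, hc, rfl⟩ := (hE x).1 hx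
      exact hCU c hc u hu
  -- the algebra generated by C on the range
  have htop : Algebra.adjoin K (cut P '' C) = ⊤ := by
    refine Pool.Agent.FQ.eq_top_of_irr _ fun U hU => ?_
    have h1 := hirrC (U.map (LinearMap.range P).subtype) (by
      rintro _ ⟨x, _, rfl⟩
      exact x.2) (by
      rintro c hc _ ⟨x, hx, rfl⟩
      refine ⟨cut P c x, hU _ (Algebra.subset_adjoin ⟨c, hc, rfl⟩) x hx, ?_⟩
      exact hCP c hc x)
    rcases h1 with h1 | h1
    · left
      rw [eq_bot_iff]
      intro x hx
      have h2 : (x : V) ∈ U.map (LinearMap.range P).subtype := ⟨x, hx, rfl⟩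
      rw [h1, Submodule.mem_bot] at h2
      exact (Submodule.mem_bot K).2 (Subtype.ext h2)
    · right
      rw [eq_top_iff]
      intro x _
      have h2 : (x : V) ∈ U.map (LinearMap.range P).subtype := by rw [h1]; exact x.2
      obtain ⟨y, hy, hyx⟩ := h2
      rw [← Subtype.ext (a1 := y) (a2 := x) hyx]
      exact hy
  have hCC : ∀ c ∈ C, ∀ d ∈ C, cut P c * cut P d ∈ C.map (cut P) := fun c hc d hd => by
    rw [cut_mul (hA c (hCA hc)).2]
    exact ⟨c * d, hl c (hCA hc) d hd, rfl⟩
  have hid : ∀ b : End K (LinearMap.range P), b ∈ Algebra.adjoin K (cut P '' C) →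
      (∀ x ∈ C.map (cut P), b * x ∈ C.map (cut P)) ∧
      (∀ x ∈ C.map (cut P), x * b ∈ C.map (cut P)) := by
    intro b hb
    induction hb using Algebra.adjoin_induction with
    | mem b hb =>
      obtain ⟨c, hc, rfl⟩ := hb
      refine ⟨?_, ?_⟩
      · rintro _ ⟨d, hd, rfl⟩
        exact hCC c hc d hd
      · rintro _ ⟨d, hd, rfl⟩
        exact hCC d hd c hc
    | algebraMap r =>
      refine ⟨fun x hx => ?_, fun x hx => ?_⟩
      · rw [← Algebra.smul_def]
        exact Submodule.smul_mem _ _ hx
      · rw [← Algebra.commutes, ← Algebra.smul_def]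
        exact Submodule.smul_mem _ _ hx
    | add b b' _ _ h h' =>
      refine ⟨fun x hx => ?_, fun x hx => ?_⟩
      · rw [add_mul]
        exact Submodule.add_mem _ (h.1 x hx) (h'.1 x hx)
      · rw [mul_add]
        exact Submodule.add_mem _ (h.2 x hx) (h'.2 x hx)
    | mul b b' _ _ h h' =>
      refine ⟨fun x hx => ?_, fun x hx => ?_⟩
      · rw [mul_assoc]
        exact h.1 _ (h'.1 x hx)
      · rw [← mul_assoc]
        exact h'.2 _ (h.2 x hx)
  have hfull : C.map (cut P) = ⊤ := by
    refine ideal_top _ ?_ (fun b => (hid b (by rw [htop]; trivial)).1)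
      (fun b => (hid b (by rw [htop]; trivial)).2)
    intro h
    apply hC
    rw [eq_bot_iff]
    intro c hc
    rw [Submodule.mem_bot]
    refine hrec c hc 0 (zero_mul _) (mul_zero _) ?_
    have h2 : cut P c ∈ C.map (cut P) := ⟨c, hc, rfl⟩
    rw [h, Submodule.mem_bot] at h2
    rw [h2, map_zero]
  have hz : cut P (P * z * P) ∈ C.map (cut P) := by rw [hfull]; trivial
  obtain ⟨c, hc, hcz⟩ := hz
  have h5 := hrec c hc (P * z * P) (by rw [mul_assoc, hP])
    (by rw [← mul_assoc, ← mul_assoc, hP]) hcz
  rw [← h5]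
  exact hCA hc

/-- **Quadratic equations.**

Proof. Otherwise there are linearly independent `u₀`, `u₁`, `u₂` in `range P`. Let `z` be an
operator
with `z u₀ = u₁`, `z u₁ = u₂` (extend to a basis). Then `(P * z * P) u₀ = u₁`, `(P * z * P) u₁ =
u₂`, and the
quadratic equation applied to `u₀` gives `u₂ - s • u₁ + d • u₀ = 0`. -/
theorem rk_le_two {P : End K V} (hP : P * P = P)
    (h : ∀ z : End K V, ∃ s d : K, P * z * P * (P * z * P) - s • (P * z * P) + d • P = 0) :
    rk P ≤ 2 := by
  by_contra hrk
  push Not at hrk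
  obtain ⟨u, hu⟩ := exists_linearIndependent_of_le_finrank (n := 3) (R := K)
    (M := LinearMap.range P) hrk
  have hv : LinearIndependent K (fun i => (u i : V)) :=
    hu.map' (LinearMap.range P).subtype (Submodule.ker_subtype _)
  obtain ⟨z, hz⟩ : ∃ z : End K V, ∀ i, z (u i : V) = ![(u 1 : V), u 2, 0] i := by
    obtain ⟨z, hz⟩ := LinearMap.exists_extend
      ((Basis.span hv).constr K (![(u 1 : V), u 2, 0] : Fin 3 → V))
    refine ⟨z, fun i => ?_⟩
    have h1 := DFunLike.congr_fun hz (Basis.span hv i)
    rw [Basis.constr_basis, LinearMap.comp_apply, Submodule.subtype_apply, Basis.span_apply] at h1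
    exact h1
  have hfix : ∀ i, P (u i : V) = u i := fun i => P_fix hP (u i).2
  have z0 : z (u 0 : V) = u 1 := hz 0
  have z1 : z (u 1 : V) = u 2 := hz 1
  have w0 : (P * z * P) (u 0 : V) = u 1 := by
    rw [Module.End.mul_apply, Module.End.mul_apply, hfix, z0, hfix]
  have w1 : (P * z * P) (u 1 : V) = u 2 := by
    rw [Module.End.mul_apply, Module.End.mul_apply, hfix, z1, hfix]
  obtain ⟨s, d, hsd⟩ := h z
  have h2 := DFunLike.congr_fun hsd (u 0 : V)
  rw [LinearMap.add_apply, LinearMap.sub_apply, Module.End.mul_apply, LinearMap.smul_apply,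
    LinearMap.smul_apply, w0, w1, hfix, LinearMap.zero_apply] at h2
  rw [Fintype.linearIndependent_iff] at hv
  have h3 := hv ![d, -s, 1] (by
    rw [Fin.sum_univ_three]
    simp only [Matrix.cons_val_zero, Matrix.cons_val_one, Matrix.cons_val_two, Matrix.head_cons,
      Matrix.tail_cons]
    rw [← h2, neg_smul, one_smul]
    abel) 2
  simp at h3

end Pool.Agent.SmallRank
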