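import Pool.Agent.SmallRank.Defs

/-!
# The part of degree zero is generated by the parts of degree one and minus one
-/

set_option autoImplicit false
set_option linter.unusedSectionVars false

namespace Pool.Agent.SmallRank

open Module

variable {K V : Type*} [Field K] [CharZero K] [IsAlgClosed K] [AddCommGroup V] [Module K V]
  [FiniteDimensional K V] {g : Submodule K (End K V)} {e : End K V}

/-- `e` does not commute with `g`.

Proof. Otherwise `up g e = 0` (for `x ∈ up g e`, `x = e * x = x * e = 0`) and `e` commutes with all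
`x ∈ g`
(`Gr.decomp`, `dn g e = 0` in the same way), so `e = κ • 1` by `Gr.scalar`, `κ * κ = κ`, `e = 0` or
`e = 1`. So `up g e` or `dn g e` is not zero, and by `Gr.nd_up`, `Gr.nd_dn` both are not zero. -/
theorem exists_up (G : Gr g e) : ∃ x ∈ up g e, x ≠ 0 := by
  have := G.nontrivial
  by_contra h
  have hu : ∀ x ∈ up g e, x = 0 := fun x hx => by
    by_contra hx0
    exact h ⟨x, hx, hx0⟩
  have hd : ∀ y ∈ dn g e, y = 0 := fun y hy => G.nd_dn hy fun x hx => by
    rw [hu x hx, zero_mul, map_zero]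
  have hc : ∀ x ∈ g, e * x = x * e := by
    intro x hx
    have h1 := G.zero_comm x
    have h2 := G.decomp x
    rw [hu _ (G.up_mem hx), hd _ (G.dn_mem hx), zero_add, zero_add] at h2
    rwa [← h2] at h1
  obtain ⟨c, hc⟩ := G.scalar hc
  have h1 := G.idem
  rw [hc, smul_mul_smul_comm, one_mul] at h1
  have h2 : (c * c - c) • (1 : End K V) = 0 := by rw [sub_smul, h1, sub_self]
  rcases smul_eq_zero.1 h2 with h3 | h3
  · have h4 : c * (c - 1) = 0 := by rw [mul_sub, mul_one]; exact h3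
    rcases mul_eq_zero.1 h4 with h5 | h5
    · exact G.ne0 (by rw [hc, h5, zero_smul])
    · exact G.ne1 (by rw [hc, sub_eq_zero.1 h5, one_smul])
  · exact one_ne_zero h3

/-- **Degree zero.**

Proof. Let `I ≤ g` be the span of `up g e`, `dn g e` and the `x * y - y * x`, `x ∈ up g e`, `y ∈ dn
g e`.
It is an ideal of `g`: use `Gr.decomp` for the elements of `g`, `Gr.lie_up`, `Gr.lie_dn`; for `z` of
degree zero `[z, [x, y]] = [[z, x], y] + [x, [z, y]]`; `[x', [x, y]] ∈ up g e` because `[x, y]` has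
degree
zero (`Gr.lie_zero`); `[x, x'] = 0` for `x`, `x' ∈ up g e` (`Gr.up_mul_up`). All its elements have
trace
zero, and it is not zero (`exists_up`). So `G.simple` gives `z = a + κ • 1` with `a ∈ I`; write
`a = x₀ + y₀ + d` with `x₀ ∈ up g e`, `y₀ ∈ dn g e` and `d` in the span of the commutators. As `a`,
`d`
commute with `e`, `x₀ + y₀` commutes with `e`, so `x₀ = e * (x₀ + y₀) = (x₀ + y₀) * e = y₀`, hence
`x₀ = e * x₀ = e * y₀ = 0`, `y₀ = 0`. -/
theorem zero_span (G : Gr g e) {z : End K V} (hz : z ∈ g) (hze : e * z = z * e) :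
    ∃ κ : K, z - κ • 1 ∈ Submodule.span K
      {d | ∃ x ∈ up g e, ∃ y ∈ dn g e, d = x * y - y * x} := by
  set C : Submodule K (End K V) := Submodule.span K
      {d | ∃ x ∈ up g e, ∃ y ∈ dn g e, d = x * y - y * x} with hC
  have hCmem : ∀ x ∈ up g e, ∀ y ∈ dn g e, x * y - y * x ∈ C := fun x hx y hy =>
    Submodule.subset_span ⟨x, hx, y, hy, rfl⟩
  have hCg : ∀ s ∈ C, s ∈ g ∧ e * s = s * e ∧ LinearMap.trace K V s = 0 := by
    intro s hs
    induction hs using Submodule.span_induction with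
    | mem d hd =>
      obtain ⟨x, hx, y, hy, rfl⟩ := hd
      refine ⟨(G.lie_zero hx hy).1, (G.lie_zero hx hy).2, ?_⟩
      rw [map_sub, LinearMap.trace_mul_comm, sub_self]
    | zero => exact ⟨g.zero_mem, by rw [mul_zero, zero_mul], map_zero _⟩
    | add a b _ _ ha hb =>
      exact ⟨g.add_mem ha.1 hb.1, by rw [mul_add, add_mul, ha.2.1, hb.2.1], by
        rw [map_add, ha.2.2, hb.2.2, add_zero]⟩
    | smul c a _ ha =>
      exact ⟨g.smul_mem c ha.1, by rw [mul_smul_comm, smul_mul_assoc, ha.2.1], by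
        rw [map_smul, ha.2.2, smul_zero]⟩
  have hCC : ∀ w ∈ g, e * w = w * e → ∀ s ∈ C, w * s - s * w ∈ C := by
    intro w hw hwe s hs
    induction hs using Submodule.span_induction with
    | mem d hd =>
      obtain ⟨x, hx, y, hy, rfl⟩ := hd
      have h1 := hCmem _ (G.lie_up hw hwe hx) y hy
      have h2 := hCmem x hx _ (G.lie_dn hw hwe hy)
      have h3 : w * (x * y - y * x) - (x * y - y * x) * w =
          ((w * x - x * w) * y - y * (w * x - x * w)) +
          (x * (w * y - y * w) - (w * y - y * w) * x) := by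
        noncomm_ring
      rw [h3]
      exact C.add_mem h1 h2
    | zero => rw [mul_zero, zero_mul, sub_zero]; exact C.zero_mem
    | add a b _ _ ha hb =>
      have h3 : w * (a + b) - (a + b) * w = (w * a - a * w) + (w * b - b * w) := by
        noncomm_ring
      rw [h3]
      exact C.add_mem ha hb
    | smul c a _ ha =>
      have h3 : w * (c • a) - (c • a) * w = c • (w * a - a * w) := by
        rw [mul_smul_comm, smul_mul_assoc, smul_sub]
      rw [h3]
      exact C.smul_mem c ha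
  have hup : up g e ≤ up g e ⊔ dn g e ⊔ C := le_sup_left.trans le_sup_left
  have hdn : dn g e ≤ up g e ⊔ dn g e ⊔ C := le_sup_right.trans le_sup_left
  have hcc : C ≤ up g e ⊔ dn g e ⊔ C := le_sup_right
  have hI1 : up g e ⊔ dn g e ⊔ C ≤ g :=
    sup_le (sup_le (fun x hx => hx.1) (fun x hx => hx.1)) (fun x hx => (hCg x hx).1)
  have hI2 : ∀ x ∈ g, ∀ z ∈ up g e ⊔ dn g e ⊔ C, x * z - z * x ∈ up g e ⊔ dn g e ⊔ C := by
    intro x hx z hz
    obtain ⟨ud, hud, s, hs, rfl⟩ := Submodule.mem_sup.1 hz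
    obtain ⟨u, hu, d, hd, rfl⟩ := Submodule.mem_sup.1 hud
    have hx1 := G.up_mem hx
    have hx2 := G.dn_mem hx
    have hx3 := G.zero_mem hx
    have hx4 := G.zero_comm x
    have hx5 := G.decomp x
    set x1 := e * x * (1 - e)
    set x2 := (1 - e) * x * e
    set x3 := e * x * e + (1 - e) * x * (1 - e)
    have h1 : x * (u + d + s) - (u + d + s) * x =
        (x1 * u - u * x1) + (x1 * d - d * x1) + -(s * x1 - x1 * s) +
        (-(u * x2 - x2 * u) + (x2 * d - d * x2) + -(s * x2 - x2 * s)) +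
        ((x3 * u - u * x3) + (x3 * d - d * x3) + (x3 * s - s * x3)) := by
      rw [hx5]
      noncomm_ring
    rw [h1, Gr.up_mul_up hx1 hu, Gr.up_mul_up hu hx1, Gr.dn_mul_dn hx2 hd, Gr.dn_mul_dn hd hx2,
      sub_zero]
    have hsg := hCg s hs
    refine Submodule.add_mem _ (Submodule.add_mem _ (Submodule.add_mem _ (Submodule.add_mem _
      (Submodule.zero_mem _) (hcc (hCmem _ hx1 _ hd))) (Submodule.neg_mem _
        (hup (G.lie_up hsg.1 hsg.2.1 hx1))))
      (Submodule.add_mem _ (Submodule.add_mem _ (Submodule.neg_mem _ (hcc (hCmem _ hu _ hx2)))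
        (Submodule.zero_mem _)) (Submodule.neg_mem _ (hdn (G.lie_dn hsg.1 hsg.2.1 hx2)))))
      (Submodule.add_mem _ (Submodule.add_mem _ (hup (G.lie_up hx3 hx4 hu))
        (hdn (G.lie_dn hx3 hx4 hd))) (hcc (hCC _ hx3 hx4 _ hs)))
  have hI3 : ∀ z ∈ up g e ⊔ dn g e ⊔ C, LinearMap.trace K V z = 0 := by
    intro z hz
    obtain ⟨ud, hud, s, hs, rfl⟩ := Submodule.mem_sup.1 hz
    obtain ⟨u, hu, d, hd, rfl⟩ := Submodule.mem_sup.1 hud
    have h1 := Gr.trace_up hu (z := 1) (by rw [mul_one, one_mul])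
    have h2 := Gr.trace_dn hd (z := 1) (by rw [mul_one, one_mul])
    rw [mul_one] at h1 h2
    rw [map_add, map_add, h1, h2, (hCg s hs).2.2, add_zero, add_zero]
  have hI4 : up g e ⊔ dn g e ⊔ C ≠ ⊥ := by
    intro h
    obtain ⟨x, hx, hx0⟩ := exists_up G
    have h1 := hup hx
    rw [h, Submodule.mem_bot] at h1
    exact hx0 h1
  obtain ⟨a, ha, κ, hκ⟩ := G.simple _ hI1 hI2 hI3 hI4 z hz
  refine ⟨κ, ?_⟩
  have h1 : z - κ • 1 = a := by rw [hκ, add_sub_cancel_right]
  have h2 : e * a = a * e := by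
    rw [← h1, mul_sub, sub_mul, hze, mul_smul_comm, smul_mul_assoc, mul_one, one_mul]
  rw [h1]
  obtain ⟨ud, hud, s, hs, rfl⟩ := Submodule.mem_sup.1 ha
  obtain ⟨u, hu, d, hd, rfl⟩ := Submodule.mem_sup.1 hud
  have hsg := hCg s hs
  rw [mul_add, mul_add, add_mul, add_mul, hu.2.1, hd.2.1, hu.2.2, hd.2.2, hsg.2.1, zero_add,
    add_zero, add_left_inj] at h2
  have h3 : u = 0 := by rw [← hu.2.1, h2, hd.2.1]
  rw [← h2, h3, zero_add, zero_add]
  exact hs

end Pool.Agent.SmallRank
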