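import Pool.Agent.SmallRank.Quad
import Pool.Agent.SmallRank.ZeroPart

/-!
# The corner of `c f` is generated by the elements `α`
-/

set_option autoImplicit false
set_option linter.unusedSectionVars false

namespace Pool.Agent.SmallRank.Fr

open Module

variable {K V : Type*} [Field K] [CharZero K] [IsAlgClosed K] [AddCommGroup V] [Module K V]
  [FiniteDimensional K V] {g : Submodule K (End K V)} {e c f x y w : End K V} {ρ : ℕ}
  (F : Fr g e c f x y w ρ)
include F

omit F [CharZero K] [IsAlgClosed K] [FiniteDimensional K V] in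
private theorem r2z {a b : End K V} (h : a * b = 0) (z : End K V) : a * (b * z) = 0 := by
  rw [← mul_assoc, h, zero_mul]

omit F [CharZero K] [IsAlgClosed K] [FiniteDimensional K V] in
private theorem r2 {a b r : End K V} (h : a * b = r) (z : End K V) : a * (b * z) = r * z := by
  rw [← mul_assoc, h]

omit F [CharZero K] [IsAlgClosed K] [FiniteDimensional K V] in
private theorem r3 {a b d r : End K V} (h : a * b * d = r) : a * (b * d) = r := by
  rw [← mul_assoc, h]

omit F [CharZero K] [IsAlgClosed K] [FiniteDimensional K V] in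
private theorem r3' {a b d r : End K V} (h : a * b * d = r) (z : End K V) :
    a * (b * (d * z)) = r * z := by
  rw [← h]
  simp only [mul_assoc]

omit F [CharZero K] [IsAlgClosed K] [FiniteDimensional K V] in
private theorem r4 {a b d k r : End K V} (h : a * b * d * k = r) : a * (b * (d * k)) = r := by
  rw [← h]
  simp only [mul_assoc]

omit F [CharZero K] [IsAlgClosed K] [FiniteDimensional K V] in
private theorem r4' {a b d k r : End K V} (h : a * b * d * k = r) (z : End K V) :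
    a * (b * (d * (k * z))) = r * z := by
  rw [← h]
  simp only [mul_assoc]

private theorem wzw {z : End K V} (hz : z ∈ g) : w * z * w ∈ g := by
  have h1 := F.G.lie _ F.wg _ (F.G.lie _ F.wg _ hz)
  have h2 : w * (w * z - z * w) - (w * z - z * w) * w = (-2 : K) • (w * z * w) := by
    rw [mul_sub, sub_mul, ← mul_assoc, F.ww, zero_mul, mul_assoc z, F.ww, mul_zero, ← mul_assoc]
    rw [zero_sub, sub_zero, neg_smul, two_smul]
    abel
  rw [h2] at h1
  have h3 := g.smul_mem (-2⁻¹ : K) h1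
  rw [smul_smul, show (-2⁻¹ : K) * -2 = 1 by norm_num, one_smul] at h3
  exact h3

private theorem upc {p : End K V} (hp : p ∈ up g e) : p * c = 0 := Gr.up_mul_up hp F.B.cu
private theorem upx {p : End K V} (hp : p ∈ up g e) : p * x = 0 := Gr.up_mul_up hp F.B'.cu
private theorem cup {p : End K V} (hp : p ∈ up g e) : c * p = 0 := Gr.up_mul_up F.B.cu hp
private theorem xup {p : End K V} (hp : p ∈ up g e) : x * p = 0 := Gr.up_mul_up F.B'.cu hp
private theorem dnf {q : End K V} (hq : q ∈ dn g e) : q * f = 0 := Gr.dn_mul_dn hq F.B.fd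
private theorem dny {q : End K V} (hq : q ∈ dn g e) : q * y = 0 := Gr.dn_mul_dn hq F.B'.fd
private theorem fdn {q : End K V} (hq : q ∈ dn g e) : f * q = 0 := Gr.dn_mul_dn F.B.fd hq
private theorem ydn {q : End K V} (hq : q ∈ dn g e) : y * q = 0 := Gr.dn_mul_dn F.B'.fd hq

/-- **First part**: `p ∈ up g e`, `q ∈ dn g e`, through `y x`.

Proof. `p' = c * f * p * (y * x) + x * y * p * (f * c) ∈ g` (`w_31`),
`v = p' * f - f * p' = x * y * p * f - f * p * y * x ∈ g` (`f * (c * f) = f`, `(f * c) * f = f`,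
`(y * x) * f = 0`, `f * (x * y) = 0`), `c * v * y * x = - (c * f * p * y * x)` (`c * x = 0`, `x * y
* x = x`).
`q' = y * x * q * (c * f) + f * c * q * (x * y) ∈ g` (`w_m31`),
`v' = c * q' - q' * c = c * q * x * y - y * x * q * c ∈ g`, `v' * f = - (y * x * q * (c * f))`. So
`c * f * p * (y * x) * q * (c * f) = c * v * v' * f` (`y * x * (v' * f) = v' * f`). Let
`v₂ = w * v' * w ∈ g` (`[w, [w, v']] = -2 • (w * v' * w)`, `F.ww`). Then
`c * v₂ * y * w * (c * f) = c * w * v' * w * y * w * c * f = c * w * v' * f` (`F.wb`, `(f * c) * f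
= f`), and
`(c * v * y * w * (c * f)) * (c * v₂ * y * w * (c * f)) = c * v * y * (w * c * w) * v' * f =
c * v * y * x * v' * f`, which is `c * v * v' * f`. -/
theorem part_one {p q : End K V} (hp : p ∈ up g e) (hq : q ∈ dn g e) :
    ∃ v ∈ g, ∃ v₂ ∈ g, c * f * p * (y * x) * q * (c * f) =
      c * v * y * w * (c * f) * (c * v₂ * y * w * (c * f)) := by
  have h1 := F.G.lie _ (F.w_31 hp.1) _ F.B.fd.1
  have h2 := F.wzw (F.G.lie _ F.B.cu.1 _ (F.w_m31 hq.1))
  refine ⟨_, h1, _, h2, ?_⟩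
  have hcw : ∀ z : End K V, c * (w * (y * (x * z))) = c * (w * z) := by
    intro z
    have h := F.cw
    calc c * (w * (y * (x * z))) = c * w * (y * x) * z := by simp only [mul_assoc]
      _ = c * (w * z) := by rw [h]; simp only [mul_assoc]
  simp only [mul_assoc, mul_add, add_mul, mul_sub, sub_mul, mul_zero, zero_mul, add_zero, zero_add,
    sub_zero, zero_sub, neg_mul, mul_neg, neg_neg, neg_zero,
    hcw, r2z F.fx, F.fx, r2z F.xf, F.xf, r2z F.yc, F.yc, r2z F.cy, F.cy, r2z F.cc, F.cc, r2z F.ff,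
    F.ff, r2z F.xx, F.xx, r2z F.yy, F.yy, r2z F.cx, F.cx, r2z F.xc, F.xc, r2z F.fy, F.fy,
    r2z F.yf, F.yf, r2z F.wx, F.wx, r2z F.wf, F.wf, r2z F.xw, F.xw, r2z F.fw, F.fw,
    r3 F.cfc, r3' F.cfc, r3 F.fcf, r3' F.fcf, r3 F.xyx, r3' F.xyx, r3 F.yxy, r3' F.yxy,
    r3 F.wcw, r3' F.wcw, r3 F.cwc, r3' F.cwc, r4 F.aw, r4' F.aw]

/-- **Second part**: `p ∈ up g e`, `q ∈ dn g e`, through `T = 1 - e - f * c - y * x`.

Proof. Let `S = e - c * f - x * y`. `p' = c * f * p * T + S * p * (f * c) ∈ g` (`w_30`),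
`b = p' * f - f * p' = S * p * f - f * p * T ∈ g` (`T * f = 0`, `f * S = 0`, `(f * c) * f = f`),
`c * f * p * T = - (c * b * T)`. `q' = T * q * (c * f) + f * c * q * S ∈ g` (`w_m30`),
`b' = c * q' - q' * c = c * q * S - T * q * c ∈ g` (`c * T = 0`, `S * c = 0`), `b' * f = - (T * q *
(c * f))`.
So `c * f * p * T * q * (c * f) = c * b * b' * f`. Now `z = b * b' - b' * b ∈ g`,
`b * b' = S * p * f * c * q * S + f * p * T * q * c`, `b' * b = c * q * S * p * f + T * q * c * f *
p * T`
(`T * T = T`, `S * S = S`), so `z * c - c * z = - (c * q * S * p * f * c) - c * f * p * T * q * c`,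
in
`up g e` (`z` commutes with `e`), of the form `c * _` and `_ * c`, so it is `κ • c` by `line`
(`F.B`). Multiply by `f` on the right: `c * b * b' * f = - κ • (c * f) - b' * b * (c * f)`, with
`b' * b * (c * f) = c * q * S * p * f`. Let
`r = w * b' - b' * w = w * c * q * S + T * q * c * w ∈ g` (`w * T = 0`, `S * w = 0`) and
`v = r * b - b * r ∈ g`. `r * (c * f) = 0` (`S * c = 0`, `F.cwc`), and
`c * w * y * r = c * w * y * w * c * q * S = c * q * S` (`y * T = 0`, `F.aw`), so
`c * w * y * v * (c * f) = c * q * S * b * (c * f) = c * q * S * p * f`. -/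
theorem part_two {p q : End K V} (hp : p ∈ up g e) (hq : q ∈ dn g e) :
    ∃ v ∈ g, ∃ κ : K, c * f * p * (1 - e - f * c - y * x) * q * (c * f) =
      κ • (c * f) - c * w * y * v * (c * f) := by
  have h1 := F.G.lie _ (F.w_30 hp.1) _ F.B.fd.1
  have h2 := F.G.lie _ F.B.cu.1 _ (F.w_m30 hq.1)
  have cS := F.cS
  have xS := F.xS
  have fS := F.fS
  have yS := F.yS
  have Sc := F.Sc
  have Sx := F.Sx
  have Sf := F.Sf
  have Sy := F.Sy
  have cT := F.cT
  have xT := F.xT
  have fT := F.fT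
  have yT := F.yT
  have Tc := F.Tc
  have Tx := F.Tx
  have Tf := F.Tf
  have Ty := F.Ty
  have SS := F.SS
  have TT := F.TT
  have ST := F.ST
  have TS := F.TS
  have Sw := F.Sw
  have wS := F.wS
  have Tw := F.Tw
  have wT := F.wT
  have Se := F.Se
  have eS := F.eS
  generalize e - c * f - x * y = S at *
  generalize 1 - e - f * c - y * x = T at *
  have hb : (c * f * p * T + S * p * (f * c)) * f - f * (c * f * p * T + S * p * (f * c)) =
      S * (p * f) - f * (p * T) := by
    simp only [mul_assoc, mul_add, add_mul, mul_sub, sub_mul, mul_zero, zero_mul, add_zero,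
    zero_add,
    sub_zero, zero_sub, neg_mul, mul_neg, neg_neg, neg_zero,
      r2z F.fx, F.fx, r2z F.xf, F.xf, r2z F.yc, F.yc, r2z F.cy, F.cy, r2z F.cc, F.cc, r2z F.ff,
    F.ff, r2z F.xx, F.xx, r2z F.yy, F.yy, r2z F.cx, F.cx, r2z F.xc, F.xc, r2z F.fy, F.fy,
    r2z F.yf, F.yf, r2z F.wx, F.wx, r2z F.wf, F.wf, r2z F.xw, F.xw, r2z F.fw, F.fw,
    r3 F.cfc, r3' F.cfc, r3 F.fcf, r3' F.fcf, r3 F.xyx, r3' F.xyx, r3 F.yxy, r3' F.yxy,
    r3 F.wcw, r3' F.wcw, r3 F.cwc, r3' F.cwc, r4 F.aw, r4' F.aw, r2z Tf, Tf, r2z fS, fS]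
  have hb' : c * (T * q * (c * f) + f * c * q * S) - (T * q * (c * f) + f * c * q * S) * c =
      c * (q * S) - T * (q * c) := by
    simp only [mul_assoc, mul_add, add_mul, mul_sub, sub_mul, mul_zero, zero_mul, add_zero,
    zero_add,
    sub_zero, zero_sub, neg_mul, mul_neg, neg_neg, neg_zero,
      r2z F.fx, F.fx, r2z F.xf, F.xf, r2z F.yc, F.yc, r2z F.cy, F.cy, r2z F.cc, F.cc, r2z F.ff,
    F.ff, r2z F.xx, F.xx, r2z F.yy, F.yy, r2z F.cx, F.cx, r2z F.xc, F.xc, r2z F.fy, F.fy,
    r2z F.yf, F.yf, r2z F.wx, F.wx, r2z F.wf, F.wf, r2z F.xw, F.xw, r2z F.fw, F.fw,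
    r3 F.cfc, r3' F.cfc, r3 F.fcf, r3' F.fcf, r3 F.xyx, r3' F.xyx, r3 F.yxy, r3' F.yxy,
    r3 F.wcw, r3' F.wcw, r3 F.cwc, r3' F.cwc, r4 F.aw, r4' F.aw, r2z cT, cT, r2z Sc, Sc]
  rw [hb] at h1
  rw [hb'] at h2
  set b := S * (p * f) - f * (p * T) with hbd
  set b' := c * (q * S) - T * (q * c) with hbd'
  have hz := F.G.lie _ h1 _ h2
  have hzc := F.G.lie _ hz _ F.B.cu.1
  have hzc' : (b * b' - b' * b) * c - c * (b * b' - b' * b) =
      -(c * (q * (S * (p * (f * c))))) - c * (f * (p * (T * (q * c)))) := by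
    rw [hbd, hbd']
    simp only [mul_assoc, mul_add, add_mul, mul_sub, sub_mul, mul_zero, zero_mul, add_zero,
    zero_add,
    sub_zero, zero_sub, neg_mul, mul_neg, neg_neg, neg_zero,
      r2z F.fx, F.fx, r2z F.xf, F.xf, r2z F.yc, F.yc, r2z F.cy, F.cy, r2z F.cc, F.cc, r2z F.ff,
    F.ff, r2z F.xx, F.xx, r2z F.yy, F.yy, r2z F.cx, F.cx, r2z F.xc, F.xc, r2z F.fy, F.fy,
    r2z F.yf, F.yf, r2z F.wx, F.wx, r2z F.wf, F.wf, r2z F.xw, F.xw, r2z F.fw, F.fw,
    r3 F.cfc, r3' F.cfc, r3 F.fcf, r3' F.fcf, r3 F.xyx, r3' F.xyx, r3 F.yxy, r3' F.yxy,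
    r3 F.wcw, r3' F.wcw, r3 F.cwc, r3' F.cwc, r4 F.aw, r4' F.aw, r2z cT, cT, r2z Sc, Sc, r2z fT,
    fT, r2z Tc, Tc, r2z cS, cS,
      r2z Sf, Sf, r2 TT, TT, r2 SS, SS, r2z ST, ST, r2z TS, TS]
  rw [hzc'] at hzc
  obtain ⟨κ, hκ⟩ := line F.B.min F.B.cu F.B.c0 F.B.rkc.le
    (x := -(c * (q * (S * (p * (f * c))))) - c * (f * (p * (T * (q * c)))))
    ⟨hzc, by
      simp only [mul_sub, mul_neg, r2 F.ec], by
      simp only [sub_mul, neg_mul, mul_assoc, F.ce, mul_zero, sub_zero, neg_zero]⟩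
    (a := -(q * (S * (p * (f * c)))) - f * (p * (T * (q * c))))
    (b := -(c * (q * (S * (p * f)))) - c * (f * (p * (T * q))))
    (by simp only [mul_sub, mul_neg]) (by simp only [sub_mul, neg_mul, mul_assoc])
  have hr := F.G.lie _ F.wg _ h2
  have hv := F.G.lie _ hr _ h1
  refine ⟨_, hv, -κ, ?_⟩
  have e1 : c * w * y * ((w * b' - b' * w) * b - b * (w * b' - b' * w)) * (c * f) =
      c * (q * (S * (p * f))) := by
    rw [hbd, hbd']
    simp only [mul_assoc, mul_add, add_mul, mul_sub, sub_mul, mul_zero, zero_mul, add_zero,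
    zero_add,
    sub_zero, zero_sub, neg_mul, mul_neg, neg_neg, neg_zero,
      r2z F.fx, F.fx, r2z F.xf, F.xf, r2z F.yc, F.yc, r2z F.cy, F.cy, r2z F.cc, F.cc, r2z F.ff,
    F.ff, r2z F.xx, F.xx, r2z F.yy, F.yy, r2z F.cx, F.cx, r2z F.xc, F.xc, r2z F.fy, F.fy,
    r2z F.yf, F.yf, r2z F.wx, F.wx, r2z F.wf, F.wf, r2z F.xw, F.xw, r2z F.fw, F.fw,
    r3 F.cfc, r3' F.cfc, r3 F.fcf, r3' F.fcf, r3 F.xyx, r3' F.xyx, r3 F.yxy, r3' F.yxy,
    r3 F.wcw, r3' F.wcw, r3 F.cwc, r3' F.cwc, r4 F.aw, r4' F.aw, r2z cT, cT, r2z Sc, Sc, r2z fT,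
    fT, r2z Tc, Tc, r2z cS, cS,
      r2z Sf, Sf, r2 TT, TT, r2 SS, SS, r2z ST, ST, r2z TS, TS, r2z wT, wT, r2z wS, wS, r2z Sw, Sw,
      r2z Tw, Tw, r2z yT, yT, r2z yS, yS]
  have e2 : -(c * (q * (S * (p * f)))) - c * (f * (p * (T * (q * (c * f))))) = κ • (c * f) := by
    have h := congrArg (fun z => z * f) hκ
    beta_reduce at h
    rw [smul_mul_assoc] at h
    rw [← h]
    simp only [sub_mul, neg_mul, mul_assoc, r3 F.fcf]
  rw [e1]
  simp only [mul_assoc]
  rw [neg_smul, ← e2]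
  abel

/-- **Stability.** A subspace of `range (c f)` which is stable under all `α` is stable under the
corner.

Proof. For `z ∈ g` and `u ∈ U`: `c f z u = c f z₀ u` with the component `z₀` of degree zero
(`Gr.decomp`; `(c * f) * z * u` with `u = e u`, `c * f = (c * f) * e`). By `zero_span`, `z₀` is a
scalar
plus a combination of the `p * q - q * p`, `p ∈ up g e`, `q ∈ dn g e`, and
`c f (p q - q p) u = c f p q u` (`p u = p (e u) = 0`; `(c f) q = (c f) e q = 0`). Insert
`Fr.one_eq` between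
`p` and `q`: `p * (c * f) = 0`, `p * (x * y) = 0`, `p * S = 0` (`p * e = 0`), so
`c f p q u = c f p (f c) q (c f) u + c f p (y x) q (c f) u + c f p T q (c f) u`. The first is a
multiple of
`c f u = u` (`Pr.two`, `Pr.mtwo`). The second: `part_one`, and `c * v * y * w * (c * f)` maps `U`
to `U`
because by `quad_add` it is `s • (c * f) - c * w * y * v * (c * f)`. The third: `part_two`. -/
theorem stab_P {U : Submodule K V} (hU : U ≤ LinearMap.range (c * f))
    (hst : ∀ v ∈ g, ∀ u ∈ U, (c * w * y) (v u) ∈ U) : ∀ z ∈ g, ∀ u ∈ U, (c * f) (z u) ∈ U := by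
  intro z hz u hu
  have hcfu : ∀ u ∈ U, (c * f) u = u := by
    intro u hu
    obtain ⟨t, rfl⟩ := hU hu
    rw [← Module.End.mul_apply, F.B.idemP]
  have heu : ∀ u ∈ U, e u = u := by
    intro u hu
    obtain ⟨t, rfl⟩ := hU hu
    rw [← Module.End.mul_apply, ← mul_assoc, F.ec]
  have key1 : ∀ v ∈ g, ∀ u ∈ U, (c * v * y * w * (c * f)) u ∈ U := by
    intro v hv u hu
    obtain ⟨s, hs⟩ := F.quad_add hv
    have e1 : c * v * y * w * (c * f) = s • (c * f) - c * w * y * v * (c * f) := by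
      rw [← hs]
      abel
    rw [e1, LinearMap.sub_apply, LinearMap.smul_apply, Module.End.mul_apply (c * w * y * v),
      hcfu u hu, Module.End.mul_apply (c * w * y) v]
    exact U.sub_mem (U.smul_mem _ hu) (hst v hv u hu)
  have key2 : ∀ p ∈ up g e, ∀ q ∈ dn g e, ∀ u ∈ U, (c * f) ((p * q) u) ∈ U := by
    intro p hp q hq u hu
    obtain ⟨κ₁, h1⟩ := F.B.two hp.1
    obtain ⟨κ₂, h2⟩ := F.B.mtwo hq.1
    obtain ⟨v, hv, v₂, hv₂, h3⟩ := F.part_one hp hq
    obtain ⟨v₃, hv₃, κ, h4⟩ := F.part_two hp hq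
    have e1 : c * f * (p * q) * (c * f) = (κ₁ * κ₂) • (c * f) +
        c * v * y * w * (c * f) * (c * v₂ * y * w * (c * f)) +
        (κ • (c * f) - c * w * y * v₃ * (c * f)) := by
      rw [← h3, ← h4]
      have e2 : (κ₁ * κ₂) • (c * f) = c * f * p * (f * c) * q * (c * f) := by
        have e3 : c * f * p * (f * c) * q * (c * f) =
            (c * f * p * (f * c)) * (f * c * q * (c * f)) := by
          simp only [mul_assoc, r3' F.fcf]
        rw [e3, h1, h2, smul_mul_smul_comm]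
      rw [e2]
      have e4 : c * f * (p * q) * (c * f) = c * f * p * (c * f + x * y + (e - c * f - x * y) +
          f * c + y * x + (1 - e - f * c - y * x)) * q * (c * f) := by
        rw [← F.one_eq]
        simp only [mul_assoc, one_mul]
      have hpe : p * e = 0 := hp.2.2
      have e5 : c * f * p * (c * f + x * y + (e - c * f - x * y) + f * c + y * x +
          (1 - e - f * c - y * x)) * q * (c * f) =
          c * f * p * e * q * (c * f) + c * f * p * (f * c) * q * (c * f) +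
          c * f * p * (y * x) * q * (c * f) +
          c * f * p * (1 - e - f * c - y * x) * q * (c * f) := by
        have e6 : c * f + x * y + (e - c * f - x * y) + f * c + y * x +
          (1 - e - f * c - y * x) = e + f * c + y * x + (1 - e - f * c - y * x) := by abel
        rw [e6]
        simp only [mul_add, add_mul]
      rw [e4, e5]
      have e7 : c * f * p * e * q * (c * f) = 0 := by
        rw [mul_assoc (c * f) p e, hpe]
        simp only [mul_zero, zero_mul]
      rw [e7, zero_add]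
    have e2 : (c * f) ((p * q) u) = (c * f * (p * q) * (c * f)) u := by
      rw [Module.End.mul_apply (c * f * (p * q)), hcfu u hu, Module.End.mul_apply (c * f)]
    rw [e2, e1, LinearMap.add_apply, LinearMap.add_apply, LinearMap.sub_apply,
      LinearMap.smul_apply, LinearMap.smul_apply, hcfu u hu,
      Module.End.mul_apply (c * v * y * w * (c * f)), Module.End.mul_apply (c * w * y * v₃),
      hcfu u hu, Module.End.mul_apply (c * w * y) v₃]
    exact U.add_mem (U.add_mem (U.smul_mem _ hu) (key1 v hv _ (key1 v₂ hv₂ u hu)))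
      (U.sub_mem (U.smul_mem _ hu) (hst v₃ hv₃ u hu))
  -- the components of `z`
  obtain ⟨κ, hκ⟩ := zero_span F.G (F.G.zero_mem hz) (F.G.zero_comm z)
  set z₀ := e * z * e + (1 - e) * z * (1 - e) with hz₀
  have hspan : ∀ d ∈ Submodule.span K {d | ∃ x ∈ up g e, ∃ y ∈ dn g e, d = x * y - y * x},
      (c * f) (d u) ∈ U := by
    intro d hd
    induction hd using Submodule.span_induction with
    | mem d hd =>
      obtain ⟨p, hp, q, hq, rfl⟩ := hd
      have e1 : p u = 0 := by
        rw [← heu u hu, ← Module.End.mul_apply, hp.2.2, LinearMap.zero_apply]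
      rw [LinearMap.sub_apply, Module.End.mul_apply q p, e1, map_zero, sub_zero]
      exact key2 p hp q hq u hu
    | zero => rw [LinearMap.zero_apply, map_zero]; exact U.zero_mem
    | add a b _ _ ha hb => rw [LinearMap.add_apply, map_add]; exact U.add_mem ha hb
    | smul s a _ ha => rw [LinearMap.smul_apply, map_smul]; exact U.smul_mem _ ha
  have e0 : (c * f) (z u) = (c * f) (z₀ u) := by
    have e1 : z = e * z * (1 - e) + (1 - e) * z * e + z₀ := Gr.decomp F.G z
    have e2 : (1 - e) u = 0 := by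
      rw [LinearMap.sub_apply, Module.End.one_apply, heu u hu, sub_self]
    have e3 : (c * f) * (1 - e) = 0 := by
      rw [mul_sub, mul_one, mul_assoc, F.fe, sub_self]
    conv_lhs => rw [e1]
    rw [LinearMap.add_apply, LinearMap.add_apply, map_add, map_add,
      Module.End.mul_apply (e * z) (1 - e), e2, map_zero, map_zero, zero_add,
      Module.End.mul_apply ((1 - e) * z) e, Module.End.mul_apply (1 - e) z,
      ← Module.End.mul_apply (c * f) (1 - e), e3, LinearMap.zero_apply, zero_add]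
  have e1 : z₀ = (z₀ - κ • 1) + κ • 1 := by abel
  rw [e0, e1, LinearMap.add_apply, map_add, LinearMap.smul_apply, Module.End.one_apply, map_smul,
    hcfu u hu]
  exact U.add_mem (hspan _ hκ) (U.smul_mem _ hu)

end Pool.Agent.SmallRank.Fr
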