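import Pool.Agent.SmallRank.IrrOne
import Pool.Agent.SmallRank.PrWts

/-!
# The range of `c f` is irreducible for its corner
-/

set_option autoImplicit false
set_option linter.unusedSectionVars false

namespace Pool.Agent.SmallRank

open Module

variable {K V : Type*} [Field K] [CharZero K] [IsAlgClosed K] [AddCommGroup V] [Module K V]
  [FiniteDimensional K V] {g : Submodule K (End K V)} {e : End K V}

private theorem IrrP_aux {P Q R b z₀ z₁ z z' : End K V} (hPP : P * P = P) (hQQ : Q * Q = Q)
    (hPQ : P * Q = 0) (hQP : Q * P = 0) (hR : R = 1 - P - Q) (heP : e * P = P) (hPe : P * e = P)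
    (heQ : e * Q = 0) (hQe : Q * e = 0) (hz : e * z = z * e) (hz' : e * z' = z' * e)
    (hb : b = R * z' * P + Q * z' * R) (h0 : z₀ = P * z * P + Q * z * Q + R * z * R)
    (h1 : z₁ = P * z * R + R * z * Q) :
    e * b = b * e ∧ e * z₀ = z₀ * e ∧ P * R = 0 ∧ R * R = R ∧
    (∀ u, P u = u → Q u = 0 ∧ R u = 0 ∧ e u = u ∧ b u = R (z' u) ∧ z₁ u = 0 ∧
      z₀ u = P (z u) ∧ Q (z u) = 0) ∧
    (∀ y, R y = y → e y = y → P y = 0 ∧ z₁ y = P (z y) ∧ z₀ y = R (z y) ∧ Q (z y) = 0) := by
  have hRR : R * R = R := by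
    rw [hR]
    simp only [mul_sub, sub_mul, mul_one, one_mul, hPP, hQQ, hPQ, hQP]
    abel
  have hPR : P * R = 0 := by rw [hR, mul_sub, mul_sub, mul_one, hPP, hPQ, sub_self, sub_zero]
  have hRP : R * P = 0 := by rw [hR, sub_mul, sub_mul, one_mul, hPP, hQP, sub_self, sub_zero]
  have hQR : Q * R = 0 := by rw [hR, mul_sub, mul_sub, mul_one, hQP, hQQ, sub_zero, sub_self]
  have hRQ : R * Q = 0 := by rw [hR, sub_mul, sub_mul, one_mul, hPQ, hQQ, sub_zero, sub_self]
  have heR : e * R = R * e := by
    rw [hR, mul_sub, mul_sub, sub_mul, sub_mul, mul_one, one_mul, heP, heQ, hPe, hQe]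
  have hQz : ∀ w, e * w = w * e → Q * w * e = 0 := fun w hw => by
    rw [mul_assoc, ← hw, ← mul_assoc, hQe, zero_mul]
  have eb : e * b = b * e := by
    have a1 : e * (R * z' * P) = R * z' * P := by
      rw [← mul_assoc, ← mul_assoc, heR, mul_assoc R e z', hz', ← mul_assoc, mul_assoc _ e P, heP]
    have a2 : R * z' * P * e = R * z' * P := by rw [mul_assoc, hPe]
    have a3 : e * (Q * z' * R) = 0 := by rw [← mul_assoc, ← mul_assoc, heQ, zero_mul, zero_mul]
    have a4 : Q * z' * R * e = 0 := by
      rw [mul_assoc, ← heR, ← mul_assoc, hQz z' hz', zero_mul]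
    rw [hb, mul_add, add_mul, a1, a2, a3, a4]
  have e0 : e * z₀ = z₀ * e := by
    have a1 : e * (P * z * P) = P * z * P := by rw [← mul_assoc, ← mul_assoc, heP]
    have a2 : P * z * P * e = P * z * P := by rw [mul_assoc, hPe]
    have a3 : e * (Q * z * Q) = 0 := by rw [← mul_assoc, ← mul_assoc, heQ, zero_mul, zero_mul]
    have a4 : Q * z * Q * e = 0 := by rw [mul_assoc, hQe, mul_zero]
    have a5 : e * (R * z * R) = R * z * R * e := by
      rw [← mul_assoc, ← mul_assoc, heR, mul_assoc R e z, hz, ← mul_assoc, mul_assoc _ e R, heR,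
        ← mul_assoc]
    rw [h0, mul_add, mul_add, add_mul, add_mul, a1, a2, a3, a4, a5]
  refine ⟨eb, e0, hPR, hRR, fun u hu => ?_, fun y hy hey => ?_⟩
  · have q : Q u = 0 := by
      rw [← hu, ← Module.End.mul_apply, hQP, LinearMap.zero_apply]
    have r : R u = 0 := by
      rw [← hu, ← Module.End.mul_apply, hRP, LinearMap.zero_apply]
    have ee : e u = u := by
      conv_lhs => rw [← hu, ← Module.End.mul_apply, heP]
      exact hu
    refine ⟨q, r, ee, ?_, ?_, ?_, ?_⟩
    · rw [hb]
      simp only [LinearMap.add_apply, Module.End.mul_apply, hu, r, map_zero, add_zero]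
    · rw [h1]
      simp only [LinearMap.add_apply, Module.End.mul_apply, q, r, map_zero, add_zero]
    · rw [h0]
      simp only [LinearMap.add_apply, Module.End.mul_apply, hu, q, r, map_zero, add_zero]
    · have := LinearMap.congr_fun (hQz z hz) u
      simp only [Module.End.mul_apply, ee, LinearMap.zero_apply] at this
      exact this
  · have pp : P y = 0 := by
      rw [← hy, ← Module.End.mul_apply, hPR, LinearMap.zero_apply]
    have q : Q y = 0 := by
      rw [← hy, ← Module.End.mul_apply, hQR, LinearMap.zero_apply]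
    refine ⟨pp, ?_, ?_, ?_⟩
    · rw [h1]
      simp only [LinearMap.add_apply, Module.End.mul_apply, hy, q, map_zero, add_zero]
    · rw [h0]
      simp only [LinearMap.add_apply, Module.End.mul_apply, hy, pp, q, map_zero, zero_add]
    · have := LinearMap.congr_fun (hQz z hz) y
      simp only [Module.End.mul_apply, hey, LinearMap.zero_apply] at this
      exact this

/-- **The corner.**

Proof. Let `P = c * f`, `Q = f * c`, `R = 1 - P - Q`, and let `W` be the set of the
`b = R * z * P + Q * z * R`, `z ∈ g` commuting with `e`; they are in `g` (`Pr.wt_m1`) and commute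
with `e`.
Let `Y` be the span of the `b u`, `b ∈ W`, `u ∈ U`; for `u ∈ U` (`P u = u`, `Q u = 0`, `R u = 0`)
`b u = R (b u) = R z u`, `P (b u) = 0`. `U ⊔ Y ≤ range e` is stable under the `z ∈ g` which commute
with `e`: `z u = P z u + R z u` (`Q z u = 0`, degrees), `P z u ∈ U` by `hst`, `R z u = b u` for the
`b` of
`z`. For `y = b u`: `z y = P z b u + R z b u`; `P z b u = P z R b u = [z₁, b] u` with
`z₁ = P * z * R + R * z * Q ∈ g` (`Pr.wt_1`, `b (z₁ u) = 0` since `z₁ u = 0`), and `P [z₁, b] u ∈
U` by `hst`;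
`R z b u = R z R b u = z₀ b u` for `z₀ = P z P + Q z Q + R z R ∈ g` (`Pr.wt_0`), and
`z₀ b u = [z₀, b] u + b (z₀ u)`, `z₀ u = P z u ∈ U`, `[z₀, b] u = b' u` for the element `b' ∈ W` of
`z' = [z₀, b]` (`P [z₀, b] u = 0`). By `irr_range`, `U ⊔ Y` is `⊥` or `range e`. In the second case
for
`v = P v = e v` write `v = u + y`, then `v = P v = u`. -/
theorem irr_P {c f : End K V} {ρ : ℕ} (B : Pr g e c f ρ) {U : Submodule K V}
    (hU : U ≤ LinearMap.range (c * f)) (hst : ∀ z ∈ g, ∀ u ∈ U, (c * f) (z u) ∈ U) :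
    U = ⊥ ∨ U = LinearMap.range (c * f) := by
  set P : End K V := c * f with hP
  set Q : End K V := f * c with hQ
  set R : End K V := 1 - P - Q with hR
  have hPQ : P * Q = 0 := by
    rw [hP, hQ, mul_assoc, ← mul_assoc f f, B.ff, zero_mul, mul_zero]
  have hQP : Q * P = 0 := by
    rw [hP, hQ, mul_assoc, ← mul_assoc c c, B.cc, zero_mul, mul_zero]
  have heP : e * P = P := by rw [hP, ← mul_assoc, B.ec]
  have hPe : P * e = P := by rw [hP, mul_assoc, B.fe]
  have heQ : e * Q = 0 := by rw [hQ, ← mul_assoc, B.ef, zero_mul]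
  have hQe : Q * e = 0 := by rw [hQ, mul_assoc, B.ce, mul_zero]
  have hPu : ∀ u ∈ U, P u = u := by
    intro u hu
    obtain ⟨w, hw⟩ := hU hu
    rw [← hw, ← Module.End.mul_apply, B.idemP]
  have hsum : ∀ w : V, w = P w + Q w + R w := by
    intro w
    rw [hR]
    simp only [LinearMap.sub_apply, Module.End.one_apply]
    abel
  have key : ∀ z z' : End K V, e * z = z * e → e * z' = z' * e → _ := fun z z' hz hz' =>
    IrrP_aux (e := e) (z := z) (z' := z') B.idemP B.idemQ hPQ hQP hR heP hPe heQ hQe hz hz'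
      rfl rfl rfl
  have hRR := (key 0 0 (by simp) (by simp)).2.2.2.1
  have hPR := (key 0 0 (by simp) (by simp)).2.2.1
  -- the span of the vectors `R z u`
  set Y : Submodule K V := Submodule.span K {y | ∃ z ∈ g, e * z = z * e ∧ ∃ u ∈ U, y = R (z u)}
    with hY
  have hYmem : ∀ z ∈ g, e * z = z * e → ∀ u ∈ U, R (z u) ∈ Y := fun z hz hze u hu =>
    Submodule.subset_span ⟨z, hz, hze, u, hu, rfl⟩
  have hPY : ∀ y ∈ Y, P y = 0 := by
    intro y hy
    have h1 : Y ≤ LinearMap.ker P := by
      rw [hY, Submodule.span_le]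
      rintro y ⟨z, -, -, u, -, rfl⟩
      change P (R (z u)) = 0
      rw [← Module.End.mul_apply, hPR, LinearMap.zero_apply]
    exact h1 hy
  have hUe : U ⊔ Y ≤ LinearMap.range e := by
    rw [sup_le_iff]
    constructor
    · intro u hu
      exact ⟨u, ((key 0 0 (by simp) (by simp)).2.2.2.2.1 u (hPu u hu)).2.2.1⟩
    · rw [hY, Submodule.span_le]
      rintro y ⟨z, -, hze, u, hu, rfl⟩
      have h1 := (key z z hze hze).2.2.2.2.1 u (hPu u hu)
      refine ⟨R (z u), ?_⟩
      have h2 := LinearMap.congr_fun (key z z hze hze).1 u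
      simp only [Module.End.mul_apply] at h2 h1
      rw [h1.2.2.1] at h2
      rw [← h1.2.2.2.1]
      exact h2
  have hst2 : ∀ z ∈ g, e * z = z * e → ∀ v ∈ U ⊔ Y, z v ∈ U ⊔ Y := by
    intro z hz hze
    have h0 : U ⊔ Y ≤ (U ⊔ Y).comap z := by
      rw [sup_le_iff]
      constructor
      · intro u hu
        rw [Submodule.mem_comap, hsum (z u)]
        rw [((key z z hze hze).2.2.2.2.1 u (hPu u hu)).2.2.2.2.2.2, add_zero]
        exact Submodule.add_mem_sup (hst z hz u hu) (hYmem z hz hze u hu)
      · rw [hY, Submodule.span_le]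
        rintro y ⟨z', hz', hze', u, hu, rfl⟩
        obtain ⟨eb, e0, -, -, hu1, hy1⟩ := key z z' hze hze'
        have hbg := B.wt_m1 hz'
        have h1g := B.wt_1 hz
        have h0g := B.wt_0 hz
        rw [← hP, ← hQ, ← hR] at hbg h1g h0g
        set b : End K V := R * z' * P + Q * z' * R with hb
        set z₁ : End K V := P * z * R + R * z * Q with hz1
        set z₀ : End K V := P * z * P + Q * z * Q + R * z * R with hz0
        obtain ⟨-, -, eu, bu, z1u, z0u, -⟩ := hu1 u (hPu u hu)
        have hRy : R (R (z' u)) = R (z' u) := by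
          rw [← Module.End.mul_apply, hRR]
        have hey : e (R (z' u)) = R (z' u) := by
          have h2 := LinearMap.congr_fun eb u
          simp only [Module.End.mul_apply] at h2
          rw [eu, bu] at h2
          exact h2
        obtain ⟨-, z1y, z0y, qy⟩ := hy1 (R (z' u)) hRy hey
        change z (R (z' u)) ∈ U ⊔ Y
        rw [hsum (z (R (z' u))), qy, add_zero]
        refine Submodule.add_mem_sup ?_ ?_
        · -- the first component
          have h2 := hst _ (B.G.lie _ h1g _ hbg) u hu
          have h3 : (z₁ * b - b * z₁) u = P (z (R (z' u))) := by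
            simp only [LinearMap.sub_apply, Module.End.mul_apply]
            rw [z1u, map_zero, sub_zero, bu, z1y]
          rw [h3, ← Module.End.mul_apply, B.idemP] at h2
          exact h2
        · -- the third component
          have h2 := hYmem _ (B.G.lie _ h0g _ hbg) (by
            rw [mul_sub, sub_mul, ← mul_assoc, e0, mul_assoc z₀ e b, eb, ← mul_assoc,
              ← mul_assoc e b, eb, mul_assoc b e, e0, ← mul_assoc]) u hu
          have hPz : P (z u) ∈ U := hst z hz u hu
          have h3 : b (P (z u)) = R (z' (P (z u))) := (hu1 _ (hPu _ hPz)).2.2.2.1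
          have h4 : (z₀ * b - b * z₀) u = R (z (R (z' u))) - R (z' (P (z u))) := by
            simp only [LinearMap.sub_apply, Module.End.mul_apply]
            rw [bu, z0y, z0u, h3]
          have h5 : R (R (z (R (z' u))) - R (z' (P (z u)))) =
              R (z (R (z' u))) - R (z' (P (z u))) := by
            rw [map_sub, ← Module.End.mul_apply, ← Module.End.mul_apply R R, hRR]
          rw [h4, h5] at h2
          have h6 := Submodule.add_mem _ h2 (hYmem z' hz' hze' _ hPz)
          rw [sub_add_cancel] at h6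
          exact h6
    exact fun v hv => h0 hv
  rcases irr_range B.G hUe hst2 with h | h
  · left
    exact (sup_eq_bot_iff.1 h).1
  · right
    refine le_antisymm hU ?_
    rintro v ⟨w, rfl⟩
    have h1 : P w ∈ U ⊔ Y := by
      rw [h]
      exact ⟨P w, by rw [← Module.End.mul_apply, heP]⟩
    obtain ⟨u, hu, y, hy, huy⟩ := Submodule.mem_sup.1 h1
    have h2 : P (P w) = P w := by rw [← Module.End.mul_apply, B.idemP]
    have h3 : P (P w) = u := by rw [← huy, map_add, hPu u hu, hPY y hy, add_zero]
    rw [← h2, h3]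
    exact hu

end Pool.Agent.SmallRank
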