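import Pool.Agent.SmallRank.Half
import Pool.Agent.SmallRank.Burn
import Pool.Agent.SmallRank.GenA
import Pool.Agent.SmallRank.IrrP

/-!
# The corner of a frame is full and has rank at most two
-/

set_option autoImplicit false
set_option linter.unusedSectionVars false

namespace Pool.Agent.SmallRank

open Module

variable {K V : Type*} [Field K] [CharZero K] [IsAlgClosed K] [AddCommGroup V] [Module K V]
  [FiniteDimensional K V] {g : Submodule K (End K V)} {e : End K V}

/-- **The corner is given by the elements `α`.**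

Proof. `corner_full` with `P = c * f`, `A` the image of `g` under `v ↦ c * w * y * v * (c * f)` (a
linear map;
`c * f * (c * w * y) = c * w * y`), `C` the span of the `c * w * y * r * S * b * (c * f)`, `r`, `b
∈ g`: `C ≤ A` by
`clos_one`, `C ≠ ⊥` by `exists_ne`, `A * C ⊆ C` by `clos_two` (write
`c * w * y * r * S * b * (c * f) = (c * w * y * r * S) * (b * (c * f))`), `C * A ⊆ C` by
`clos_three'`
(`S * S = S`). `hirr`: a stable `U` satisfies the hypothesis of `stab_P` (`u = (c * f) u`), so
`irr_P` applies. -/
theorem Fr.full {c f x y w : End K V} {ρ : ℕ} (F : Fr g e c f x y w ρ)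
    (hS : e - c * f - x * y ≠ 0) (z : End K V) :
    ∃ v ∈ g, c * f * z * (c * f) = c * w * y * v * (c * f) := by
  have hPa : ∀ a : End K V, c * f * (c * w * y * a) = c * w * y * a := fun a => by
    simp only [← mul_assoc]
    rw [F.cfc]
  have hP := F.B.idemP
  let L : End K V →ₗ[K] End K V :=
    (LinearMap.mulRight K (c * f)).comp (LinearMap.mulLeft K (c * w * y))
  have hL : ∀ v : End K V, L v = c * w * y * v * (c * f) := fun v => rfl
  let A : Submodule K (End K V) := g.map L
  let X : Set (End K V) :=
    {q | ∃ r ∈ g, ∃ b ∈ g, q = c * w * y * r * (e - c * f - x * y) * b * (c * f)}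
  let C : Submodule K (End K V) := Submodule.span K X
  have hmemA : ∀ a : End K V, a ∈ A ↔ ∃ v ∈ g, c * w * y * v * (c * f) = a := fun a =>
    Submodule.mem_map
  have key : c * f * z * (c * f) ∈ A := by
    refine corner_full (P := c * f) (A := A) (C := C) hP ?_ ?_ ?_ ?_ ?_ ?_ z
    · intro a ha
      obtain ⟨v, hv, rfl⟩ := (hmemA a).1 ha
      refine ⟨?_, ?_⟩
      · rw [mul_assoc (c * w * y) v (c * f), hPa]
      · rw [mul_assoc (c * w * y * v) (c * f) (c * f), hP]
    · refine Submodule.span_le.2 ?_
      rintro q ⟨r, hr, b, hb, rfl⟩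
      obtain ⟨v, hv, h⟩ := F.clos_one hr hb
      exact (hmemA _).2 ⟨v, hv, h.symm⟩
    · intro h0
      obtain ⟨r, hr, b, hb, h⟩ := F.exists_ne hS
      apply h
      have h1 : c * w * y * r * (e - c * f - x * y) * b * (c * f) ∈ C :=
        Submodule.subset_span ⟨r, hr, b, hb, rfl⟩
      rw [h0] at h1
      exact (Submodule.mem_bot K).1 h1
    · intro a ha q hq
      obtain ⟨v, hv, rfl⟩ := (hmemA a).1 ha
      induction hq using Submodule.span_induction with
      | mem q hq =>
        obtain ⟨r, hr, b, hb, rfl⟩ := hq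
        obtain ⟨r₂, hr₂, h⟩ := F.clos_two hv hr
        have h1 : c * w * y * v * (c * f) *
            (c * w * y * r * (e - c * f - x * y) * b * (c * f)) =
            c * w * y * r₂ * (e - c * f - x * y) * b * (c * f) := by
          rw [← h]
          simp only [mul_assoc]
        rw [h1]
        exact Submodule.subset_span ⟨r₂, hr₂, b, hb, rfl⟩
      | zero => rw [mul_zero]; exact C.zero_mem
      | add p q _ _ hp hq => rw [mul_add]; exact C.add_mem hp hq
      | smul k p _ hp => rw [mul_smul_comm]; exact C.smul_mem k hp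
    · intro a ha q hq
      obtain ⟨v, hv, rfl⟩ := (hmemA a).1 ha
      induction hq using Submodule.span_induction with
      | mem q hq =>
        obtain ⟨r, hr, b, hb, rfl⟩ := hq
        obtain ⟨b₂, hb₂, h⟩ := F.clos_three' hb hv
        have h1 : c * w * y * r * (e - c * f - x * y) * b * (c * f) *
            (c * w * y * v * (c * f)) =
            c * w * y * r * (e - c * f - x * y) * b₂ * (c * f) := by
          have h2 : c * w * y * r * (e - c * f - x * y) * b * (c * f) *
            (c * w * y * v * (c * f)) = c * w * y * r *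
              ((e - c * f - x * y) * b * (c * f) * (c * w * y * v * (c * f))) := by
            simp only [mul_assoc]
          rw [h2, h]
          simp only [mul_assoc]
        rw [h1]
        exact Submodule.subset_span ⟨r, hr, b₂, hb₂, rfl⟩
      | zero => rw [zero_mul]; exact C.zero_mem
      | add p q _ _ hp hq => rw [add_mul]; exact C.add_mem hp hq
      | smul k p _ hp => rw [smul_mul_assoc]; exact C.smul_mem k hp
    · intro U hU hst
      refine irr_P F.B hU (F.stab_P hU ?_)
      intro v hv u hu
      have h1 := hst _ ((hmemA _).2 ⟨v, hv, rfl⟩) u hu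
      have h2 : (c * f) u = u := by
        obtain ⟨t, rfl⟩ := hU hu
        rw [← Module.End.mul_apply, hP]
      rw [Module.End.mul_apply, Module.End.mul_apply, h2] at h1
      exact h1
  obtain ⟨v, hv, h⟩ := (hmemA _).1 key
  exact ⟨v, hv, h.symm⟩

/-- **The rank.** Proof. `Fr.full`, `Fr.quad`, `rk_le_two`, `Pr.rkP`; the second part is
`Fr.rk_S_le`. -/
theorem Fr.rho_le {c f x y w : End K V} {ρ : ℕ} (F : Fr g e c f x y w ρ)
    (hS : e - c * f - x * y ≠ 0) :
    ρ ≤ 2 ∧ (ρ = 2 → rk (e - c * f - x * y) ≤ rk (1 - e - f * c - y * x)) := by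
  have hfull := F.full hS
  refine ⟨?_, fun h2 => F.rk_S_le hfull h2.ge⟩
  rw [← F.B.rkP]
  refine rk_le_two F.B.idemP fun z => ?_
  obtain ⟨v, hv, h⟩ := hfull z
  obtain ⟨s, d, hq⟩ := F.quad hv
  exact ⟨s, d, by rw [h]; exact hq⟩

end Pool.Agent.SmallRank
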