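import Pool.Agent.SmallRank.Defs

/-!
# The range of the idempotent is irreducible for the part of degree zero
-/

set_option autoImplicit false
set_option linter.unusedSectionVars false

namespace Pool.Agent.SmallRank

open Module

variable {K V : Type*} [Field K] [CharZero K] [IsAlgClosed K] [AddCommGroup V] [Module K V]
  [FiniteDimensional K V] {g : Submodule K (End K V)} {e : End K V}

/-- **The range of `e`.**

Proof. Let `Y` be the span of the `y u`, `y ∈ dn g e`, `u ∈ U`. `U ⊔ Y` is stable under `g`: let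
`a = a₁ + a₋₁ + a₀` (`Gr.decomp`). On `U` (`e u = u`): `a₁ u = 0`, `a₋₁ u ∈ Y`, `a₀ u ∈ U`. On `y
u`:
`a₋₁ (y u) = 0` (`Gr.dn_mul_dn`), `a₁ (y u) = (a₁ * y - y * a₁) u + y (a₁ u)`, the first in `U` by
`Gr.lie_zero`, the second zero, and `a₀ (y u) = (a₀ * y - y * a₀) u + y (a₀ u) ∈ Y` by `Gr.lie_dn`.
So it
is `⊥` or `⊤` (`G.irr`). If `⊥` then `U = ⊥`. If `⊤`: for `v = e v` write `v = u + y`, `u ∈ U`, `y
∈ Y`,
`e y = 0`, so `v = e v = u`. -/
theorem irr_range (G : Gr g e) {U : Submodule K V} (hU : U ≤ LinearMap.range e)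
    (hst : ∀ z ∈ g, e * z = z * e → ∀ u ∈ U, z u ∈ U) : U = ⊥ ∨ U = LinearMap.range e := by
  have heu : ∀ u ∈ U, e u = u := by
    intro u hu
    obtain ⟨v, rfl⟩ := hU hu
    exact LinearMap.congr_fun G.idem v
  set Y : Submodule K V := Submodule.span K {w | ∃ y ∈ dn g e, ∃ u ∈ U, y u = w} with hY
  have hYm : ∀ y ∈ dn g e, ∀ u ∈ U, y u ∈ Y := fun y hy u hu =>
    Submodule.subset_span ⟨y, hy, u, hu, rfl⟩
  have hgen : ∀ x : End K V, (∀ u ∈ U, x u ∈ U ⊔ Y) →
      (∀ y ∈ dn g e, ∀ u ∈ U, x (y u) ∈ U ⊔ Y) → ∀ w ∈ U ⊔ Y, x w ∈ U ⊔ Y := by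
    intro x h1 h2
    have h3 : U ⊔ Y ≤ (U ⊔ Y).comap x := by
      refine sup_le (fun u hu => h1 u hu) (Submodule.span_le.2 ?_)
      rintro w ⟨y, hy, u, hu, rfl⟩
      exact h2 y hy u hu
    exact fun w hw => h3 hw
  have hup : ∀ x ∈ up g e, ∀ w ∈ U ⊔ Y, x w ∈ U ⊔ Y := by
    intro x hx
    have h0 : ∀ u ∈ U, x u = 0 := by
      intro u hu
      rw [← heu u hu, ← Module.End.mul_apply, hx.2.2, LinearMap.zero_apply]
    refine hgen x (fun u hu => ?_) fun y hy u hu => ?_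
    · rw [h0 u hu]
      exact zero_mem _
    · have h1 := G.lie_zero hx hy
      have h2 := hst _ h1.1 h1.2 u hu
      rw [LinearMap.sub_apply, Module.End.mul_apply, Module.End.mul_apply, h0 u hu, map_zero,
        sub_zero] at h2
      exact (le_sup_left : U ≤ U ⊔ Y) h2
  have hdn : ∀ x ∈ dn g e, ∀ w ∈ U ⊔ Y, x w ∈ U ⊔ Y := by
    intro x hx
    refine hgen x (fun u hu => (le_sup_right : Y ≤ U ⊔ Y) (hYm x hx u hu)) fun y hy u hu => ?_
    rw [← Module.End.mul_apply, Gr.dn_mul_dn hx hy, LinearMap.zero_apply]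
    exact zero_mem _
  have hze : ∀ z ∈ g, e * z = z * e → ∀ w ∈ U ⊔ Y, z w ∈ U ⊔ Y := by
    intro z hz hzc
    refine hgen z (fun u hu => (le_sup_left : U ≤ U ⊔ Y) (hst z hz hzc u hu))
      fun y hy u hu => ?_
    have h1 := hYm _ (G.lie_dn hz hzc hy) u hu
    have h2 := hYm y hy _ (hst z hz hzc u hu)
    have h3 : z (y u) = (z * y - y * z) u + y (z u) := by
      rw [LinearMap.sub_apply, Module.End.mul_apply, Module.End.mul_apply, sub_add_cancel]
    rw [h3]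
    exact (le_sup_right : Y ≤ U ⊔ Y) (add_mem h1 h2)
  have hall : ∀ a ∈ g, ∀ w ∈ U ⊔ Y, a w ∈ U ⊔ Y := by
    intro a ha w hw
    rw [G.decomp a, LinearMap.add_apply, LinearMap.add_apply]
    exact add_mem (add_mem (hup _ (G.up_mem ha) w hw) (hdn _ (G.dn_mem ha) w hw))
      (hze _ (G.zero_mem ha) (G.zero_comm a) w hw)
  have hYe : ∀ y ∈ Y, e y = 0 := by
    intro y hy
    have h1 : Y ≤ LinearMap.ker e := by
      refine Submodule.span_le.2 ?_
      rintro w ⟨y, hy, u, _, rfl⟩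
      rw [SetLike.mem_coe, LinearMap.mem_ker, ← Module.End.mul_apply, hy.2.1,
        LinearMap.zero_apply]
    exact LinearMap.mem_ker.1 (h1 hy)
  rcases G.irr _ hall with h | h
  · exact Or.inl (le_bot_iff.1 (h ▸ le_sup_left))
  · refine Or.inr (le_antisymm hU ?_)
    rintro _ ⟨v, rfl⟩
    have h1 : v ∈ U ⊔ Y := h ▸ Submodule.mem_top
    obtain ⟨u, hu, y, hy, rfl⟩ := Submodule.mem_sup.1 h1
    rw [map_add, heu u hu, hYe y hy, add_zero]
    exact hu

end Pool.Agent.SmallRank
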