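import Pool.Agent.SmallRank.Dual
import Pool.Agent.SmallRank.IrrOne

/-!
# The Casimir operators of degree one
-/

set_option autoImplicit false
set_option linter.unusedSectionVars false

namespace Pool.Agent.SmallRank

open Module

variable {K V : Type*} [Field K] [CharZero K] [IsAlgClosed K] [AddCommGroup V] [Module K V]
  [FiniteDimensional K V] {g : Submodule K (End K V)} {e : End K V}

/-- **Schur for the range of `e`.**

Proof. `Z = e * Z = Z * e` commutes with the elements of `g` of degree zero. `range e ≠ ⊥`, so `Z`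
has an
eigenvector in `range e`, with the eigenvalue `κ`; the subspace of `range e` given by `Z v = κ v` is
stable under the elements of degree zero, so it is `range e` (`irr_range`) and `Z = κ • e`. -/
theorem schur_range (G : Gr g e) {Z : End K V} (h1 : e * Z = Z) (h2 : Z * e = Z)
    (h : ∀ z ∈ g, e * z = z * e → z * Z = Z * z) : ∃ κ : K, Z = κ • e := by
  have hZr : ∀ v, Z v ∈ LinearMap.range e := by
    intro v
    refine ⟨Z v, ?_⟩
    rw [← Module.End.mul_apply, h1]
  let Z' : End K (LinearMap.range e) := Z.restrict fun v _ => hZr v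
  have hnt : Nontrivial (LinearMap.range e) := by
    rw [Submodule.nontrivial_iff_ne_bot]
    intro h0
    exact G.ne0 (LinearMap.range_eq_bot.1 h0)
  obtain ⟨κ, hκ⟩ := Module.End.exists_eigenvalue Z'
  obtain ⟨v, hv⟩ := hκ.exists_hasEigenvector
  let U : Submodule K V := LinearMap.range e ⊓ LinearMap.ker (Z - κ • (1 : End K V))
  have hU : ∀ u, u ∈ U ↔ u ∈ LinearMap.range e ∧ Z u = κ • u := by
    intro u
    change (u ∈ LinearMap.range e ∧ u ∈ LinearMap.ker (Z - κ • (1 : End K V))) ↔ _
    rw [LinearMap.mem_ker, LinearMap.sub_apply, LinearMap.smul_apply, Module.End.one_apply,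
      sub_eq_zero]
  have hvU : (v : V) ∈ U := by
    rw [hU]
    exact ⟨v.2, congrArg Subtype.val hv.apply_eq_smul⟩
  have hst : ∀ z ∈ g, e * z = z * e → ∀ u ∈ U, z u ∈ U := by
    intro z hz hze u hu
    rw [hU] at hu ⊢
    obtain ⟨⟨w, rfl⟩, hu2⟩ := hu
    refine ⟨⟨z w, ?_⟩, ?_⟩
    · rw [← Module.End.mul_apply, hze, Module.End.mul_apply]
    · rw [← Module.End.mul_apply Z z, ← h z hz hze, Module.End.mul_apply, hu2, map_smul]
  have hne : U ≠ ⊥ := by
    intro h0
    rw [h0, Submodule.mem_bot] at hvU
    exact hv.2 (Subtype.ext hvU)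
  have hall : U = LinearMap.range e := (irr_range G inf_le_left hst).resolve_left hne
  refine ⟨κ, ?_⟩
  ext w
  have h3 : e w ∈ U := by
    rw [hall]
    exact ⟨w, rfl⟩
  rw [hU] at h3
  rw [LinearMap.smul_apply, ← h3.2, ← Module.End.mul_apply, h2]

private theorem comm_z (G : Gr g e) {z y : Fin (finrank K (up g e)) → End K V} (H : Du g e z y)
    {x : End K V} (hx : x ∈ g) (hxe : e * x = x * e) (i : Fin (finrank K (up g e))) :
    x * z i - z i * x =
      ∑ j, LinearMap.trace K V ((x * z i - z i * x) * y j) • z j :=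
  H.ez _ (G.lie_up hx hxe (H.zu i))

private theorem comm_y (G : Gr g e) {z y : Fin (finrank K (up g e)) → End K V} (H : Du g e z y)
    {x : End K V} (hx : x ∈ g) (hxe : e * x = x * e) (i : Fin (finrank K (up g e))) :
    x * y i - y i * x =
      -∑ j, LinearMap.trace K V ((x * z j - z j * x) * y i) • y j := by
  have h1 := H.ey _ (G.lie_dn hx hxe (H.yd i))
  rw [h1, ← Finset.sum_neg_distrib]
  refine Finset.sum_congr rfl fun j _ => ?_
  rw [← neg_smul]
  congr 1
  have h2 : LinearMap.trace K V (x * (z j * y i)) = LinearMap.trace K V (z j * y i * x) :=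
    LinearMap.trace_mul_comm K _ _
  rw [mul_sub, sub_mul, map_sub, map_sub, mul_assoc x, h2, ← mul_assoc, ← mul_assoc]
  ring

private theorem comm_up (G : Gr g e) {z y : Fin (finrank K (up g e)) → End K V} (H : Du g e z y)
    {x : End K V} (hx : x ∈ g) (hxe : e * x = x * e) :
    x * (∑ i, z i * y i) = (∑ i, z i * y i) * x := by
  rw [← sub_eq_zero, Finset.mul_sum, Finset.sum_mul, ← Finset.sum_sub_distrib]
  have h1 : ∀ i, x * (z i * y i) - z i * y i * x =
      ∑ j, LinearMap.trace K V ((x * z i - z i * x) * y j) • (z j * y i) -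
        ∑ j, LinearMap.trace K V ((x * z j - z j * x) * y i) • (z i * y j) := by
    intro i
    have h2 : x * (z i * y i) - z i * y i * x =
        (x * z i - z i * x) * y i + z i * (x * y i - y i * x) := by
      rw [sub_mul, mul_sub]
      simp only [mul_assoc]
      abel
    rw [h2, comm_y G H hx hxe i]
    conv_lhs => rw [comm_z G H hx hxe i]
    rw [Finset.sum_mul, mul_neg, Finset.mul_sum, ← sub_eq_add_neg]
    exact congrArg₂ (· - ·) (Finset.sum_congr rfl fun j _ => smul_mul_assoc _ _ _)
      (Finset.sum_congr rfl fun j _ => mul_smul_comm _ _ _)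
  rw [Finset.sum_congr rfl fun i _ => h1 i, Finset.sum_sub_distrib, sub_eq_zero]
  exact Finset.sum_comm

private theorem comm_dn (G : Gr g e) {z y : Fin (finrank K (up g e)) → End K V} (H : Du g e z y)
    {x : End K V} (hx : x ∈ g) (hxe : e * x = x * e) :
    x * (∑ i, y i * z i) = (∑ i, y i * z i) * x := by
  rw [← sub_eq_zero, Finset.mul_sum, Finset.sum_mul, ← Finset.sum_sub_distrib]
  have h1 : ∀ i, x * (y i * z i) - y i * z i * x =
      ∑ j, LinearMap.trace K V ((x * z i - z i * x) * y j) • (y i * z j) -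
        ∑ j, LinearMap.trace K V ((x * z j - z j * x) * y i) • (y j * z i) := by
    intro i
    have h2 : x * (y i * z i) - y i * z i * x =
        y i * (x * z i - z i * x) + (x * y i - y i * x) * z i := by
      rw [sub_mul, mul_sub]
      simp only [mul_assoc]
      abel
    rw [h2, comm_y G H hx hxe i]
    conv_lhs => rw [comm_z G H hx hxe i]
    rw [Finset.mul_sum, neg_mul, Finset.sum_mul, ← sub_eq_add_neg]
    exact congrArg₂ (· - ·) (Finset.sum_congr rfl fun j _ => mul_smul_comm _ _ _)
      (Finset.sum_congr rfl fun j _ => smul_mul_assoc _ _ _)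
  rw [Finset.sum_congr rfl fun i _ => h1 i, Finset.sum_sub_distrib, sub_eq_zero]
  exact Finset.sum_comm

/-- **The first Casimir operator.**

Proof. `Z = ∑ z i * y i` satisfies `e * Z = Z = Z * e`. For `x ∈ g` of degree zero let
`a i j = trace ((x * z i - z i * x) * y j)`. By `Du.ez`, `[x, z i] = ∑ j, a i j • z j`; by `Du.ey`,
`[x, y i] = ∑ j, trace (z j * [x, y i]) • y j = - ∑ j, a j i • y j`
(`trace (z j * (x * y i - y i * x)) = - trace ((x * z j - z j * x) * y i)`). So
`[x, Z] = ∑ i, ([x, z i] * y i + z i * [x, y i]) = ∑ i j, a i j • z j * y i - ∑ i j, a j i • z i *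
y j = 0`.
By `schur_range`, `Z = κ • e`, and `κ * rk e = trace Z = ∑ trace (z i * y i) = finrank (up g e)`. -/
theorem casimir_up (G : Gr g e) {z y : Fin (finrank K (up g e)) → End K V} (H : Du g e z y) :
    (rk e : K) • ∑ i, z i * y i = (finrank K (up g e) : K) • e := by
  obtain ⟨κ, hκ⟩ := schur_range G (Z := ∑ i, z i * y i)
    (by
      rw [Finset.mul_sum]
      exact Finset.sum_congr rfl fun i _ => by rw [← mul_assoc, (H.zu i).2.1])
    (by
      rw [Finset.sum_mul]
      exact Finset.sum_congr rfl fun i _ => by rw [mul_assoc, (H.yd i).2.2])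
    (fun x hx hxe => comm_up G H hx hxe)
  have h1 := congrArg (LinearMap.trace K V) hκ
  rw [map_sum, map_smul, trace_idem G.idem, smul_eq_mul] at h1
  simp only [H.dual, if_true, Finset.sum_const, Finset.card_univ, Fintype.card_fin,
    nsmul_eq_mul, mul_one] at h1
  rw [hκ, h1, smul_smul, mul_comm]

/-- **The second Casimir operator.** Proof. In the same way, with `1 - e` (`G.symm` in
`schur_range`). -/
theorem casimir_dn (G : Gr g e) {z y : Fin (finrank K (up g e)) → End K V} (H : Du g e z y) :
    (rk (1 - e) : K) • ∑ i, y i * z i = (finrank K (up g e) : K) • (1 - e) := by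
  obtain ⟨κ, hκ⟩ := schur_range G.symm (Z := ∑ i, y i * z i)
    (by
      rw [Finset.mul_sum]
      refine Finset.sum_congr rfl fun i _ => ?_
      rw [← mul_assoc, sub_mul, one_mul, (H.yd i).2.1, sub_zero])
    (by
      rw [Finset.sum_mul]
      refine Finset.sum_congr rfl fun i _ => ?_
      rw [mul_assoc, mul_sub, mul_one, (H.zu i).2.2, sub_zero])
    (fun x hx hxe => comm_dn G H hx (by
      rw [sub_mul, mul_sub, one_mul, mul_one] at hxe
      exact sub_right_injective hxe))
  have h1 := congrArg (LinearMap.trace K V) hκ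
  rw [map_sum, map_smul, trace_idem G.symm.idem, smul_eq_mul] at h1
  simp only [LinearMap.trace_mul_comm K (y _) (z _), H.dual, if_true, Finset.sum_const,
    Finset.card_univ, Fintype.card_fin, nsmul_eq_mul, mul_one] at h1
  rw [hκ, h1, smul_smul, mul_comm]

end Pool.Agent.SmallRank
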