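import Pool.Agent.SmallRank.FrWts

/-!
# Products of components

`S = e - c f - x y`, `T = 1 - e - f c - y x`. For `v`, `r`, `b ∈ g` let
`v' = x y v c f + f c v y x`, `r' = x y r S + T r y x`, `b' = S b c f + f c b T` (in `g` by `w_m4`,
`w_1`,
`w_m5`) and `s = c w y + y w c ∈ g` (`Fr.ws_mem`).
-/

set_option autoImplicit false
set_option linter.unusedSectionVars false

namespace Pool.Agent.SmallRank.Fr

open Module

/-! Rules for products in a ring -/

private theorem Clos_z {R : Type*} [Ring R] {a b : R} (h : a * b = 0) (z : R) :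
    a * (b * z) = 0 := by
  rw [← mul_assoc, h, zero_mul]

private theorem Clos_i {R : Type*} [Ring R] {a : R} (h : a * a = a) (z : R) :
    a * (a * z) = a * z := by
  rw [← mul_assoc, h]

private theorem Clos_t {R : Type*} [Ring R] {a b : R} (h : a * b * a = a) (z : R) :
    a * (b * (a * z)) = a * z := by
  rw [← mul_assoc, ← mul_assoc, h]

private theorem Clos_one_aux {R : Type*} [Ring R] {c f x y w S T r b : R}
    (cfc : c * f * c = c) (yxy : y * x * y = y) (yT : y * T = 0) (SS : S * S = S)
    (Sf : S * f = 0) (yS : y * S = 0) (yf : y * f = 0) :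
    c * w * y * r * S * b * (c * f) =
      c * w * y * ((x * y * r * S + T * r * (y * x)) * (S * b * (c * f) + f * c * b * T) -
        (S * b * (c * f) + f * c * b * T) * (x * y * r * S + T * r * (y * x))) * (c * f) := by
  simp only [mul_add, add_mul, mul_sub, mul_assoc, Clos_t cfc, Clos_t yxy, Clos_z yT,
    Clos_i SS, Clos_z Sf, Clos_z yS, Clos_z yf, mul_zero, add_zero, sub_zero]

private theorem Clos_two_aux {R : Type*} [Ring R] {c f x y w S T r v : R}
    (cfc : c * f * c = c) (yxy : y * x * y = y) (yT : y * T = 0) (SS : S * S = S)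
    (Sc : S * c = 0) (Sy : S * y = 0) (xc : x * c = 0) (cx : c * x = 0) (cT : c * T = 0)
    (fT : f * T = 0) (xT : x * T = 0) (Sx : S * x = 0) (Sf : S * f = 0) :
    c * w * y * v * (c * f) * (c * w * y * r * S) =
      c * w * y * ((x * y * v * (c * f) + f * c * v * (y * x)) *
        ((c * w * y + y * w * c) * (x * y * r * S + T * r * (y * x)) -
          (x * y * r * S + T * r * (y * x)) * (c * w * y + y * w * c)) -
        ((c * w * y + y * w * c) * (x * y * r * S + T * r * (y * x)) -
          (x * y * r * S + T * r * (y * x)) * (c * w * y + y * w * c)) *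
        (x * y * v * (c * f) + f * c * v * (y * x))) * S := by
  have h1 : (c * w * y + y * w * c) * (x * y * r * S + T * r * (y * x)) -
      (x * y * r * S + T * r * (y * x)) * (c * w * y + y * w * c) =
      c * w * y * r * S - T * r * y * w * c := by
    simp only [mul_add, add_mul, mul_assoc, Clos_t yxy, Clos_z yT, Clos_z cx, Clos_z cT,
      Clos_z Sc, Clos_z Sy, Clos_z xc, mul_zero, add_zero, zero_add]
  have h2 : (x * y * v * (c * f) + f * c * v * (y * x)) * (c * w * y * r * S - T * r * y * w * c) -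
      (c * w * y * r * S - T * r * y * w * c) * (x * y * v * (c * f) + f * c * v * (y * x)) =
      x * y * v * c * w * y * r * S + T * r * y * w * c * v * y * x := by
    simp only [mul_add, add_mul, mul_sub, sub_mul, mul_assoc, Clos_t cfc, Clos_z fT, Clos_z xc,
      Clos_z xT, Clos_z Sx, Clos_z Sf, Clos_z cx, mul_zero, add_zero, zero_add, sub_zero, zero_sub,
      sub_neg_eq_add]
  rw [h1, h2]
  simp only [mul_add, mul_assoc, Clos_t cfc, Clos_t yxy, Clos_z yT, SS, mul_zero, add_zero]

private theorem Clos_three_aux {R : Type*} [Ring R] {c f x y w S T b v : R}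
    (cfc : c * f * c = c) (yxy : y * x * y = y) (fy : f * y = 0) (Tc : T * c = 0)
    (Ty : T * y = 0) (yS : y * S = 0) (yf : y * f = 0) (cS : c * S = 0) (Tx : T * x = 0)
    (Tf : T * f = 0) (fS : f * S = 0) (xS : x * S = 0) :
    S * b * (c * f) * (c * w * y * v * (c * f)) + f * c * v * y * w * c * b * T =
      ((S * b * (c * f) + f * c * b * T) * (c * w * y + y * w * c) -
          (c * w * y + y * w * c) * (S * b * (c * f) + f * c * b * T)) *
        (x * y * v * (c * f) + f * c * v * (y * x)) -
      (x * y * v * (c * f) + f * c * v * (y * x)) *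
        ((S * b * (c * f) + f * c * b * T) * (c * w * y + y * w * c) -
          (c * w * y + y * w * c) * (S * b * (c * f) + f * c * b * T)) := by
  have h1 : (S * b * (c * f) + f * c * b * T) * (c * w * y + y * w * c) -
      (c * w * y + y * w * c) * (S * b * (c * f) + f * c * b * T) =
      S * b * c * w * y - y * w * c * b * T := by
    simp only [mul_add, add_mul, mul_assoc, Clos_t cfc, Clos_z fy, Clos_z Tc, Clos_z Ty,
      Clos_z yS, Clos_z yf, Clos_z cS, mul_zero, add_zero, zero_add]
  rw [h1]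
  simp only [mul_add, add_mul, mul_sub, sub_mul, mul_assoc, Clos_t cfc, Clos_t yxy, Clos_z yf,
    Clos_z Tx, Clos_z Tf, Clos_z fS, Clos_z xS, Clos_z fy, mul_zero, add_zero, zero_add, sub_zero,
    zero_sub, sub_neg_eq_add]

variable {K V : Type*} [Field K] [CharZero K] [IsAlgClosed K] [AddCommGroup V] [Module K V]
  [FiniteDimensional K V] {g : Submodule K (End K V)} {e c f x y w : End K V} {ρ : ℕ}
  (F : Fr g e c f x y w ρ)
include F

/-- **First product.**

Proof. `v = r' * b' - b' * r' ∈ g`. `r' * (c * f) = 0` (`S * c = 0`, `x * c = 0`),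
`x * y * (r' * b') * (c * f) = x * y * r * S * b * (c * f)` (`y * T = 0`, `S * S = S`, `S * (f * c)
= 0`), so
`c * w * y * v * (c * f) = c * w * y * r * S * b * (c * f)` (`c * w * y = c * w * y * x * y`). -/
theorem clos_one {r b : End K V} (hr : r ∈ g) (hb : b ∈ g) :
    ∃ v ∈ g, c * w * y * r * (e - c * f - x * y) * b * (c * f) = c * w * y * v * (c * f) := by
  exact ⟨_, F.G.lie _ (F.w_1 hr) _ (F.w_m5 hb), Clos_one_aux F.cfc F.yxy F.yT F.SS F.Sf F.yS
    F.yf⟩

/-- **Second product.**

Proof. `q = s * r' - r' * s = c * w * y * r * S - T * r * y * w * c ∈ g` (`c * x = 0`, `y * T = 0`,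
`c * T = 0`, `S * c = 0`, `S * y = 0`, `x * c = 0`, `y * x * y = y`), `r₂ = v' * q - q * v' ∈ g`,
and
`r₂ = x * y * v * c * w * y * r * S + T * r * y * w * c * v * y * x` (`(c * f) * c = c`, `f * T =
0`,
`x * c = 0`, `x * T = 0`, `S * x = 0`, `S * f = 0`, `c * x = 0`, `c * (f * c) = c`). So
`c * w * y * r₂ * S = c * w * y * v * c * w * y * r * S` (`y * x * y = y`, `y * T = 0`, `S * S =
S`), and
`c * w * y * v * (c * f) * (c * w * y * r * S)` is the same (`c * f * c = c`). -/
theorem clos_two {v r : End K V} (hv : v ∈ g) (hr : r ∈ g) :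
    ∃ r₂ ∈ g, c * w * y * v * (c * f) * (c * w * y * r * (e - c * f - x * y)) =
      c * w * y * r₂ * (e - c * f - x * y) := by
  exact ⟨_, F.G.lie _ (F.w_m4 hv) _ (F.G.lie _ F.ws_mem _ (F.w_1 hr)), Clos_two_aux F.cfc F.yxy
    F.yT F.SS F.Sc F.Sy F.xc F.cx F.cT F.fT F.xT F.Sx F.Sf⟩

/-- **Third product**, with a description of the element.

Proof. `q = b' * s - s * b' = S * b * c * w * y - y * w * c * b * T ∈ g` (`(c * f) * c = c`, `(c *
f) * y = 0`,
`T * c = 0`, `T * y = 0`, `y * S = 0`, `c * S = 0`, `y * (f * c) = 0`, `c * (f * c) = c`), and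
`b₂ = q * v' - v' * q = S * b * c * w * y * v * (c * f) + f * c * v * y * w * c * b * T ∈ g`
(`y * (x * y) = y`, `y * f = 0`, `T * x = 0`, `T * f = 0`, `f * S = 0`, `x * S = 0`, `f * y = 0`,
`x * y * w = ...`: `(y * x) * (y * w * c) = y * w * c`). -/
theorem clos_three {b v : End K V} (hb : b ∈ g) (hv : v ∈ g) :
    (e - c * f - x * y) * b * (c * f) * (c * w * y * v * (c * f)) +
      f * c * v * y * w * c * b * (1 - e - f * c - y * x) ∈ g := by
  rw [Clos_three_aux F.cfc F.yxy F.fy F.Tc F.Ty F.yS F.yf F.cS F.Tx F.Tf F.fS F.xS]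
  exact F.G.lie _ (F.G.lie _ (F.w_m5 hb) _ F.ws_mem) _ (F.w_m4 hv)

/-- The component of the third product. Proof. Take the element of `clos_three` and multiply by `S`
on
the left and by `c * f` on the right: `S * (f * c) = 0`. -/
theorem clos_three' {b v : End K V} (hb : b ∈ g) (hv : v ∈ g) :
    ∃ b₂ ∈ g, (e - c * f - x * y) * b * (c * f) * (c * w * y * v * (c * f)) =
      (e - c * f - x * y) * b₂ * (c * f) := by
  refine ⟨_, F.clos_three hb hv, ?_⟩
  rw [mul_add, add_mul]
  simp only [← mul_assoc]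
  rw [F.SS, F.Sf]
  simp only [zero_mul, add_zero]
  simp only [mul_assoc]
  rw [← mul_assoc c f (c * f), ← mul_assoc (c * f) c f, F.cfc]

end Pool.Agent.SmallRank.Fr
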