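import Pool.Agent.SmallRank.Frame
import Pool.Agent.SmallRank.Weights

/-!
# Components with respect to a frame

All statements: `weights` with `n = 6`,
`p = ![c * f, x * y, S, f * c, y * x, T]`, `S = e - c * f - x * y`, `T = 1 - e - f * c - y * x`,
`wt = ![30, 26, 25, -5, -1, 0]`. The `36` products of the idempotents are in `Frame.lean` (for
example
`(c * f) * (x * y) = c * (f * x) * y = 0`, `(c * f) * S = c * (f * S) = 0`), the sum is one
(`Fr.one_eq`), and `∑ wt i • p i = 25 • e + 5 • (c * f - f * c) + (x * y - y * x) ∈ g`. The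
differences of
the weights are: `4` for `(c f, x y)` and `(y x, f c)`; `5` for `(c f, S)` and `(T, f c)`; `1` for
`(x y, S)` and `(T, y x)`; `31` for `(c f, y x)` and `(x y, f c)`; `30` for `(c f, T)` and `(S, f
c)`; `26` for
`(x y, T)` and `(S, y x)`; `35`, `27`, `25` only for `(c f, f c)`, `(x y, y x)`, `(S, T)`; and
their negatives.
First prove one general private lemma: for `z ∈ g` and `k : ℤ` the sum of `weights` is in `g`; then
the
statements by `Fin.sum_univ_succ`/`Fin.sum_univ_six` and `norm_num`/`decide` for the conditions.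
-/

set_option autoImplicit false
set_option linter.unusedSectionVars false

namespace Pool.Agent.SmallRank.Fr

open Module

variable {K V : Type*} [Field K] [CharZero K] [IsAlgClosed K] [AddCommGroup V] [Module K V]
  [FiniteDimensional K V] {g : Submodule K (End K V)} {e c f x y w : End K V} {ρ : ℕ}
  (F : Fr g e c f x y w ρ)
include F

omit F in
private theorem FrWts_z4 {a b d h : End K V} (H : b * d = 0) : a * b * (d * h) = 0 := by
  rw [mul_assoc, ← mul_assoc b, H, zero_mul, mul_zero]

omit F in
private theorem FrWts_z3 {a b d : End K V} (H : b * d = 0) : a * b * d = 0 := by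
  rw [mul_assoc, H, mul_zero]

omit F in
private theorem FrWts_y3 {a b d : End K V} (H : a * b = 0) : a * (b * d) = 0 := by
  rw [← mul_assoc, H, zero_mul]

private theorem FrWts_w {z : End K V} (hz : z ∈ g) (k : ℤ) :
    ∑ i : Fin 6, ∑ j : Fin 6, (if (![30, 26, 25, -5, -1, 0] : Fin 6 → ℤ) i -
      (![30, 26, 25, -5, -1, 0] : Fin 6 → ℤ) j = k then
      (![c * f, x * y, e - c * f - x * y, f * c, y * x, 1 - e - f * c - y * x] :
        Fin 6 → End K V) i * z *
      (![c * f, x * y, e - c * f - x * y, f * c, y * x, 1 - e - f * c - y * x] :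
        Fin 6 → End K V) j else 0) ∈ g := by
  refine weights F.G.lie ?_ ?_ ?_ hz k
  · have a11 := F.B.idemP
    have a12 : c * f * (x * y) = 0 := FrWts_z4 F.fx
    have a13 : c * f * (e - c * f - x * y) = 0 := FrWts_z3 F.fS
    have a14 : c * f * (f * c) = 0 := FrWts_z4 F.ff
    have a15 : c * f * (y * x) = 0 := FrWts_z4 F.fy
    have a16 : c * f * (1 - e - f * c - y * x) = 0 := FrWts_z3 F.fT
    have a21 : x * y * (c * f) = 0 := FrWts_z4 F.yc
    have a22 := F.B'.idemP
    have a23 : x * y * (e - c * f - x * y) = 0 := FrWts_z3 F.yS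
    have a24 : x * y * (f * c) = 0 := FrWts_z4 F.yf
    have a25 : x * y * (y * x) = 0 := FrWts_z4 F.yy
    have a26 : x * y * (1 - e - f * c - y * x) = 0 := FrWts_z3 F.yT
    have a31 : (e - c * f - x * y) * (c * f) = 0 := FrWts_y3 F.Sc
    have a32 : (e - c * f - x * y) * (x * y) = 0 := FrWts_y3 F.Sx
    have a33 := F.SS
    have a34 : (e - c * f - x * y) * (f * c) = 0 := FrWts_y3 F.Sf
    have a35 : (e - c * f - x * y) * (y * x) = 0 := FrWts_y3 F.Sy
    have a36 := F.ST
    have a41 : f * c * (c * f) = 0 := FrWts_z4 F.cc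
    have a42 : f * c * (x * y) = 0 := FrWts_z4 F.cx
    have a43 : f * c * (e - c * f - x * y) = 0 := FrWts_z3 F.cS
    have a44 := F.B.idemQ
    have a45 : f * c * (y * x) = 0 := FrWts_z4 F.cy
    have a46 : f * c * (1 - e - f * c - y * x) = 0 := FrWts_z3 F.cT
    have a51 : y * x * (c * f) = 0 := FrWts_z4 F.xc
    have a52 : y * x * (x * y) = 0 := FrWts_z4 F.xx
    have a53 : y * x * (e - c * f - x * y) = 0 := FrWts_z3 F.xS
    have a54 : y * x * (f * c) = 0 := FrWts_z4 F.xf
    have a55 := F.B'.idemQ
    have a56 : y * x * (1 - e - f * c - y * x) = 0 := FrWts_z3 F.xT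
    have a61 : (1 - e - f * c - y * x) * (c * f) = 0 := FrWts_y3 F.Tc
    have a62 : (1 - e - f * c - y * x) * (x * y) = 0 := FrWts_y3 F.Tx
    have a63 := F.TS
    have a64 : (1 - e - f * c - y * x) * (f * c) = 0 := FrWts_y3 F.Tf
    have a65 : (1 - e - f * c - y * x) * (y * x) = 0 := FrWts_y3 F.Ty
    have a66 := F.TT
    intro i j
    fin_cases i <;> fin_cases j
    · exact a11
    · exact a12
    · exact a13
    · exact a14
    · exact a15
    · exact a16
    · exact a21
    · exact a22
    · exact a23
    · exact a24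
    · exact a25
    · exact a26
    · exact a31
    · exact a32
    · exact a33
    · exact a34
    · exact a35
    · exact a36
    · exact a41
    · exact a42
    · exact a43
    · exact a44
    · exact a45
    · exact a46
    · exact a51
    · exact a52
    · exact a53
    · exact a54
    · exact a55
    · exact a56
    · exact a61
    · exact a62
    · exact a63
    · exact a64
    · exact a65
    · exact a66
  · rw [Fin.sum_univ_six]
    exact F.one_eq.symm
  · have h1 : c * f - f * c ∈ g := F.G.lie _ F.B.cu.1 _ F.B.fd.1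
    have h2 : x * y - y * x ∈ g := F.G.lie _ F.B'.cu.1 _ F.B'.fd.1
    have h3 := g.add_mem (g.add_mem (g.smul_mem (25 : K) F.G.mem) (g.smul_mem (5 : K) h1)) h2
    rw [Fin.sum_univ_six]
    have h4 : (((30 : ℤ) : K) • (c * f) + ((26 : ℤ) : K) • (x * y) +
        ((25 : ℤ) : K) • (e - c * f - x * y) + ((-5 : ℤ) : K) • (f * c) +
        ((-1 : ℤ) : K) • (y * x) + ((0 : ℤ) : K) • (1 - e - f * c - y * x) : End K V) =
        (25 : K) • e + (5 : K) • (c * f - f * c) + (x * y - y * x) := by
      push_cast
      module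
    have h5 := h3
    rw [← h4] at h5
    exact h5

private theorem FrWts_e {z : End K V} (hz : z ∈ g) (k : ℤ) :
    ((if (30 : ℤ) - 30 = k then c * f * z * (c * f) else 0) +
        (if (30 : ℤ) - 26 = k then c * f * z * (x * y) else 0) +
        (if (30 : ℤ) - 25 = k then c * f * z * (e - c * f - x * y) else 0) +
        (if (30 : ℤ) - (-5) = k then c * f * z * (f * c) else 0) +
        (if (30 : ℤ) - (-1) = k then c * f * z * (y * x) else 0) +
        (if (30 : ℤ) - 0 = k then c * f * z * (1 - e - f * c - y * x) else 0)) +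
      ((if (26 : ℤ) - 30 = k then x * y * z * (c * f) else 0) +
        (if (26 : ℤ) - 26 = k then x * y * z * (x * y) else 0) +
        (if (26 : ℤ) - 25 = k then x * y * z * (e - c * f - x * y) else 0) +
        (if (26 : ℤ) - (-5) = k then x * y * z * (f * c) else 0) +
        (if (26 : ℤ) - (-1) = k then x * y * z * (y * x) else 0) +
        (if (26 : ℤ) - 0 = k then x * y * z * (1 - e - f * c - y * x) else 0)) +
      ((if (25 : ℤ) - 30 = k then (e - c * f - x * y) * z * (c * f) else 0) +
        (if (25 : ℤ) - 26 = k then (e - c * f - x * y) * z * (x * y) else 0) +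
        (if (25 : ℤ) - 25 = k then (e - c * f - x * y) * z * (e - c * f - x * y) else 0) +
        (if (25 : ℤ) - (-5) = k then (e - c * f - x * y) * z * (f * c) else 0) +
        (if (25 : ℤ) - (-1) = k then (e - c * f - x * y) * z * (y * x) else 0) +
        (if (25 : ℤ) - 0 = k then (e - c * f - x * y) * z * (1 - e - f * c - y * x) else 0)) +
      ((if (-5 : ℤ) - 30 = k then f * c * z * (c * f) else 0) +
        (if (-5 : ℤ) - 26 = k then f * c * z * (x * y) else 0) +
        (if (-5 : ℤ) - 25 = k then f * c * z * (e - c * f - x * y) else 0) +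
        (if (-5 : ℤ) - (-5) = k then f * c * z * (f * c) else 0) +
        (if (-5 : ℤ) - (-1) = k then f * c * z * (y * x) else 0) +
        (if (-5 : ℤ) - 0 = k then f * c * z * (1 - e - f * c - y * x) else 0)) +
      ((if (-1 : ℤ) - 30 = k then y * x * z * (c * f) else 0) +
        (if (-1 : ℤ) - 26 = k then y * x * z * (x * y) else 0) +
        (if (-1 : ℤ) - 25 = k then y * x * z * (e - c * f - x * y) else 0) +
        (if (-1 : ℤ) - (-5) = k then y * x * z * (f * c) else 0) +
        (if (-1 : ℤ) - (-1) = k then y * x * z * (y * x) else 0) +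
        (if (-1 : ℤ) - 0 = k then y * x * z * (1 - e - f * c - y * x) else 0)) +
      ((if (0 : ℤ) - 30 = k then (1 - e - f * c - y * x) * z * (c * f) else 0) +
        (if (0 : ℤ) - 26 = k then (1 - e - f * c - y * x) * z * (x * y) else 0) +
        (if (0 : ℤ) - 25 = k then (1 - e - f * c - y * x) * z * (e - c * f - x * y) else 0) +
        (if (0 : ℤ) - (-5) = k then (1 - e - f * c - y * x) * z * (f * c) else 0) +
        (if (0 : ℤ) - (-1) = k then (1 - e - f * c - y * x) * z * (y * x) else 0) +
        (if (0 : ℤ) - 0 = k then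
          (1 - e - f * c - y * x) * z * (1 - e - f * c - y * x) else 0)) ∈ g := by
  have h := F.FrWts_w hz k
  simp only [Fin.sum_univ_six] at h
  exact h

/-- `k = -4` -/
theorem w_m4 {z : End K V} (hz : z ∈ g) :
    x * y * z * (c * f) + f * c * z * (y * x) ∈ g := by
  have h := F.FrWts_e hz (-4)
  norm_num at h
  exact h

/-- `k = 4` -/
theorem w_4 {z : End K V} (hz : z ∈ g) :
    c * f * z * (x * y) + y * x * z * (f * c) ∈ g := by
  have h := F.FrWts_e hz 4
  norm_num at h
  exact h

/-- `k = -5` -/
theorem w_m5 {z : End K V} (hz : z ∈ g) :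
    (e - c * f - x * y) * z * (c * f) + f * c * z * (1 - e - f * c - y * x) ∈ g := by
  have h := F.FrWts_e hz (-5)
  norm_num at h
  exact h

/-- `k = 5` -/
theorem w_5 {z : End K V} (hz : z ∈ g) :
    c * f * z * (e - c * f - x * y) + (1 - e - f * c - y * x) * z * (f * c) ∈ g := by
  have h := F.FrWts_e hz 5
  norm_num at h
  exact h

/-- `k = 1` -/
theorem w_1 {z : End K V} (hz : z ∈ g) :
    x * y * z * (e - c * f - x * y) + (1 - e - f * c - y * x) * z * (y * x) ∈ g := by
  have h := F.FrWts_e hz 1
  norm_num at h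
  exact h

/-- `k = -1` -/
theorem w_m1 {z : End K V} (hz : z ∈ g) :
    (e - c * f - x * y) * z * (x * y) + y * x * z * (1 - e - f * c - y * x) ∈ g := by
  have h := F.FrWts_e hz (-1)
  norm_num at h
  exact h

/-- `k = 0` -/
theorem w_0 {z : End K V} (hz : z ∈ g) :
    c * f * z * (c * f) + x * y * z * (x * y) +
      (e - c * f - x * y) * z * (e - c * f - x * y) + f * c * z * (f * c) + y * x * z * (y * x) +
      (1 - e - f * c - y * x) * z * (1 - e - f * c - y * x) ∈ g := by
  have h := F.FrWts_e hz 0
  norm_num at h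
  exact h

/-- `k = 31` -/
theorem w_31 {z : End K V} (hz : z ∈ g) :
    c * f * z * (y * x) + x * y * z * (f * c) ∈ g := by
  have h := F.FrWts_e hz 31
  norm_num at h
  exact h

/-- `k = 30` -/
theorem w_30 {z : End K V} (hz : z ∈ g) :
    c * f * z * (1 - e - f * c - y * x) + (e - c * f - x * y) * z * (f * c) ∈ g := by
  have h := F.FrWts_e hz 30
  norm_num at h
  exact h

/-- `k = -31` -/
theorem w_m31 {z : End K V} (hz : z ∈ g) :
    y * x * z * (c * f) + f * c * z * (x * y) ∈ g := by
  have h := F.FrWts_e hz (-31)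
  norm_num at h
  rw [add_comm]
  exact h

/-- `k = -30` -/
theorem w_m30 {z : End K V} (hz : z ∈ g) :
    (1 - e - f * c - y * x) * z * (c * f) + f * c * z * (e - c * f - x * y) ∈ g := by
  have h := F.FrWts_e hz (-30)
  norm_num at h
  rw [add_comm]
  exact h

end Pool.Agent.SmallRank.Fr
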