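import Pool.Agent.SmallRank.Line

/-!
# Frames: two orthogonal pairs and an element which exchanges them

`(c, f)` and `(x, y)` are orthogonal pairs of minimal rank, `w ∈ g` maps `range (c f)` to
`range (x y)` and `range (y x)` to `range (f c)`, and `w c w = x`. The six orthogonal idempotents
`c f`, `x y`, `e - c f - x y`, `f c`, `y x`, `1 - e - f c - y x` have the sum one.
-/

set_option autoImplicit false
set_option linter.unusedSectionVars false

namespace Pool.Agent.SmallRank

open Module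

variable {K V : Type*} [Field K] [CharZero K] [IsAlgClosed K] [AddCommGroup V] [Module K V]
  [FiniteDimensional K V]

/-- A frame. -/
structure Fr (g : Submodule K (End K V)) (e c f x y w : End K V) (ρ : ℕ) : Prop where
  B : Pr g e c f ρ
  B' : Pr g e x y ρ
  fx : f * x = 0
  xf : x * f = 0
  yc : y * c = 0
  cy : c * y = 0
  wg : w ∈ g
  wP : w = x * y * w * (c * f) + f * c * w * (y * x)
  wcw : w * c * w = x

/-- idempotents of the same rank -/
theorem idem_eq {p q : End K V} (hp : p * p = p) (hq : q * q = q) (hpq : p * q = q)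
    (hqp : q * p = q) (h : rk p ≤ rk q) : q = p := by
  have h1 : (p - q) * (p - q) = p - q := by
    rw [mul_sub, sub_mul, sub_mul, hp, hq, hpq, hqp, sub_self, sub_zero]
  have h2 : q * (p - q) = 0 := by rw [mul_sub, hqp, hq, sub_self]
  have h3 : (p - q) * q = 0 := by rw [sub_mul, hpq, hq, sub_self]
  have h4 := rk_add_idem hq h1 h2 h3
  rw [add_sub_cancel] at h4
  have h5 : rk (p - q) = 0 := by omega
  rw [rk_eq_zero, sub_eq_zero] at h5
  exact h5.symm

namespace Fr

variable {g : Submodule K (End K V)} {e c f x y w : End K V} {ρ : ℕ} (F : Fr g e c f x y w ρ)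
include F

theorem G : Gr g e := F.B.G
theorem ec : e * c = c := F.B.ec
theorem ce : c * e = 0 := F.B.ce
theorem ef : e * f = 0 := F.B.ef
theorem fe : f * e = f := F.B.fe
theorem ex : e * x = x := F.B'.ec
theorem xe : x * e = 0 := F.B'.ce
theorem ey : e * y = 0 := F.B'.ef
theorem ye : y * e = y := F.B'.fe
theorem cc : c * c = 0 := F.B.cc
theorem ff : f * f = 0 := F.B.ff
theorem xx : x * x = 0 := F.B'.cc
theorem yy : y * y = 0 := F.B'.ff
theorem cx : c * x = 0 := Gr.up_mul_up F.B.cu F.B'.cu
theorem xc : x * c = 0 := Gr.up_mul_up F.B'.cu F.B.cu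
theorem fy : f * y = 0 := Gr.dn_mul_dn F.B.fd F.B'.fd
theorem yf : y * f = 0 := Gr.dn_mul_dn F.B'.fd F.B.fd
theorem cfc : c * f * c = c := F.B.cfc
theorem fcf : f * c * f = f := F.B.fcf
theorem xyx : x * y * x = x := F.B'.cfc
theorem yxy : y * x * y = y := F.B'.fcf

theorem wx : w * x = 0 := by
  rw [F.wP, add_mul, mul_assoc _ (c * f) x, mul_assoc c f x, F.fx, mul_zero, mul_zero,
    mul_assoc _ (y * x) x, mul_assoc y x x, F.xx, mul_zero, mul_zero, add_zero]

theorem wf : w * f = 0 := by
  rw [F.wP, add_mul, mul_assoc _ (c * f) f, mul_assoc c f f, F.ff, mul_zero, mul_zero,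
    mul_assoc _ (y * x) f, mul_assoc y x f, F.xf, mul_zero, mul_zero, add_zero]

theorem xw : x * w = 0 := by
  rw [F.wP, mul_add]
  simp only [← mul_assoc]
  rw [F.xx, F.xf]
  simp only [zero_mul, add_zero]

theorem fw : f * w = 0 := by
  rw [F.wP, mul_add]
  simp only [← mul_assoc]
  rw [F.fx, F.ff]
  simp only [zero_mul, add_zero]

/-- `w * c` has its range in `range (x * y)` -/
theorem wc : x * y * (w * c) = w * c := by
  conv_rhs => rw [F.wP]
  rw [add_mul, mul_assoc _ (c * f) c, F.cfc, mul_assoc _ (y * x) c, mul_assoc y x c, F.xc, mul_zero,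
    mul_zero, add_zero]
  simp only [mul_assoc]

theorem wy : f * c * (w * y) = w * y := by
  conv_rhs => rw [F.wP]
  rw [add_mul, mul_assoc _ (c * f) y, mul_assoc c f y, F.fy, mul_zero, mul_zero, zero_add,
    mul_assoc _ (y * x) y, F.yxy]
  simp only [mul_assoc]

theorem cw : c * w * (y * x) = c * w := by
  conv_rhs => rw [F.wP]
  rw [mul_add]
  simp only [← mul_assoc]
  rw [F.cx, F.cfc]
  simp only [zero_mul, zero_add]

theorem yw : y * w * (c * f) = y * w := by
  conv_rhs => rw [F.wP]
  rw [mul_add]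
  simp only [← mul_assoc]
  rw [F.yxy, F.yf]
  simp only [zero_mul, add_zero]

theorem ww : w * w = 0 := by
  conv_lhs => rw [F.wP, mul_add]
  simp only [← mul_assoc]
  have h : ∀ a b : End K V, (a + b) * x = a * x + b * x := fun a b => add_mul a b x
  have h1 : (x * y * w * c * f + f * c * w * y * x) * x = 0 := by
    rw [add_mul, mul_assoc _ f x, F.fx, mul_zero, mul_assoc _ x x, F.xx, mul_zero, add_zero]
  have h2 : (x * y * w * c * f + f * c * w * y * x) * f = 0 := by
    rw [add_mul, mul_assoc _ f f, F.ff, mul_zero, mul_assoc _ x f, F.xf, mul_zero, add_zero]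
  rw [h1, h2]
  simp only [zero_mul, add_zero]

theorem we : e * w = w * e := by
  rw [F.wP, mul_add, add_mul]
  simp only [← mul_assoc]
  rw [F.ex, F.ef, mul_assoc _ f e, F.fe, mul_assoc _ x e, F.xe]
  simp only [zero_mul, mul_zero]

/-- `w` and `c w y` are inverse on `range (x y)` -/
theorem wa : w * (c * w * y) = x * y := by
  rw [← F.wcw]
  simp only [mul_assoc]

/-- `w` and `y w c` are inverse on `range (y x)` -/
theorem bw : y * w * c * w = y * x := by
  rw [← F.wcw]
  simp only [mul_assoc]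

/-- `w` and `c w y` are inverse on `range (c f)` -/
theorem aw : c * w * y * w = c * f := by
  have hP := F.B.idemP
  set v : End K V := c * w * y with hv
  have h1 : w * v = x * y := F.wa
  have h2 : v * w * (c * f) = v * w := by
    rw [hv, mul_assoc (c * w) y w, mul_assoc (c * w) (y * w), F.yw]
  have h3 : c * f * (v * w) = v * w := by
    rw [hv]
    simp only [← mul_assoc]
    rw [F.cfc]
  have h4 : v * w * (v * w) = v * w := by
    have h5 : v * (x * y) = v := by
      rw [hv, mul_assoc (c * w), ← mul_assoc y, F.yxy]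
    rw [mul_assoc v w, ← mul_assoc w v, h1, ← mul_assoc v, h5]
  refine idem_eq hP h4 h3 h2 ?_
  rw [F.B.rkP, ← F.B'.rkP, ← h1]
  have h6 : w * v = w * (v * w) * v := by
    have h7 := F.B'.idemP
    rw [← h1] at h7
    simp only [mul_assoc] at h7 ⊢
    exact h7.symm
  rw [h6]
  exact (rk_mul_left _ _).trans (rk_mul_right _ _)

/-- `w` and `y w c` are inverse on `range (f c)` -/
theorem wb : w * (y * w * c) = f * c := by
  have hQ := F.B.idemQ
  set v : End K V := y * w * c with hv
  have h1 : v * w = y * x := F.bw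
  have h2 : w * v * (f * c) = w * v := by
    rw [hv]
    simp only [mul_assoc]
    rw [← mul_assoc c f c, F.cfc]
  have h3 : f * c * (w * v) = w * v := by
    rw [hv, mul_assoc y w c, ← mul_assoc w y, ← mul_assoc (f * c), F.wy]
  have h4 : w * v * (w * v) = w * v := by
    have h5 : y * x * v = v := by
      rw [hv]
      simp only [← mul_assoc]
      rw [F.yxy]
    rw [mul_assoc w v, ← mul_assoc v w, h1, h5]
  refine idem_eq hQ h4 h3 h2 ?_
  rw [F.B.rkQ, ← F.B'.rkQ, ← h1]
  have h6 : v * w = v * (w * v) * w := by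
    have h7 := F.B'.idemQ
    rw [← h1] at h7
    simp only [mul_assoc] at h7 ⊢
    exact h7.symm
  rw [h6]
  exact (rk_mul_left _ _).trans (rk_mul_right _ _)

theorem cwc : c * w * c = 0 := by
  have h : c * (x * y * (w * c)) = 0 := by
    simp only [← mul_assoc]
    rw [F.cx]
    simp only [zero_mul]
  rw [F.wc, ← mul_assoc] at h
  exact h

theorem ywy : y * w * y = 0 := by
  have h : y * (f * c * (w * y)) = 0 := by
    simp only [← mul_assoc]
    rw [F.yf]
    simp only [zero_mul]
  rw [F.wy, ← mul_assoc] at h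
  exact h

/-- the inverse element -/
theorem ws_mem : c * w * y + y * w * c ∈ g := by
  have h1 := F.G.lie _ F.wg _ F.B.cu.1
  have h2 := F.G.lie _ F.B'.fd.1 _ h1
  have h3 : y * (w * c - c * w) - (w * c - c * w) * y = c * w * y + y * w * c := by
    rw [mul_sub, sub_mul, ← mul_assoc y c w, F.yc, zero_mul, sub_zero, mul_assoc w c y, F.cy,
      mul_zero, zero_sub, sub_neg_eq_add, ← mul_assoc, add_comm]
  rwa [h3] at h2

/-! The products with `S = e - c f - x y` and `T = 1 - e - f c - y x`. -/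

theorem cS : c * (e - c * f - x * y) = 0 := by
  rw [mul_sub, mul_sub, F.ce, ← mul_assoc, F.cc, zero_mul, ← mul_assoc, F.cx, zero_mul, sub_zero,
    sub_zero]
theorem xS : x * (e - c * f - x * y) = 0 := by
  rw [mul_sub, mul_sub, F.xe, ← mul_assoc, F.xc, zero_mul, ← mul_assoc, F.xx, zero_mul, sub_zero,
    sub_zero]
theorem fS : f * (e - c * f - x * y) = 0 := by
  rw [mul_sub, mul_sub, F.fe, ← mul_assoc, F.fcf, ← mul_assoc, F.fx, zero_mul, sub_zero, sub_self]
theorem yS : y * (e - c * f - x * y) = 0 := by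
  rw [mul_sub, mul_sub, F.ye, ← mul_assoc, F.yc, zero_mul, ← mul_assoc, F.yxy, sub_zero, sub_self]
theorem Sc : (e - c * f - x * y) * c = 0 := by
  rw [sub_mul, sub_mul, F.ec, F.cfc, mul_assoc, F.yc, mul_zero, sub_zero, sub_self]
theorem Sx : (e - c * f - x * y) * x = 0 := by
  rw [sub_mul, sub_mul, F.ex, mul_assoc, F.fx, mul_zero, F.xyx, sub_zero, sub_self]
theorem Sf : (e - c * f - x * y) * f = 0 := by
  rw [sub_mul, sub_mul, F.ef, mul_assoc, F.ff, mul_zero, mul_assoc, F.yf, mul_zero, sub_zero,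
    sub_zero]
theorem Sy : (e - c * f - x * y) * y = 0 := by
  rw [sub_mul, sub_mul, F.ey, mul_assoc, F.fy, mul_zero, mul_assoc, F.yy, mul_zero, sub_zero,
    sub_zero]
theorem cT : c * (1 - e - f * c - y * x) = 0 := by
  rw [mul_sub, mul_sub, mul_sub, mul_one, F.ce, ← mul_assoc, F.cfc, ← mul_assoc, F.cy, zero_mul,
    sub_zero, sub_zero, sub_self]
theorem xT : x * (1 - e - f * c - y * x) = 0 := by
  rw [mul_sub, mul_sub, mul_sub, mul_one, F.xe, ← mul_assoc, F.xf, zero_mul, ← mul_assoc, F.xyx,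
    sub_zero, sub_zero, sub_self]
theorem fT : f * (1 - e - f * c - y * x) = 0 := by
  rw [mul_sub, mul_sub, mul_sub, mul_one, F.fe, ← mul_assoc, F.ff, zero_mul, ← mul_assoc, F.fy,
    zero_mul, sub_zero, sub_zero, sub_self]
theorem yT : y * (1 - e - f * c - y * x) = 0 := by
  rw [mul_sub, mul_sub, mul_sub, mul_one, F.ye, ← mul_assoc, F.yf, zero_mul, ← mul_assoc, F.yy,
    zero_mul, sub_zero, sub_zero, sub_self]
theorem Tc : (1 - e - f * c - y * x) * c = 0 := by
  rw [sub_mul, sub_mul, sub_mul, one_mul, F.ec, mul_assoc, F.cc, mul_zero, mul_assoc, F.xc,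
    mul_zero, sub_zero, sub_zero, sub_self]
theorem Tx : (1 - e - f * c - y * x) * x = 0 := by
  rw [sub_mul, sub_mul, sub_mul, one_mul, F.ex, mul_assoc, F.cx, mul_zero, mul_assoc, F.xx,
    mul_zero, sub_zero, sub_zero, sub_self]
theorem Tf : (1 - e - f * c - y * x) * f = 0 := by
  rw [sub_mul, sub_mul, sub_mul, one_mul, F.ef, F.fcf, mul_assoc, F.xf, mul_zero, sub_zero,
    sub_zero, sub_self]
theorem Ty : (1 - e - f * c - y * x) * y = 0 := by
  rw [sub_mul, sub_mul, sub_mul, one_mul, F.ey, mul_assoc, F.cy, mul_zero, F.yxy, sub_zero,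
    sub_zero, sub_self]
theorem eS : e * (e - c * f - x * y) = e - c * f - x * y := by
  rw [mul_sub, mul_sub, F.G.idem, ← mul_assoc, F.ec, ← mul_assoc, F.ex]
theorem Se : (e - c * f - x * y) * e = e - c * f - x * y := by
  rw [sub_mul, sub_mul, F.G.idem, mul_assoc, F.fe, mul_assoc, F.ye]
theorem eT : e * (1 - e - f * c - y * x) = 0 := by
  rw [mul_sub, mul_sub, mul_sub, mul_one, F.G.idem, ← mul_assoc, F.ef, zero_mul, ← mul_assoc, F.ey,
    zero_mul, sub_self, sub_zero, sub_zero]
theorem Te : (1 - e - f * c - y * x) * e = 0 := by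
  rw [sub_mul, sub_mul, sub_mul, one_mul, F.G.idem, mul_assoc, F.ce, mul_zero, mul_assoc, F.xe,
    mul_zero, sub_self, sub_zero, sub_zero]
theorem SS : (e - c * f - x * y) * (e - c * f - x * y) = e - c * f - x * y := by
  conv_lhs => rw [mul_sub, mul_sub, F.Se, ← mul_assoc, F.Sc, zero_mul, ← mul_assoc, F.Sx, zero_mul,
    sub_zero, sub_zero]
theorem TT : (1 - e - f * c - y * x) * (1 - e - f * c - y * x) = 1 - e - f * c - y * x := by
  conv_lhs => rw [mul_sub, mul_sub, mul_sub, mul_one, F.Te, ← mul_assoc, F.Tf, zero_mul,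
    ← mul_assoc, F.Ty, zero_mul, sub_zero, sub_zero, sub_zero]
theorem ST : (e - c * f - x * y) * (1 - e - f * c - y * x) = 0 := by
  rw [mul_sub, mul_sub, mul_sub, mul_one, F.Se, ← mul_assoc, F.Sf, zero_mul, ← mul_assoc, F.Sy,
    zero_mul, sub_zero, sub_zero, sub_self]
theorem TS : (1 - e - f * c - y * x) * (e - c * f - x * y) = 0 := by
  rw [mul_sub, mul_sub, F.Te, ← mul_assoc, F.Tc, zero_mul, ← mul_assoc, F.Tx, zero_mul, sub_zero,
    sub_zero]
theorem Sw : (e - c * f - x * y) * w = 0 := by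
  rw [F.wP, mul_add]
  simp only [← mul_assoc]
  rw [F.Sx, F.Sf]
  simp only [zero_mul, add_zero]
theorem wS : w * (e - c * f - x * y) = 0 := by
  rw [F.wP, add_mul]
  simp only [mul_assoc]
  rw [F.fS, F.xS]
  simp only [mul_zero, add_zero]
theorem Tw : (1 - e - f * c - y * x) * w = 0 := by
  rw [F.wP, mul_add]
  simp only [← mul_assoc]
  rw [F.Tx, F.Tf]
  simp only [zero_mul, add_zero]
theorem wT : w * (1 - e - f * c - y * x) = 0 := by
  rw [F.wP, add_mul]
  simp only [mul_assoc]
  rw [F.fT, F.xT]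
  simp only [mul_zero, add_zero]

/-- the six idempotents have the sum one -/
theorem one_eq : (1 : End K V) = c * f + x * y + (e - c * f - x * y) + f * c + y * x +
    (1 - e - f * c - y * x) := by abel

theorem e_eq : e = c * f + x * y + (e - c * f - x * y) := by abel

/-- the ranks -/
theorem rk_e : rk e = 2 * ρ + rk (e - c * f - x * y) := by
  have h1 : (c * f) * (x * y) = 0 := by
    rw [mul_assoc, ← mul_assoc f x y, F.fx, zero_mul, mul_zero]
  have h2 : (x * y) * (c * f) = 0 := by
    rw [mul_assoc, ← mul_assoc y c f, F.yc, zero_mul, mul_zero]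
  have h3 := rk_add_idem F.B.idemP F.B'.idemP h1 h2
  have h4 : (c * f + x * y) * (c * f + x * y) = c * f + x * y := by
    rw [mul_add, add_mul, add_mul, h1, h2, F.B.idemP, F.B'.idemP, add_zero, zero_add]
  have h5 := rk_add_idem h4 F.SS (by
    rw [add_mul, mul_assoc, F.fS, mul_zero, mul_assoc, F.yS, mul_zero, add_zero]) (by
    rw [mul_add, ← mul_assoc, F.Sc, zero_mul, ← mul_assoc, F.Sx, zero_mul, add_zero])
  have h6 : c * f + x * y + (e - c * f - x * y) = e := by abel
  rw [h6, h3, F.B.rkP, F.B'.rkP] at h5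
  omega

theorem rk_e' : rk (1 - e) = 2 * ρ + rk (1 - e - f * c - y * x) := by
  have h1 : (f * c) * (y * x) = 0 := by
    rw [mul_assoc, ← mul_assoc c y x, F.cy, zero_mul, mul_zero]
  have h2 : (y * x) * (f * c) = 0 := by
    rw [mul_assoc, ← mul_assoc x f c, F.xf, zero_mul, mul_zero]
  have h3 := rk_add_idem F.B.idemQ F.B'.idemQ h1 h2
  have h4 : (f * c + y * x) * (f * c + y * x) = f * c + y * x := by
    rw [mul_add, add_mul, add_mul, h1, h2, F.B.idemQ, F.B'.idemQ, add_zero, zero_add]
  have h5 := rk_add_idem h4 F.TT (by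
    rw [add_mul, mul_assoc, F.cT, mul_zero, mul_assoc, F.xT, mul_zero, add_zero]) (by
    rw [mul_add, ← mul_assoc, F.Tf, zero_mul, ← mul_assoc, F.Ty, zero_mul, add_zero])
  have h6 : f * c + y * x + (1 - e - f * c - y * x) = 1 - e := by abel
  rw [h6, h3, F.B.rkQ, F.B'.rkQ] at h5
  omega

end Fr

end Pool.Agent.SmallRank
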