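import Pool.Agent.SmallRank.IrrOne
import Pool.Agent.SmallRank.FrWts

/-!
# The third block is connected to the first one
-/

set_option autoImplicit false
set_option linter.unusedSectionVars false

namespace Pool.Agent.SmallRank.Fr

open Module

variable {K V : Type*} [Field K] [CharZero K] [IsAlgClosed K] [AddCommGroup V] [Module K V]
  [FiniteDimensional K V] {g : Submodule K (End K V)} {e c f x y w : End K V} {ρ : ℕ}
  (F : Fr g e c f x y w ρ)
include F

/-- **From the second to the third block through the first.**

Proof. `r' = S * z * (x * y) + y * x * z * T ∈ g` (`w_m1`), `b = r' * w - w * r' ∈ g`,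
`S * b * (c * f) = S * z * x * y * w * (c * f)` (`S * w = 0`, `T * w = 0`). If all `S * b * (c *
f)` are zero then
`S * z * (x * y) * w * (c * f) = 0`; multiply by `c * w * y` on the right: `(c * f) * c = c`,
`w * (c * w * y) = x * y` (`F.wa`). -/
theorem S_xy_zero (h : ∀ b ∈ g, (e - c * f - x * y) * b * (c * f) = 0) {z : End K V} (hz : z ∈ g) :
    (e - c * f - x * y) * z * (x * y) = 0 := by
  have h1 := F.w_m1 hz
  have h2 := h _ (F.G.lie _ h1 _ F.wg)
  have hSS := F.SS
  have hSw := F.Sw
  have hTw := F.Tw
  have hSy := F.Sy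
  have hwa := F.wa
  have hxyxy := F.B'.idemP
  have hcfc := F.cfc
  clear h
  revert h1 h2 hSS hSw hTw hSy
  generalize e - c * f - x * y = S
  generalize 1 - e - f * c - y * x = T
  intro h1 h2 hSS hSw hTw hSy
  have h3 : S * ((S * z * (x * y) + y * x * z * T) * w - w * (S * z * (x * y) + y * x * z * T)) *
      (c * f) = S * z * (x * y) * w * (c * f) := by
    rw [mul_sub, ← mul_assoc S w, hSw, zero_mul, sub_zero, add_mul, mul_assoc _ T w, hTw, mul_zero,
      add_zero]
    simp only [← mul_assoc]
    rw [hSS]
  rw [h3] at h2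
  have h4 : S * z * (x * y) * w * (c * f) * (c * w * y) = S * z * (x * y) := by
    have h5 : c * f * (c * w * y) = c * w * y := by
      simp only [← mul_assoc]
      rw [hcfc]
    rw [mul_assoc _ (c * f), h5, mul_assoc _ w, hwa, mul_assoc _ (x * y), hxyxy]
  rw [← h4, h2, zero_mul]

/-- **The span of the third block is stable.** Here `S = e - c f - x y`.

Proof. For `z ∈ g` commuting with `e` and `y₀ = S b (c f) v` one has (`Fr.e_eq`)
`z y₀ = c f z y₀ + x y z y₀ + S z y₀`. By `h`, `x y z S b c f = w * (c * w * y * z * S * b * (c *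
f)) = 0`
(`F.wa`). `b₁ = c * f * z * S + T * z * (f * c) ∈ g` (`w_5`), `r = w * b₁ - b₁ * w ∈ g`,
`c * w * y * r * S = c * w * y * w * c * f * z * S = c * f * z * S` (`w * T = 0`, `w * S = 0`,
`F.aw`), so
`c f z S b c f = c w y r S b c f = 0`. With `z₀` the element of `w_0` and
`b' = S * b * (c * f) + f * c * b * T ∈ g` (`w_m5`) one has `S * (z₀ * b' - b' * z₀) * (c * f) =
S * z * S * b * (c * f) - S * b * (c * f) * z * (c * f)`, so
`S z S b (c f) v = S [z₀, b'] (c f) v + S b (c f) (z (c f) v)`. -/
theorem span_stable
    (h : ∀ r ∈ g, ∀ b ∈ g, c * w * y * r * (e - c * f - x * y) * b * (c * f) = 0) {z : End K V}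
    (hz : z ∈ g) (hze : e * z = z * e) :
    ∀ v ∈ Submodule.span K {v : V | ∃ b ∈ g, ∃ u : V, v = (e - c * f - x * y) (b ((c * f) u))},
      z v ∈ Submodule.span K
        {v : V | ∃ b ∈ g, ∃ u : V, v = (e - c * f - x * y) (b ((c * f) u))} := by
  have heq := F.e_eq
  have hSS := F.SS
  have hST := F.ST
  have hwS := F.wS
  have heS := F.eS
  have hwa := F.wa
  have haw := F.aw
  have hPP := F.B.idemP
  have hSc := F.Sc
  have hSx := F.Sx
  have hSf := F.Sf
  have hSy := F.Sy
  have hcS := F.cS
  have hfT := F.fT
  have hxS := F.xS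
  have hTc := F.Tc
  have hfc2 : x * y * (c * f) = 0 := by
    rw [mul_assoc, ← mul_assoc y c f, F.yc, zero_mul, mul_zero]
  have hfc3 : f * c * (c * f) = 0 := by
    rw [mul_assoc, ← mul_assoc c c f, F.cc, zero_mul, mul_zero]
  have hfc4 : y * x * (c * f) = 0 := by
    rw [mul_assoc, ← mul_assoc x c f, F.xc, zero_mul, mul_zero]
  have h5 := F.w_5 hz
  have h0 := F.w_0 hz
  have hm5 := fun (b : End K V) (hb : b ∈ g) => F.w_m5 hb
  have hlie := F.G.lie
  have hwg := F.wg
  revert h heq hSS hST hwS heS hSc hSx hSf hSy hcS hfT hxS hTc h5 h0 hm5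
  generalize e - c * f - x * y = S
  generalize 1 - e - f * c - y * x = T
  intro h heq hSS hST hwS heS hSc hSx hSf hSy hcS hfT hxS hTc h5 h0 hm5
  -- the second block
  have A2 : ∀ b ∈ g, x * y * z * S * b * (c * f) = 0 := by
    intro b hb
    have h1 := h z hz b hb
    have h2 : w * (c * w * y * z * S * b * (c * f)) = x * y * z * S * b * (c * f) := by
      rw [← hwa]
      simp only [mul_assoc]
    rw [← h2, h1, mul_zero]
  -- the first block
  have A1 : ∀ b ∈ g, c * f * z * S * b * (c * f) = 0 := by
    intro b hb
    have h1 := h _ (hlie _ hwg _ h5) b hb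
    have h2 : c * w * y * (w * (c * f * z * S + T * z * (f * c)) -
        (c * f * z * S + T * z * (f * c)) * w) * S = c * f * z * S := by
      have h3 : (c * f * z * S + T * z * (f * c)) * w * S = 0 := by
        rw [mul_assoc, hwS, mul_zero]
      have h4 : (c * f * z * S + T * z * (f * c)) * S = c * f * z * S := by
        rw [add_mul, mul_assoc _ S S, hSS, mul_assoc (T * z), mul_assoc f c S, hcS, mul_zero,
          mul_zero, add_zero]
      have h6 : c * f * (c * f * z * S) = c * f * z * S := by
        have h7 : c * f * (c * f * z * S) = c * f * (c * f) * z * S := by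
          simp only [mul_assoc]
        rw [h7, hPP]
      rw [mul_assoc (c * w * y), sub_mul, h3, sub_zero, mul_assoc w, h4, ← mul_assoc (c * w * y) w,
        haw, h6]
    rw [h2] at h1
    exact h1
  -- the third block
  have A3 : ∀ b ∈ g, ∃ b' ∈ g, S * z * S * b * (c * f) =
      S * b' * (c * f) + S * b * (c * f) * z * (c * f) := by
    intro b hb
    have hb' := hm5 b hb
    refine ⟨_, hlie _ h0 _ hb', ?_⟩
    set z₀ : End K V := c * f * z * (c * f) + x * y * z * (x * y) + S * z * S +
      f * c * z * (f * c) + y * x * z * (y * x) + T * z * T with hz₀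
    have k1 : S * z₀ = S * z * S := by
      rw [hz₀, mul_add, mul_add, mul_add, mul_add, mul_add]
      simp only [← mul_assoc]
      rw [hSc, hSx, hSS, hSf, hSy, hST]
      simp only [zero_mul, zero_add, add_zero]
    have k2 : z₀ * (c * f) = c * f * z * (c * f) := by
      rw [hz₀, add_mul, add_mul, add_mul, add_mul, add_mul, mul_assoc _ (c * f) (c * f), hPP,
        mul_assoc _ (x * y) (c * f), hfc2, mul_assoc _ S (c * f), ← mul_assoc S c f, hSc,
        mul_assoc _ (f * c) (c * f), hfc3, mul_assoc _ (y * x) (c * f), hfc4,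
        mul_assoc _ T (c * f), ← mul_assoc T c f, hTc]
      simp only [zero_mul, mul_zero, add_zero]
    have k3 : S * (S * b * (c * f) + f * c * b * T) = S * b * (c * f) := by
      rw [mul_add]
      simp only [← mul_assoc]
      rw [hSS, hSf]
      simp only [zero_mul, add_zero]
    have k4 : S * (z₀ * (S * b * (c * f) + f * c * b * T) -
        (S * b * (c * f) + f * c * b * T) * z₀) * (c * f) =
        S * z₀ * (S * b * (c * f) + f * c * b * T) * (c * f) -
        S * (S * b * (c * f) + f * c * b * T) * (z₀ * (c * f)) := by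
      rw [mul_sub, sub_mul]
      simp only [mul_assoc]
    rw [k4, k1, k2, k3, mul_assoc (S * z) S (S * b * (c * f) + f * c * b * T), k3]
    have k5 : S * z * (S * b * (c * f)) * (c * f) = S * z * S * b * (c * f) := by
      rw [mul_assoc (S * z), mul_assoc (S * b), hPP]
      simp only [mul_assoc]
    have k6 : S * b * (c * f) * (c * f * z * (c * f)) = S * b * (c * f) * z * (c * f) := by
      have k7 : S * b * (c * f) * (c * f * z * (c * f)) =
          S * b * (c * f * (c * f)) * z * (c * f) := by
        simp only [mul_assoc]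
      rw [k7, hPP]
    rw [k5, k6, sub_add_cancel]
  intro v hv
  induction hv using Submodule.span_induction with
  | mem v hv =>
    obtain ⟨b, hb, u, rfl⟩ := hv
    obtain ⟨b', hb', h3⟩ := A3 b hb
    have h4 : z * S * b * (c * f) = S * b' * (c * f) + S * b * (c * f) * z * (c * f) := by
      have h6 : z * S = e * (z * S) := by
        rw [← mul_assoc, hze, mul_assoc, heS]
      have h7 : z * S * b * (c * f) = e * (z * S * b * (c * f)) := by
        conv_lhs => rw [h6]
        simp only [mul_assoc]
      rw [h7]
      conv_lhs => rw [heq]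
      rw [add_mul, add_mul, ← h3]
      have h8 := A1 b hb
      have h9 := A2 b hb
      simp only [mul_assoc] at h8 h9 ⊢
      rw [h8, h9, zero_add, zero_add]
    have h5 : z (S (b ((c * f) u))) = S (b' ((c * f) u)) +
        S (b ((c * f) (z ((c * f) u)))) := LinearMap.congr_fun h4 u
    rw [h5]
    exact Submodule.add_mem _ (Submodule.subset_span ⟨b', hb', u, rfl⟩)
      (Submodule.subset_span ⟨b, hb, _, rfl⟩)
  | zero => rw [map_zero]; exact Submodule.zero_mem _
  | add v v' _ _ hv hv' => rw [map_add]; exact Submodule.add_mem _ hv hv'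
  | smul a v _ hv => rw [map_smul]; exact Submodule.smul_mem _ _ hv

/-- **The third block is connected to the first one.**

Proof. Assume all products are zero. The span `Y` of the vectors `S b (c f) u` is contained in
`range S ≤ range e` and stable under the elements of degree zero (`span_stable`), so it is `⊥` or
`range e` (`irr_range`). It is not `range e`: it is annihilated by `c * f`, but
`(c * f) = e * (c * f) ≠ 0`. So `S * b * (c * f) = 0` for all `b ∈ g`, and `S * z * (x * y) = 0` by
`S_xy_zero`. Then the range of `c * f + x * y` is stable under the elements of degree zero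
(`z (c f + x y) v = e z (c f + x y) v`, `Fr.e_eq`), it is not zero, so it is `range e` by
`irr_range`, and
`S = e * S` has its range in it: `S = S * S = S * (c * f + x * y) * ... = 0`, because `S * c = 0`
and
`S * x = 0`. -/
theorem exists_ne (hS : e - c * f - x * y ≠ 0) :
    ∃ r ∈ g, ∃ b ∈ g, c * w * y * r * (e - c * f - x * y) * b * (c * f) ≠ 0 := by
  by_contra hcon
  push Not at hcon
  have hcf0 : c * f ≠ 0 := fun h0 => F.B.c0 (by rw [← F.cfc, h0, zero_mul])
  have heS := F.eS
  have hSS := F.SS
  -- the span
  have hY : Submodule.span K {v : V | ∃ b ∈ g, ∃ u : V, v = (e - c * f - x * y) (b ((c * f) u))} ≤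
      LinearMap.range e := by
    rw [Submodule.span_le]
    rintro v ⟨b, hb, u, rfl⟩
    exact ⟨(e - c * f - x * y) (b ((c * f) u)), LinearMap.congr_fun heS _⟩
  have hcase := irr_range F.G hY fun z hz hze u hu => F.span_stable hcon hz hze u hu
  rcases hcase with h | h
  · -- all products are zero
    have h1 : ∀ b ∈ g, (e - c * f - x * y) * b * (c * f) = 0 := by
      intro b hb
      refine LinearMap.ext fun u => ?_
      have h2 : (e - c * f - x * y) (b ((c * f) u)) ∈ Submodule.span K
          {v : V | ∃ b ∈ g, ∃ u : V, v = (e - c * f - x * y) (b ((c * f) u))} :=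
        Submodule.subset_span ⟨b, hb, u, rfl⟩
      rw [h, Submodule.mem_bot] at h2
      exact h2
    have h2 := fun (z : End K V) (hz : z ∈ g) => F.S_xy_zero h1 hz
    have hU : LinearMap.range (c * f + x * y) ≤ LinearMap.range e := by
      rintro _ ⟨v, rfl⟩
      refine ⟨(c * f + x * y) v, ?_⟩
      have h3 : e * (c * f + x * y) = c * f + x * y := by
        rw [mul_add, ← mul_assoc, F.ec, ← mul_assoc, F.ex]
      exact LinearMap.congr_fun h3 v
    have hst : ∀ z ∈ g, e * z = z * e → ∀ u ∈ LinearMap.range (c * f + x * y),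
        z u ∈ LinearMap.range (c * f + x * y) := by
      rintro z hz hze _ ⟨v, rfl⟩
      refine ⟨z ((c * f + x * y) v), ?_⟩
      have h3 : e * (c * f + x * y) = c * f + x * y := by
        rw [mul_add, ← mul_assoc, F.ec, ← mul_assoc, F.ex]
      have h4 : (c * f + x * y) * (z * (c * f + x * y)) = z * (c * f + x * y) := by
        have h5 : (e - c * f - x * y) * (z * (c * f + x * y)) = 0 := by
          rw [← mul_assoc, mul_add, h1 z hz, h2 z hz, add_zero]
        have h6 : e * (z * (c * f + x * y)) = z * (c * f + x * y) := by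
          rw [← mul_assoc, hze, mul_assoc, h3]
        have h7 : e - (e - c * f - x * y) = c * f + x * y := by abel
        rw [← h7, sub_mul, h7, h6, h5, sub_zero]
      exact LinearMap.congr_fun h4 v
    rcases irr_range F.G hU hst with h3 | h3
    · rw [LinearMap.range_eq_bot] at h3
      refine hcf0 ?_
      have h4 : (c * f + x * y) * (c * f) = c * f := by
        rw [add_mul, F.B.idemP, mul_assoc x y, ← mul_assoc y c f, F.yc, zero_mul, mul_zero,
          add_zero]
      rw [← h4, h3, zero_mul]
    · refine hS (LinearMap.ext fun v => ?_)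
      have h4 : (e - c * f - x * y) v ∈ LinearMap.range e :=
        ⟨(e - c * f - x * y) v, LinearMap.congr_fun heS v⟩
      rw [← h3] at h4
      obtain ⟨u, hu⟩ := h4
      have h5 : (e - c * f - x * y) * (c * f + x * y) = 0 := by
        rw [mul_add, ← mul_assoc, F.Sc, zero_mul, ← mul_assoc, F.Sx, zero_mul, add_zero]
      have h6 : (e - c * f - x * y) ((e - c * f - x * y) v) = (e - c * f - x * y) v :=
        LinearMap.congr_fun hSS v
      rw [← h6, ← hu]
      exact LinearMap.congr_fun h5 u
  · -- the span is not the range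
    refine hcf0 (LinearMap.ext fun u => ?_)
    have h1 : (c * f) u ∈ LinearMap.range e := by
      refine ⟨(c * f) u, ?_⟩
      have h3 : e * (c * f) = c * f := by rw [← mul_assoc, F.ec]
      exact LinearMap.congr_fun h3 u
    rw [← h] at h1
    have h2 : ∀ v ∈ Submodule.span K
        {v : V | ∃ b ∈ g, ∃ u : V, v = (e - c * f - x * y) (b ((c * f) u))}, (c * f) v = 0 := by
      intro v hv
      induction hv using Submodule.span_induction with
      | mem v hv =>
        obtain ⟨b, hb, u, rfl⟩ := hv
        have h3 : c * f * (e - c * f - x * y) = 0 := by rw [mul_assoc, F.fS, mul_zero]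
        exact LinearMap.congr_fun h3 _
      | zero => rw [map_zero]
      | add v v' _ _ hv hv' => rw [map_add, hv, hv', add_zero]
      | smul a v _ hv => rw [map_smul, hv, smul_zero]
    have h3 := h2 _ h1
    have h4 : (c * f) ((c * f) u) = (c * f) u := LinearMap.congr_fun F.B.idemP u
    rw [h4] at h3
    exact h3

end Pool.Agent.SmallRank.Fr
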