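import Pool.Agent.SmallRank.Clos
import Pool.Agent.SmallRank.NonZero

/-!
# The dimension count if the minimal rank is at least two

`S = e - c f - x y`, `T = 1 - e - f c - y x`, and `hfull` says that the corner of `c f` is given by
the
elements `α`.
-/

set_option autoImplicit false
set_option linter.unusedSectionVars false

namespace Pool.Agent.SmallRank.Fr

open Module

section

variable {K V : Type*} [Field K] [AddCommGroup V] [Module K V]

/-- the operators `p z q` -/
private def Half_ph (p q : End K V) : End K V →ₗ[K] End K V where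
  toFun := fun z => p * z * q
  map_add' := fun a b => by rw [mul_add, add_mul]
  map_smul' := fun r a => by rw [mul_smul_comm, smul_mul_assoc, RingHom.id_apply]

private theorem Half_ph_apply (p q z : End K V) : Half_ph p q z = p * z * q := rfl

private def Half_to (p q : End K V) :
    End K V →ₗ[K] (LinearMap.range q →ₗ[K] LinearMap.range p) where
  toFun := fun z => p.rangeRestrict ∘ₗ z ∘ₗ (LinearMap.range q).subtype
  map_add' := fun a b => by
    rw [LinearMap.add_comp, LinearMap.comp_add]
  map_smul' := fun r a => by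
    rw [LinearMap.smul_comp, LinearMap.comp_smul, RingHom.id_apply]

private def Half_of (p q : End K V) :
    (LinearMap.range q →ₗ[K] LinearMap.range p) →ₗ[K] End K V where
  toFun := fun h => (LinearMap.range p).subtype ∘ₗ h ∘ₗ q.rangeRestrict
  map_add' := fun a b => by
    rw [LinearMap.add_comp, LinearMap.comp_add]
  map_smul' := fun r a => by
    rw [LinearMap.smul_comp, LinearMap.comp_smul, RingHom.id_apply]

variable [FiniteDimensional K V]

private theorem Half_ge {p q : End K V} (hp : p * p = p) (hq : q * q = q) :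
    finrank K (LinearMap.range p) * finrank K (LinearMap.range q) ≤
      finrank K (LinearMap.range (Half_ph p q)) := by
  have hinj : Function.Injective (Half_of p q) := by
    intro h1 h2 h
    refine LinearMap.ext fun u => ?_
    obtain ⟨u, v, rfl⟩ := u
    have h3 := LinearMap.congr_fun h v
    exact Subtype.ext h3
  have hle : LinearMap.range (Half_of p q) ≤ LinearMap.range (Half_ph p q) := by
    rintro _ ⟨h, rfl⟩
    refine ⟨Half_of p q h, ?_⟩
    refine LinearMap.ext fun v => ?_
    change p ((h (q.rangeRestrict (q v)) : LinearMap.range p) : V) =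
      ((h (q.rangeRestrict v) : LinearMap.range p) : V)
    have h1 : q.rangeRestrict (q v) = q.rangeRestrict v :=
      Subtype.ext (LinearMap.congr_fun hq v)
    rw [h1]
    obtain ⟨u, hu⟩ := (h (q.rangeRestrict v)).2
    rw [← hu]
    exact LinearMap.congr_fun hp u
  have h1 := LinearMap.finrank_range_of_inj hinj
  have h2 := Submodule.finrank_mono hle
  rw [h1, Module.finrank_linearMap, mul_comm] at h2
  exact h2

private theorem Half_le {p q : End K V} (hp : p * p = p) (hq : q * q = q) :
    finrank K (LinearMap.range (Half_ph p q)) ≤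
      finrank K (LinearMap.range p) * finrank K (LinearMap.range q) := by
  have hinj : Function.Injective ((Half_to p q).domRestrict (LinearMap.range (Half_ph p q))) := by
    rw [← LinearMap.ker_eq_bot, LinearMap.ker_eq_bot']
    rintro ⟨_, z, rfl⟩ h
    refine Subtype.ext ?_
    refine LinearMap.ext fun v => ?_
    have h1 := congrArg Subtype.val (LinearMap.congr_fun h ⟨q v, v, rfl⟩)
    have h2 : p ((p * z * q) (q v)) = 0 := h1
    have h3 : p ((p * z * q) (q v)) = (p * z * q) v := by
      have h4 : p * (p * z * q) * q = p * z * q := by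
        rw [← mul_assoc, ← mul_assoc, hp, mul_assoc (p * z), hq]
      exact LinearMap.congr_fun h4 v
    rw [h3] at h2
    exact h2
  have h1 := LinearMap.finrank_le_finrank_of_injective hinj
  rw [Module.finrank_linearMap, mul_comm] at h1
  exact h1

/-- a subspace which contains the operators of rank one -/
private theorem Half_top {D : Submodule K (End K V)}
    (h : ∀ (θ : V →ₗ[K] K) (s : V), (θ.smulRight s : End K V) ∈ D) (z : End K V) : z ∈ D := by
  have h1 : z = ∑ i, (((Module.finBasis K V).coord i).smulRight (z (Module.finBasis K V i)) :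
      End K V) := by
    refine LinearMap.ext fun v => ?_
    conv_lhs => rw [← (Module.finBasis K V).sum_repr v, map_sum]
    rw [LinearMap.sum_apply]
    refine Finset.sum_congr rfl fun i _ => ?_
    rw [map_smul]
    rfl
  rw [h1]
  exact D.sum_mem fun i _ => h _ _

end

variable {K V : Type*} [Field K] [CharZero K] [IsAlgClosed K] [AddCommGroup V] [Module K V]
  [FiniteDimensional K V] {g : Submodule K (End K V)} {e c f x y w : End K V} {ρ : ℕ}
  (F : Fr g e c f x y w ρ)
include F

/-- **All operators from the first to the third block.**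

Proof. Let `Y` be the span of the vectors `S b (c f) v`, `b ∈ g`. (1) `Y = range S`: the space
`range (c f + x y) ⊔ Y` is stable under the elements `z ∈ g` of degree zero:
`z (c f v) = c f z c f v + x y z c f v + S z c f v`, the last one in `Y`;
`S z x y v = S z x y w (c w y) v = S b (c f) (c w y) v` for the `b` of the proof of `S_xy_zero`
(`F.wa`, `(c * f) * c = c`), in `Y`; and for `y₀ = S b (c f) v`, `S z y₀ ∈ Y` by the last formula
in the
proof of `span_stable`. It contains `range (c f) ≠ 0`, so it is `range e` by `irr_range`; apply `S`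
(`S * c = 0`, `S * x = 0`, `S` is the identity on `Y`). (2) Let `D` be the set of the operators `d`
such
that `S * d * (c * f) = S * b * (c * f)` for some `b ∈ g`, a subspace. It contains every operator
`θ.smulRight s` with `θ` a linear form, `s ∈ V`: `S s` is a sum of vectors `S b i (c f) (v i)` by
(1), and
`S * b i * (c * f) * ((θ ∘ (c * f)).smulRight (c f (v i)))` is of the form `S * b₂ * (c * f)` by
`hfull` and
`clos_three'`. These operators span `End K V`. -/
theorem full_S (hfull : ∀ z : End K V, ∃ v ∈ g, c * f * z * (c * f) = c * w * y * v * (c * f))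
    (z : End K V) :
    ∃ b ∈ g, (e - c * f - x * y) * z * (c * f) = (e - c * f - x * y) * b * (c * f) := by
  obtain ⟨S, hS⟩ : ∃ S, S = e - c * f - x * y := ⟨_, rfl⟩
  obtain ⟨T, hT⟩ : ∃ T, T = 1 - e - f * c - y * x := ⟨_, rfl⟩
  have hPc : c * f * c = c := F.cfc
  have hSP : S * (c * f) = 0 := by rw [hS, ← mul_assoc, F.Sc, zero_mul]
  have hSR : S * (x * y) = 0 := by rw [hS, ← mul_assoc, F.Sx, zero_mul]
  have hPR : (c * f + x * y) * (c * f + x * y) = c * f + x * y := by
    have h1 : (c * f) * (x * y) = 0 := by
      rw [mul_assoc, ← mul_assoc f x y, F.fx, zero_mul, mul_zero]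
    have h2 : (x * y) * (c * f) = 0 := by
      rw [mul_assoc, ← mul_assoc y c f, F.yc, zero_mul, mul_zero]
    rw [mul_add, add_mul, add_mul, h1, h2, F.B.idemP, F.B'.idemP, add_zero, zero_add]
  have hSS : S * S = S := by rw [hS]; exact F.SS
  have heS : e * S = S := by rw [hS]; exact F.eS
  have heq : e = c * f + x * y + S := by rw [hS]; exact F.e_eq
  -- the span of the vectors `S b (c f) u`
  set Y : Submodule K V := Submodule.span K {v : V | ∃ b ∈ g, ∃ u : V, v = S (b ((c * f) u))}
    with hY
  have hYm : ∀ b ∈ g, ∀ u : V, S (b ((c * f) u)) ∈ Y := fun b hb u =>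
    Submodule.subset_span ⟨b, hb, u, rfl⟩
  have hYS : ∀ v ∈ Y, S v = v := by
    have h1 : Y ≤ LinearMap.ker (S - 1) := by
      rw [hY, Submodule.span_le]
      rintro _ ⟨b, hb, u, rfl⟩
      have h2 : S (S (b ((c * f) u))) = S (b ((c * f) u)) := LinearMap.congr_fun hSS _
      change S (S (b ((c * f) u))) - S (b ((c * f) u)) = 0
      rw [h2, sub_self]
    intro v hv
    exact sub_eq_zero.1 (h1 hv)
  set U : Submodule K V := LinearMap.range (c * f + x * y) ⊔ Y with hU
  have hUr : ∀ v : V, (c * f + x * y) v ∈ U := fun v =>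
    Submodule.mem_sup_left (LinearMap.mem_range_self _ v)
  have hYU : ∀ v ∈ Y, v ∈ U := fun v hv => Submodule.mem_sup_right hv
  have heU : ∀ v ∈ U, e v = v := by
    intro v hv
    obtain ⟨_, ⟨u, rfl⟩, y', hy', rfl⟩ := Submodule.mem_sup.1 hv
    have h1 : e * (c * f + x * y) = c * f + x * y := by
      rw [mul_add, ← mul_assoc, F.ec, ← mul_assoc, F.ex]
    rw [map_add]
    congr 1
    · exact LinearMap.congr_fun h1 u
    · rw [← hYS y' hy']
      exact LinearMap.congr_fun heS y'
  have hUe : U ≤ LinearMap.range e := fun v hv => ⟨v, heU v hv⟩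
  -- the basic formulas
  have hxy : ∀ z ∈ g, ∃ b ∈ g, S * z * (x * y) = S * b * (c * f) * (c * w * y) := by
    intro z hz
    refine ⟨_, F.G.lie _ (F.w_m1 hz) _ F.wg, ?_⟩
    rw [← hS, ← hT]
    have hSw : S * w = 0 := by rw [hS]; exact F.Sw
    have hTw : T * w = 0 := by rw [hT]; exact F.Tw
    have hSy : S * y = 0 := by rw [hS]; exact F.Sy
    have h1 : S * ((S * z * (x * y) + y * x * z * T) * w - w * (S * z * (x * y) + y * x * z * T)) =
        S * z * (x * y) * w := by
      rw [mul_sub, ← mul_assoc S w, hSw, zero_mul, sub_zero, ← mul_assoc S, mul_add]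
      simp only [← mul_assoc]
      rw [hSS, hSy, zero_mul, zero_mul, zero_mul, add_zero]
    rw [h1]
    have h2 : S * z * (x * y) * w * (c * f) * (c * w * y) =
        S * z * (x * y) * (w * (c * w * y)) := by
      have h3 : c * f * (c * w * y) = c * w * y := by
        simp only [← mul_assoc]
        rw [hPc]
      rw [mul_assoc _ (c * f), h3, mul_assoc _ w]
    rw [h2, F.wa, mul_assoc _ (x * y) (x * y), F.B'.idemP]
  have hss : ∀ z ∈ g, ∀ b ∈ g, ∃ b₁ ∈ g,
      S * z * S * b * (c * f) = S * b₁ * (c * f) + S * b * (c * f) * z * (c * f) := by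
    intro z hz b hb
    refine ⟨_, F.G.lie _ (F.w_0 hz) _ (F.w_m5 hb), ?_⟩
    rw [← hS, ← hT]
    have hSf : S * f = 0 := by rw [hS]; exact F.Sf
    have hSy : S * y = 0 := by rw [hS]; exact F.Sy
    have hST : S * T = 0 := by rw [hS, hT]; exact F.ST
    have hSc : S * c = 0 := by rw [hS]; exact F.Sc
    have hSx : S * x = 0 := by rw [hS]; exact F.Sx
    have hTc : T * c = 0 := by rw [hT]; exact F.Tc
    have a1 : S * (c * f * z * (c * f) + x * y * z * (x * y) + S * z * S + f * c * z * (f * c) +
        y * x * z * (y * x) + T * z * T) = S * z * S := by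
      simp only [mul_add, ← mul_assoc]
      rw [hSc, hSx, hSS, hSf, hSy, hST]
      simp only [zero_mul, add_zero, zero_add]
    have a2 : (c * f * z * (c * f) + x * y * z * (x * y) + S * z * S + f * c * z * (f * c) +
        y * x * z * (y * x) + T * z * T) * (c * f) = c * f * z * (c * f) := by
      have b1 : x * y * z * (x * y) * (c * f) = 0 := by
        have h11 : x * y * (c * f) = 0 := by
          rw [mul_assoc, ← mul_assoc y c f, F.yc, zero_mul, mul_zero]
        rw [mul_assoc _ (x * y) (c * f), h11, mul_zero]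
      have b2 : S * z * S * (c * f) = 0 := by
        rw [mul_assoc _ S, hSP, mul_zero]
      have b3 : f * c * z * (f * c) * (c * f) = 0 := by
        have h11 : f * c * (c * f) = 0 := by
          rw [mul_assoc, ← mul_assoc c c f, F.cc, zero_mul, mul_zero]
        rw [mul_assoc _ (f * c) (c * f), h11, mul_zero]
      have b4 : y * x * z * (y * x) * (c * f) = 0 := by
        have h11 : y * x * (c * f) = 0 := by
          rw [mul_assoc, ← mul_assoc x c f, F.xc, zero_mul, mul_zero]
        rw [mul_assoc _ (y * x) (c * f), h11, mul_zero]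
      have b5 : T * z * T * (c * f) = 0 := by
        rw [mul_assoc _ T, ← mul_assoc T c f, hTc, zero_mul, mul_zero]
      have b6 : c * f * z * (c * f) * (c * f) = c * f * z * (c * f) := by
        rw [mul_assoc _ (c * f) (c * f), F.B.idemP]
      rw [add_mul, add_mul, add_mul, add_mul, add_mul, b1, b2, b3, b4, b5, b6]
      simp only [add_zero]
    have a3 : S * (S * b * (c * f) + f * c * b * T) = S * b * (c * f) := by
      simp only [mul_add, ← mul_assoc]
      rw [hSS, hSf]
      simp only [zero_mul, add_zero]
    have a4 : (S * b * (c * f) + f * c * b * T) * (c * f) = S * b * (c * f) := by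
      rw [add_mul, mul_assoc _ (c * f) (c * f), F.B.idemP, mul_assoc _ T, ← mul_assoc T c f, hTc,
        zero_mul, mul_zero, add_zero]
    generalize c * f * z * (c * f) + x * y * z * (x * y) + S * z * S + f * c * z * (f * c) +
        y * x * z * (y * x) + T * z * T = Z at a1 a2 ⊢
    generalize S * b * (c * f) + f * c * b * T = B at a3 a4 ⊢
    have a5 : S * (Z * B - B * Z) * (c * f) =
        S * z * S * b * (c * f) - S * b * (c * f) * z * (c * f) := by
      have c1 : S * (Z * B) * (c * f) = S * z * S * b * (c * f) := by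
        rw [← mul_assoc S Z B, a1, mul_assoc, a4]
        simp only [← mul_assoc]
        rw [mul_assoc (S * z) S S, hSS]
      have c2 : S * (B * Z) * (c * f) = S * b * (c * f) * z * (c * f) := by
        rw [← mul_assoc S B Z, a3, mul_assoc, a2]
        simp only [← mul_assoc]
        rw [mul_assoc (S * b * c) f c, mul_assoc (S * b) c (f * c), ← mul_assoc c f c, hPc]
      rw [mul_sub, sub_mul, c1, c2]
    rw [a5, sub_add_cancel]
  have hst : ∀ z ∈ g, e * z = z * e → ∀ u ∈ U, z u ∈ U := by
    intro z hz hze u hu
    have h1 : ∀ u ∈ U, S (z u) ∈ Y → z u ∈ U := by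
      intro u hu h
      have h2 : z u = (c * f + x * y) (z u) + S (z u) := by
        have h3 : z u = e (z u) := by
          conv_lhs => rw [← heU u hu]
          exact (LinearMap.congr_fun hze u).symm
        conv_lhs => rw [h3, heq]
        rfl
      rw [h2]
      exact U.add_mem (hUr _) (hYU _ h)
    have h2 : U ≤ Y.comap (S * z) := by
      rw [hU, sup_le_iff]
      constructor
      · rintro _ ⟨v, rfl⟩
        obtain ⟨b, hb, hb'⟩ := hxy z hz
        have h3 : (S * z) ((c * f + x * y) v) =
            S (z ((c * f) v)) + S (b ((c * f) ((c * w * y) v))) := by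
          have h4 : S (b ((c * f) ((c * w * y) v))) = S (z ((x * y) v)) :=
            (LinearMap.congr_fun hb' v).symm
          rw [h4]
          change S (z ((c * f) v + (x * y) v)) = _
          rw [map_add, map_add]
        change (S * z) ((c * f + x * y) v) ∈ Y
        rw [h3]
        exact Y.add_mem (hYm z hz v) (hYm b hb _)
      · rw [hY, Submodule.span_le]
        rintro _ ⟨b, hb, v, rfl⟩
        obtain ⟨b₁, hb₁, h3⟩ := hss z hz b hb
        have h4 : (S * z) (S (b ((c * f) v))) =
            S (b₁ ((c * f) v)) + S (b ((c * f) (z ((c * f) v)))) := LinearMap.congr_fun h3 v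
        change (S * z) (S (b ((c * f) v))) ∈ Y
        rw [h4]
        exact Y.add_mem (hYm b₁ hb₁ v) (hYm b hb _)
    exact h1 u hu (h2 hu)
  have hUtop : U = LinearMap.range e := by
    rcases irr_range F.G hUe hst with h | h
    · exfalso
      apply F.B.c0
      refine LinearMap.ext fun v => ?_
      have h1 := hUr (c v)
      rw [h, Submodule.mem_bot] at h1
      have h2 : (c * f + x * y) * c = c := by
        rw [add_mul, hPc, mul_assoc, F.yc, mul_zero, add_zero]
      have h3 : (c * f + x * y) (c v) = c v := LinearMap.congr_fun h2 v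
      rw [← h3, h1]
      rfl
    · exact h
  have hSY : ∀ s : V, S s ∈ Y := by
    intro s
    have h1 : S s ∈ U := by
      rw [hUtop]
      exact ⟨S s, LinearMap.congr_fun heS s⟩
    obtain ⟨_, ⟨u, rfl⟩, y', hy', h2⟩ := Submodule.mem_sup.1 h1
    have h3 : S (S s) = S s := LinearMap.congr_fun hSS s
    have h4 : S ((c * f + x * y) u) = 0 := by
      have h5 : S * (c * f + x * y) = 0 := by rw [mul_add, hSP, hSR, add_zero]
      exact LinearMap.congr_fun h5 u
    rw [← h3, ← h2, map_add, h4, zero_add, hYS y' hy']
    exact hy'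
  -- rank one operators
  have hone : ∀ θ : V →ₗ[K] K, ∀ s ∈ Y,
      ((θ.comp (c * f)).smulRight s : End K V) ∈ g.map (Half_ph S (c * f)) := by
    intro θ s hs
    rw [hY] at hs
    induction hs using Submodule.span_induction with
    | mem s hs =>
      obtain ⟨b, hb, u, rfl⟩ := hs
      obtain ⟨v, hv, hv'⟩ := hfull (θ.smulRight u)
      obtain ⟨b₂, hb₂, h1⟩ := F.clos_three' hb hv
      rw [← hv', ← hS] at h1
      refine ⟨b₂, hb₂, ?_⟩
      rw [Half_ph_apply, ← h1]
      refine LinearMap.ext fun v' => ?_
      change S (b ((c * f) ((c * f) (θ ((c * f) v') • u)))) =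
        θ ((c * f) v') • S (b ((c * f) u))
      have h2 : ∀ t : V, (c * f) ((c * f) t) = (c * f) t := fun t =>
        LinearMap.congr_fun F.B.idemP t
      rw [h2, map_smul, map_smul, map_smul]
    | zero =>
      have h1 : ((θ.comp (c * f)).smulRight (0 : V) : End K V) = 0 := by
        refine LinearMap.ext fun v => ?_
        exact smul_zero _
      rw [h1]
      exact Submodule.zero_mem _
    | add s t _ _ hs ht =>
      have h1 : ((θ.comp (c * f)).smulRight (s + t) : End K V) =
          (θ.comp (c * f)).smulRight s + (θ.comp (c * f)).smulRight t := by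
        refine LinearMap.ext fun v => ?_
        exact smul_add _ _ _
      rw [h1]
      exact Submodule.add_mem _ hs ht
    | smul r s _ hs =>
      have h1 : ((θ.comp (c * f)).smulRight (r • s) : End K V) =
          r • (θ.comp (c * f)).smulRight s := by
        refine LinearMap.ext fun v => ?_
        exact smul_comm _ _ _
      rw [h1]
      exact Submodule.smul_mem _ r hs
  have hD : z ∈ (g.map (Half_ph S (c * f))).comap (Half_ph S (c * f)) := by
    refine Half_top (fun θ s => ?_) z
    rw [Submodule.mem_comap]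
    have h1 : Half_ph S (c * f) (θ.smulRight s : End K V) =
        (θ.comp (c * f)).smulRight (S s) := by
      refine LinearMap.ext fun v => ?_
      change S (θ ((c * f) v) • s) = θ ((c * f) v) • S s
      rw [map_smul]
    rw [h1]
    exact hone θ _ (hSY s)
  obtain ⟨b, hb, h1⟩ := hD
  rw [← hS]
  exact ⟨b, hb, h1.symm⟩

/-- **No element lives only on the first block.**

Proof. Assume `n = S * b * (c * f) ≠ 0` and `f * c * b * T = 0`. Then
`S * b * (c * f) * (c * f * z * (c * f)) ∈ g` for all operators `z`: write
`c * f * z * (c * f) = c * w * y * v * (c * f)` by `hfull` and use `clos_three` for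
`b' = S * b * (c * f) + f * c * b * T = n ∈ g` (`w_m5`) in the place of `b`: its second term is
`f * c * v * y * w * c * n * T = 0` (`f * T = 0`). Choose `z` such that `m = n * z * (c * f)` has
rank one (`n ≠ 0`:
take `u` with `n u ≠ 0`, a linear form `θ` with `θ ∘ (c * f) ≠ 0` and `z = θ.smulRight u`, then
`n z (c f) v = θ (c f v) • n u`). So `m ∈ g`, `m = S * m * (c * f)`, and `m * c = m * c - c * m ∈ g`
(`c * S = 0`) is in `up g e` (`e * S = S`), not zero (`m * c * f = m`), of rank at most one, but
`ρ ≥ 2`, a contradiction to `F.B.min`. -/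
theorem eq_zero_of (hfull : ∀ z : End K V, ∃ v ∈ g, c * f * z * (c * f) = c * w * y * v * (c * f))
    (hρ : 2 ≤ ρ) {b : End K V} (hb : b ∈ g) (h : f * c * b * (1 - e - f * c - y * x) = 0) :
    (e - c * f - x * y) * b * (c * f) = 0 := by
  by_contra hn0
  obtain ⟨S, hS⟩ : ∃ S, S = e - c * f - x * y := ⟨_, rfl⟩
  have hng : (e - c * f - x * y) * b * (c * f) ∈ g := by
    have h1 := F.w_m5 hb
    rwa [h, add_zero] at h1
  have h3 : ∀ v ∈ g, (e - c * f - x * y) * b * (c * f) * (c * w * y * v * (c * f)) ∈ g := by
    intro v hv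
    have h1 := F.clos_three hng hv
    have h4 : (e - c * f - x * y) * ((e - c * f - x * y) * b * (c * f)) * (c * f) =
        (e - c * f - x * y) * b * (c * f) := by
      rw [← mul_assoc (e - c * f - x * y), ← mul_assoc (e - c * f - x * y), F.SS,
        mul_assoc _ (c * f) (c * f), F.B.idemP]
    have h5 : f * c * v * y * w * c * ((e - c * f - x * y) * b * (c * f)) = 0 := by
      rw [mul_assoc _ c, mul_assoc (e - c * f - x * y), ← mul_assoc c, F.cS, zero_mul, mul_zero]
    rw [h4, h5, zero_mul, add_zero] at h1
    exact h1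
  rw [← hS] at hng hn0 h3
  have hSS : S * S = S := by rw [hS]; exact F.SS
  have heS : e * S = S := by rw [hS]; exact F.eS
  have hcS : c * S = 0 := by rw [hS]; exact F.cS
  have hnP : S * b * (c * f) * (c * f) = S * b * (c * f) := by
    rw [mul_assoc _ (c * f) (c * f), F.B.idemP]
  have hen : e * (S * b * (c * f)) = S * b * (c * f) := by
    rw [mul_assoc S, ← mul_assoc e S, heS]
  have hcn : c * (S * b * (c * f)) = 0 := by
    rw [mul_assoc S, ← mul_assoc c S, hcS, zero_mul]
  generalize S * b * (c * f) = n at hng hn0 h3 hnP hen hcn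
  have h4 : ∀ z : End K V, n * (c * f * z * (c * f)) ∈ g := by
    intro z
    obtain ⟨v, hv, hv'⟩ := hfull z
    rw [hv']
    exact h3 v hv
  obtain ⟨u, hu⟩ : ∃ u, n u ≠ 0 := by
    by_contra hcon
    push Not at hcon
    exact hn0 (LinearMap.ext hcon)
  have hP0 : c * f ≠ 0 := by
    intro h0
    apply F.B.c0
    rw [← F.cfc, h0, zero_mul]
  obtain ⟨v₀, hv₀⟩ : ∃ v, (c * f) v ≠ 0 := by
    by_contra hcon
    push Not at hcon
    exact hP0 (LinearMap.ext hcon)
  obtain ⟨θ, hθ⟩ : ∃ θ : V →ₗ[K] K, θ ((c * f) v₀) ≠ 0 := by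
    by_contra hcon
    push Not at hcon
    exact hv₀ ((Module.forall_dual_apply_eq_zero_iff K _).1 hcon)
  have hm := h4 (θ.smulRight u)
  have hmv : ∀ v, (n * (c * f * (θ.smulRight u) * (c * f))) v = θ ((c * f) v) • n u := by
    intro v
    change n ((c * f) (θ ((c * f) v) • u)) = _
    rw [map_smul, map_smul]
    congr 1
    exact LinearMap.congr_fun hnP u
  have hmP : n * (c * f * (θ.smulRight u) * (c * f)) * (c * f) =
      n * (c * f * (θ.smulRight u) * (c * f)) := by
    rw [mul_assoc n, mul_assoc _ (c * f) (c * f), F.B.idemP]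
  have hem : e * (n * (c * f * (θ.smulRight u) * (c * f))) =
      n * (c * f * (θ.smulRight u) * (c * f)) := by
    rw [← mul_assoc, hen]
  have hcm : c * (n * (c * f * (θ.smulRight u) * (c * f))) = 0 := by
    rw [← mul_assoc, hcn, zero_mul]
  have hm0 : n * (c * f * (θ.smulRight u) * (c * f)) ≠ 0 := by
    intro h0
    have h5 := hmv v₀
    rw [h0] at h5
    exact smul_ne_zero hθ hu h5.symm
  have hrk : rk (n * (c * f * (θ.smulRight u) * (c * f))) ≤ 1 := by
    have h5 : LinearMap.range (n * (c * f * (θ.smulRight u) * (c * f))) ≤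
        Submodule.span K {n u} := by
      rintro _ ⟨v, rfl⟩
      rw [hmv v]
      exact Submodule.smul_mem _ _ (Submodule.mem_span_singleton_self _)
    exact (Submodule.finrank_mono h5).trans (finrank_span_singleton hu).le
  generalize n * (c * f * (θ.smulRight u) * (c * f)) = m at hm hmP hem hcm hm0 hrk
  have h5 : m * c ∈ g := by
    have h6 := F.G.lie _ hm _ F.B.cu.1
    rwa [hcm, sub_zero] at h6
  have h6 : m * c ∈ up g e := ⟨h5, by rw [← mul_assoc, hem], by
    rw [mul_assoc, F.ce, mul_zero]⟩
  have h7 : m * c ≠ 0 := by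
    intro h0
    apply hm0
    rw [← hmP, ← mul_assoc, h0, zero_mul]
  have h8 := F.B.min _ h6 h7
  have h9 := (rk_mul_left m c).trans hrk
  omega

/-- **The count.**

Proof. Let `H₁ = {S * z * (c * f)}` and `H₂ = {f * c * z * T}` be the spaces of all these
operators; their
dimensions are `rk S * ρ` and `ρ * rk T` (`Pr.rkP`, `Pr.rkQ`; the space of the operators
`p * z * q` for idempotents `p`, `q` is isomorphic to `range q →ₗ range p`). Let
`L = {S * b * (c * f) + f * c * b * T | b ∈ g} ≤ g`. The map `L → H₁`, `l ↦ S * l * (c * f)` is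
surjective
(`full_S`), the map `L → H₂`, `l ↦ f * c * l * T` is injective (`eq_zero_of`: `l = b'` is the sum
of the two
components). So `rk S * ρ ≤ dim L ≤ ρ * rk T`, and `ρ > 0`. -/
theorem rk_S_le (hfull : ∀ z : End K V, ∃ v ∈ g, c * f * z * (c * f) = c * w * y * v * (c * f))
    (hρ : 2 ≤ ρ) : rk (e - c * f - x * y) ≤ rk (1 - e - f * c - y * x) := by
  have hP := F.B.idemP
  have hQ := F.B.idemQ
  have h1 := Half_ge F.SS hP
  have h2 := Half_le hQ F.TT
  have h3 : LinearMap.range (Half_ph (e - c * f - x * y) (c * f)) ≤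
      LinearMap.range ((Half_ph (e - c * f - x * y) (c * f)).domRestrict g) := by
    rintro _ ⟨z, rfl⟩
    obtain ⟨b, hb, h4⟩ := F.full_S hfull z
    exact ⟨⟨b, hb⟩, h4.symm⟩
  have h4 : LinearMap.range ((Half_ph (f * c) (1 - e - f * c - y * x)).domRestrict g) ≤
      LinearMap.range (Half_ph (f * c) (1 - e - f * c - y * x)) := by
    rintro _ ⟨z, rfl⟩
    exact ⟨z, rfl⟩
  have h5 : LinearMap.ker ((Half_ph (f * c) (1 - e - f * c - y * x)).domRestrict g) ≤
      LinearMap.ker ((Half_ph (e - c * f - x * y) (c * f)).domRestrict g) := by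
    rintro ⟨b, hb⟩ h
    exact F.eq_zero_of hfull hρ hb h
  have h6 := LinearMap.finrank_range_add_finrank_ker
    ((Half_ph (f * c) (1 - e - f * c - y * x)).domRestrict g)
  have h7 := LinearMap.finrank_range_add_finrank_ker
    ((Half_ph (e - c * f - x * y) (c * f)).domRestrict g)
  have h8 := Submodule.finrank_mono h3
  have h9 := Submodule.finrank_mono h4
  have h10 := Submodule.finrank_mono h5
  have h11 : rk (e - c * f - x * y) * ρ ≤ rk (1 - e - f * c - y * x) * ρ := by
    have h12 : rk (e - c * f - x * y) * rk (c * f) ≤ rk (f * c) * rk (1 - e - f * c - y * x) := by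
      unfold rk
      omega
    rw [F.B.rkP, F.B.rkQ, mul_comm ρ] at h12
    exact h12
  exact Nat.le_of_mul_le_mul_right h11 (by omega)

end Pool.Agent.SmallRank.Fr
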