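import Pool.Agent.SmallRank.IrrOne
import Pool.Agent.SmallRank.Dual

/-!
# The part of degree one is irreducible for the part of degree zero
-/

set_option autoImplicit false
set_option linter.unusedSectionVars false

namespace Pool.Agent.SmallRank

open Module

variable {K V : Type*} [Field K] [CharZero K] [IsAlgClosed K] [AddCommGroup V] [Module K V]
  [FiniteDimensional K V] {g : Submodule K (End K V)} {e : End K V}

/-- **Degree one.**

Proof. Let `U ≠ ⊥` and let `U'` be the set of the `y ∈ dn g e` with `trace (u * y) = 0` for all `u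
∈ U`.
For `u ∈ U`, `y ∈ U'` the commutator `d = u * y - y * u ∈ g` has degree zero and
`trace (d * z) = 0` for all `z ∈ g`: for `z` of degree zero it is
`trace (y * (z * u - u * z))`, up to the sign, and `z * u - u * z ∈ U`; for `z` of degree `± 1` use
`Gr.trace_up`, `Gr.trace_dn`. So `d = 0` by `Gr.nd`, and `u * y = e * (u * y) = e * (y * u) = 0`,
`y * u = 0`. The subspace `X` of the `v ∈ range e` with `y v = 0` for all `y ∈ U'` is stable under
the
elements `z ∈ g` which commute with `e` (`y * z = z * y - (z * y - y * z)`, `z * y - y * z ∈ U'`),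
and it
contains the ranges of the `u ∈ U`, so it is `range e` by `irr_range`, and `y = y * e = 0` for
`y ∈ U'`. So `U' = 0`. If `U ≠ up g e` then there is a linear form on `up g e` which vanishes on
`U` and
is not zero, it is given by some `y ∈ dn g e`, `y ≠ 0` (`exists_dual`: for a linear form `φ` take
`y = ∑ φ (z i) • y i`, `trace (x * y) = φ x`), a contradiction. -/
theorem irr_up (G : Gr g e) {U : Submodule K (End K V)} (hU : U ≤ up g e)
    (hst : ∀ z ∈ g, e * z = z * e → ∀ u ∈ U, z * u - u * z ∈ U) : U = ⊥ ∨ U = up g e := by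
  rcases eq_or_ne U ⊥ with h0 | h0
  · exact Or.inl h0
  right
  -- the orthogonal space
  let P : End K V → Prop := fun y => y ∈ dn g e ∧ ∀ u ∈ U, LinearMap.trace K V (u * y) = 0
  have hcomm : ∀ u ∈ U, ∀ y, P y → u * y = 0 ∧ y * u = 0 := by
    intro u hu y hy
    have huu := hU hu
    have hd := G.lie_zero huu hy.1
    have hd0 : u * y - y * u = 0 := by
      refine G.nd _ hd.1 fun z hz => ?_
      have h1 : LinearMap.trace K V ((u * y - y * u) * (e * z * (1 - e))) = 0 := by
        rw [LinearMap.trace_mul_comm]
        exact Gr.trace_up (G.up_mem hz) hd.2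
      have h2 : LinearMap.trace K V ((u * y - y * u) * ((1 - e) * z * e)) = 0 := by
        rw [LinearMap.trace_mul_comm]
        exact Gr.trace_dn (G.dn_mem hz) hd.2
      have h3 : LinearMap.trace K V ((u * y - y * u) *
          (e * z * e + (1 - e) * z * (1 - e))) = 0 := by
        have h4 := hst _ (G.zero_mem hz) (G.zero_comm z) u hu
        set z0 := e * z * e + (1 - e) * z * (1 - e)
        have h5 := hy.2 _ h4
        have h6 : LinearMap.trace K V (u * y * z0) = LinearMap.trace K V (z0 * u * y) := by
          rw [LinearMap.trace_mul_comm, ← mul_assoc]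
        have h7 : LinearMap.trace K V (y * u * z0) = LinearMap.trace K V (u * z0 * y) := by
          rw [mul_assoc, LinearMap.trace_mul_comm]
        rw [sub_mul, map_sub, h6, h7, ← map_sub, ← sub_mul]
        exact h5
      rw [G.decomp z, mul_add, mul_add, map_add, map_add, h1, h2, h3, add_zero, add_zero]
    have h8 : u * y = y * u := sub_eq_zero.1 hd0
    have h9 : u * y = 0 := by
      rw [← huu.2.1, mul_assoc, h8, ← mul_assoc, hy.1.2.1, zero_mul]
    exact ⟨h9, h8 ▸ h9⟩
  -- stability of the orthogonal space
  have hPst : ∀ z ∈ g, e * z = z * e → ∀ y, P y → P (z * y - y * z) := by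
    intro z hz hze y hy
    refine ⟨G.lie_dn hz hze hy.1, fun u hu => ?_⟩
    have h1 := hy.2 _ (hst z hz hze u hu)
    have h2 : LinearMap.trace K V (u * (y * z)) = LinearMap.trace K V (z * u * y) := by
      rw [← mul_assoc, LinearMap.trace_mul_comm, mul_assoc]
    rw [mul_sub, map_sub, h2, ← mul_assoc, ← map_sub, ← sub_mul, ← neg_sub (z * u) (u * z),
      neg_mul, map_neg, h1, neg_zero]
  -- the orthogonal space is zero
  have hP0 : ∀ y, P y → y = 0 := by
    let X : Submodule K V :=
      { carrier := {v | v ∈ LinearMap.range e ∧ ∀ y, P y → y v = 0}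
        add_mem' := fun {a b} ha hb => ⟨Submodule.add_mem _ ha.1 hb.1, fun y hy => by
          rw [map_add, ha.2 y hy, hb.2 y hy, add_zero]⟩
        zero_mem' := ⟨Submodule.zero_mem _, fun y _ => map_zero y⟩
        smul_mem' := fun c a ha => ⟨Submodule.smul_mem _ c ha.1, fun y hy => by
          rw [map_smul, ha.2 y hy, smul_zero]⟩ }
    have hX : X ≤ LinearMap.range e := fun v hv => hv.1
    have hXst : ∀ z ∈ g, e * z = z * e → ∀ v ∈ X, z v ∈ X := by
      intro z hz hze v hv
      obtain ⟨⟨w, hw⟩, hv2⟩ := hv
      refine ⟨⟨z w, ?_⟩, fun y hy => ?_⟩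
      · have h1 := LinearMap.congr_fun hze w
        rw [Module.End.mul_apply, Module.End.mul_apply, hw] at h1
        exact h1
      · have h1 := hv2 _ (hPst z hz hze y hy)
        rw [LinearMap.sub_apply, Module.End.mul_apply, Module.End.mul_apply, hv2 y hy, map_zero,
          zero_sub, neg_eq_zero] at h1
        exact h1
    have hXU : ∀ u ∈ U, ∀ w, u w ∈ X := by
      intro u hu w
      refine ⟨⟨u w, ?_⟩, fun y hy => ?_⟩
      · have h1 := LinearMap.congr_fun (hU hu).2.1 w
        rwa [Module.End.mul_apply] at h1
      · have h1 := LinearMap.congr_fun (hcomm u hu y hy).2 w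
        rwa [Module.End.mul_apply, LinearMap.zero_apply] at h1
    rcases irr_range G hX hXst with h1 | h1
    · exfalso
      apply h0
      rw [eq_bot_iff]
      intro u hu
      rw [Submodule.mem_bot]
      refine LinearMap.ext fun w => ?_
      have h2 := hXU u hu w
      rw [h1, Submodule.mem_bot] at h2
      exact h2
    · intro y hy
      have h2 : y * e = 0 := by
        refine LinearMap.ext fun w => ?_
        have h3 : e w ∈ X := by
          rw [h1]
          exact ⟨w, rfl⟩
        exact h3.2 y hy
      rw [← hy.1.2.2, h2]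
  -- duality
  refine le_antisymm hU fun x hx => ?_
  by_contra hxU
  obtain ⟨φ, hφx, hφU⟩ := Submodule.exists_le_ker_of_notMem hxU
  obtain ⟨z, y, hD⟩ := exists_dual G
  have hφ : ∀ u ∈ up g e, LinearMap.trace K V (u * ∑ i, φ (z i) • y i) = φ u := by
    intro u hu
    conv_rhs => rw [hD.ez u hu]
    rw [Finset.mul_sum, map_sum, map_sum]
    refine Finset.sum_congr rfl fun i _ => ?_
    rw [mul_smul_comm, map_smul, map_smul, smul_eq_mul, smul_eq_mul, mul_comm]
  have h1 : P (∑ i, φ (z i) • y i) := by
    refine ⟨Submodule.sum_mem _ fun i _ => Submodule.smul_mem _ _ (hD.yd i), fun u hu => ?_⟩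
    rw [hφ u (hU hu)]
    exact hφU hu
  have h2 := hφ x hx
  rw [hP0 _ h1, mul_zero, map_zero] at h2
  exact hφx h2.symm

end Pool.Agent.SmallRank
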