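import Pool.Agent.SmallRank.Low

/-!
# The criterion for an irreducible subspace
-/

set_option autoImplicit false
set_option linter.unusedSectionVars false

namespace Pool.Agent.SmallRank

open Module
open Pool.Agent.OddRank (Irreducible Semisimple exists_proj lieSpan subset_lieSpan lieSpan_lie
  lieSpan_le stable_span)
open Pool.Agent.TypeIV.MX (KSp rst rst_apply rst_mul IrrData finrank_range_rst)
open Pool.Agent.Twist (Rk KTr ScOn irrData₀ restr_ns₀ restr_nsd₀)

variable {K V : Type*} [Field K] [CharZero K] [IsAlgClosed K] [AddCommGroup V] [Module K V]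
  [FiniteDimensional K V] {G : Set (End K V)} {W : Submodule K V}

/-- **The symplectic case.**

Proof. `exists_proj` gives `p`. The form on `W` as in the proof of `MX.ksp_of_two`
(`TypeIV/Kinds.lean`), `exists_low`, then `IrrData.mm_of_odd` (rank one) or `IrrData.mm_of_two`
(rank
two) for the `IrrData` of `TypeIV.MX.irrData`, and `ksp_of_mm`. -/
theorem ksp_of_small (hGe : ∀ e ∈ G, e * e = e) (hss : Semisimple G) (hW : Irreducible G W)
    {φ : V →ₗ[K] V →ₗ[K] K} (halt : ∀ x ∈ W, φ x x = 0)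
    (hφ : ∀ x ∈ W, (∀ y ∈ W, φ x y = 0) → x = 0)
    (hφe : ∀ e ∈ G, ∀ x ∈ W, ∀ y ∈ W, φ (e x) y + φ x (e y) = φ x y)
    {N : End K V} {r : ℕ} (h : SmallOn G W N r) : KSp G W := by
  obtain ⟨p, hp, hpe⟩ := exists_proj hss hW.1
  have H := Pool.Agent.TypeIV.MX.irrData hGe hW hp
  have hGst : ∀ e ∈ G, ∀ w ∈ W, e w ∈ W := fun e he => hW.1 e he
  have hnd' : ∀ x : W, (∀ y : W, (φ.compl₁₂ W.subtype W.subtype) x y = 0) → x = 0 :=
    fun x hx => Subtype.ext (hφ x x.2 fun y hy => hx ⟨y, hy⟩)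
  have hφ' : ∀ e ∈ rst p '' G, ∀ u v, (φ.compl₁₂ W.subtype W.subtype) (e u) v +
      (φ.compl₁₂ W.subtype W.subtype) u (e v) = (φ.compl₁₂ W.subtype W.subtype) u v := by
    rintro _ ⟨e, he, rfl⟩ u v
    have h1 := hφe e he u u.2 v v.2
    rw [← rst_apply hp (hGst e he), ← rst_apply hp (hGst e he)] at h1
    exact h1
  have halt' : ∀ x : W, (φ.compl₁₂ W.subtype W.subtype) x x = 0 := fun x => halt x x.2
  obtain ⟨c, hc, hcc, hrk⟩ := exists_low hGe hW hp h
  have hm : ∀ u v, OddRank.mm (φ.compl₁₂ W.subtype W.subtype) u v ∈ (lieSpan G).map (rst p) := by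
    rcases hrk with h1 | ⟨h1, -⟩
    · have h2 : Odd (finrank K (LinearMap.range c)) := by
        rw [show finrank K (LinearMap.range c) = 1 from h1]
        exact odd_one
      exact H.mm_of_odd hnd' hφ' hc hcc h2
    · exact H.mm_of_two halt' hnd' hφ' hc hcc h1
  refine Pool.Agent.TypeIV.MX.ksp_of_mm hGe hss hW halt' hnd' ?_ hp hm
  intro e he u u₂ v v₂ hu hv
  have h1 := hφe e he u u.2 v v.2
  rw [← hu, ← hv] at h1
  exact h1

/-- **The case of a rank which is not half the dimension.**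

Proof. `exists_proj` gives `p`; `exists_low` gives an element `c` of rank one
(`2 * r ≠ finrank W`), and `IrrData.sl_of_one` as in `Twist.ktr_of_one`
(`restr_ns₀`, `restr_nsd₀` with the generator of rank `r`). -/
theorem ktr_of_small (hGe : ∀ e ∈ G, e * e = e) (hss : Semisimple G) (hW : Irreducible G W)
    {N : End K V} {r : ℕ} (h : SmallOn G W N r) (hr : 2 * r ≠ finrank K W) : KTr G W := by
  obtain ⟨p, hp, hpe⟩ := exists_proj hss hW.1
  have H := irrData₀ hGe hW hp
  have hgst : ∀ x ∈ lieSpan G, ∀ w ∈ W, x w ∈ W := fun x hx => stable_span hW.1 x hx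
  obtain ⟨h0, h1, e₀, he₀, rfl⟩ := h.rank
  obtain ⟨c, hc, hcc, hrk⟩ := exists_low hGe hW hp h
  have hone : finrank K (LinearMap.range c) = 1 := by
    rcases hrk with h2 | ⟨-, h2⟩
    · exact h2
    · exact absurd h2 hr
  intro Z hZ
  obtain ⟨x, hx, hxZ⟩ := H.sl_of_one (restr_ns₀ hGe hW hp) (restr_nsd₀ hGe hW he₀ h0 h1 hr hp)
    hc hcc hone hZ
  exact ⟨x, hx, fun w => by rw [← hxZ, rst_apply hp (hgst x hx)]⟩

end Pool.Agent.SmallRank
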