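import Pool.Agent.SmallRank.Lett

/-!
# Letters: the traces
-/

set_option autoImplicit false
set_option linter.unusedSectionVars false

namespace Pool.Agent.SmallRank.Lt

open Module

variable {K V : Type*} [Field K] [CharZero K] [IsAlgClosed K] [AddCommGroup V] [Module K V]
  [FiniteDimensional K V] {m : ℕ} {g : Submodule K (End K V)} {N : Fin m → End K V}
  {E : Fin m → Fin m → End K V} (L : Lt g N E)
include L

theorem tr_swap {S : Finset (Fin m)} {i j : Fin m} (hi : i ∉ S) (hj : j ∉ S) (hij : i ≠ j) :
    LinearMap.trace K V (N i * L.NS S) = LinearMap.trace K V (N j * L.NS S) := by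
  have hc : ∀ i j : Fin m, i ∉ S → j ∉ S → i ≠ j → L.NS S * E i j = E i j * L.NS S := by
    intro i j hi hj hij
    refine L.comm_NS fun l hl => L.cm l i j ?_ ?_ hij
    · rintro rfl
      exact hi hl
    · rintro rfl
      exact hj hl
  have h1 : L.NS S * (E i j * E j i) = E i j * (L.NS S * E j i) := by
    rw [← mul_assoc, hc i j hi hj hij, mul_assoc]
  have h2 : LinearMap.trace K V (L.NS S * (E i j * E j i)) =
      LinearMap.trace K V (L.NS S * (E j i * E i j)) := by
    rw [h1, LinearMap.trace_mul_comm, mul_assoc]
  rw [L.EE i j hij, L.EE j i hij.symm, L.comm j i, mul_sub, mul_sub, map_sub, map_sub,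
    sub_left_inj, L.N_NS_comm, L.N_NS_comm] at h2
  exact h2

theorem tr_step {k : ℕ} (hk : ∑ i, N i = (k : K) • (1 : End K V)) {S : Finset (Fin m)}
    {i : Fin m} (hi : i ∉ S) :
    ((m : K) - S.card) * LinearMap.trace K V (N i * L.NS S) =
      ((k : K) - S.card) * LinearMap.trace K V (L.NS S) := by
  have h1 : (∑ j, N j) * L.NS S = (k : K) • L.NS S := by rw [hk, smul_mul_assoc, one_mul]
  have h2 := congrArg (LinearMap.trace K V) h1
  rw [Finset.sum_mul, map_sum, map_smul, smul_eq_mul,
    ← Finset.sum_add_sum_compl S] at h2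
  have h3 : ∑ j ∈ S, LinearMap.trace K V (N j * L.NS S) =
      (S.card : K) * LinearMap.trace K V (L.NS S) := by
    rw [Finset.sum_congr rfl fun j hj => by rw [L.N_NS hj], Finset.sum_const, nsmul_eq_mul]
  have h4 : ∑ j ∈ Sᶜ, LinearMap.trace K V (N j * L.NS S) =
      ((m : K) - S.card) * LinearMap.trace K V (N i * L.NS S) := by
    rw [Finset.sum_congr rfl fun j hj => ?_, Finset.sum_const, nsmul_eq_mul, Finset.card_compl,
      Fintype.card_fin, Nat.cast_sub (by simpa using Finset.card_le_univ S)]
    by_cases hij : j = i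
    · rw [hij]
    · exact L.tr_swap (Finset.mem_compl.1 hj) hi hij
  rw [h3, h4] at h2
  linear_combination h2

theorem tr_choose {k : ℕ} (hk : ∑ i, N i = (k : K) • (1 : End K V)) (S : Finset (Fin m)) :
    LinearMap.trace K V (L.NS S) * (m.choose S.card : K) =
      (finrank K V : K) * (k.choose S.card : K) := by
  induction S using Finset.induction_on with
  | empty =>
    rw [L.NS_empty, LinearMap.trace_one, Finset.card_empty, Nat.choose_zero_right,
      Nat.choose_zero_right]
  | insert i S hi ih =>
    rw [L.NS_insert hi, Finset.card_insert_of_notMem hi]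
    have h1 := L.tr_step hk hi
    have hS : S.card ≤ m := by simpa using Finset.card_le_univ S
    have h2 : (m.choose (S.card + 1) : K) * (S.card + 1) =
        m.choose S.card * ((m : K) - S.card) := by
      rw [← Nat.cast_sub hS]
      exact_mod_cast Nat.choose_succ_right_eq m S.card
    have h3 : (k.choose (S.card + 1) : K) * (S.card + 1) =
        k.choose S.card * ((k : K) - S.card) := by
      by_cases h4 : S.card ≤ k
      · rw [← Nat.cast_sub h4]
        exact_mod_cast Nat.choose_succ_right_eq k S.card
      · rw [Nat.choose_eq_zero_of_lt (by omega), Nat.choose_eq_zero_of_lt (by omega)]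
        simp
    have h4 : (S.card + 1 : K) ≠ 0 := by exact_mod_cast Nat.succ_ne_zero S.card
    refine mul_right_cancel₀ h4 ?_
    linear_combination (LinearMap.trace K V (N i * L.NS S)) * h2 + (m.choose S.card : K) * h1 +
      ((k : K) - S.card) * ih - (finrank K V : K) * h3

end Pool.Agent.SmallRank.Lt
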