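import Pool.Agent.SmallRank.Defs

/-!
# Elements of minimal rank in degree one
-/

set_option autoImplicit false
set_option linter.unusedSectionVars false

namespace Pool.Agent.SmallRank

open Module

variable {K V : Type*} [Field K] [CharZero K] [IsAlgClosed K] [AddCommGroup V] [Module K V]
  [FiniteDimensional K V] {g : Submodule K (End K V)} {e : End K V}

/-- **The elements with the kernel and the range of an element of minimal rank.**

Proof. `b` maps `range c` to itself: `b (c v) = x v = c (a v)`. As `c ≠ 0` the space `range c` is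
not
zero, so `b` has an eigenvector `u = c v ≠ 0` in it, `b u = κ u` (`Module.End.exists_eigenvalue` for
the restriction of `b`). Then `x - κ • c ∈ up g e` and `x - κ • c = (b - κ) * c`, its range is the
image
of `range c` under `b - κ`, which is not injective on `range c`; so
`rk (x - κ • c) < rk c ≤ ρ` (`LinearMap.finrank_range_add_finrank_ker` for the restriction to
`range c`), and `x - κ • c = 0` by `hmin`. -/
theorem line {ρ : ℕ} (hmin : ∀ x ∈ up g e, x ≠ 0 → ρ ≤ rk x) {c x : End K V}
    (hc : c ∈ up g e) (hc0 : c ≠ 0) (hrk : rk c ≤ ρ) (hx : x ∈ up g e) {a b : End K V}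
    (h1 : x = c * a) (h2 : x = b * c) : ∃ κ : K, x = κ • c := by
  set W := LinearMap.range c with hW
  have hmaps : ∀ w ∈ W, b w ∈ W := by
    rintro _ ⟨v, rfl⟩
    refine ⟨a v, ?_⟩
    have h3 : (c * a) v = (b * c) v := by rw [← h1, ← h2]
    exact h3
  have hnt : Nontrivial W := by
    rw [Submodule.nontrivial_iff_ne_bot]
    intro h0
    exact hc0 (LinearMap.range_eq_bot.1 h0)
  obtain ⟨κ, hκ⟩ := Module.End.exists_eigenvalue (b.restrict hmaps)
  obtain ⟨w, hw⟩ := hκ.exists_hasEigenvector
  have hbw : b (w : V) = κ • (w : V) := congrArg Subtype.val hw.apply_eq_smul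
  refine ⟨κ, ?_⟩
  by_contra hne
  have hy0 : x - κ • c ≠ 0 := sub_ne_zero.2 hne
  have hyu : x - κ • c ∈ up g e := (up g e).sub_mem hx ((up g e).smul_mem κ hc)
  have h3 := hmin _ hyu hy0
  have h4 : rk (x - κ • c) < rk c := by
    set d : V →ₗ[K] V := b - κ • (1 : End K V) with hd
    have h5 : x - κ • c = d ∘ₗ c := by
      rw [h2, hd]
      ext v
      simp [LinearMap.comp_apply]
    have h6 : LinearMap.range (x - κ • c) = LinearMap.range (d.domRestrict W) := by
      rw [h5, LinearMap.range_comp, LinearMap.range_domRestrict]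
    have h7 := LinearMap.finrank_range_add_finrank_ker (d.domRestrict W)
    have h8 : 0 < finrank K (LinearMap.ker (d.domRestrict W)) := by
      rw [Module.finrank_pos_iff_exists_ne_zero]
      refine ⟨⟨w, ?_⟩, ?_⟩
      · rw [LinearMap.mem_ker, LinearMap.domRestrict_apply, hd, LinearMap.sub_apply,
          LinearMap.smul_apply, hbw, Module.End.one_apply, sub_self]
      · intro h0
        exact hw.2 (congrArg Subtype.val h0)
    unfold rk
    rw [h6]
    change finrank K (LinearMap.range (d.domRestrict W)) < finrank K W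
    omega
  omega

/-- `c` has minimal rank `ρ` in degree one, and `f` is a partner of degree minus one. -/
structure Pr (g : Submodule K (End K V)) (e c f : End K V) (ρ : ℕ) : Prop where
  G : Gr g e
  min : ∀ x ∈ up g e, x ≠ 0 → ρ ≤ rk x
  rkc : rk c = ρ
  c0 : c ≠ 0
  cu : c ∈ up g e
  fd : f ∈ dn g e
  cfc : c * f * c = c
  fcf : f * c * f = f

namespace Pr

variable {c f : End K V} {ρ : ℕ} (B : Pr g e c f ρ)
include B

theorem ec : e * c = c := B.cu.2.1
theorem ce : c * e = 0 := B.cu.2.2
theorem ef : e * f = 0 := B.fd.2.1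
theorem fe : f * e = f := B.fd.2.2
theorem cc : c * c = 0 := Gr.up_mul_up B.cu B.cu
theorem ff : f * f = 0 := Gr.dn_mul_dn B.fd B.fd

/-- the quadratic operator of `c` -/
theorem czc {z : End K V} (hz : z ∈ g) : ∃ κ : K, c * z * c = κ • c :=
  line B.min B.cu B.c0 B.rkc.le (B.G.quad_up B.cu hz) (mul_assoc c z c) rfl

/-- the component of weight two -/
theorem two {z : End K V} (hz : z ∈ g) : ∃ κ : K, c * f * z * (f * c) = κ • c := by
  obtain ⟨κ, h⟩ := B.czc (B.G.quad_dn B.fd hz).1
  exact ⟨κ, by rw [← h]; simp only [mul_assoc]⟩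

/-- the component of weight minus two -/
theorem mtwo {z : End K V} (hz : z ∈ g) : ∃ κ : K, f * c * z * (c * f) = κ • f := by
  obtain ⟨κ, h⟩ := B.czc hz
  refine ⟨κ, ?_⟩
  have h1 : f * c * z * (c * f) = f * (c * z * c) * f := by simp only [mul_assoc]
  rw [h1, h, mul_smul_comm, smul_mul_assoc, B.fcf]

theorem idemP : (c * f) * (c * f) = c * f := by
  rw [← mul_assoc, B.cfc]

theorem idemQ : (f * c) * (f * c) = f * c := by
  rw [← mul_assoc, B.fcf]

theorem rkP : rk (c * f) = ρ := by
  refine le_antisymm ((rk_mul_left c f).trans B.rkc.le) ?_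
  have h := rk_mul_left (c * f) c
  rw [B.cfc, B.rkc] at h
  exact h

theorem rkQ : rk (f * c) = ρ := by
  refine le_antisymm ((rk_mul_right f c).trans B.rkc.le) ?_
  have h := rk_mul_right c (f * c)
  rw [← mul_assoc, B.cfc, B.rkc] at h
  exact h

theorem rkf : rk f = ρ := by
  refine le_antisymm ?_ ?_
  · have h := rk_mul_left (f * c) f
    rw [B.fcf, B.rkQ] at h
    exact h
  · have h := rk_mul_left f c
    rw [B.rkQ] at h
    exact h

theorem f0 : f ≠ 0 := by
  rintro h
  apply B.c0
  rw [← B.cfc, h, mul_zero, zero_mul]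

theorem rho_pos : 0 < ρ := by
  rw [← B.rkc]
  exact rk_pos B.c0

end Pr

end Pool.Agent.SmallRank
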