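import Pool.Agent.SmallRank.Defs
import Pool.Agent.SmallRank.SqSplit
import Pool.Agent.NumRank.Clifford

/-!
# The numerical condition implies that the algebra is simple up to scalars
-/

set_option autoImplicit false
set_option linter.unusedSectionVars false

namespace Pool.Agent.SmallRank

open Module
open Pool.Agent.OddRank (lieSpan subset_lieSpan lieSpan_lie lieSpan_le)

variable {K V : Type*} [Field K] [CharZero K] [IsAlgClosed K] [AddCommGroup V] [Module K V]
  [FiniteDimensional K V]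

private theorem lk_mem_add_scalar {s : Submodule K (End K V)} (x : End K V) :
    x ∈ s ⊔ Submodule.span K {(1 : End K V)} ↔ ∃ a ∈ s, ∃ c : K, x = a + c • 1 := by
  rw [Submodule.mem_sup]
  constructor
  · rintro ⟨a, ha, b, hb, rfl⟩
    obtain ⟨c, rfl⟩ := Submodule.mem_span_singleton.1 hb
    exact ⟨a, ha, c, rfl⟩
  · rintro ⟨a, ha, c, rfl⟩
    exact ⟨a, ha, c • 1, Submodule.smul_mem _ _ (Submodule.mem_span_singleton_self 1), rfl⟩

private theorem lk_bracket_scalar (a b : End K V) (c d : K) :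
    (a + c • 1) * (b + d • 1) - (b + d • 1) * (a + c • 1) = a * b - b * a := by
  simp only [mul_add, add_mul, smul_mul_assoc, mul_smul_comm, one_mul, mul_one, smul_add]
  rw [smul_smul, smul_smul, mul_comm c d]
  abel

private theorem lk_scalar_idem [Nontrivial V] {c : K}
    (h : (c • (1 : End K V)) * (c • 1) = c • 1) :
    c • (1 : End K V) = 0 ∨ c • (1 : End K V) = 1 := by
  rw [smul_mul_smul_comm, one_mul] at h
  have h1 : c * c = c := smul_left_injective K (one_ne_zero (α := End K V)) h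
  have h2 : c * (c - 1) = 0 := by linear_combination h1
  rcases mul_eq_zero.1 h2 with h3 | h3
  · left
    rw [h3, zero_smul]
  · right
    rw [sub_eq_zero.1 h3, one_smul]

/-- **Simplicity.** There is no factorisation of the dimension which is compatible with the ranks
of the
generators and of `N`.

Proof. `lie`: `lieSpan_lie`; `irr`: from `hirr` and `subset_lieSpan`; `one`: `PrimePow.one_mem` with
`OddRank.trace_nondeg`, `PrimePow.schur_irr` and `trace e = rk e ≠ 0`; `ne0`, `ne1`: `hns`.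
`simple`: let
`s ≠ ⊥` be an ideal with traces zero. By `NumRank.comm_split'` every `ε ∈ Γ` satisfies
(a) `ε - κ • 1 ∈ s` for some `κ`, or (b) `ε` commutes with `s`. If all `ε ∈ Γ` satisfy (a) then
`s + K` contains `Γ` and is closed under commutators, so it contains `lieSpan Γ` (`lieSpan_le`; see
the end of the proof of `NumRank.hall`). Otherwise some `ε₁ ∈ Γ` satisfies (b), not (a). If all `ε
∈ Γ`
satisfied (b) then every `y ∈ s` would commute with `lieSpan Γ` (the set of the operators commuting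
with `y` is closed under commutators), so it would be scalar (`PrimePow.schur_irr`) of trace zero,
`y = 0`, a contradiction; so some `ε₀ ∈ Γ` satisfies (a). Take `n₁`, `n₂` from `NumRank.clifford`:
`n₁ ≠ 1` because `s ≠ ⊥`; `n₂ ≠ 1`: otherwise `ε₁` is scalar, so `0` or `1`, against `hns`; and
`n₁ * n₂ = finrank V > 0`, so both are `> 1`. Every `ε ∈ Γ` has rank divisible by `n₂` (case (a))
or `n₁`
(case (b)); `rk ε₀` by `n₂`, `rk ε₁` by `n₁`; and `rk N` is divisible by `n₂` (`N ∈ s`, `κ = 0`) or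
`n₁`
by `comm_split_sq`. This contradicts `hT`. -/
theorem gr_of [Nontrivial V] {Γ : Set (End K V)} (hGe : ∀ ε ∈ Γ, ε * ε = ε)
    (hirr : ∀ U : Submodule K V, (∀ ε ∈ Γ, ∀ w ∈ U, ε w ∈ U) → U = ⊥ ∨ U = ⊤)
    (hns : ∀ ε ∈ Γ, ε ≠ 0 ∧ ε ≠ 1) {N : End K V} (hN : N ∈ lieSpan Γ) (hNN : N * N = 0)
    (hT : ∀ n₁ n₂ : ℕ, 1 < n₁ → 1 < n₂ → n₁ * n₂ = finrank K V →
      (∀ ε ∈ Γ, n₁ ∣ rk ε ∨ n₂ ∣ rk ε) → (n₁ ∣ rk N ∨ n₂ ∣ rk N) →
      (∃ ε ∈ Γ, n₁ ∣ rk ε) → ¬ ∃ ε ∈ Γ, n₂ ∣ rk ε)
    {e : End K V} (he : e ∈ Γ) : Gr (lieSpan Γ) e := by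
  have hGg : ∀ ε ∈ Γ, ε ∈ lieSpan Γ := subset_lieSpan
  have hirr' : ∀ U : Submodule K V, (∀ a ∈ lieSpan Γ, ∀ w ∈ U, a w ∈ U) → U = ⊥ ∨ U = ⊤ :=
    fun U hU => hirr U fun ε hε => hU ε (hGg ε hε)
  have htre : LinearMap.trace K V e ≠ 0 := by
    rw [trace_idem (hGe e he)]
    exact_mod_cast (rk_pos (hns e he).1).ne'
  have hone : (1 : End K V) ∈ lieSpan Γ :=
    PrimePow.one_mem lieSpan_lie (OddRank.trace_nondeg _ lieSpan_lie hirr')
      (fun z hz => PrimePow.schur_irr hirr' z hz) (hGg e he) htre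
  refine ⟨lieSpan_lie, hirr', hone, hGg e he, hGe e he, (hns e he).1, (hns e he).2, ?_⟩
  intro s hsg hsi hstr hs0 x hx
  by_cases hall : ∀ ε ∈ Γ, ∃ c : K, ε - c • 1 ∈ s
  · have hGX : ∀ ε ∈ Γ, ε ∈ s ⊔ Submodule.span K {(1 : End K V)} := by
      intro ε hε
      obtain ⟨c, hc⟩ := hall ε hε
      rw [lk_mem_add_scalar]
      exact ⟨_, hc, c, by rw [sub_add_cancel]⟩
    have hXlie : ∀ a ∈ s ⊔ Submodule.span K {(1 : End K V)},
        ∀ b ∈ s ⊔ Submodule.span K {(1 : End K V)},
          a * b - b * a ∈ s ⊔ Submodule.span K {(1 : End K V)} := by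
      intro a ha b hb
      obtain ⟨a', ha', c, rfl⟩ := (lk_mem_add_scalar a).1 ha
      obtain ⟨b', hb', d, rfl⟩ := (lk_mem_add_scalar b).1 hb
      rw [lk_bracket_scalar]
      exact Submodule.mem_sup_left (hsi a' (hsg ha') b' hb')
    exact (lk_mem_add_scalar x).1 (lieSpan_le hGX hXlie hx)
  · exfalso
    push Not at hall
    obtain ⟨ε₁, hε₁, hno⟩ := hall
    have hcomm : ∀ y ∈ s, ε₁ * y = y * ε₁ := by
      rcases NumRank.comm_split' lieSpan_lie hirr' hsg hsi hstr (hGg ε₁ hε₁) (hGe ε₁ hε₁)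
        with h | h
      · obtain ⟨c, hc⟩ := h
        exact absurd hc (hno c)
      · exact h
    obtain ⟨n₁, n₂, hmul, h1, h2, hd2, hd1⟩ :=
      NumRank.clifford lieSpan_lie hirr' hsg hsi hstr
    have hpos : 0 < n₁ * n₂ := by
      rw [hmul]
      exact finrank_pos
    have hp1 : 0 < n₁ := Nat.pos_of_mul_pos_right hpos
    have hp2 : 0 < n₂ := Nat.pos_of_mul_pos_left hpos
    have hn1 : n₁ ≠ 1 := by
      intro h
      apply hs0
      rw [Submodule.eq_bot_iff]
      exact h1 h
    have hn2 : n₂ ≠ 1 := by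
      intro h
      obtain ⟨c, hc⟩ := h2 h ε₁ hcomm
      have h4 := hGe ε₁ hε₁
      rw [hc] at h4
      rcases lk_scalar_idem h4 with h5 | h5
      · exact (hns ε₁ hε₁).1 (hc.trans h5)
      · exact (hns ε₁ hε₁).2 (hc.trans h5)
    -- a generator which is in the ideal up to scalars
    have hex : ∃ ε₀ ∈ Γ, ∃ c : K, ε₀ - c • 1 ∈ s := by
      by_contra hcon
      push Not at hcon
      have hallb : ∀ ε ∈ Γ, ∀ y ∈ s, ε * y = y * ε := by
        intro ε hε
        rcases NumRank.comm_split' lieSpan_lie hirr' hsg hsi hstr (hGg ε hε) (hGe ε hε)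
          with h | h
        · obtain ⟨c, hc⟩ := h
          exact absurd hc (hcon ε hε c)
        · exact h
      apply hs0
      rw [Submodule.eq_bot_iff]
      intro y hy
      -- the operators which commute with `y`
      let Cy : Submodule K (End K V) :=
        { carrier := {a | a * y = y * a}
          add_mem' := fun {a b} (ha : a * y = y * a) (hb : b * y = y * b) => by
            change (a + b) * y = y * (a + b)
            rw [add_mul, mul_add, ha, hb]
          zero_mem' := by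
            change (0 : End K V) * y = y * 0
            rw [zero_mul, mul_zero]
          smul_mem' := fun c a (ha : a * y = y * a) => by
            change (c • a) * y = y * (c • a)
            rw [smul_mul_assoc, mul_smul_comm, ha] }
      have hCy : lieSpan Γ ≤ Cy := by
        refine lieSpan_le (fun ε hε => hallb ε hε y hy) ?_
        intro a ha b hb
        have ha' : a * y = y * a := ha
        have hb' : b * y = y * b := hb
        change (a * b - b * a) * y = y * (a * b - b * a)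
        rw [sub_mul, mul_sub, mul_assoc, hb', ← mul_assoc, ha', mul_assoc, mul_assoc b a y, ha',
          ← mul_assoc b y a, hb', mul_assoc]
      obtain ⟨c, hc⟩ := PrimePow.schur_irr hirr' y fun x hx => (hCy hx).symm
      have h3 := hstr y hy
      rw [hc, map_smul, LinearMap.trace_one, smul_eq_mul] at h3
      have h4 : (finrank K V : K) ≠ 0 := by
        exact_mod_cast (finrank_pos (R := K) (M := V)).ne'
      rw [hc, (mul_eq_zero.1 h3).resolve_right h4, zero_smul]
    obtain ⟨ε₀, hε₀, c₀, hc₀⟩ := hex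
    refine hT n₁ n₂ (by omega) (by omega) hmul ?_ ?_ ⟨ε₁, hε₁, hd1 ε₁ hcomm⟩
      ⟨ε₀, hε₀, hd2 ε₀ ⟨c₀, hc₀⟩⟩
    · intro ε hε
      rcases NumRank.comm_split' lieSpan_lie hirr' hsg hsi hstr (hGg ε hε) (hGe ε hε) with h | h
      · exact Or.inr (hd2 ε h)
      · exact Or.inl (hd1 ε h)
    · rcases comm_split_sq lieSpan_lie hirr' hsg hsi hstr hN hNN with h | h
      · refine Or.inr (hd2 N ⟨0, ?_⟩)
        rw [zero_smul, sub_zero]
        exact h
      · exact Or.inl (hd1 N h)

end Pool.Agent.SmallRank
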