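import Pool.Agent.SmallRank.Core
import Pool.Agent.SmallRank.Linked
import Pool.Agent.Twist.Kinds

/-!
# An element of small rank on an irreducible subspace
-/

set_option autoImplicit false
set_option linter.unusedSectionVars false

namespace Pool.Agent.SmallRank

open Module
open Pool.Agent.OddRank (Irreducible Semisimple exists_proj lieSpan subset_lieSpan lieSpan_lie
  lieSpan_le stable_span)
open Pool.Agent.TypeIV.MX (KSp rst rst_apply rst_mul IrrData finrank_range_rst)
open Pool.Agent.Twist (Rk KTr ScOn irrData₀ restr_ns₀ restr_nsd₀)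

variable {K V : Type*} [Field K] [CharZero K] [IsAlgClosed K] [AddCommGroup V] [Module K V]
  [FiniteDimensional K V] {G : Set (End K V)} {W : Submodule K V}

/-- The condition: `N` has square zero and small rank on `W` with respect to the rank `r` of a
generator, and there is no factorisation of `n = dim W` compatible with the ranks of the generators
(other than `0`, `n`) and of `N`. -/
structure SmallOn (G : Set (End K V)) (W : Submodule K V) (N : End K V) (r : ℕ) : Prop where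
  mem : N ∈ lieSpan G
  sq : N * N = 0
  ne : finrank K (W.map N) ≠ 0
  rank : Rk G W r
  lt : finrank K (W.map N) * finrank K W < r * (finrank K W - r)
  split : ∀ a b : ℕ, 1 < a → 1 < b → a * b = finrank K W →
    (∀ s, Rk G W s → a ∣ s ∨ b ∣ s) → (a ∣ finrank K (W.map N) ∨ b ∣ finrank K (W.map N)) →
    (∃ s, Rk G W s ∧ a ∣ s) → ¬ ∃ s, Rk G W s ∧ b ∣ s

/-- **An element of rank one or two on `W`.**

Proof. Let `p` be the projection to `W` (given), `Γ = rst p '' {e ∈ G | ¬ ScOn e W}`,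
`H = irrData₀ ..` (so `lieSpan Γ ≤ (lieSpan G).map (rst p)` by `lieSpan_le`). The element
`N₁ = rst p N` is in `(lieSpan G).map (rst p)`; the latter is contained in `lieSpan Γ + K`
(the generators which are scalar on `W` give `0` or `1`; `lieSpan Γ + K` is closed under
commutators),
and `1 ∈ lieSpan Γ` (`PrimePow.one_mem` as in `Linked.lean`; `Γ` is not empty by `h.rank`,
`Twist.rk_iff`), so `N₁ ∈ lieSpan Γ`. `N₁ * N₁ = 0` (`rst_mul`), `rk N₁ = finrank (W.map N) ≠ 0`
(`finrank_range_rst`), so `N₁` is not scalar (`N₁ = κ • 1` gives `κ = 0`). The ranks of `Γ` are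
those of
`Rk G W` (`Twist.rk_iff`, `finrank_range_rst`, see `Twist.ktr_of_num`). Let `e₀ ∈ G` be the
generator of
rank `r`; `gr_of` gives `Gr (lieSpan Γ) (rst p e₀)`, `rk (1 - rst p e₀) = finrank W - r`
(`Gr.rk_add`), and `small` gives the result. -/
theorem exists_low (hGe : ∀ e ∈ G, e * e = e) (hW : Irreducible G W) {p : V →ₗ[K] W}
    (hp : ∀ w : W, p w = w) {N : End K V} {r : ℕ} (h : SmallOn G W N r) :
    ∃ c ∈ (lieSpan G).map (rst p), c * c = 0 ∧
      (rk c = 1 ∨ (rk c = 2 ∧ 2 * r = finrank K W)) := by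
  have H := irrData₀ hGe hW hp
  have hgst : ∀ x ∈ lieSpan G, ∀ w ∈ W, x w ∈ W := fun x hx => stable_span hW.1 x hx
  have hGst : ∀ e ∈ G, ∀ w ∈ W, e w ∈ W := fun e he => hW.1 e he
  obtain ⟨Γ, hΓ⟩ : ∃ Γ : Set (End K W), Γ = rst p '' {e ∈ G | ¬ ScOn e W} := ⟨_, rfl⟩
  have hns := restr_ns₀ hGe hW hp
  rw [← hΓ] at H hns
  have hle : lieSpan Γ ≤ (lieSpan G).map (rst p) := lieSpan_le H.hG H.hlie
  obtain ⟨e₀, he₀, hsc₀, hr⟩ := (Twist.rk_iff hGe hW.1 r).1 h.rank
  have heΓ : rst p e₀ ∈ Γ := by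
    rw [hΓ]
    exact ⟨e₀, ⟨he₀, hsc₀⟩, rfl⟩
  have hrk : ∀ e ∈ G, rk (rst p e) = finrank K (W.map e) := fun e he =>
    finrank_range_rst hp (hGst e he)
  have hrk0 : rk (rst p e₀) = r := by rw [hrk e₀ he₀, hr]
  have hnt : Nontrivial W := (Submodule.nontrivial_iff_ne_bot).2 hW.2.1
  have hirr' : ∀ U : Submodule K W, (∀ D ∈ lieSpan Γ, ∀ w ∈ U, D w ∈ U) → U = ⊥ ∨ U = ⊤ :=
    fun U hU => H.hirr U fun e he => hU e (subset_lieSpan e he)
  have hnd := OddRank.trace_nondeg (lieSpan Γ) lieSpan_lie hirr'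
  have hscal := PrimePow.schur_irr hirr'
  have htr : LinearMap.trace K W (rst p e₀) ≠ 0 := by
    rw [trace_idem (H.hGe _ heΓ), Nat.cast_ne_zero, hrk0]
    exact h.rank.1
  have hone : (1 : End K W) ∈ lieSpan Γ :=
    PrimePow.one_mem lieSpan_lie hnd hscal (subset_lieSpan _ heΓ) htr
  -- the restriction of the whole algebra
  have hmap : ∀ x ∈ lieSpan G, rst p x ∈ lieSpan Γ := by
    intro x hx
    let g' : Submodule K (End K V) :=
      { carrier := {x | (∀ w ∈ W, x w ∈ W) ∧ rst p x ∈ lieSpan Γ}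
        add_mem' := by
          rintro x y ⟨hx, hx'⟩ ⟨hy, hy'⟩
          exact ⟨fun w hw => W.add_mem (hx w hw) (hy w hw), by
            rw [map_add]; exact (lieSpan Γ).add_mem hx' hy'⟩
        zero_mem' := ⟨fun w _ => W.zero_mem, by rw [map_zero]; exact (lieSpan Γ).zero_mem⟩
        smul_mem' := by
          rintro c x ⟨hx, hx'⟩
          exact ⟨fun w hw => W.smul_mem c (hx w hw), by
            rw [map_smul]; exact (lieSpan Γ).smul_mem c hx'⟩ }
    refine ((lieSpan_le (g := g') ?_ ?_) hx).2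
    · intro e he
      refine ⟨hGst e he, ?_⟩
      by_cases hs : ScOn e W
      · rcases hs with hs | hs
        · have h1 : rst p e = 0 := by
            ext w
            rw [rst_apply hp (hGst e he), hs w w.2]
            rfl
          rw [h1]
          exact (lieSpan Γ).zero_mem
        · have h1 : rst p e = 1 := by
            ext w
            rw [rst_apply hp (hGst e he), hs w w.2]
            rfl
          rw [h1]
          exact hone
      · refine subset_lieSpan _ ?_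
        rw [hΓ]
        exact ⟨e, ⟨he, hs⟩, rfl⟩
    · rintro x ⟨hx, hx'⟩ y ⟨hy, hy'⟩
      refine ⟨fun w hw => W.sub_mem (hx _ (hy w hw)) (hy _ (hx w hw)), ?_⟩
      rw [map_sub, rst_mul hp hx hy, rst_mul hp hy hx]
      exact lieSpan_lie _ hx' _ hy'
  have hN1 : rst p N ∈ lieSpan Γ := hmap N h.mem
  have hNN : rst p N * rst p N = 0 := by
    rw [← rst_mul hp (hgst N h.mem) (hgst N h.mem), h.sq, map_zero]
  have hrN : rk (rst p N) = finrank K (W.map N) := finrank_range_rst hp (hgst N h.mem)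
  have hRk : ∀ s, Rk G W s ↔ ∃ ε ∈ Γ, rk ε = s := by
    intro s
    rw [Twist.rk_iff hGe hW.1, hΓ]
    constructor
    · rintro ⟨e, he, hs, rfl⟩
      exact ⟨_, ⟨e, ⟨he, hs⟩, rfl⟩, hrk e he⟩
    · rintro ⟨_, ⟨e, ⟨he, hs⟩, rfl⟩, rfl⟩
      exact ⟨e, he, hs, (hrk e he).symm⟩
  have G0 : Gr (lieSpan Γ) (rst p e₀) := by
    refine gr_of H.hGe H.hirr hns hN1 hNN ?_ heΓ
    rintro a b ha hb hab hd hdN ⟨ε, hε, haε⟩ ⟨ε', hε', hbε'⟩
    refine h.split a b ha hb hab (fun s hs => ?_) ?_ ⟨rk ε, (hRk _).2 ⟨ε, hε, rfl⟩, haε⟩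
      ⟨rk ε', (hRk _).2 ⟨ε', hε', rfl⟩, hbε'⟩
    · obtain ⟨ε₁, hε₁, rfl⟩ := (hRk s).1 hs
      exact hd ε₁ hε₁
    · rwa [hrN] at hdN
  have hN0 : rst p N ≠ 0 := by
    intro h0
    apply h.ne
    rw [← hrN, h0, rk_eq_zero]
  have hns1 : ∀ κ : K, rst p N ≠ κ • 1 := by
    intro κ hκ
    rw [hκ, smul_mul_assoc, one_mul, smul_smul] at hNN
    rcases smul_eq_zero.1 hNN with h1 | h1
    · apply hN0
      rw [hκ, mul_self_eq_zero.1 h1, zero_smul]
    · exact one_ne_zero h1
  have hadd := G0.rk_add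
  rw [hrk0] at hadd
  have h1 : rk (1 - rst p e₀) = finrank K W - r := by omega
  obtain ⟨c, hc, hcc, hrkc⟩ := small G0 hN1 hns1 (by
    rw [hrN, hrk0, h1]
    exact h.lt)
  refine ⟨c, hle hc, hcc, ?_⟩
  rcases hrkc with h2 | ⟨h2, h3⟩
  · exact Or.inl h2
  · right
    refine ⟨h2, ?_⟩
    rw [hrk0] at h3
    omega

end Pool.Agent.SmallRank
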