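import Pool.Agent.SmallRank.PrWts
import Pool.Agent.SmallRank.PairEx
import Pool.Agent.SmallRank.IrrUp

/-!
# The projective case: no element of weight zero

If the only element of degree one which is orthogonal to the pair `c`, `f` is zero then
`x y x` is a multiple of `x` for all `x` of degree one and `y` of degree minus one.
-/

set_option autoImplicit false
set_option linter.unusedSectionVars false

namespace Pool.Agent.SmallRank

open Module

variable {K V : Type*} [Field K] [CharZero K] [IsAlgClosed K] [AddCommGroup V] [Module K V]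
  [FiniteDimensional K V] {g : Submodule K (End K V)} {e c f : End K V} {ρ : ℕ}

/-- The quadratic operator of `f` is given by a scalar. -/
theorem Pr.proj_f (B : Pr g e c f ρ) (h0 : ∀ x ∈ up g e, f * x = 0 → x * f = 0 → x = 0)
    {x : End K V} (hx : x ∈ up g e) :
    x * f * x = ((ρ : K)⁻¹ * LinearMap.trace K V (x * f)) • x := by
  have hρ : (ρ : K) ≠ 0 := Nat.cast_ne_zero.2 B.rho_pos.ne'
  have hcx : c * x = 0 := Gr.up_mul_up B.cu hx
  have hxc : x * c = 0 := Gr.up_mul_up hx B.cu
  have hxx : x * x = 0 := Gr.up_mul_up hx hx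
  -- the scalar
  obtain ⟨a, ha⟩ := B.czc (B.G.quad_dn B.fd hx.1).1
  have ha' : f * x * f = a • f := by
    have h1 : f * (c * (f * x * f) * c) * f = f * x * f := by
      have h2 : f * (c * (f * x * f) * c) * f = (f * c * f) * x * (f * c * f) := by
        simp only [mul_assoc]
      rw [h2, B.fcf]
    rw [← h1, ha, mul_smul_comm, smul_mul_assoc, B.fcf]
  have htr : LinearMap.trace K V (x * f) = (ρ : K) * a := by
    have h1 : x * f = (x * f) * (c * f) := by
      have h2 : (x * f) * (c * f) = x * (f * c * f) := by simp only [mul_assoc]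
      rw [h2, B.fcf]
    have h2 : (c * f) * (x * f) = c * (f * x * f) := by simp only [mul_assoc]
    rw [h1, LinearMap.trace_mul_comm, h2, ha', mul_smul_comm, map_smul, trace_idem B.idemP, B.rkP,
      smul_eq_mul, mul_comm]
  rw [htr, ← mul_assoc, inv_mul_cancel₀ hρ, one_mul]
  -- there is no component of weight zero
  have hz : x = c * f * x + x * (f * c) - c * f * x * (f * c) := by
    have h1 : (1 - c * f - f * c) * x * (1 - c * f - f * c) = 0 := by
      refine h0 _ (B.zero_up hx) ?_ ?_
      · have h2 : f * (1 - c * f - f * c) = 0 := by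
          rw [mul_sub, mul_sub, mul_one, ← mul_assoc, B.fcf, ← mul_assoc, B.ff, zero_mul, sub_self,
            sub_zero]
        rw [← mul_assoc, ← mul_assoc, h2, zero_mul, zero_mul]
      · have h2 : (1 - c * f - f * c) * f = 0 := by
          rw [sub_mul, sub_mul, one_mul, mul_assoc, B.ff, mul_zero, B.fcf, sub_zero, sub_self]
        rw [mul_assoc, h2, mul_zero]
    have h2 : f * c * x = 0 := by rw [mul_assoc, hcx, mul_zero]
    have h3 : x * (c * f) = 0 := by rw [← mul_assoc, hxc, zero_mul]
    have h4 : (1 - c * f - f * c) * x * (1 - c * f - f * c) =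
        x - c * f * x - x * (f * c) + c * f * x * (f * c) := by
      have h5 : (1 - c * f - f * c) * x = x - c * f * x := by
        rw [sub_mul, sub_mul, one_mul, h2, sub_zero]
      rw [h5, mul_sub, mul_sub, mul_one, sub_mul x, sub_mul x, h3, mul_assoc (c * f) x (c * f), h3,
        mul_zero]
      abel
    rw [h4] at h1
    have h5 : x = x - c * f * x - x * (f * c) + c * f * x * (f * c) +
        (c * f * x + x * (f * c) - c * f * x * (f * c)) := by abel
    rw [h1, zero_add] at h5
    exact h5
  have hcc : c * f * x * (f * c) = a • c := by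
    have h1 : c * f * x * (f * c) = c * (f * x * f) * c := by simp only [mul_assoc]
    rw [h1, ha', mul_smul_comm, smul_mul_assoc, B.cfc]
  rw [hcc] at hz
  -- the component of weight one
  set x₁ := x - a • c with hx₁
  have hx₁u : x₁ ∈ up g e := (up g e).sub_mem hx ((up g e).smul_mem a B.cu)
  have hf1 : f * x₁ * f = 0 := by
    rw [hx₁, mul_sub, sub_mul, ha', mul_smul_comm, smul_mul_assoc, B.fcf, sub_self]
  have h11 : x₁ * f * x₁ = 0 := by
    refine h0 _ (B.G.quad_up hx₁u B.fd.1) ?_ ?_
    · rw [← mul_assoc, ← mul_assoc, hf1, zero_mul]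
    · rw [mul_assoc (x₁ * f), mul_assoc x₁ f, ← mul_assoc f x₁ f, hf1, mul_zero]
  have hx1 : c * f * x₁ + x₁ * (f * c) = x₁ := by
    have h1 : c * f * x₁ = c * f * x - a • c := by
      rw [hx₁, mul_sub, mul_smul_comm, B.cfc]
    have h2 : x₁ * (f * c) = x * (f * c) - a • c := by
      rw [hx₁, sub_mul, smul_mul_assoc, ← mul_assoc c f c, B.cfc]
    rw [h1, h2]
    have h3 : x₁ = c * f * x + x * (f * c) - a • c - a • c := by
      rw [hx₁]
      nth_rewrite 1 [hz]
      rfl
    rw [h3]
    abel
  have hxe : x = a • c + x₁ := by rw [hx₁]; abel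
  have h2 : x * f * x = a • (a • c + (c * f * x₁ + x₁ * (f * c))) + x₁ * f * x₁ := by
    rw [hxe]
    simp only [add_mul, mul_add, smul_mul_assoc, mul_smul_comm, smul_add]
    rw [B.cfc, mul_assoc x₁ f c]
    abel
  rw [h2, h11, add_zero, hx1, ← hxe]

/-- **The quadratic operators of all elements of degree minus one are given by scalars.** -/
theorem Pr.proj (B : Pr g e c f ρ) (h0 : ∀ x ∈ up g e, f * x = 0 → x * f = 0 → x = 0)
    {x y : End K V} (hx : x ∈ up g e) (hy : y ∈ dn g e) :
    x * y * x = ((ρ : K)⁻¹ * LinearMap.trace K V (x * y)) • x := by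
  let Y : Submodule K (End K V) :=
    { carrier := {y | y ∈ dn g e ∧ ∀ x ∈ up g e,
        x * y * x = ((ρ : K)⁻¹ * LinearMap.trace K V (x * y)) • x}
      add_mem' := fun {a b} ha hb => ⟨(dn g e).add_mem ha.1 hb.1, fun x hx => by
        rw [mul_add, add_mul, ha.2 x hx, hb.2 x hx, map_add, mul_add, add_smul]⟩
      zero_mem' := ⟨(dn g e).zero_mem, fun x _ => by
        rw [mul_zero, zero_mul, map_zero, mul_zero, zero_smul]⟩
      smul_mem' := fun κ a ha => ⟨(dn g e).smul_mem κ ha.1, fun x hx => by
        rw [mul_smul_comm, smul_mul_assoc, ha.2 x hx, map_smul, smul_smul, smul_eq_mul]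
        congr 1
        ring⟩ }
  have hY : Y = dn g e := by
    have h1 : Y = ⊥ ∨ Y = up g (1 - e) := by
      refine irr_up B.G.symm (by rw [up_symm]; exact fun y hy => hy.1) ?_
      intro z hz hze y hy
      have hze' : e * z = z * e := by
        have h1 : (1 - e) * z - z * (1 - e) = z * e - e * z := by
          rw [sub_mul, mul_sub, one_mul, mul_one]
          abel
        rw [hze, sub_self] at h1
        exact (sub_eq_zero.1 h1.symm).symm
      refine ⟨B.G.lie_dn hz hze' hy.1, fun x hx => ?_⟩
      set x' := z * x - x * z with hx'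
      have hx'u : x' ∈ up g e := B.G.lie_up hz hze' hx
      have h2 := hy.2 x hx
      have h3 := hy.2 x' hx'u
      have h4 := hy.2 (x + x') ((up g e).add_mem hx hx'u)
      have h5 : x * y * x' + x' * y * x = ((ρ : K)⁻¹ * LinearMap.trace K V (x * y)) • x' +
          ((ρ : K)⁻¹ * LinearMap.trace K V (x' * y)) • x := by
        have h6 : (x + x') * y * (x + x') = x * y * x + x' * y * x' +
            (x * y * x' + x' * y * x) := by noncomm_ring
        rw [h6, h2, h3, add_mul, map_add, mul_add, add_smul, smul_add, smul_add] at h4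
        have h7 := sub_eq_zero.2 h4
        rw [← sub_eq_zero]
        rw [← h7]
        abel
      have h6 : x * (z * y - y * z) * x = z * (x * y * x) - x * y * x * z -
          (x * y * x' + x' * y * x) := by
        rw [hx']
        noncomm_ring
      have h7 : LinearMap.trace K V (x' * y) = - LinearMap.trace K V (x * (z * y - y * z)) := by
        have h8 : x' * y = z * (x * y) - x * (z * y) := by
          rw [hx']
          noncomm_ring
        have h9 : x * (z * y - y * z) = x * (z * y) - x * y * z := by noncomm_ring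
        rw [h8, h9, map_sub, map_sub, LinearMap.trace_mul_comm K z]
        ring
      rw [h6, h5, h2, h7, mul_smul_comm, smul_mul_assoc]
      rw [← smul_sub, ← hx', mul_neg, neg_smul]
      abel
    rcases h1 with h1 | h1
    · exfalso
      have h2 : f ∈ Y := ⟨B.fd, fun x hx => B.proj_f h0 hx⟩
      rw [h1, Submodule.mem_bot] at h2
      exact B.f0 h2
    · rw [h1, up_symm]
  have h1 : y ∈ Y := by rw [hY]; exact hy
  exact h1.2 x hx

/-- The polarized form. -/
theorem Pr.proj₂ (B : Pr g e c f ρ) (h0 : ∀ x ∈ up g e, f * x = 0 → x * f = 0 → x = 0)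
    {x x' y : End K V} (hx : x ∈ up g e) (hx' : x' ∈ up g e) (hy : y ∈ dn g e) :
    x * y * x' + x' * y * x = ((ρ : K)⁻¹ * LinearMap.trace K V (x * y)) • x' +
      ((ρ : K)⁻¹ * LinearMap.trace K V (x' * y)) • x := by
  have h2 := B.proj h0 hx hy
  have h3 := B.proj h0 hx' hy
  have h4 := B.proj h0 ((up g e).add_mem hx hx') hy
  have h6 : (x + x') * y * (x + x') = x * y * x + x' * y * x' +
      (x * y * x' + x' * y * x) := by noncomm_ring
  rw [h6, h2, h3, add_mul, map_add, mul_add, add_smul, smul_add, smul_add] at h4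
  have h7 := sub_eq_zero.2 h4
  rw [← sub_eq_zero]
  rw [← h7]
  abel

/-- The same with the roles of degree one and minus one exchanged. -/
theorem Pr.proj' (B : Pr g e c f ρ) (h0 : ∀ x ∈ up g e, f * x = 0 → x * f = 0 → x = 0)
    {x y : End K V} (hx : x ∈ up g e) (hy : y ∈ dn g e) :
    y * x * y = ((ρ : K)⁻¹ * LinearMap.trace K V (x * y)) • y := by
  have hρ : (ρ : K) ≠ 0 := Nat.cast_ne_zero.2 B.rho_pos.ne'
  rw [← sub_eq_zero]
  refine B.G.nd_dn ((dn g e).sub_mem (B.G.quad_dn hy hx.1) ((dn g e).smul_mem _ hy)) ?_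
  intro x' hx'
  have h1 := congrArg (fun t => LinearMap.trace K V (t * y)) (B.proj₂ h0 hx hx' hy)
  simp only [add_mul, smul_mul_assoc, map_add, map_smul, smul_eq_mul] at h1
  have h2 : LinearMap.trace K V (x' * y * x * y) = LinearMap.trace K V (x * y * x' * y) := by
    have h3 : x' * y * x * y = (x' * y) * (x * y) := by simp only [mul_assoc]
    have h4 : x * y * x' * y = (x * y) * (x' * y) := by simp only [mul_assoc]
    rw [h3, h4, LinearMap.trace_mul_comm]
  rw [h2] at h1
  have h5 : x' * (y * x * y - ((ρ : K)⁻¹ * LinearMap.trace K V (x * y)) • y) =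
      x' * y * x * y - ((ρ : K)⁻¹ * LinearMap.trace K V (x * y)) • (x' * y) := by
    rw [mul_sub, mul_smul_comm]
    simp only [mul_assoc]
  rw [h5, map_sub, map_smul, smul_eq_mul, h2]
  have h6 : (2 : K) ≠ 0 := two_ne_zero
  have h7 : (2 : K) * (LinearMap.trace K V (x * y * x' * y) -
      (ρ : K)⁻¹ * LinearMap.trace K V (x * y) * LinearMap.trace K V (x' * y)) = 0 := by
    linear_combination h1
  exact (mul_eq_zero.1 h7).resolve_left h6

theorem Pr.proj₂' (B : Pr g e c f ρ) (h0 : ∀ x ∈ up g e, f * x = 0 → x * f = 0 → x = 0)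
    {x y y' : End K V} (hx : x ∈ up g e) (hy : y ∈ dn g e) (hy' : y' ∈ dn g e) :
    y * x * y' + y' * x * y = ((ρ : K)⁻¹ * LinearMap.trace K V (x * y)) • y' +
      ((ρ : K)⁻¹ * LinearMap.trace K V (x * y')) • y := by
  have h2 := B.proj' h0 hx hy
  have h3 := B.proj' h0 hx hy'
  have h4 := B.proj' h0 hx ((dn g e).add_mem hy hy')
  have h6 : (y + y') * x * (y + y') = y * x * y + y' * x * y' +
      (y * x * y' + y' * x * y) := by noncomm_ring
  rw [h6, h2, h3, mul_add x, map_add, mul_add, add_smul, smul_add, smul_add] at h4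
  have h7 := sub_eq_zero.2 h4
  rw [← sub_eq_zero]
  rw [← h7]
  abel

end Pool.Agent.SmallRank
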