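import Pool.Agent.SmallRank.FrWts

/-!
# The quadratic equations

For `v ∈ g` let `α = c w y v c f` (the component of `v` from `range (c f)` to `range (x y)`, carried
back to `range (c f)` by the inverse `c w y` of `w`) and `α' = c v y w c f`.
-/

set_option autoImplicit false
set_option linter.unusedSectionVars false

namespace Pool.Agent.SmallRank.Fr

open Module

variable {K V : Type*} [Field K] [CharZero K] [IsAlgClosed K] [AddCommGroup V] [Module K V]
  [FiniteDimensional K V] {g : Submodule K (End K V)} {e c f x y w : End K V} {ρ : ℕ}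
  (F : Fr g e c f x y w ρ)
include F

omit [CharZero K] [IsAlgClosed K] [FiniteDimensional K V] F in
private theorem quad_t2 {a b d : End K V} (h : a * b = d) (z : End K V) : a * (b * z) = d * z := by
  rw [← mul_assoc, h]

omit [CharZero K] [IsAlgClosed K] [FiniteDimensional K V] F in
private theorem quad_t3 {a b c d : End K V} (h : a * b * c = d) (z : End K V) :
    a * (b * (c * z)) = d * z := by
  rw [← h]
  simp only [mul_assoc]

omit [CharZero K] [IsAlgClosed K] [FiniteDimensional K V] F in
private theorem quad_r3 {a b c d : End K V} (h : a * b * c = d) : a * (b * c) = d := by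
  rw [← h]
  simp only [mul_assoc]

omit [CharZero K] [IsAlgClosed K] [FiniteDimensional K V] F in
private theorem quad_r4 {a b c d z : End K V} (h : a * b * c * d = z) :
    a * (b * (c * d)) = z := by
  rw [← h]
  simp only [mul_assoc]

omit [CharZero K] [IsAlgClosed K] [FiniteDimensional K V] F in
private theorem quad_t4 {a b c d z : End K V} (h : a * b * c * d = z) (t : End K V) :
    a * (b * (c * (d * t))) = z * t := by
  rw [← h]
  simp only [mul_assoc]

/-- The left and right multiplication of the proofs: `c w y (x) y w c f = c f`. -/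
private theorem quad_mid : c * w * y * x * (y * w * (c * f)) = c * f := by
  have h1 := quad_r3 F.cfc
  have h2 := quad_t3 F.cfc
  have h3 := quad_t3 F.yxy
  have h4 := quad_t4 F.aw
  simp only [mul_assoc, h3, h4, h2]

private theorem quad_v {v : End K V} (hv : v ∈ g) :
    x * y * v * (c * f) + f * c * v * (y * x) ∈ g := F.w_m4 hv

/-- **The sum is scalar.**

Proof. Let `v' = x * y * v * (c * f) + f * c * v * (y * x) ∈ g` (`w_m4`). `w * v' = 0`, `v' * w = 0`
(`F.wx`, `F.wf`, `F.fw`, `F.xw`), so `[w, [v', c]] = - (w * c * v' + v' * c * w) ∈ g`, and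
`w * c * v' + v' * c * w = w * c * v * y * x + x * y * v * c * w` (`c * (f * c) = c`, `c * x = 0`,
`(y * x) * c = 0`, `f * w = 0`...: `w * c * v' = w * (c * f * c) * v * y * x`,
`v' * c * w = x * y * v * (c * f * c) * w`). It is in `up g e`, it is equal to `x * _` (`w * c = x
* y * w * c`,
`F.wc`) and to `_ * x` (`c * w = c * w * y * x`, `F.cw`), so it is `s • x` by `line` for `F.B'`.
Multiply by
`c * w * y` on the left: `c * w * y * w = c * f` (`F.aw`), `y * x * y = y`, `c * w * (y * x) = c *
w`, so
`c * v * y * x + c * w * y * v * c * w = s • (c * w)`. Multiply by `y * w * c * f` on the right: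
`w * y * w * c = f * c` (`F.wb`), `x * y * w * c = w * c`:
`c * v * y * w * c * f + c * w * y * v * c * f = s • (c * f)`. -/
theorem quad_add {v : End K V} (hv : v ∈ g) :
    ∃ s : K, c * w * y * v * (c * f) + c * v * y * w * (c * f) = s • (c * f) := by
  have r1 := quad_r3 F.cfc
  have r2 := quad_t3 F.cfc
  have r3 := quad_t3 F.yxy

  have r4 := quad_t4 F.aw
  have r5 := F.wx
  have r5' := quad_t2 F.wx
  have r6 := F.wf
  have r6' := quad_t2 F.wf
  have r7 := F.xw
  have r7' := quad_t2 F.xw
  have r8 := F.fw
  have r8' := quad_t2 F.fw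
  have r9 := F.cx
  have r9' := quad_t2 F.cx
  have r10 := F.xc
  have r10' := quad_t2 F.xc
  have hv' := F.quad_v hv
  have hz : w * c * v * y * x + x * y * v * c * w ∈ g := by
    have h1 := F.G.lie _ F.wg _ (F.G.lie _ hv' _ F.B.cu.1)
    have h2 : w * ((x * y * v * (c * f) + f * c * v * (y * x)) * c -
        c * (x * y * v * (c * f) + f * c * v * (y * x))) -
        ((x * y * v * (c * f) + f * c * v * (y * x)) * c -
        c * (x * y * v * (c * f) + f * c * v * (y * x))) * w =
        -(w * c * v * y * x + x * y * v * c * w) := by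
      simp only [mul_add, add_mul, mul_sub, sub_mul, mul_assoc, r1, r2, r5, r5', r6, r6', r7,
        r7', r8, r8', r9, r9', r10, r10', zero_mul, mul_zero, add_zero, zero_add, sub_zero,
        zero_sub]
      abel
    rw [h2] at h1
    simpa using g.neg_mem h1
  have hup : w * c * v * y * x + x * y * v * c * w ∈ up g e := by
    refine ⟨hz, ?_, ?_⟩
    · have e1 := quad_t2 F.we
      have e2 := quad_t2 F.ec
      have e3 := quad_t2 F.ex
      simp only [mul_add, mul_assoc, e3]
      rw [e1, mul_assoc, e2]
    · have e1 := F.we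
      have e2 := F.xe
      have e3 := quad_t2 F.ce
      simp only [add_mul, mul_assoc, e2, mul_zero, zero_add]
      rw [← e1, e3]
      simp only [zero_mul, mul_zero]
  obtain ⟨s, hs⟩ := line (a := y * w * c * v * y * x + y * v * c * w)
    (b := w * c * v * y + x * y * v * c * w * y) F.B'.min F.B'.cu F.B'.c0 F.B'.rkc.le hup
    (by
      have e1 : ∀ z, x * (y * (w * (c * z))) = w * (c * z) := fun z => by
        have := congrArg (· * z) F.wc
        simpa only [mul_assoc] using this
      simp only [mul_add, mul_assoc, e1])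
    (by
      have e1 : c * (w * (y * x)) = c * w := by
        have := F.cw
        simpa only [mul_assoc] using this
      simp only [add_mul, mul_assoc, e1])
  refine ⟨s, ?_⟩
  have h3 : c * w * y * (w * c * v * y * x + x * y * v * c * w) * (y * w * (c * f)) =
      c * v * y * w * (c * f) + c * w * y * v * (c * f) := by
    have e1 : ∀ z, w * (y * (w * (c * z))) = f * (c * z) := fun z => by
      have := congrArg (· * z) F.wb
      simpa only [mul_assoc] using this
    simp only [mul_add, add_mul, mul_assoc, r2, r3, r4, e1]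
  rw [hs, mul_smul_comm, smul_mul_assoc, F.quad_mid] at h3
  rw [add_comm, ← h3]

/-- **The product is scalar.**

Proof. With the same `v'`: `v' * v' = 0`, `[v', [v', c]] = -2 • (v' * c * v')`, so
`v' * c * v' = x * y * v * c * v * y * x ∈ up g e`, and it is `d • x` by `line` for `F.B'`.
Multiply by
`c * w * y` on the left and by `y * w * c * f` on the right as in `quad_add`:
`c * w * y * v * c * v * y * w * c * f = d • (c * f)`, and `c = c * f * c`. -/
theorem quad_mul {v : End K V} (hv : v ∈ g) :
    ∃ d : K, c * w * y * v * (c * f) * (c * v * y * w * (c * f)) = d • (c * f) := by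
  have r1 := quad_r3 F.cfc
  have r2 := quad_t3 F.cfc
  have r3 := quad_t3 F.yxy
  have r9 := F.cx
  have r9' := quad_t2 F.cx
  have r10 := F.xc
  have r10' := quad_t2 F.xc
  have r11 := F.fx
  have r11' := quad_t2 F.fx
  have r12 := F.ff
  have r12' := quad_t2 F.ff
  have r13 := F.xx
  have r13' := quad_t2 F.xx
  have r14 := F.xf
  have r14' := quad_t2 F.xf
  have hv' := F.quad_v hv
  have hz : x * y * v * c * v * y * x ∈ g := by
    have h1 := F.G.lie _ hv' _ (F.G.lie _ hv' _ F.B.cu.1)
    have h2 : (x * y * v * (c * f) + f * c * v * (y * x)) *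
        ((x * y * v * (c * f) + f * c * v * (y * x)) * c -
        c * (x * y * v * (c * f) + f * c * v * (y * x))) -
        ((x * y * v * (c * f) + f * c * v * (y * x)) * c -
        c * (x * y * v * (c * f) + f * c * v * (y * x))) *
        (x * y * v * (c * f) + f * c * v * (y * x)) =
        (-2 : K) • (x * y * v * c * v * y * x) := by
      simp only [mul_add, add_mul, mul_sub, sub_mul, mul_assoc, r1, r2, r9, r9', r10, r10', r11,
        r11', r12, r12', r13, r13', r14, r14', zero_mul, mul_zero, add_zero, zero_add, sub_zero,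
        zero_sub]
      rw [neg_smul, two_smul]
      abel
    rw [h2] at h1
    have h3 := g.smul_mem (-2⁻¹ : K) h1
    rwa [smul_smul, show (-2⁻¹ : K) * -2 = 1 by norm_num, one_smul] at h3
  have hup : x * y * v * c * v * y * x ∈ up g e := by
    refine ⟨hz, ?_, ?_⟩
    · simp only [← mul_assoc]
      rw [F.ex]
    · rw [mul_assoc, F.xe, mul_zero]
  obtain ⟨d, hd⟩ := line (a := y * v * c * v * y * x) (b := x * y * v * c * v * y)
    F.B'.min F.B'.cu F.B'.c0 F.B'.rkc.le hup (by simp only [mul_assoc]) rfl
  refine ⟨d, ?_⟩
  have h3 : c * w * y * (x * y * v * c * v * y * x) * (y * w * (c * f)) =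
      c * w * y * v * (c * f) * (c * v * y * w * (c * f)) := by
    simp only [mul_assoc, r2, r3]
  rw [hd, mul_smul_comm, smul_mul_assoc, F.quad_mid] at h3
  exact h3.symm

/-- **Every `α` satisfies a quadratic equation.** Proof. `α' = s • (c * f) - α`, and
`α * (c * f) = α`. -/
theorem quad {v : End K V} (hv : v ∈ g) :
    ∃ s d : K, c * w * y * v * (c * f) * (c * w * y * v * (c * f)) -
      s • (c * w * y * v * (c * f)) + d • (c * f) = 0 := by
  obtain ⟨s, hs⟩ := F.quad_add hv
  obtain ⟨d, hd⟩ := F.quad_mul hv
  refine ⟨s, d, ?_⟩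
  have h1 : c * v * y * w * (c * f) = s • (c * f) - c * w * y * v * (c * f) := by
    rw [← hs]
    abel
  have h2 : c * w * y * v * (c * f) * (c * f) = c * w * y * v * (c * f) := by
    rw [mul_assoc _ (c * f) (c * f), F.B.idemP]
  rw [h1, mul_sub, mul_smul_comm, h2] at hd
  rw [← hd]
  abel

end Pool.Agent.SmallRank.Fr
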