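import Pool.Agent.FQ.Orb
import Pool.Agent.FQ.FinOrb
import Pool.Agent.FQGrp.Jordan
import Pool.Agent.SmallRank.SqSplit

/-!
# Local monodromy and the simple ideals of a rational Lie algebra

Every automorphism of `ℂ` agrees on a given finite set of algebraic numbers with one which fixes an
element of square zero of `cx h`. Then `cx h` is simple.
-/

set_option autoImplicit false

namespace Pool.Agent.SmallRank

open Module
open Pool.Agent.FQ
open Pool.Agent.CoprimeSig (ratM)

variable {ι : Type} [Fintype ι] [DecidableEq ι]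

/-- The element of square zero, fixed by `τ`. -/
def LocMon (h : Submodule ℚ (Matrix ι ι ℚ)) (τ : ℂ ≃+* ℂ) : Prop :=
  ∃ N ∈ cx h, N * N = 0 ∧ N ≠ 0 ∧ N.map τ = N

section Split

variable {H s : Submodule ℂ (Matrix ι ι ℂ)}

private theorem tl_mul (x y : Matrix ι ι ℂ) :
    Matrix.toLin' (x * y) = Matrix.toLin' x * Matrix.toLin' y := Matrix.toLin'_mul x y

private theorem tl_trace (x : Matrix ι ι ℂ) :
    LinearMap.trace ℂ (ι → ℂ) (Matrix.toLin' x) = x.trace := by
  rw [LinearMap.trace_eq_matrix_trace ℂ (Pi.basisFun ℂ ι), LinearMap.toMatrix_eq_toMatrix',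
    LinearMap.toMatrix'_toLin']

private theorem tl_inj {x y : Matrix ι ι ℂ} (h : Matrix.toLin' x = Matrix.toLin' y) : x = y :=
  (Matrix.toLin' (R := ℂ)).injective h

private theorem tl_irr (hH : CxLie H) : ∀ U : Submodule ℂ (ι → ℂ),
    (∀ a ∈ CoprimeSig.endo H, ∀ w ∈ U, a w ∈ U) → U = ⊥ ∨ U = ⊤ := fun U hU =>
  hH.irr U fun x hx w hw => by
    have h := hU (Matrix.toLin' x) (CoprimeSig.mem_endo.2 hx) w hw
    rwa [Matrix.toLin'_apply] at h

private theorem tl_lie (hs : ∀ x ∈ H, ∀ y ∈ s, x * y - y * x ∈ s) :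
    ∀ a ∈ CoprimeSig.endo H, ∀ b ∈ CoprimeSig.endo s, a * b - b * a ∈ CoprimeSig.endo s := by
  rintro _ ⟨x, hx, rfl⟩ _ ⟨y, hy, rfl⟩
  refine ⟨x * y - y * x, hs x hx y hy, ?_⟩
  change Matrix.toLin' (x * y - y * x) = Matrix.toLin' x * Matrix.toLin' y -
    Matrix.toLin' y * Matrix.toLin' x
  rw [map_sub, tl_mul, tl_mul]

/-- An element of square zero is in an ideal or commutes with it. -/
theorem sq_split [Nonempty ι] (hH : CxLie H) (hs : IsIdl H s) {N : Matrix ι ι ℂ} (hN : N ∈ H)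
    (hNN : N * N = 0) : N ∈ s ∨ ∀ y ∈ s, N * y = y * N := by
  have h := comm_split_sq (N := Matrix.toLin' N) (tl_lie hH.lie) (tl_irr hH)
    (Submodule.map_mono hs.1) (tl_lie hs.2) ?_ (CoprimeSig.mem_endo.2 hN) ?_
  · rcases h with h | h
    · exact Or.inl (CoprimeSig.mem_endo.1 h)
    · right
      intro y hy
      have h1 := h (Matrix.toLin' y) (CoprimeSig.mem_endo.2 hy)
      rw [← tl_mul, ← tl_mul] at h1
      exact tl_inj h1
  · rintro _ ⟨a, ha, rfl⟩
    exact (tl_trace a).trans (hH.tr a (hs.1 ha))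
  · rw [← tl_mul, hNN, map_zero]

/-- The elements commuting with `s`. -/
def cen (s : Submodule ℂ (Matrix ι ι ℂ)) : Submodule ℂ (Matrix ι ι ℂ) where
  carrier := {z | ∀ y ∈ s, z * y = y * z}
  add_mem' := fun {a b} ha hb y hy => by rw [add_mul, mul_add, ha y hy, hb y hy]
  zero_mem' := fun y _ => by rw [zero_mul, mul_zero]
  smul_mem' := fun c a ha y hy => by rw [smul_mul_assoc, mul_smul_comm, ha y hy]

theorem mem_cen {z : Matrix ι ι ℂ} : z ∈ cen s ↔ ∀ y ∈ s, z * y = y * z := Iff.rfl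

/-- The elements of an ideal commuting with the ideal are zero. -/
theorem eq_zero_of_cen [Nonempty ι] (hH : CxLie H) (hs : IsIdl H s) {z : Matrix ι ι ℂ}
    (hz : z ∈ s) (hz' : ∀ y ∈ s, z * y = y * z) : z = 0 := by
  have h : s ⊓ cen s = ⊥ := by
    refine IsIdl.abelian hH ⟨inf_le_left.trans hs.1, fun x hx y hy => ?_⟩ fun a ha b hb => ?_
    · refine ⟨hs.2 x hx y hy.1, ?_⟩
      change ∀ w ∈ s, (x * y - y * x) * w = w * (x * y - y * x)
      intro w hw
      have h1 : y * w = w * y := hy.2 w hw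
      have h2 : y * (x * w - w * x) = (x * w - w * x) * y := hy.2 _ (hs.2 x hx w hw)
      have h3 : (x * y - y * x) * w - w * (x * y - y * x) =
          x * (y * w - w * y) - (y * w - w * y) * x +
            ((x * w - w * x) * y - y * (x * w - w * x)) := by noncomm_ring
      have h4 : (x * y - y * x) * w - w * (x * y - y * x) = 0 := by
        rw [h3, sub_eq_zero.2 h1, sub_eq_zero.2 h2.symm, mul_zero, zero_mul, sub_zero, add_zero]
      exact sub_eq_zero.1 h4
    · exact ha.2 b hb.1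
  have h1 : z ∈ s ⊓ cen s := ⟨hz, hz'⟩
  rwa [h, Submodule.mem_bot] at h1

end Split

variable {F : Matrix ι ι ℚ} {h : Submodule ℚ (Matrix ι ι ℚ)} {e : Matrix ι ι ℂ}

/-- An element of square zero is in one of the conjugates of the ideal generated by `2 e - 1`. -/
theorem exists_orb_mem [Nonempty ι] (D : LieData F h) (he : IsCochar h e) {N : Matrix ι ι ℂ}
    (hN : N ∈ cx h) (hNN : N * N = 0) : ∃ I ∈ orb h e, N ∈ I := by
  have hH := cxLie D
  by_contra hn
  have h1 : ∀ I ∈ orb h e, ∀ y ∈ I, N * y = y * N := by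
    intro I hI
    rcases sq_split hH (orb_isIdl D he hI).1 hN hNN with h2 | h2
    · exact absurd ⟨I, hI, h2⟩ hn
    · exact h2
  have h2 : cx h ≤ cen (Submodule.span ℂ {N}) := by
    rw [← orb_sup D he]
    refine sSup_le fun I hI y hy => ?_
    rw [mem_cen]
    intro z hz
    rw [Submodule.mem_span_singleton] at hz
    obtain ⟨a, rfl⟩ := hz
    rw [mul_smul_comm, smul_mul_assoc, h1 I hI y hy]
  have h3 : N = 0 := eq_zero_of_cen hH ⟨le_rfl, hH.lie⟩ hN fun y hy =>
    (h2 hy N (Submodule.mem_span_singleton_self N)).symm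
  refine hn ⟨idl (cx h) (e.map (RingEquiv.refl ℂ)), ⟨RingEquiv.refl ℂ, rfl⟩, ?_⟩
  rw [h3]
  exact Submodule.zero_mem _

/-- The ideal is fixed by the automorphisms which fix the element. -/
theorem act_eq_of_fixed [Nonempty ι] (D : LieData F h) (he : IsCochar h e) {N : Matrix ι ι ℂ}
    (hN0 : N ≠ 0) {τ : ℂ ≃+* ℂ} (hτ : N.map τ = N)
    {I : Submodule ℂ (Matrix ι ι ℂ)} (hI : I ∈ orb h e) (hNI : N ∈ I) : act τ I = I := by
  have h1 : N ∈ act τ I := by
    have h2 := (map_mem_act (A := N) (τ := τ) (U := I)).2 hNI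
    rwa [hτ] at h2
  rcases orb_eq_or_comm D he (orb_act h e τ hI) hI with h2 | h2
  · exact h2
  · exfalso
    exact hN0 (eq_zero_of_cen (cxLie D) (orb_isIdl D he hI).1 hNI fun y hy => h2 N h1 y hy)

/-- The action of the automorphisms on the conjugates of the ideal. -/
def actHom (h : Submodule ℚ (Matrix ι ι ℚ)) (e : Matrix ι ι ℂ) :
    RingAut ℂ →* Equiv.Perm (orb h e) where
  toFun σ :=
    { toFun := fun I => ⟨act σ I.1, orb_act h e σ I.2⟩
      invFun := fun I => ⟨act σ⁻¹ I.1, orb_act h e σ⁻¹ I.2⟩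
      left_inv := fun I => Subtype.ext act_symm_act
      right_inv := fun I => Subtype.ext (by
        have h1 := act_symm_act (τ := σ⁻¹) (U := I.1)
        exact h1) }
  map_one' := by
    ext I : 2
    exact act_refl
  map_mul' σ σ' := by
    ext I : 2
    exact act_trans

theorem actHom_apply (σ : RingAut ℂ) (I : orb h e) : (actHom h e σ I).1 = act σ I.1 := rfl

/-- **`cx h` is simple.** -/
theorem idl_eq_of_locMon [Nonempty ι] (D : LieData F h) (he : IsCochar h e)
    (hN : ∀ γ : RingAut ℂ, ∀ S : Finset ℂ, (∀ x ∈ S, IsAlgebraic ℚ x) →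
      ∃ τ : ℂ ≃+* ℂ, (∀ x ∈ S, τ x = γ x) ∧ LocMon h τ) :
    idl (cx h) e = cx h := by
  classical
  have hfin := orb_finite D he
  have : Finite (orb h e) := hfin.to_subtype
  have hfin' : ∀ I : orb h e, (Set.range fun τ : ℂ ≃+* ℂ => act τ I.1).Finite := by
    intro I
    refine hfin.subset ?_
    rintro _ ⟨τ, rfl⟩
    exact orb_act h e τ I.2
  choose S hS hS' using fun I : orb h e => exists_finset_act (hfin' I)
  have : Fintype (orb h e) := Fintype.ofFinite _
  have hsub : Subsingleton (orb h e) := by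
    refine FQGrp.jordan_hom (actHom h e) ?_ ?_
    · rintro ⟨I, hI⟩ ⟨J, hJ⟩
      obtain ⟨τ, hτ⟩ := orb_trans h e hI hJ
      exact ⟨τ, Subtype.ext hτ⟩
    · intro γ
      obtain ⟨τ, hτ, N, hNh, hNN, hN0, hNτ⟩ := hN γ (Finset.univ.biUnion S) (by
        intro x hx
        obtain ⟨I, -, hI⟩ := Finset.mem_biUnion.1 hx
        exact hS I x hI)
      obtain ⟨I, hI, hNI⟩ := exists_orb_mem D he hNh hNN
      refine ⟨⟨I, hI⟩, Subtype.ext ?_⟩
      have h1 := hS' ⟨I, hI⟩ τ γ fun x hx =>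
        hτ x (Finset.mem_biUnion.2 ⟨⟨I, hI⟩, Finset.mem_univ _, hx⟩)
      exact h1.symm.trans (act_eq_of_fixed D he hN0 hNτ hI hNI)
  have h1 : idl (cx h) e ∈ orb h e := by
    refine ⟨RingEquiv.refl ℂ, ?_⟩
    have h2 : e.map (RingEquiv.refl ℂ) = e := by
      ext i j
      rfl
    dsimp only
    rw [h2]
  have h2 : orb h e = {idl (cx h) e} := by
    refine Set.eq_singleton_iff_unique_mem.2 ⟨h1, fun J hJ => ?_⟩
    exact congrArg Subtype.val (Subsingleton.elim (⟨J, hJ⟩ : orb h e) ⟨_, h1⟩)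
  have h3 := orb_sup D he
  rwa [h2, sSup_singleton] at h3

end Pool.Agent.SmallRank
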